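import Pool.Agent.Lib_PLQ.Defs

/-!
# A5a / B5: chords

`chord_through`: `ray_hit` from `z` in the directions `-h` and `h`; `γ a` = the first end, `γ b` = the second (`mem_C_window` with `0 ≤ a < n` for the first and `a < b ≤ a + n`, `mem_C_window' a`, for the second; `b ≠ a + n` since the ends are different).
`Vis`: the two half open segments from `z` are in `I`.

`chord_int`: if there is no integer in `(a,b)` then `⌊a⌋ ≤ a < b ≤ ⌊a⌋ + 1`: contradiction with `not_vis_edge`.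
`chord_arc`: `X.s ⊆ (a,b)`, `X.s ⊆ (i,i+1)` nonempty, `i = X.i`: if neither `i` nor `i+1` is in `(a,b)` then (as `(a,b)` contains a point of `(i,i+1)`) `i ≤ a`, `b ≤ i+1`: `not_vis_edge`.
`dark_not`: FACT D (`VV_of_vis`).
-/

open Set Complex
open scoped Topology

namespace Pool.Agent.Lib_PL

namespace Poly

variable {n : ℕ} (P : Poly n)

theorem chord_through (hc : P.CCW) {z h : ℂ} (hz : z ∈ P.I) (h0 : h ≠ 0) :
    ∃ a b : ℝ, 0 ≤ a ∧ a < n ∧ a < b ∧ b < a + n ∧ P.Vis (P.γ a) (P.γ b) ∧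
      z ∈ openSegment ℝ (P.γ a) (P.γ b) ∧ ∃ t : ℝ, 0 < t ∧ P.γ b - P.γ a = (t : ℂ) * h := by
  obtain ⟨t1, ht1, hC1, hI1⟩ := P.ray_hit z hz (-h) (neg_ne_zero.2 h0)
  obtain ⟨t2, ht2, hC2, hI2⟩ := P.ray_hit z hz h h0
  obtain ⟨a, ha0, han, hγa⟩ := P.mem_C_window 0 hC1
  obtain ⟨b, hab, hbn, hγb⟩ := P.mem_C_window' a hC2
  have hdiff : P.γ b - P.γ a = ((t1 + t2 : ℝ) : ℂ) * h := by
    rw [hγa, hγb]
    push_cast
    ring
  have hne : P.γ b ≠ P.γ a := by
    intro he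
    rw [he, sub_self] at hdiff
    have h1 : ((t1 + t2 : ℝ) : ℂ) ≠ 0 := by exact_mod_cast (by positivity : t1 + t2 ≠ 0)
    exact (mul_ne_zero h1 h0) hdiff.symm
  have hbn' : b < a + n := by
    rcases hbn.lt_or_eq with h1 | h1
    · exact h1
    · exact absurd (by rw [h1, P.γ_add_n]) hne
  refine ⟨a, b, ha0, by simpa using han, hab, hbn', ?_, ?_, t1 + t2, by positivity, hdiff⟩
  · rintro w ⟨α, β, hα, hβ, hαβ, rfl⟩
    have hw : α • P.γ a + β • P.γ b = z + ((β * t2 - α * t1 : ℝ) : ℂ) * h := by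
      rw [hγa, hγb]
      simp only [Complex.real_smul]
      have h1 : (α : ℂ) + β = 1 := by exact_mod_cast hαβ
      push_cast
      linear_combination z * h1
    rw [hw]
    rcases le_or_gt 0 (β * t2 - α * t1) with h1 | h1
    · refine hI2 _ h1 ?_
      nlinarith
    · have h2 := hI1 (-(β * t2 - α * t1)) (by linarith) (by nlinarith)
      have h3 : z + ((-(β * t2 - α * t1) : ℝ) : ℂ) * -h = z + ((β * t2 - α * t1 : ℝ) : ℂ) * h := by
        push_cast
        ring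
      rwa [h3] at h2
  · have hs : 0 < t1 + t2 := by positivity
    refine ⟨t2 / (t1 + t2), t1 / (t1 + t2), by positivity, by positivity, by field_simp; ring, ?_⟩
    rw [hγa, hγb]
    simp only [Complex.real_smul]
    have h1 : ((t1 : ℂ) + t2) ≠ 0 := by exact_mod_cast hs.ne'
    push_cast
    field_simp
    ring

theorem chord_int {a b : ℝ} (hab : a < b) (hv : P.Vis (P.γ a) (P.γ b)) : ∃ i : ℤ, a < i ∧ (i : ℝ) < b := by
  by_contra hcon
  push Not at hcon
  have h1 := hcon (⌊a⌋ + 1) (by push_cast; exact Int.lt_floor_add_one a)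
  push_cast at h1
  have h2 := Int.floor_le a
  exact P.not_vis_edge ⌊a⌋ h2 (Int.lt_floor_add_one a).le (h2.trans hab.le) h1 hv

theorem chord_arc {a b : ℝ} (hab : a < b) (hv : P.Vis (P.γ a) (P.γ b)) {X : Arc} (h1 : (X.i : ℝ) ≤ X.a)
    (h2 : X.a < X.b) (h3 : X.b ≤ X.i + 1) (hX : X.s ⊆ Ioo a b) :
    (a < X.i ∧ (X.i : ℝ) < b) ∨ (a < (X.i : ℝ) + 1 ∧ (X.i : ℝ) + 1 < b) := by
  have hm : (X.a + X.b) / 2 ∈ X.s := ⟨by linarith, by linarith⟩
  obtain ⟨m1, m2⟩ := hX hm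
  by_contra hcon
  push Not at hcon
  obtain ⟨c1, c2⟩ := hcon
  have d1 : (X.i : ℝ) ≤ a := by
    by_contra hd
    push Not at hd
    have := c1 hd
    linarith
  have d2 : b ≤ (X.i : ℝ) + 1 := c2 (by linarith)
  exact P.not_vis_edge X.i d1 (by linarith) (by linarith) d2 hv

theorem dark_not {p : ℂ} {K : ℕ} {z : ℂ} (hd : z ∉ P.VV p (K + 1)) {x : ℝ} (hv : P.Vis z (P.γ x)) :
    x ∉ P.Bp p K := by
  intro hx
  exact hd (P.VV_of_vis hx hv.symm)

end Poly

end Pool.Agent.Lib_PL
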