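import Pool.Agent.Lib_PLQ.LocalStruct

/-!
# A7: the classes of non-regular points in `I`

`local_struct` gives `H`, `ρ`.  If some `h ∈ H` comes from `PS`: first case.  Otherwise all `h ∈ H` come from some `X` (then `k = K + 1`).  If all `h ∈ H` are parallel: `reg_of_par`, contradiction.  So there are `h₁, h₂ ∈ H` with `cr h₁ h₂ ≠ 0`.
If some pair `h, h' ∈ H` has `cr h' (γ ξ_h - z) < 0` (with the `X, ξ` of `h`): `Far`.  Otherwise put `d = γ ξ₁ - z` (a non-zero real multiple of `h₁`): `cr h₂ d ≥ 0` and `≠ 0`, so `z + t d` is lit for small `t > 0`; and for all `h ∈ H` `cr h (-d) ≤ 0`, `cr h₁ (-d) = 0`: `Ext H (-d)`, so (`frontier_cone`)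
`z - t d ∈ frontier V` for small `t > 0`.
-/

open Set Complex
open scoped Topology

namespace Pool.Agent.Lib_PL

namespace Poly

variable {n : ℕ} (P : Poly n)

/-- `z` is on the boundary of the half disc of `X`, the direction towards `X` is lit, the opposite direction consists of
frontier points -/
def NN (p : ℂ) (K : ℕ) (z : ℂ) : Prop :=
  ∃ (X : Arc) (h : ℂ) (ξ : ℝ), P.XS p K X z h ξ ∧ ∃ ε > 0, ∀ t : ℝ, 0 < t → t < ε →
    z + (t : ℂ) * (P.γ ξ - z) ∈ P.VV p (K + 1) ∧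
      z - (t : ℂ) * (P.γ ξ - z) ∈ frontier (P.VV p (K + 1))

theorem class_nonreg (hc : P.CCW) {p : ℂ} (hp : p ∈ P.R) {k : ℕ} {z : ℂ} (hz : z ∈ P.I)
    (hf : z ∈ frontier (P.VV p k)) (hr : ¬ Reg (frontier (P.VV p k)) z) :
    (∃ h, P.PS p z h) ∨ ∃ K, k = K + 1 ∧ (P.Far p K z ∨ P.NN p K z) := by
  classical
  obtain ⟨H, hne, hsrc, ρ, hρ, hloc⟩ := P.local_struct hc hp hz hf
  by_cases hP : ∃ h, P.PS p z h
  · exact Or.inl hP
  right
  have hX : ∀ h ∈ H, ∃ (K : ℕ) (X : Arc) (ξ : ℝ), k = K + 1 ∧ P.XS p K X z h ξ := by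
    intro h hh
    rcases hsrc h hh with h1 | h1
    · exact absurd ⟨h, h1⟩ hP
    · exact h1
  obtain ⟨h₀, hh₀⟩ := hne
  obtain ⟨K, _, _, hk, -⟩ := hX h₀ hh₀
  refine ⟨K, hk, ?_⟩
  have hX' : ∀ h ∈ H, ∃ (X : Arc) (ξ : ℝ), P.XS p K X z h ξ := by
    intro h hh
    obtain ⟨K', X, ξ, hk', hx⟩ := hX h hh
    have e : K' = K := by omega
    rw [e] at hx
    exact ⟨X, ξ, hx⟩
  have h0 : ∀ h ∈ H, h ≠ 0 := fun h hh => (hsrc h hh).h0
  by_cases hpar : ∀ h ∈ H, ∀ h' ∈ H, cr h h' = 0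
  · exact absurd (reg_of_par ⟨h₀, hh₀⟩ h0 ⟨ρ, hρ, hloc⟩ hpar) hr
  push Not at hpar
  obtain ⟨h1, hh1, h2, hh2, h12⟩ := hpar
  by_cases hfar : P.Far p K z
  · exact Or.inl hfar
  right
  obtain ⟨X1, ξ1, hx1⟩ := hX' h1 hh1
  have hge : ∀ h ∈ H, 0 ≤ cr h (P.γ ξ1 - z) := by
    intro h hh
    by_contra hlt
    rw [not_le] at hlt
    obtain ⟨X, ξ, hx⟩ := hX' h hh
    exact hfar ⟨X1, X, h1, h, ξ1, ξ, hx1, hx, hlt⟩
  have hd0 : P.γ ξ1 - z ≠ 0 := by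
    intro e
    rw [sub_eq_zero] at e
    exact hz.1 (e ▸ P.γ_mem_C ξ1)
  obtain ⟨c, hc'⟩ := cr_eq_zero (h0 h1 hh1) hx1.par
  have hc0 : c ≠ 0 := by
    rintro rfl
    exact hd0 (by rw [hc']; simp)
  have h2d : 0 < cr h2 (P.γ ξ1 - z) := by
    refine lt_of_le_of_ne (hge h2 hh2) (fun e => ?_)
    rw [hc', cr_mul_right, cr_swap h2 h1] at e
    rcases mul_eq_zero.1 e.symm with h | h
    · exact hc0 h
    · exact h12 (neg_eq_zero.1 h)
  obtain ⟨ρ', hρ', hfr⟩ := frontier_cone h0 ⟨ρ, hρ, hloc⟩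
  have hn : 0 < ‖P.γ ξ1 - z‖ := norm_pos_iff.2 hd0
  refine ⟨X1, h1, ξ1, hx1, min ρ ρ' / ‖P.γ ξ1 - z‖, div_pos (lt_min hρ hρ') hn, ?_⟩
  intro t ht htε
  rw [lt_div_iff₀ hn] at htε
  have hnt : ‖(t : ℂ) * (P.γ ξ1 - z)‖ = t * ‖P.γ ξ1 - z‖ := by
    rw [norm_mul, Complex.norm_real, Real.norm_eq_abs, abs_of_pos ht]
  rw [← hk]
  constructor
  · rw [hloc _ (by
      rw [add_sub_cancel_left, hnt]
      exact lt_of_lt_of_le htε (min_le_left _ _))]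
    refine ⟨h2, hh2, ?_⟩
    rw [add_sub_cancel_left, cr_mul_right]
    exact mul_pos ht h2d
  · have e : z - (t : ℂ) * (P.γ ξ1 - z) - z = -((t : ℂ) * (P.γ ξ1 - z)) := by ring
    rw [hfr _ (by
      rw [e, norm_neg, hnt]
      exact lt_of_lt_of_le htε (min_le_right _ _)), e]
    refine ⟨fun h hh => ?_, h1, hh1, ?_⟩
    · rw [cr_neg_right, cr_mul_right]
      have := mul_nonneg ht.le (hge h hh)
      linarith
    · rw [cr_neg_right, cr_mul_right, hx1.par]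
      simp

end Poly

end Pool.Agent.Lib_PL
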