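import Pool.Agent.Lib_PLQ.Defs

/-!
# A3: there are finitely many components of `Bp p K` modulo `n`

Strong induction on `K`.  Take `par` (`exists_par`), `core, lev` (`exists_core`).  For a component `X` of `Bp p K` (canonical) put `Y = core K X`, `l = lev K X ≤ K`, `Y` exact of level `l`.
`l = 0`: `Y` is a component of level `0`, determined by its edge index `Y.i = X.i` (`level0_unique`).
`l = l' + 1`: `S = par l' Y` is a canonical component of level `l' < K`: finite set by induction.  The map `X ↦ (X.i, l, S)` is injective: two components `X₁, X₂` with the same value: `Y₁, Y₂` are components of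
`Bp p (l' + 1)` on the same edge which both see `S`; by `see_absorb` a point of `Y₂` which sees `S` is in `Y₁`, so `Y₁ = Y₂` (`comp_unique`), and `X₁ = X₂` (both contain `Y₁`).
`Set.Finite.of_injOn` / `Set.Finite.subset` into a product of finite sets.
-/

open Set Complex
open scoped Topology

namespace Pool.Agent.Lib_PL

namespace Poly

variable {n : ℕ} (P : Poly n)

theorem comp_finite (hc : P.CCW) (p : ℂ) (K : ℕ) :
    {X : Arc | P.IsComp p K X ∧ 0 ≤ X.i ∧ X.i < n}.Finite := by
  classical
  obtain ⟨par, hpar⟩ := P.exists_par hc p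
  obtain ⟨core, lev, hcore⟩ := P.exists_core hc p
  induction K using Nat.strong_induction_on with
  | _ K ih =>
    have hT : (⋃ l ∈ Set.Iio K, {X : Arc | P.IsComp p l X ∧ 0 ≤ X.i ∧ X.i < n}).Finite :=
      (Set.finite_Iio K).biUnion (fun l hl => ih l hl)
    refine Set.Finite.of_injOn
      (f := fun X : Arc => (X.i, lev K X,
        if lev K X = 0 then (⟨0, 0, 0⟩ : Arc) else par (lev K X - 1) (core K X)))
      (t := Set.Icc (0 : ℤ) n ×ˢ (Set.Iic K ×ˢ (insert (⟨0, 0, 0⟩ : Arc)
        (⋃ l ∈ Set.Iio K, {X : Arc | P.IsComp p l X ∧ 0 ≤ X.i ∧ X.i < n})))) ?_ ?_ ?_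
    · rintro X ⟨hX, hX0, hXn⟩
      obtain ⟨h1, h2, -, -, -⟩ := hcore.ex K X hX
      refine ⟨⟨hX0, hXn.le⟩, h1, ?_⟩
      by_cases h0 : lev K X = 0
      · simp only [if_pos h0]
        exact Set.mem_insert _ _
      · simp only [if_neg h0]
        have h3 : P.Exact p (lev K X - 1 + 1) (core K X) := by
          rwa [Nat.sub_add_cancel (Nat.one_le_iff_ne_zero.2 h0)]
        refine Set.mem_insert_of_mem _ ?_
        refine Set.mem_iUnion₂.2 ⟨lev K X - 1, ?_, hpar.comp _ _ h3, (hpar.can _ _ h3).1,
          (hpar.can _ _ h3).2⟩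
        show lev K X - 1 < K
        omega
    · rintro X₁ ⟨hX₁, -, -⟩ X₂ ⟨hX₂, -, -⟩ he
      simp only [Prod.mk.injEq] at he
      obtain ⟨e1, e2, e3⟩ := he
      obtain ⟨-, h12, h13, h14, -⟩ := hcore.ex K X₁ hX₁
      obtain ⟨-, h22, h23, h24, -⟩ := hcore.ex K X₂ hX₂
      have key : core K X₁ = core K X₂ := by
        by_cases h0 : lev K X₁ = 0
        · have h0' : lev K X₂ = 0 := by rw [← e2]; exact h0
          have a1 : P.IsComp p 0 (core K X₁) := by rw [← h0]; exact h12.1
          have a2 : P.IsComp p 0 (core K X₂) := by rw [← h0']; exact h22.1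
          exact P.level0_unique hc a1 a2 (by rw [h14, h24, e1])
        · have h0' : lev K X₂ ≠ 0 := by rw [← e2]; exact h0
          rw [if_neg h0, if_neg h0'] at e3
          obtain ⟨l, hl⟩ := Nat.exists_eq_succ_of_ne_zero h0
          have hl2 : lev K X₂ = l.succ := by rw [← e2, hl]
          rw [hl] at h12 e3
          rw [hl2] at h22 e3
          simp only [Nat.succ_eq_add_one, Nat.add_sub_cancel] at h12 h22 e3
          have s1 := hpar.sees l _ h12
          have s2 := hpar.sees l _ h22
          have c1 := hpar.comp l _ h12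
          rw [← e3] at s2
          obtain ⟨y, hy, s, hs, hv⟩ := s2
          obtain ⟨b1, b2, -, -⟩ := h22.1.mem_floor hy
          have hi : (core K X₂).i = (core K X₁).i := by rw [h14, h24, e1]
          rw [hi] at b1 b2
          have := P.see_absorb hc c1.ia c1.bi c1.sub h12.1 s1 b1 b2 ⟨s, hs, hv.symm⟩
          exact P.comp_unique h12.1 h22.1 this hy
      have hab := h12.1.ab
      have hm : ((core K X₁).a + (core K X₁).b) / 2 ∈ (core K X₁).s :=
        ⟨by linarith, by linarith⟩
      exact P.comp_unique hX₁ hX₂ (h13 hm) (h23 (key ▸ hm))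
    · exact (Set.finite_Icc _ _).prod ((Set.finite_Iic K).prod (hT.insert _))

end Poly

end Pool.Agent.Lib_PL
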