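import Pool.Agent.Lib_PLQ.Defs

/-!
# A4b: sets which are, near a point, a finite union of open half planes

`Ext H v`: the ray `v` is on the boundary of the closed convex cone `{v | ∀ h ∈ H, cr h v ≤ 0}`.

`frontier_cone`: `frontier V ∩ ball = frontier U ∩ ball` for `U = {w | ∃ h ∈ H, 0 < cr h (w - z)}` (open); `w ∈ closure U ↔ ∃ h ∈ H, 0 ≤ cr h (w - z)` (if `0 ≤ cr h (w - z)` move `w` in direction `Complex.I * h`; conversely
the set on the right is closed).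

`reg_of_par`: all `h ∈ H` are parallel; then `Ext H v ↔ cr h₀ v = 0` for one `h₀ ∈ H`.

`ext_rays`: let no two of `v₁,v₂,v₃ ≠ 0` be positive multiples.  If two are parallel (opposite), say `v₂ = -c v₁`: `h₃` with `cr h₃ v₃ = 0`, `cr h₃ v₁ ≤ 0`, `cr h₃ v₂ ≤ 0` gives `cr h₃ v₁ = 0`, so `v₃` is parallel to `v₁`
and is a positive multiple of `v₁` or `v₂`.  Otherwise `v₃ = α v₁ + β v₂` with `α, β ≠ 0`.  According to the signs one of the three vectors, say `w`, satisfies `w = α' w' + β' w''` or `-w = ...` with `α', β' > 0`; then with `h` for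
`w`: `0 = α' cr h w' + β' cr h w''`, both terms `≤ 0`, so both vanish and `w', w''` are parallel: contradiction.
-/

open Set Complex
open scoped Topology

namespace Pool.Agent.Lib_PL

/-- `v` is on the boundary of the cone `{v | ∀ h ∈ H, cr h v ≤ 0}` -/
def Ext (H : Finset ℂ) (v : ℂ) : Prop := (∀ h ∈ H, cr h v ≤ 0) ∧ ∃ h ∈ H, cr h v = 0

private theorem cone_cr_I (h : ℂ) (h0 : h ≠ 0) : 0 < cr h (Complex.I * h) := by
  have e : cr h (Complex.I * h) = Complex.normSq h := by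
    simp [cr, Complex.normSq_apply]
  rw [e]
  exact Complex.normSq_pos.2 h0

private theorem cone_par {h v w : ℂ} (h0 : h ≠ 0) (h1 : cr h v = 0) (h2 : cr h w = 0) : cr v w = 0 := by
  obtain ⟨t, rfl⟩ := cr_eq_zero h0 h1
  obtain ⟨s, rfl⟩ := cr_eq_zero h0 h2
  rw [cr_mul_left, cr_mul_right, cr_self]
  ring

private theorem cone_cont (h z : ℂ) : Continuous fun w : ℂ => cr h (w - z) := by
  unfold cr
  fun_prop

theorem frontier_cone {V : Set ℂ} {z : ℂ} {H : Finset ℂ} (h0 : ∀ h ∈ H, h ≠ 0)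
    (hloc : ∃ ρ > 0, ∀ z' : ℂ, ‖z' - z‖ < ρ → (z' ∈ V ↔ ∃ h ∈ H, 0 < cr h (z' - z))) :
    ∃ ρ > 0, ∀ z' : ℂ, ‖z' - z‖ < ρ → (z' ∈ frontier V ↔ Ext H (z' - z)) := by
  obtain ⟨ρ, hρ, hl⟩ := hloc
  refine ⟨ρ, hρ, fun z' hz' => ?_⟩
  have hball : ∀ᶠ w in 𝓝 z', ‖w - z‖ < ρ := by
    have hc : Continuous fun w : ℂ => ‖w - z‖ := by fun_prop
    exact hc.continuousAt.eventually (gt_mem_nhds hz')
  constructor
  · intro hf
    have hle : ∀ h ∈ H, cr h (z' - z) ≤ 0 := by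
      intro h hh
      by_contra hcon
      have hpos : 0 < cr h (z' - z) := not_le.1 hcon
      have hev : ∀ᶠ w in 𝓝 z', 0 < cr h (w - z) :=
        (cone_cont h z).continuousAt.eventually (lt_mem_nhds hpos)
      have : z' ∈ interior V := by
        rw [mem_interior_iff_mem_nhds]
        filter_upwards [hball, hev] with w hw1 hw2
        exact (hl w hw1).2 ⟨h, hh, hw2⟩
      exact hf.2 this
    refine ⟨hle, ?_⟩
    by_contra hcon
    push Not at hcon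
    have hlt : ∀ h ∈ H, cr h (z' - z) < 0 := fun h hh => lt_of_le_of_ne (hle h hh) (hcon h hh)
    have hev : ∀ᶠ w in 𝓝 z', ∀ h ∈ H, cr h (w - z) < 0 := by
      rw [Filter.eventually_all_finset]
      intro h hh
      exact (cone_cont h z).continuousAt.eventually (gt_mem_nhds (hlt h hh))
    have hcl : z' ∈ closure V := hf.1
    rw [mem_closure_iff_frequently] at hcl
    refine hcl ?_
    filter_upwards [hball, hev] with w hw1 hw2 hw3
    obtain ⟨h, hh, hp⟩ := (hl w hw1).1 hw3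
    exact absurd (hw2 h hh) (not_lt.2 hp.le)
  · rintro ⟨hle, h, hh, he⟩
    constructor
    · have ht : Filter.Tendsto (fun t : ℝ => z' + (t : ℂ) * (Complex.I * h)) (𝓝[>] 0) (𝓝 z') := by
        have hc : Continuous fun t : ℝ => z' + (t : ℂ) * (Complex.I * h) := by fun_prop
        have := hc.tendsto 0
        simp only [Complex.ofReal_zero, zero_mul, add_zero] at this
        exact this.mono_left nhdsWithin_le_nhds
      refine mem_closure_of_tendsto ht ?_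
      filter_upwards [ht.eventually hball, self_mem_nhdsWithin] with t ht1 ht2
      refine (hl _ ht1).2 ⟨h, hh, ?_⟩
      have e : z' + (t : ℂ) * (Complex.I * h) - z = (z' - z) + (t : ℂ) * (Complex.I * h) := by ring
      rw [e, cr_add_right, he, cr_mul_right, zero_add]
      exact mul_pos ht2 (cone_cr_I h (h0 h hh))
    · intro hi
      obtain ⟨h', hh', hp⟩ := (hl z' hz').1 (interior_subset hi)
      exact absurd (hle h' hh') (not_le.2 hp)

theorem reg_of_par {V : Set ℂ} {z : ℂ} {H : Finset ℂ} (hne : H.Nonempty) (h0 : ∀ h ∈ H, h ≠ 0)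
    (hloc : ∃ ρ > 0, ∀ z' : ℂ, ‖z' - z‖ < ρ → (z' ∈ V ↔ ∃ h ∈ H, 0 < cr h (z' - z)))
    (hpar : ∀ h ∈ H, ∀ h' ∈ H, cr h h' = 0) : Reg (frontier V) z := by
  obtain ⟨ρ, hρ, hl⟩ := frontier_cone h0 hloc
  obtain ⟨k, hk⟩ := hne
  refine ⟨k, h0 k hk, ρ, hρ, fun z' hz' => ?_⟩
  rw [hl z' hz']
  have key : Ext H (z' - z) ↔ cr k (z' - z) = 0 := by
    constructor
    · rintro ⟨_, h, hh, he⟩
      exact cone_par (h0 h hh) (hpar h hh k hk) he
    · intro he
      have hall : ∀ h ∈ H, cr h (z' - z) = 0 := fun h hh => cone_par (h0 k hk) (hpar k hk h hh) he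
      exact ⟨fun h hh => (hall h hh).le, k, hk, he⟩
  rw [key]
  constructor
  · intro he
    obtain ⟨t, ht⟩ := cr_eq_zero (h0 k hk) he
    exact ⟨t, by rw [← ht]; ring⟩
  · rintro ⟨t, rfl⟩
    have e : z + (t : ℂ) * k - z = (t : ℂ) * k := by ring
    rw [e, cr_mul_right, cr_self, mul_zero]

/-- if `v' = s v` with `s < 0` then every ray on the boundary is a positive multiple of `v` or `v'` -/
private theorem cone_opp {H : Finset ℂ} (h0 : ∀ h ∈ H, h ≠ 0) {v v' w : ℂ} (hv : v ≠ 0) (hw : w ≠ 0)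
    (h1 : Ext H v) (h2 : Ext H v') (h3 : Ext H w) {s : ℝ} (hs : s < 0) (hvs : v' = (s : ℂ) * v) :
    (∃ t : ℝ, 0 < t ∧ w = (t : ℂ) * v) ∨ ∃ t : ℝ, 0 < t ∧ w = (t : ℂ) * v' := by
  obtain ⟨h, hh, he⟩ := h3.2
  have a1 : cr h v ≤ 0 := h1.1 h hh
  have a2 : cr h v' ≤ 0 := h2.1 h hh
  rw [hvs, cr_mul_right] at a2
  have a3 : cr h v = 0 := by nlinarith
  obtain ⟨t, ht⟩ := cr_eq_zero hv (cone_par (h0 h hh) a3 he)
  have ht0 : t ≠ 0 := by
    rintro rfl
    apply hw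
    rw [ht]; simp
  rcases lt_or_gt_of_ne ht0 with h4 | h4
  · right
    refine ⟨t / s, div_pos_of_neg_of_neg h4 hs, ?_⟩
    rw [hvs, ht]
    have : (s : ℂ) ≠ 0 := by exact_mod_cast hs.ne
    push_cast
    field_simp
  · left
    exact ⟨t, h4, ht⟩

private theorem cone_sign {H : Finset ℂ} (h0 : ∀ h ∈ H, h ≠ 0) {v w u : ℂ} (h1 : Ext H v) (h2 : Ext H w)
    (h3 : Ext H u) (hvw : cr v w ≠ 0) : cr w u * cr u v ≤ 0 := by
  obtain ⟨h, hh, he⟩ := h3.2
  have a1 : cr h v ≤ 0 := h1.1 h hh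
  have a2 : cr h w ≤ 0 := h2.1 h hh
  have e : cr v w * cr h u + cr w u * cr h v + cr u v * cr h w = 0 := by
    simp only [cr]; ring
  rw [he, mul_zero, zero_add] at e
  by_contra hcon
  have hpos : 0 < cr w u * cr u v := not_le.1 hcon
  have hz : cr h v = 0 ∧ cr h w = 0 := by
    rcases pos_and_pos_or_neg_and_neg_of_mul_pos hpos with ⟨b1, b2⟩ | ⟨b1, b2⟩
    · have c1 : cr w u * cr h v ≤ 0 := mul_nonpos_of_nonneg_of_nonpos b1.le a1
      have c2 : cr u v * cr h w ≤ 0 := mul_nonpos_of_nonneg_of_nonpos b2.le a2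
      have d1 : cr w u * cr h v = 0 := by linarith
      have d2 : cr u v * cr h w = 0 := by linarith
      exact ⟨(mul_eq_zero.1 d1).resolve_left b1.ne', (mul_eq_zero.1 d2).resolve_left b2.ne'⟩
    · have c1 : 0 ≤ cr w u * cr h v := mul_nonneg_of_nonpos_of_nonpos b1.le a1
      have c2 : 0 ≤ cr u v * cr h w := mul_nonneg_of_nonpos_of_nonpos b2.le a2
      have d1 : cr w u * cr h v = 0 := by linarith
      have d2 : cr u v * cr h w = 0 := by linarith
      exact ⟨(mul_eq_zero.1 d1).resolve_left b1.ne, (mul_eq_zero.1 d2).resolve_left b2.ne⟩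
  exact hvw (cone_par (h0 h hh) hz.1 hz.2)

private theorem cone_mul {v w : ℂ} (hv : v ≠ 0) (hw : w ≠ 0) (h : cr v w = 0) :
    ∃ t : ℝ, t ≠ 0 ∧ w = (t : ℂ) * v := by
  obtain ⟨t, ht⟩ := cr_eq_zero hv h
  refine ⟨t, ?_, ht⟩
  rintro rfl
  apply hw
  rw [ht]; simp

private theorem cone_inv {v w : ℂ} {t : ℝ} (ht : 0 < t) (h : w = (t : ℂ) * v) :
    ∃ t : ℝ, 0 < t ∧ v = (t : ℂ) * w := by
  refine ⟨t⁻¹, inv_pos.2 ht, ?_⟩
  have : (t : ℂ) ≠ 0 := by exact_mod_cast ht.ne'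
  rw [h]
  push_cast
  field_simp

theorem ext_rays {H : Finset ℂ} (h0 : ∀ h ∈ H, h ≠ 0) {v1 v2 v3 : ℂ} (hv1 : v1 ≠ 0) (hv2 : v2 ≠ 0)
    (hv3 : v3 ≠ 0) (h1 : Ext H v1) (h2 : Ext H v2) (h3 : Ext H v3) :
    (∃ t : ℝ, 0 < t ∧ v2 = (t : ℂ) * v1) ∨ (∃ t : ℝ, 0 < t ∧ v3 = (t : ℂ) * v1) ∨
      ∃ t : ℝ, 0 < t ∧ v3 = (t : ℂ) * v2 := by
  by_cases c12 : cr v1 v2 = 0
  · obtain ⟨s, hs, he⟩ := cone_mul hv1 hv2 c12
    rcases lt_or_gt_of_ne hs with h4 | h4
    · rcases cone_opp h0 hv1 hv3 h1 h2 h3 h4 he with h5 | h5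
      · exact Or.inr (Or.inl h5)
      · exact Or.inr (Or.inr h5)
    · exact Or.inl ⟨s, h4, he⟩
  by_cases c13 : cr v1 v3 = 0
  · obtain ⟨s, hs, he⟩ := cone_mul hv1 hv3 c13
    rcases lt_or_gt_of_ne hs with h4 | h4
    · rcases cone_opp h0 hv1 hv2 h1 h3 h2 h4 he with h5 | ⟨t, ht, h5⟩
      · exact Or.inl h5
      · exact Or.inr (Or.inr (cone_inv ht h5))
    · exact Or.inr (Or.inl ⟨s, h4, he⟩)
  by_cases c23 : cr v2 v3 = 0
  · obtain ⟨s, hs, he⟩ := cone_mul hv2 hv3 c23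
    rcases lt_or_gt_of_ne hs with h4 | h4
    · rcases cone_opp h0 hv2 hv1 h2 h3 h1 h4 he with ⟨t, ht, h5⟩ | ⟨t, ht, h5⟩
      · exact Or.inl (cone_inv ht h5)
      · exact Or.inr (Or.inl (cone_inv ht h5))
    · exact Or.inr (Or.inr ⟨s, h4, he⟩)
  exfalso
  have c31 : cr v3 v1 ≠ 0 := by
    rw [cr_swap]; exact neg_ne_zero.2 c13
  have s1 := cone_sign h0 h1 h2 h3 c12
  have s2 := cone_sign h0 h2 h3 h1 c23
  have s3 := cone_sign h0 h3 h1 h2 c31
  rcases lt_or_gt_of_ne c12 with a | a <;> rcases lt_or_gt_of_ne c23 with b | b <;>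
    rcases lt_or_gt_of_ne c31 with c | c
  · exact absurd (mul_pos_of_neg_of_neg b c) (not_lt.2 s1)
  · exact absurd (mul_pos_of_neg_of_neg a b) (not_lt.2 s3)
  · exact absurd (mul_pos_of_neg_of_neg c a) (not_lt.2 s2)
  · exact absurd (mul_pos b c) (not_lt.2 s1)
  · exact absurd (mul_pos_of_neg_of_neg b c) (not_lt.2 s1)
  · exact absurd (mul_pos c a) (not_lt.2 s2)
  · exact absurd (mul_pos a b) (not_lt.2 s3)
  · exact absurd (mul_pos b c) (not_lt.2 s1)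

end Pool.Agent.Lib_PL
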