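import Pool.Agent.Lib_PLQ.Defs

/-!
Sign of a crossing of two chords, and the corner lemma (B3).
-/

open Set Complex
open scoped Topology

namespace Pool.Agent.Lib_PL

namespace Poly

variable {n : ℕ} (P : Poly n)

private theorem Corner_cr_seg {p q c : ℂ} (hc : c ∈ segment ℝ p q) : cr (q - p) (c - p) = 0 := by
  rw [segment_eq_image'] at hc
  obtain ⟨s, _, hs⟩ := hc
  rw [← hs]
  simp only [Complex.real_smul]
  rw [show p + (s : ℂ) * (q - p) - p = (s : ℂ) * (q - p) by ring, cr_mul_right, cr_self, mul_zero]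

/-- a point of `Side a b` seen from an inner point of the chord is not on the left of the chord -/
private theorem Corner_right (hc : P.CCW) {a b : ℝ} (hab : a < b) (hba : b < a + n)
    (h : P.Vis (P.γ a) (P.γ b)) {z c : ℂ} (hR : segment ℝ c z ⊆ P.R)
    (hcc : c ∈ openSegment ℝ (P.γ a) (P.γ b)) (hz : z ∈ P.Side a b) :
    ¬ 0 < cr (P.γ b - P.γ a) (z - c) := by
  intro hpos
  obtain ⟨ρ, hρ, hloc⟩ := P.side_local hc hab hba h hcc
  obtain ⟨ε, hε0, hε1, hε2⟩ : ∃ ε : ℝ, 0 < ε ∧ ε < 1 ∧ ‖(ε : ℂ) * (z - c)‖ < ρ := by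
    refine ⟨min (1 / 2) (ρ / (2 * (‖z - c‖ + 1))), ?_, ?_, ?_⟩
    · have := norm_nonneg (z - c)
      exact lt_min (by norm_num) (by positivity)
    · exact (min_le_left _ _).trans_lt (by norm_num)
    · have h1 := norm_nonneg (z - c)
      rw [norm_mul, Complex.norm_real, Real.norm_eq_abs, abs_of_pos
        (lt_min (by norm_num) (by positivity))]
      have h2 : min (1 / 2) (ρ / (2 * (‖z - c‖ + 1))) * ‖z - c‖ ≤
          ρ / (2 * (‖z - c‖ + 1)) * ‖z - c‖ :=
        mul_le_mul_of_nonneg_right (min_le_right _ _) h1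
      refine h2.trans_lt ?_
      rw [div_mul_eq_mul_div, div_lt_iff₀ (by positivity)]
      nlinarith
  have h1 : c + (ε : ℂ) * (z - c) ∈ P.Side b (a + n) := by
    refine (hloc _ hε2).2 ?_
    rw [cr_mul_right]
    exact mul_pos hε0 hpos
  have hcs : cr (P.γ b - P.γ a) (c - P.γ a) = 0 :=
    Corner_cr_seg (openSegment_subset_segment ℝ _ _ hcc)
  have h2 : segment ℝ (c + (ε : ℂ) * (z - c)) z ⊆ segment ℝ c z := by
    refine (convex_segment c z).segment_subset ?_ (right_mem_segment ℝ _ _)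
    rw [segment_eq_image']
    exact ⟨ε, ⟨hε0.le, hε1.le⟩, by simp only [Complex.real_smul]⟩
  have h3 : Disjoint (segment ℝ (c + (ε : ℂ) * (z - c)) z) (segment ℝ (P.γ a) (P.γ b)) := by
    rw [disjoint_left]
    intro w hw hw'
    have h4 := Corner_cr_seg hw'
    rw [segment_eq_image'] at hw
    obtain ⟨t, ⟨ht0, ht1⟩, ht⟩ := hw
    have h5 : w - P.γ a = (c - P.γ a) + ((ε + t * (1 - ε) : ℝ) : ℂ) * (z - c) := by
      rw [← ht]
      simp only [Complex.real_smul]
      push_cast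
      ring
    rw [h5, cr_add_right, hcs, cr_mul_right, zero_add] at h4
    have h6 : 0 < ε + t * (1 - ε) := by nlinarith
    exact absurd h4 (mul_pos h6 hpos).ne'
  rcases P.side_conn hc hab hba h (convex_segment _ z).isPreconnected (h2.trans hR) h3 with h4 | h4
  · exact disjoint_left.1 (P.side_disj hc hab hba h) (h4 (left_mem_segment ℝ _ _)) h1
  · exact disjoint_left.1 (P.side_disj hc hab hba h) hz (h4 (right_mem_segment ℝ _ _))

/-- sign of a crossing: a chord from a point of the arc `(a,b)` to a point of the other arc comes from the right of the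
direction from `γ a` to `γ b` -/
theorem cross_sign (hc : P.CCW) {a b x y : ℝ} (hax : a < x) (hxb : x < b) (hby : b < y)
    (hya : y < a + n) (h : P.Vis (P.γ a) (P.γ b)) (h' : P.Vis (P.γ x) (P.γ y)) :
    ∃ c ∈ openSegment ℝ (P.γ a) (P.γ b), c ∈ openSegment ℝ (P.γ x) (P.γ y) ∧
      cr (P.γ b - P.γ a) (P.γ x - c) < 0 := by
  have hab : a < b := hax.trans hxb
  have hba : b < a + n := hby.trans hya
  obtain ⟨c, hc1, hc2, hne⟩ := P.cross_chords hc hax hxb hby hya h h'
  refine ⟨c, hc1, hc2, ?_⟩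
  have hR : segment ℝ c (P.γ x) ⊆ P.R :=
    ((convex_segment _ _).segment_subset (openSegment_subset_segment ℝ _ _ hc2)
      (left_mem_segment ℝ _ _)).trans h'.seg
  have h1 := P.Corner_right hc hab hba h hR hc1 (P.side_arc hba h (x := x) ⟨hax, hxb⟩)
  rcases (not_lt.1 h1).lt_or_eq with h2 | h2
  · exact h2
  · exfalso
    apply hne
    rw [openSegment_eq_image'] at hc2
    obtain ⟨u, ⟨hu0, hu1⟩, hu⟩ := hc2
    have e : P.γ x - c = ((-u : ℝ) : ℂ) * (P.γ y - P.γ x) := by
      rw [← hu]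
      simp only [Complex.real_smul]
      push_cast
      ring
    rw [e, cr_mul_right] at h2
    rcases mul_eq_zero.1 h2 with h3 | h3
    · linarith
    · exact h3

/-- CORNER LEMMA (B3): `z` is a point of the chord `(γ a, γ b)` which is not lit at level `K + 1`; then the positions just
before `b` cannot be in `Bp p K` and see a point `γ s0` of the other arc. -/
theorem corner_false (hc : P.CCW) {p : ℂ} {K : ℕ} {a b s0 : ℝ} {z : ℂ} (hab : a < b)
    (h : P.Vis (P.γ a) (P.γ b)) (hz : z ∈ openSegment ℝ (P.γ a) (P.γ b)) (hd : z ∉ P.VV p (K + 1))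
    (hbs : b < s0) (hsa : s0 < a + n) {ε : ℝ} (hε : 0 < ε)
    (hx : ∀ x : ℝ, b - ε < x → x < b → x ∈ P.Bp p K ∧ P.Vis (P.γ x) (P.γ s0)) : False := by
  obtain ⟨ε1, hε1, hbef⟩ := P.γ_before b
  -- sign of the direction `em b`
  have hs : cr (P.γ b - P.γ a) (P.em b) < 0 := by
    set x := b - min (min ε ε1) (b - a) / 2 with hxd
    have hm : 0 < min (min ε ε1) (b - a) := lt_min (lt_min hε hε1) (sub_pos.2 hab)
    have hm1 : min (min ε ε1) (b - a) ≤ ε := (min_le_left _ _).trans (min_le_left _ _)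
    have hm2 : min (min ε ε1) (b - a) ≤ ε1 := (min_le_left _ _).trans (min_le_right _ _)
    have hm3 : min (min ε ε1) (b - a) ≤ b - a := min_le_right _ _
    have hxb : x < b := by linarith
    obtain ⟨t, ht, hγ⟩ := hbef x (by linarith) hxb
    obtain ⟨c, hc1, -, hcr⟩ := P.cross_sign hc (a := a) (b := b) (x := x) (y := s0) (by linarith) hxb hbs hsa h
      (hx x (by linarith) hxb).2
    have h0 : cr (P.γ b - P.γ a) (P.γ b - c) = 0 := by
      have h1 := Corner_cr_seg (openSegment_subset_segment ℝ _ _ hc1)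
      have e : P.γ b - c = (P.γ b - P.γ a) - (c - P.γ a) := by ring
      rw [e, cr_sub_right, h1, cr_self, sub_zero]
    have e : P.γ x - c = (P.γ b - c) + (t : ℂ) * P.em b := by
      rw [hγ]
      ring
    rw [e, cr_add_right, h0, cr_mul_right, zero_add] at hcr
    by_contra hcon
    rw [not_lt] at hcon
    exact absurd hcr (not_lt.2 (mul_nonneg ht.le hcon))
  have hzb : P.γ b ≠ z := by
    rintro rfl
    exact P.I_disj_C (h.mem hz) (P.γ_mem_C b)
  have hv : P.Vis (P.γ b) z :=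
    h.sub (right_mem_segment ℝ _ _) (openSegment_subset_segment ℝ _ _ hz) hzb
  have hpos : 0 < cr (z - P.γ b) (P.em b) := by
    rw [openSegment_eq_image'] at hz
    obtain ⟨u, ⟨hu0, hu1⟩, hu⟩ := hz
    have e : z - P.γ b = ((-(1 - u) : ℝ) : ℂ) * (P.γ b - P.γ a) := by
      rw [← hu]
      simp only [Complex.real_smul]
      push_cast
      ring
    rw [e, cr_mul_left]
    nlinarith
  obtain ⟨ε2, hε2, hvis⟩ := P.vis_before hc hv hpos
  set x := b - min ε ε2 / 2 with hxd
  have hm : 0 < min ε ε2 := lt_min hε hε2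
  have hm1 : min ε ε2 ≤ ε := min_le_left _ _
  have hm2 : min ε ε2 ≤ ε2 := min_le_right _ _
  have hxb : x < b := by linarith
  exact hd (P.VV_of_vis (hx x (by linarith) hxb).1 (hvis x (by linarith) hxb))

/-- the corner lemma for an integer `q = b` -/
theorem corner (hc : P.CCW) {p : ℂ} {K : ℕ} {a b : ℝ} (hab : a < b) (hba : b < a + n)
    (hv : P.Vis (P.γ a) (P.γ b)) {z : ℂ} (hz : z ∈ openSegment ℝ (P.γ a) (P.γ b))
    (hd : z ∉ P.VV p (K + 1)) {q : ℤ} (hq : (q : ℝ) = b) {s : ℝ} (hbs : b < s) (hsa : s < a + n)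
    (hsee : ∃ ε > 0, ∀ x : ℝ, (q : ℝ) - ε < x → x < q → P.Vis (P.γ x) (P.γ s) ∧ x ∈ P.Bp p K) :
    False := by
  obtain ⟨ε, hε, h⟩ := hsee
  rw [hq] at h
  exact P.corner_false hc hab hv hz hd hbs hsa hε fun x h1 h2 => ⟨(h x h1 h2).2, (h x h1 h2).1⟩

end Poly

end Pool.Agent.Lib_PL
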