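import Pool.Agent.Lib_PLQ.Defs

/-!
# Definitions for the local lemma (part C of H34, MP_ee0a5d_co)

`W = (a,b)` is a chord: `a < b < a + n`, `Vis (γ a) (γ b)`.  `pt a b t` is the point with parameter `t` (`t = 0`: `γ a`, `t = 1`: `γ b`);
`JJ X a b` = parameters of the points of the open chord which see the arc `X`.
-/

open Set Complex
open scoped Topology

namespace Pool.Agent.Lib_PL

namespace Poly

variable {n : ℕ} (P : Poly n)

/-- the point with parameter `t` on the line from `γ a` to `γ b` -/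
noncomputable def pt (a b t : ℝ) : ℂ := P.γ a + (t : ℂ) * (P.γ b - P.γ a)

/-- the parameters of the points of the open chord `(a,b)` which see the arc `X` -/
def JJ (X : Arc) (a b : ℝ) : Set ℝ :=
  {t | 0 < t ∧ t < 1 ∧ ∃ x ∈ X.s, P.Vis (P.γ x) (P.pt a b t)}

/-- `t` is a dark parameter and the points just above it see `X` -/
structure UpEnd (p : ℂ) (K : ℕ) (X : Arc) (a b t : ℝ) : Prop where
  t0 : 0 < t
  t1 : t < 1
  dark : P.pt a b t ∉ P.VV p (K + 1)
  acc : ∃ t' : ℝ, t < t' ∧ t' ≤ 1 ∧ ∀ u : ℝ, t < u → u < t' → u ∈ P.JJ X a b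

/-- `t` is a dark parameter and the points just below it see `X` -/
structure DnEnd (p : ℂ) (K : ℕ) (X : Arc) (a b t : ℝ) : Prop where
  t0 : 0 < t
  t1 : t < 1
  dark : P.pt a b t ∉ P.VV p (K + 1)
  acc : ∃ t' : ℝ, 0 ≤ t' ∧ t' < t ∧ ∀ u : ℝ, t' < u → u < t → u ∈ P.JJ X a b

/-- item of the local lemma: `X` a component of `Bp p K`, `S` the (shifted) parent of its core, viewer `V ν` -/
structure LItem (p : ℂ) (K : ℕ) (ν : ℤ) (S X : Arc) : Prop where
  hb : P.HBase {(ν : ℝ)} S X {P.V ν}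
  Xc : P.IsComp p K X
  Sc : ∃ l, l + 1 ≤ K ∧ P.IsComp p l S

/-- the chord `(a,b)` of the local lemma: its ends see a dark point, so they are not in `Bp p K`; `V ν` is not in
`[a,b]` (modulo `n`) -/
structure LChord (p : ℂ) (K : ℕ) (ν : ℤ) (a b : ℝ) : Prop where
  ab : a < b
  ba : b < a + n
  vis : P.Vis (P.γ a) (P.γ b)
  na : a ∉ P.Bp p K
  nb : b ∉ P.Bp p K
  nν : ∀ m : ℤ, ¬ (a ≤ ν + m * n ∧ (ν : ℝ) + m * n ≤ b)

end Poly

end Pool.Agent.Lib_PL
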