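import Pool.Agent.Lib_PLQ.WDBasic
import Pool.Agent.Lib_PLQ.LDefs

/-!
# D (1): far points on one chord, counted by `thmB`

`FU`: canonical far datum (see `far_cases`, file FarLZ.lean).
`fib_up`: all `u ∈ (t, t')` have `pt a b u ∈ VV p (K + 1)` (`VV_of_vis`, `X.s ⊆ Bp p K`).  For `t ∈ T` choose `u t` with `t < u t`, `pt a b (u t) ∈ VV p (K + 1)`, `u t < 1` and `u t < t₂` for all
`t₂ ∈ T`, `t < t₂` (finite set, take the minimum).  `u` is injective on `T` (`t < u t < t₂ < u t₂`), and `thmB` for `T.image u`: between `u t` and `u t₂` there is the dark parameter `t₂`.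
`fib_dn`: the same with points just below (`u t < t`, `t₁ < u t` for `t₁ ∈ T`, `t₁ < t`).
`fib_thmB`: the two filters.
-/

open Set Complex
open scoped Topology

namespace Pool.Agent.Lib_PL

namespace Poly

variable {n : ℕ} (P : Poly n)

/-- canonical far datum -/
structure FU (p : ℂ) (K : ℕ) (a b : ℝ) (X : Arc) (t : ℝ) : Prop where
  a0 : 0 ≤ a
  an : a < n
  wd : ∃ X', P.WD p K X' a b
  Xc : P.IsComp p K X
  Xs : X.s ⊆ Ioo a b
  fin : P.UpEnd p K X a b t ∨ P.DnEnd p K X a b t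

private theorem DFib_up (T : Finset ℝ) (Q : ℝ → Prop)
    (h : ∀ t ∈ T, ∃ t' : ℝ, t < t' ∧ ∀ u : ℝ, t < u → u < t' → Q u) :
    ∃ u : ℝ → ℝ, (∀ t ∈ T, t < u t ∧ Q (u t)) ∧ ∀ t ∈ T, ∀ t2 ∈ T, t < t2 → u t < t2 := by
  classical
  have key : ∀ t : ℝ, ∃ v : ℝ, t ∈ T → (t < v ∧ Q v) ∧ ∀ t2 ∈ T, t < t2 → v < t2 := by
    intro t
    by_cases ht : t ∈ T
    · obtain ⟨t', h1, h2⟩ := h t ht
      set F := insert t' (T.filter (fun x => t < x)) with hF
      have hne : F.Nonempty := Finset.insert_nonempty _ _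
      have hm : t < F.min' hne := by
        rw [Finset.lt_min'_iff]
        intro y hy
        rw [hF, Finset.mem_insert, Finset.mem_filter] at hy
        rcases hy with rfl | hy
        · exact h1
        · exact hy.2
      have hle : F.min' hne ≤ t' := Finset.min'_le _ _ (Finset.mem_insert_self _ _)
      refine ⟨(t + F.min' hne) / 2, fun _ => ⟨⟨by linarith, h2 _ (by linarith) (by linarith)⟩, ?_⟩⟩
      intro t2 ht2 hlt
      have : F.min' hne ≤ t2 := Finset.min'_le _ _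
        (Finset.mem_insert_of_mem (Finset.mem_filter.2 ⟨ht2, hlt⟩))
      linarith
    · exact ⟨0, fun h' => absurd h' ht⟩
  choose v hv using key
  exact ⟨v, fun t ht => (hv t ht).1, fun t ht t2 ht2 hlt => (hv t ht).2 t2 ht2 hlt⟩

private theorem DFib_dn (T : Finset ℝ) (Q : ℝ → Prop)
    (h : ∀ t ∈ T, ∃ t' : ℝ, t' < t ∧ ∀ u : ℝ, t' < u → u < t → Q u) :
    ∃ u : ℝ → ℝ, (∀ t ∈ T, u t < t ∧ Q (u t)) ∧ ∀ t ∈ T, ∀ t2 ∈ T, t2 < t → t2 < u t := by
  classical
  have key : ∀ t : ℝ, ∃ v : ℝ, t ∈ T → (v < t ∧ Q v) ∧ ∀ t2 ∈ T, t2 < t → t2 < v := by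
    intro t
    by_cases ht : t ∈ T
    · obtain ⟨t', h1, h2⟩ := h t ht
      set F := insert t' (T.filter (fun x => x < t)) with hF
      have hne : F.Nonempty := Finset.insert_nonempty _ _
      have hm : F.max' hne < t := by
        rw [Finset.max'_lt_iff]
        intro y hy
        rw [hF, Finset.mem_insert, Finset.mem_filter] at hy
        rcases hy with rfl | hy
        · exact h1
        · exact hy.2
      have hle : t' ≤ F.max' hne := Finset.le_max' _ _ (Finset.mem_insert_self _ _)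
      refine ⟨(t + F.max' hne) / 2, fun _ => ⟨⟨by linarith, h2 _ (by linarith) (by linarith)⟩, ?_⟩⟩
      intro t2 ht2 hlt
      have : t2 ≤ F.max' hne := Finset.le_max' _ _
        (Finset.mem_insert_of_mem (Finset.mem_filter.2 ⟨ht2, hlt⟩))
      linarith
    · exact ⟨0, fun h' => absurd h' ht⟩
  choose v hv using key
  exact ⟨v, fun t ht => (hv t ht).1, fun t ht t2 ht2 hlt => (hv t ht).2 t2 ht2 hlt⟩

theorem fib_up (hc : P.CCW) {p : ℂ} {K : ℕ} {a b : ℝ} (hv : P.Vis (P.γ a) (P.γ b))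
    (T : Finset ℝ) (hT : ∀ t ∈ T, ∃ X, P.IsComp p K X ∧ P.UpEnd p K X a b t) :
    T.card ≤ cB (K + 1) * n := by
  classical
  obtain ⟨u, h1, h2⟩ := DFib_up T
    (fun v => 0 < v ∧ v < 1 ∧ P.pt a b v ∈ P.VV p (K + 1)) (by
      intro t ht
      obtain ⟨X, hX, hU⟩ := hT t ht
      obtain ⟨t', ht', -, hacc⟩ := hU.acc
      refine ⟨t', ht', fun v hv1 hv2 => ?_⟩
      obtain ⟨j0, j1, x, hx, hvis⟩ := hacc v hv1 hv2
      exact ⟨j0, j1, P.VV_of_vis (hX.sub hx) hvis⟩)
  have hinj : Set.InjOn u (T : Set ℝ) := by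
    intro t ht t2 ht2 he
    rcases lt_trichotomy t t2 with h | h | h
    · have e1 := h2 t ht t2 ht2 h
      have e2 := (h1 t2 ht2).1
      linarith
    · exact h
    · have e1 := h2 t2 ht2 t ht h
      have e2 := (h1 t ht).1
      linarith
  rw [← Finset.card_image_of_injOn hinj]
  refine P.thmB hc p (K + 1) hv (T.image u) ?_ ?_
  · intro v hv
    obtain ⟨t, ht, rfl⟩ := Finset.mem_image.1 hv
    exact (h1 t ht).2
  · intro v hv v' hv' hlt
    obtain ⟨t, ht, rfl⟩ := Finset.mem_image.1 hv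
    obtain ⟨t2, ht2, rfl⟩ := Finset.mem_image.1 hv'
    have hlt2 : t < t2 := by
      rcases lt_trichotomy t t2 with h | h | h
      · exact h
      · subst h
        exact absurd hlt (lt_irrefl _)
      · have e1 := h2 t2 ht2 t ht h
        have e2 := (h1 t ht).1
        linarith
    refine ⟨t2, h2 t ht t2 ht2 hlt2, (h1 t2 ht2).1, ?_⟩
    obtain ⟨X, hX, hU⟩ := hT t2 ht2
    exact hU.dark

theorem fib_dn (hc : P.CCW) {p : ℂ} {K : ℕ} {a b : ℝ} (hv : P.Vis (P.γ a) (P.γ b))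
    (T : Finset ℝ) (hT : ∀ t ∈ T, ∃ X, P.IsComp p K X ∧ P.DnEnd p K X a b t) :
    T.card ≤ cB (K + 1) * n := by
  classical
  obtain ⟨u, h1, h2⟩ := DFib_dn T
    (fun v => 0 < v ∧ v < 1 ∧ P.pt a b v ∈ P.VV p (K + 1)) (by
      intro t ht
      obtain ⟨X, hX, hU⟩ := hT t ht
      obtain ⟨t', -, ht', hacc⟩ := hU.acc
      refine ⟨t', ht', fun v hv1 hv2 => ?_⟩
      obtain ⟨j0, j1, x, hx, hvis⟩ := hacc v hv1 hv2
      exact ⟨j0, j1, P.VV_of_vis (hX.sub hx) hvis⟩)
  have hinj : Set.InjOn u (T : Set ℝ) := by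
    intro t ht t2 ht2 he
    rcases lt_trichotomy t t2 with h | h | h
    · have e1 := h2 t2 ht2 t ht h
      have e2 := (h1 t ht).1
      linarith
    · exact h
    · have e1 := h2 t ht t2 ht2 h
      have e2 := (h1 t2 ht2).1
      linarith
  rw [← Finset.card_image_of_injOn hinj]
  refine P.thmB hc p (K + 1) hv (T.image u) ?_ ?_
  · intro v hv
    obtain ⟨t, ht, rfl⟩ := Finset.mem_image.1 hv
    exact (h1 t ht).2
  · intro v hv v' hv' hlt
    obtain ⟨t, ht, rfl⟩ := Finset.mem_image.1 hv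
    obtain ⟨t2, ht2, rfl⟩ := Finset.mem_image.1 hv'
    have hlt2 : t < t2 := by
      rcases lt_trichotomy t t2 with h | h | h
      · exact h
      · subst h
        exact absurd hlt (lt_irrefl _)
      · have e1 := h2 t ht t2 ht2 h
        have e2 := (h1 t2 ht2).1
        linarith
    refine ⟨t, (h1 t ht).1, h2 t2 ht2 t ht hlt2, ?_⟩
    obtain ⟨X, hX, hU⟩ := hT t ht
    exact hU.dark

theorem fib_thmB (hc : P.CCW) {p : ℂ} {K : ℕ} {a b : ℝ} (hv : P.Vis (P.γ a) (P.γ b))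
    (T : Finset ℝ) (hT : ∀ t ∈ T, ∃ X, P.IsComp p K X ∧
      (P.UpEnd p K X a b t ∨ P.DnEnd p K X a b t)) :
    T.card ≤ 2 * (cB (K + 1) * n) := by
  classical
  have e1 := P.fib_up hc hv (T.filter (fun t => ∃ X, P.IsComp p K X ∧ P.UpEnd p K X a b t))
    (fun t ht => (Finset.mem_filter.1 ht).2)
  have e2 := P.fib_dn hc hv (T.filter (fun t => ∃ X, P.IsComp p K X ∧ P.DnEnd p K X a b t))
    (fun t ht => (Finset.mem_filter.1 ht).2)
  have hsub : T ⊆ (T.filter (fun t => ∃ X, P.IsComp p K X ∧ P.UpEnd p K X a b t)) ∪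
      (T.filter (fun t => ∃ X, P.IsComp p K X ∧ P.DnEnd p K X a b t)) := by
    intro t ht
    obtain ⟨X, hX, h⟩ := hT t ht
    rcases h with h | h
    · exact Finset.mem_union_left _ (Finset.mem_filter.2 ⟨ht, X, hX, h⟩)
    · exact Finset.mem_union_right _ (Finset.mem_filter.2 ⟨ht, X, hX, h⟩)
  have e3 := Finset.card_le_card hsub
  have e4 := Finset.card_union_le
    (T.filter (fun t => ∃ X, P.IsComp p K X ∧ P.UpEnd p K X a b t))
    (T.filter (fun t => ∃ X, P.IsComp p K X ∧ P.DnEnd p K X a b t))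
  omega

end Poly

end Pool.Agent.Lib_PL
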