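import Pool.Agent.Lib_PLQ.LDefs

/-!
# D: items of the local lemma

`hookR_sh`: as `hookL_sh` (file Lib_PL/RepLemma.lean).
`litem_exists`: let `Y = core K X` (`hcore.ex`), `Y` exact of level `l + 1`, `Y.i = X.i`, `S₀ = par l Y` canonical (`hpar.can`), `P.sees_ne` gives `Y.i ≠ S₀.i`: with `m₀ = 0` or `m₀ = -1` the arc `S₁ = S₀.sh (m₀ * n)` satisfies `S₁.i < X.i < S₁.i + n` (see `hpos` in Lib_PL/RecStep.lean).
`rep_vertex` (for `S₀`), `hbase_of` (with `Ω = {(ν : ℝ)}`) give `HBase {ν} S₁ X {V ν}`; `not_good` for `S₁` (`Good {V ν} S₁ X.i` would give `Good {V ν} S₀ X.i` by `good_sh (-m₀) 0`).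
Then shift by `m` (`hbase_sh`, `hookL_sh`, `hookR_sh`, `comp_sh`).  `l + 1 ≤ K` from `hcore.ex`.
-/

open Set Complex
open scoped Topology

namespace Pool.Agent.Lib_PL

namespace Poly

variable {n : ℕ} (P : Poly n)

theorem hookR_sh {S X : Arc} {M : Set ℂ} (m : ℤ) (h : P.HookR S X M) :
    P.HookR (S.sh (m * n)) (X.sh (m * n)) M := by
  have e1 : ∀ (A : Arc) (t : ℤ), (A.sh t).i = A.i + t := fun A t => rfl
  have hg : ∀ x : ℝ, P.γ (x + ((m * n : ℤ) : ℝ)) = P.γ x := by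
    intro x
    rw [← P.γ_add_mul x m]
    congr 1
    push_cast
    ring
  obtain ⟨σ, hσ, g, h1, h2, h3, h4, h5⟩ := h
  have hσ' : σ + ((m * n : ℤ) : ℝ) ∈ (S.sh (m * n)).s := by
    rw [Arc.mem_sh]
    convert hσ using 1
    ring
  refine ⟨_, hσ', g + ((m * n : ℤ) : ℝ), ?_, ?_, NI_add _ h3, ?_, ?_⟩
  · rw [e1, Int.cast_add]
    linarith
  · rw [e1, Int.cast_add]
    linarith
  · rw [hg, hg]
    exact h4
  · have h6 := P.side_shift g (σ + n) m
    have e2 : g + ((m * n : ℤ) : ℝ) = g + (m : ℝ) * n := by push_cast; ring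
    have e3 : σ + ((m * n : ℤ) : ℝ) + n = σ + n + (m : ℝ) * n := by push_cast; ring
    rw [e2, e3, h6]
    exact h5

theorem litem_exists (hc : P.CCW) {p : ℂ} {par core : ℕ → Arc → Arc} {lev : ℕ → Arc → ℕ}
    (hpar : P.PRule p par) (hcore : P.CRule p core lev) {K : ℕ} (ν : ℤ) {X : Arc}
    (hX : P.IsComp p K X) (h0 : 0 ≤ X.i) (hn : X.i < n) (hnc : ¬ X.Cornered) {l : ℕ}
    (hl : lev K X = l + 1) (hng : ¬ P.Good {P.V ν} (par l (core K X)) X.i) (m : ℤ) :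
    ∃ S, P.LItem p K ν S (X.sh (m * n)) ∧
      (P.HookL S (X.sh (m * n)) {P.V ν} ∨ P.HookR S (X.sh (m * n)) {P.V ν}) := by
  obtain ⟨c1, c2, c3, c4, -⟩ := hcore.ex K X hX
  rw [hl] at c1 c2
  have hS := hpar.comp l _ c2
  obtain ⟨s0, sn⟩ := hpar.can l _ c2
  have hs := hpar.sees l _ c2
  have hpos : ∃ m₀ : ℤ, ((par l (core K X)).sh (m₀ * n)).i < X.i ∧
      X.i < ((par l (core K X)).sh (m₀ * n)).i + n := by
    have hne := P.sees_ne c2.1.ia c2.1.bi hS.ia hS.bi hs 0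
    rw [zero_mul, add_zero, c4] at hne
    rcases lt_or_gt_of_ne hne with h | h
    · refine ⟨-1, ?_, ?_⟩
      · simp only [Arc.sh]; omega
      · simp only [Arc.sh]; omega
    · refine ⟨0, ?_, ?_⟩
      · simp only [Arc.sh]; omega
      · simp only [Arc.sh]; omega
  obtain ⟨m₀, hm1, hm2⟩ := hpos
  have hrep : P.Rep {P.V ν} (par l (core K X)) (ν : ℝ) := P.rep_vertex hc ν hS.ia hS.bi
  have hbase : P.HBase {(ν : ℝ)} ((par l (core K X)).sh (m₀ * n)) X {P.V ν} :=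
    P.hbase_of hc hpar hX hnc c2 c3 c4 (Set.singleton_nonempty _)
      ⟨(ν : ℝ), Finset.mem_singleton_self _, hrep⟩ hm1 hm2
  have hS' := P.comp_sh m₀ hS
  have hg' : ¬ P.Good {P.V ν} ((par l (core K X)).sh (m₀ * n)) X.i := by
    intro h
    apply hng
    have h2 := P.good_sh (-m₀) 0 h
    rw [Arc.sh_sh] at h2
    have e1 : (m₀ * n + -m₀ * n : ℤ) = 0 := by ring
    have e2 : (X.i + 0 * n : ℤ) = X.i := by ring
    rw [e1, e2, Arc.sh_zero] at h2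
    exact h2
  refine ⟨((par l (core K X)).sh (m₀ * n)).sh (m * n),
    ⟨P.hbase_sh m hbase, P.comp_sh m hX, ⟨l, c1, P.comp_sh m hS'⟩⟩, ?_⟩
  rcases P.not_good hc hS'.ia hS'.bi hm1 hm2 (P.rep_sh m₀ hrep) hg' with h | h
  · exact Or.inl (P.hookL_sh m h)
  · exact Or.inr (P.hookR_sh m h)

end Poly

end Pool.Agent.Lib_PL
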