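import Pool.Agent.Lib_PLQ.LDefs

/-!
Basic facts for the local lemma: parameters on the chord, the sets `JJ` are convex (`f2_chord`) and lit, crossing points of chords with `W`.
-/

open Set Complex
open scoped Topology

namespace Pool.Agent.Lib_PL

namespace Poly

variable {n : ℕ} (P : Poly n)

theorem pt_mem_open {a b t : ℝ} (h0 : 0 < t) (h1 : t < 1) :
    P.pt a b t ∈ openSegment ℝ (P.γ a) (P.γ b) := by
  rw [openSegment_eq_image']
  exact ⟨t, ⟨h0, h1⟩, by simp only [Complex.real_smul]; rfl⟩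

theorem mem_open_pt {a b : ℝ} {z : ℂ} (h : z ∈ openSegment ℝ (P.γ a) (P.γ b)) :
    ∃ t : ℝ, 0 < t ∧ t < 1 ∧ z = P.pt a b t := by
  rw [openSegment_eq_image'] at h
  obtain ⟨t, ⟨h0, h1⟩, ht⟩ := h
  refine ⟨t, h0, h1, ?_⟩
  rw [← ht]
  simp only [Complex.real_smul]
  rfl

theorem mem_seg_pt {a b : ℝ} {z : ℂ} (h : z ∈ segment ℝ (P.γ a) (P.γ b)) :
    ∃ t : ℝ, 0 ≤ t ∧ t ≤ 1 ∧ z = P.pt a b t := by
  rw [segment_eq_image'] at h
  obtain ⟨t, ⟨h0, h1⟩, ht⟩ := h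
  refine ⟨t, h0, h1, ?_⟩
  rw [← ht]
  simp only [Complex.real_smul]
  rfl

private theorem LBasic_comb (a b u v r : ℝ) :
    P.pt a b u + r • (P.pt a b v - P.pt a b u) = P.pt a b (u + r * (v - u)) := by
  unfold pt
  simp only [Complex.real_smul]
  push_cast
  ring

theorem pt_seg {a b u t v : ℝ} (h1 : u ≤ t) (h2 : t ≤ v) :
    P.pt a b t ∈ segment ℝ (P.pt a b u) (P.pt a b v) := by
  rcases (h1.trans h2).eq_or_lt with h | h
  · have : t = u := le_antisymm (by rw [h]; exact h2) h1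
    rw [this]
    exact left_mem_segment ℝ _ _
  · rw [segment_eq_image']
    refine ⟨(t - u) / (v - u), ⟨div_nonneg (by linarith) (by linarith), ?_⟩, ?_⟩
    · rw [div_le_one (by linarith)]
      linarith
    · dsimp only
      rw [P.LBasic_comb]
      have h3 : v - u ≠ 0 := by linarith
      congr 1
      field_simp
      ring

theorem pt_oseg {a b u t v : ℝ} (h1 : u < t) (h2 : t < v) :
    P.pt a b t ∈ openSegment ℝ (P.pt a b u) (P.pt a b v) := by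
  rw [openSegment_eq_image']
  refine ⟨(t - u) / (v - u), ⟨div_pos (by linarith) (by linarith), ?_⟩, ?_⟩
  · rw [div_lt_one (by linarith)]
    linarith
  · dsimp only
    rw [P.LBasic_comb]
    have h3 : v - u ≠ 0 := by linarith
    congr 1
    field_simp
    ring

theorem pt_inj {a b u v : ℝ} (hab : P.γ a ≠ P.γ b) (h : P.pt a b u = P.pt a b v) : u = v := by
  unfold pt at h
  have h1 : ((u - v : ℝ) : ℂ) * (P.γ b - P.γ a) = 0 := by
    push_cast
    linear_combination h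
  rcases mul_eq_zero.1 h1 with h2 | h2
  · have h3 : u - v = 0 := by exact_mod_cast h2
    linarith
  · exact absurd (sub_eq_zero.1 h2).symm hab

/-- `JJ` is convex -/
theorem JJ_conv (hc : P.CCW) {a b : ℝ} (hv : P.Vis (P.γ a) (P.γ b)) {X : Arc} (ia : (X.i : ℝ) ≤ X.a)
    (bi : X.b ≤ X.i + 1) {u v t : ℝ} (hu : u ∈ P.JJ X a b) (hv' : v ∈ P.JJ X a b) (h1 : u ≤ t)
    (h2 : t ≤ v) : t ∈ P.JJ X a b := by
  obtain ⟨u0, u1, s, hs, hsu⟩ := hu
  obtain ⟨v0, v1, s', hs', hsv⟩ := hv'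
  have e1 : X.a < s := hs.1
  have e2 : s < X.b := hs.2
  have e3 : X.a < s' := hs'.1
  have e4 : s' < X.b := hs'.2
  obtain ⟨σ, hσ, hσv⟩ := P.f2_chord hc hv (P.pt_mem_open u0 u1) (P.pt_mem_open v0 v1)
    (i := X.i) (s := s) (s' := s') (by linarith) (by linarith) (by linarith) (by linarith)
    hsu.symm hsv.symm _ (P.pt_seg h1 h2)
  refine ⟨by linarith, by linarith, σ, ⟨?_, ?_⟩, hσv.symm⟩
  · exact (lt_min e1 e3).trans_le hσ.1
  · exact hσ.2.trans_lt (max_lt e2 e4)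

/-- points seen by lit boundary points are lit -/
theorem JJ_lit {p : ℂ} {K : ℕ} {a b : ℝ} {X : Arc} (hX : X.s ⊆ P.Bp p K) {u : ℝ}
    (hu : u ∈ P.JJ X a b) : P.pt a b u ∈ P.VV p (K + 1) := by
  obtain ⟨_, _, x, hx, hxv⟩ := hu
  exact P.VV_of_vis (hX hx) hxv

/-- the `JJ`-set of an upper end is above the end -/
theorem UpEnd.lt {P : Poly n} (hc : P.CCW) {p : ℂ} {K : ℕ} {X : Arc} {a b t : ℝ}
    (hv : P.Vis (P.γ a) (P.γ b)) (hX : P.IsComp p K X) (h : P.UpEnd p K X a b t) {v : ℝ}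
    (hv' : v ∈ P.JJ X a b) : t < v := by
  by_contra hcon
  push Not at hcon
  obtain ⟨t', ht, _, hJ⟩ := h.acc
  have h1 := hJ ((t + t') / 2) (by linarith) (by linarith)
  have h2 := P.JJ_conv hc hv hX.ia hX.bi hv' h1 hcon (by linarith)
  exact h.dark (P.JJ_lit hX.sub h2)

theorem DnEnd.lt {P : Poly n} (hc : P.CCW) {p : ℂ} {K : ℕ} {X : Arc} {a b t : ℝ}
    (hv : P.Vis (P.γ a) (P.γ b)) (hX : P.IsComp p K X) (h : P.DnEnd p K X a b t) {v : ℝ}
    (hv' : v ∈ P.JJ X a b) : v < t := by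
  by_contra hcon
  push Not at hcon
  obtain ⟨t', _, ht, hJ⟩ := h.acc
  have h1 := hJ ((t + t') / 2) (by linarith) (by linarith)
  have h2 := P.JJ_conv hc hv hX.ia hX.bi h1 hv' (by linarith) hcon
  exact h.dark (P.JJ_lit hX.sub h2)

/-- two different upper ends: a dark parameter separates the `JJ`-sets -/
theorem UpEnd.sep {P : Poly n} (hc : P.CCW) {p : ℂ} {K : ℕ} {X1 X2 : Arc} {a b t1 t2 : ℝ}
    (hv : P.Vis (P.γ a) (P.γ b)) (hX1 : P.IsComp p K X1) (hX2 : P.IsComp p K X2)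
    (h1 : P.UpEnd p K X1 a b t1) (h2 : P.UpEnd p K X2 a b t2) (hlt : t1 < t2) :
    ∃ v1 ∈ P.JJ X1 a b, ∃ v2 ∈ P.JJ X2 a b, ∃ d : ℝ, v1 < d ∧ d < v2 ∧
      P.pt a b d ∉ P.VV p (K + 1) := by
  obtain ⟨t1', ht1, _, hJ1⟩ := h1.acc
  obtain ⟨t2', ht2, _, hJ2⟩ := h2.acc
  have e1 := min_le_left t1' t2
  have e2 := min_le_right t1' t2
  have e3 : t1 < min t1' t2 := lt_min ht1 hlt
  exact ⟨(t1 + min t1' t2) / 2, hJ1 _ (by linarith) (by linarith), (t2 + t2') / 2,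
    hJ2 _ (by linarith) (by linarith), t2, by linarith, by linarith, h2.dark⟩

theorem DnEnd.sep {P : Poly n} (hc : P.CCW) {p : ℂ} {K : ℕ} {X1 X2 : Arc} {a b t1 t2 : ℝ}
    (hv : P.Vis (P.γ a) (P.γ b)) (hX1 : P.IsComp p K X1) (hX2 : P.IsComp p K X2)
    (h1 : P.DnEnd p K X1 a b t1) (h2 : P.DnEnd p K X2 a b t2) (hlt : t1 < t2) :
    ∃ v1 ∈ P.JJ X1 a b, ∃ v2 ∈ P.JJ X2 a b, ∃ d : ℝ, v1 < d ∧ d < v2 ∧
      P.pt a b d ∉ P.VV p (K + 1) := by
  obtain ⟨t1', _, ht1, hJ1⟩ := h1.acc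
  obtain ⟨t2', _, ht2, hJ2⟩ := h2.acc
  have e1 := le_max_left t2' t1
  have e2 := le_max_right t2' t1
  have e3 : max t2' t1 < t2 := max_lt ht2 hlt
  exact ⟨(t1' + t1) / 2, hJ1 _ (by linarith) (by linarith), (max t2' t1 + t2) / 2,
    hJ2 _ (by linarith) (by linarith), t1, by linarith, by linarith, h1.dark⟩

/-- a chord from the arc `(a,b)` to the complementary arc crosses `W`; the crossing point sees both ends -/
theorem cross_W (hc : P.CCW) {a b x y : ℝ} (hw : P.Vis (P.γ a) (P.γ b)) (hax : a < x) (hxb : x < b)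
    (hby : b < y) (hya : y < a + n) (h : P.Vis (P.γ x) (P.γ y)) :
    ∃ u : ℝ, 0 < u ∧ u < 1 ∧ P.pt a b u ∈ openSegment ℝ (P.γ x) (P.γ y) ∧
      P.Vis (P.γ x) (P.pt a b u) ∧ P.Vis (P.γ y) (P.pt a b u) := by
  obtain ⟨c, h1, h2, _⟩ := P.cross_chords hc hax hxb hby hya hw h
  obtain ⟨u, u0, u1, rfl⟩ := P.mem_open_pt h1
  have hcI : P.pt a b u ∈ P.I := h.mem h2
  have hne : ∀ t : ℝ, P.γ t ≠ P.pt a b u := by
    intro t ht
    exact P.I_disj_C hcI (ht ▸ P.γ_mem_C t)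
  have hcs := openSegment_subset_segment ℝ _ _ h2
  exact ⟨u, u0, u1, h2, h.sub (left_mem_segment ℝ _ _) hcs (hne x),
    h.sub (right_mem_segment ℝ _ _) hcs (hne y)⟩

/-- dark points are not seen from lit boundary points -/
theorem not_Bp_of_dark {p : ℂ} {K : ℕ} {z : ℂ} (hz : z ∉ P.VV p (K + 1)) {x : ℝ}
    (h : P.Vis (P.γ x) z) : x ∉ P.Bp p K := by
  intro hx
  exact hz (P.VV_of_vis hx h)

end Poly

end Pool.Agent.Lib_PL
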