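import Pool.Agent.Lib_PLQ.DFib
import Pool.Agent.Lib_PLQ.LBasic

/-!
# D (2): a component (modulo shifts) and a chord determine the far point; counting the integers of a chord

`up_unique`, `dn_unique`: assume `t < t'`.  There are `u ∈ (t, t')` and `v ∈ (t', 1)` whose points see `γ x`, `γ y`, `x, y ∈ X.s` (same component; the shift does not matter, `seeA_sh`).
`f2` for the free chord (or `Vis.sub`, ...): the point `pt a b t'`, which is between `pt a b u` and `pt a b v`, sees a point `γ s`, `s ∈ [x,y] ⊆ X.s ⊆ Bp p K`: so it is in `VV p (K + 1)` (`VV_of_vis`), but it is dark.  Case `t' < t` symmetric.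
`nu_count`: the integers `i ∈ [⌈a⌉, ⌊b⌋]` are different modulo `n` (`b < a + n`), there is at least one, and `⌈b⌉ - ⌊a⌋ ≤ (⌊b⌋ - ⌈a⌉ + 1) + 1`.  The map `i ↦ (i % n).toNat` is injective into the filter.
-/

open Set Complex
open scoped Topology

namespace Pool.Agent.Lib_PL

namespace Poly

variable {n : ℕ} (P : Poly n)

private theorem DUniq_JJ_sh (X : Arc) (a b : ℝ) (m : ℤ) :
    P.JJ (X.sh (m * n)) a b = P.JJ X a b := by
  ext t
  constructor
  · rintro ⟨h0, h1, x, hx, hv⟩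
    rw [Arc.mem_sh] at hx
    refine ⟨h0, h1, _, hx, ?_⟩
    have e := P.γ_add_mul (x - ((m * (n : ℤ) : ℤ) : ℝ)) m
    have e2 : x - ((m * (n : ℤ) : ℤ) : ℝ) + m * n = x := by push_cast; ring
    rw [e2] at e
    rw [← e]
    exact hv
  · rintro ⟨h0, h1, x, hx, hv⟩
    refine ⟨h0, h1, x + m * n, ?_, ?_⟩
    · rw [Arc.mem_sh]
      have e : x + (m : ℝ) * n - ((m * (n : ℤ) : ℤ) : ℝ) = x := by push_cast; ring
      rw [e]
      exact hx
    · rw [P.γ_add_mul]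
      exact hv

private theorem DUniq_up (hc : P.CCW) {p : ℂ} {K : ℕ} {a b : ℝ} {X : Arc} {t t' : ℝ} {m m' : ℤ}
    (hv : P.Vis (P.γ a) (P.γ b)) (h : P.UpEnd p K (X.sh (m * n)) a b t)
    (hX' : P.IsComp p K (X.sh (m' * n)))
    (h' : P.UpEnd p K (X.sh (m' * n)) a b t') : t' ≤ t := by
  by_contra hlt
  rw [not_le] at hlt
  obtain ⟨s, hs1, -, hs3⟩ := h.acc
  obtain ⟨u, hu1, hu2⟩ := exists_between (lt_min hs1 hlt)
  have h1 := hs3 u hu1 (hu2.trans_le (min_le_left _ _))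
  rw [DUniq_JJ_sh, ← P.DUniq_JJ_sh X a b m'] at h1
  have h2 := h'.lt hc hv hX' h1
  exact absurd (hu2.trans_le (min_le_right _ _)) (not_lt.2 h2.le)

private theorem DUniq_dn (hc : P.CCW) {p : ℂ} {K : ℕ} {a b : ℝ} {X : Arc} {t t' : ℝ} {m m' : ℤ}
    (hv : P.Vis (P.γ a) (P.γ b)) (h : P.DnEnd p K (X.sh (m * n)) a b t)
    (hX' : P.IsComp p K (X.sh (m' * n)))
    (h' : P.DnEnd p K (X.sh (m' * n)) a b t') : t ≤ t' := by
  by_contra hlt
  rw [not_le] at hlt
  obtain ⟨s, -, hs1, hs3⟩ := h.acc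
  obtain ⟨u, hu1, hu2⟩ := exists_between (max_lt hs1 hlt)
  have h1 := hs3 u ((le_max_left _ _).trans_lt hu1) hu2
  rw [DUniq_JJ_sh, ← P.DUniq_JJ_sh X a b m'] at h1
  have h2 := h'.lt hc hv hX' h1
  exact absurd ((le_max_right _ _).trans_lt hu1) (not_lt.2 h2.le)

theorem up_unique (hc : P.CCW) {p : ℂ} {K : ℕ} {a b t t' : ℝ} {X : Arc} {m m' : ℤ}
    (hv : P.Vis (P.γ a) (P.γ b)) (hX : P.IsComp p K X) (h : P.UpEnd p K (X.sh (m * n)) a b t)
    (h' : P.UpEnd p K (X.sh (m' * n)) a b t') : t = t' :=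
  le_antisymm (P.DUniq_up hc hv h' (P.comp_sh m hX) h) (P.DUniq_up hc hv h (P.comp_sh m' hX) h')

theorem dn_unique (hc : P.CCW) {p : ℂ} {K : ℕ} {a b t t' : ℝ} {X : Arc} {m m' : ℤ}
    (hv : P.Vis (P.γ a) (P.γ b)) (hX : P.IsComp p K X) (h : P.DnEnd p K (X.sh (m * n)) a b t)
    (h' : P.DnEnd p K (X.sh (m' * n)) a b t') : t = t' :=
  le_antisymm (P.DUniq_dn hc hv h (P.comp_sh m' hX) h') (P.DUniq_dn hc hv h' (P.comp_sh m hX) h)

open Classical in
theorem nu_count {a b : ℝ} (hab : a < b) (hba : b < a + n) (hi : ∃ i : ℤ, a < i ∧ (i : ℝ) < b) :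
    (⌈b⌉ - ⌊a⌋).toNat ≤
      2 * ((Finset.range n).filter fun ν : ℕ => InMod n (Icc a b) (ν : ℝ)).card := by
  have hn : (0 : ℝ) < n := by linarith
  have hnz : (0 : ℤ) < n := by exact_mod_cast hn
  obtain ⟨i, hi1, hi2⟩ := hi
  have h1 : ⌈a⌉ ≤ i := Int.ceil_le.2 hi1.le
  have h2 : i ≤ ⌊b⌋ := Int.le_floor.2 hi2.le
  have h3 : ⌊b⌋ < ⌈a⌉ + n := by
    have e1 : (⌊b⌋ : ℝ) ≤ b := Int.floor_le b
    have e2 : a ≤ ⌈a⌉ := Int.le_ceil a
    have e3 : (⌊b⌋ : ℝ) < ⌈a⌉ + n := by linarith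
    exact_mod_cast e3
  have h4 : ⌈b⌉ ≤ ⌊b⌋ + 1 := Int.ceil_le_floor_add_one b
  have h5 : ⌈a⌉ ≤ ⌊a⌋ + 1 := Int.ceil_le_floor_add_one a
  have hcard : (Finset.Icc ⌈a⌉ ⌊b⌋).card ≤
      ((Finset.range n).filter fun ν : ℕ => InMod n (Icc a b) (ν : ℝ)).card := by
    refine Finset.card_le_card_of_injOn (fun j : ℤ => (j % n).toNat) ?_ ?_
    · intro j hj
      rw [Finset.coe_Icc] at hj
      have e1 := Int.emod_nonneg j hnz.ne'
      have e2 := Int.emod_lt_of_pos j hnz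
      rw [Finset.mem_coe, Finset.mem_filter, Finset.mem_range]
      refine ⟨by change (j % n).toNat < n; omega, j / n, ?_⟩
      change (((j % n).toNat : ℕ) : ℝ) + ((j / n : ℤ) : ℝ) * n ∈ Icc a b
      have e3 : (((j % n).toNat : ℕ) : ℝ) + ((j / n : ℤ) : ℝ) * n = j := by
        have e4 : (((j % n).toNat : ℕ) : ℤ) = j % n := Int.toNat_of_nonneg e1
        have e5 : (((j % n).toNat : ℕ) : ℤ) + (j / n) * n = j := by
          rw [e4]
          exact Int.emod_add_ediv_mul j n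
        exact_mod_cast e5
      rw [e3]
      exact ⟨Int.ceil_le.1 hj.1, Int.le_floor.1 hj.2⟩
    · intro j hj k hk hjk
      rw [Finset.coe_Icc] at hj hk
      have e1 := Int.emod_nonneg j hnz.ne'
      have e2 := Int.emod_nonneg k hnz.ne'
      have e3 : j % n = k % n := by
        have : ((j % n).toNat : ℤ) = ((k % n).toNat : ℤ) := by exact_mod_cast hjk
        rwa [Int.toNat_of_nonneg e1, Int.toNat_of_nonneg e2] at this
      have e4 : (n : ℤ) ∣ k - j := Int.ModEq.dvd e3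
      have e5 : k - j = 0 := by
        refine Int.eq_zero_of_abs_lt_dvd e4 ?_
        rw [abs_lt]
        constructor <;> linarith [hj.1, hj.2, hk.1, hk.2]
      linarith
  rw [Int.card_Icc] at hcard
  omega

end Poly

end Pool.Agent.Lib_PL
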