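import Pool.Agent.Lib_PLQ.Star

/-!
# B5: counting window data

`wd_total`: every chord contains an integer `i` in `(a,b)` (`chord_int`), `i ≡ ν` mod `n` with `0 ≤ ν < n`: `G ⊆ ⋃_{ν < n} {w | InMod n (Ioo w.1 w.2) ν}`, each of size `≤ cS K * n`.
`wd_at`: if `InMod n (Icc a b) ν` but not in `Ioo`: `ν + m n = a` (then `(a,b)` contains `ν + 1 + m n`: `b > a + 1` because both ends are not on one closed edge, `not_vis_edge`) or `ν + m n = b` (then `ν - 1 + m n ∈ (a,b)`).  So the chords are in the union of the three sets for `ν`, `ν + 1`, `ν - 1`.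
`wd_sum`: double counting (`Finset.sum_comm`, `Finset.sum_card_bipartiteAbove_eq_sum_card_bipartiteBelow`): sum over `ν < n` of `wd_at`.
-/

open Set Complex
open scoped Topology

namespace Pool.Agent.Lib_PL

namespace Poly

variable {n : ℕ} (P : Poly n)

theorem wd_total (hc : P.CCW) (p : ℂ) (K : ℕ) (G : Finset (ℝ × ℝ))
    (hG : ∀ w ∈ G, 0 ≤ w.1 ∧ w.1 < n ∧ ∃ X, P.WD p K X w.1 w.2) : G.card ≤ n * (cS K * n) := by
  classical
  have hn : (0 : ℤ) < n := by
    have := P.three_le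
    omega
  have hsub : G ⊆ (Finset.range n).biUnion
      (fun ν : ℕ => G.filter fun w => InMod n (Ioo w.1 w.2) ((ν : ℤ) : ℝ)) := by
    intro w hw
    obtain ⟨-, -, X, hX⟩ := hG w hw
    obtain ⟨i, hi1, hi2⟩ := P.chord_int hX.ab hX.vis
    have h1 : 0 ≤ i % (n : ℤ) := Int.emod_nonneg _ hn.ne'
    have h2 : i % (n : ℤ) < n := Int.emod_lt_of_pos _ hn
    rw [Finset.mem_biUnion]
    refine ⟨(i % (n : ℤ)).toNat, Finset.mem_range.2 (by omega), Finset.mem_filter.2 ⟨hw, i / n, ?_⟩⟩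
    have h3 : (((i % (n : ℤ)).toNat : ℕ) : ℤ) = i % (n : ℤ) := Int.toNat_of_nonneg h1
    have h4 : i % (n : ℤ) + i / n * n = i := by
      rw [mul_comm]
      exact Int.emod_add_mul_ediv i n
    have h5 : ((((i % (n : ℤ)).toNat : ℕ) : ℤ) : ℝ) + ((i / n : ℤ) : ℝ) * (n : ℝ) = (i : ℝ) := by
      rw [h3]
      exact_mod_cast h4
    rw [h5]
    exact ⟨hi1, hi2⟩
  calc G.card ≤ _ := Finset.card_le_card hsub
    _ ≤ (Finset.range n).card * (cS K * n) := by
        apply Finset.card_biUnion_le_card_mul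
        intro ν _
        apply P.star_count hc p K (ν : ℤ)
        intro w hw
        obtain ⟨hw, hm⟩ := Finset.mem_filter.1 hw
        obtain ⟨h0, h1, h2⟩ := hG w hw
        exact ⟨h0, h1, hm, h2⟩
    _ = n * (cS K * n) := by rw [Finset.card_range]

theorem wd_at (hc : P.CCW) (p : ℂ) (K : ℕ) (ν : ℤ) (G : Finset (ℝ × ℝ))
    (hG : ∀ w ∈ G, 0 ≤ w.1 ∧ w.1 < n ∧ InMod n (Icc w.1 w.2) ν ∧ ∃ X, P.WD p K X w.1 w.2) :
    G.card ≤ 3 * (cS K * n) := by
  classical
  have hsub : G ⊆ (G.filter fun w => InMod n (Ioo w.1 w.2) ((ν : ℤ) : ℝ)) ∪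
      ((G.filter fun w => InMod n (Ioo w.1 w.2) ((ν + 1 : ℤ) : ℝ)) ∪
      (G.filter fun w => InMod n (Ioo w.1 w.2) ((ν - 1 : ℤ) : ℝ))) := by
    intro w hw
    obtain ⟨-, -, ⟨m, hm1, hm2⟩, X, hX⟩ := hG w hw
    simp only [Finset.mem_union, Finset.mem_filter]
    have hab := hX.ab
    have hv := hX.vis
    have hc0 : (((ν + m * n : ℤ)) : ℝ) = (ν : ℝ) + (m : ℝ) * (n : ℝ) := by push_cast; ring
    rcases lt_or_eq_of_le hm1 with h1 | h1
    · rcases lt_or_eq_of_le hm2 with h2 | h2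
      · exact Or.inl ⟨hw, m, h1, h2⟩
      · refine Or.inr (Or.inr ⟨hw, m, ?_⟩)
        have h3 : w.1 < (ν : ℝ) + (m : ℝ) * (n : ℝ) - 1 := by
          by_contra hcon
          push Not at hcon
          refine P.not_vis_edge (ν + m * n - 1) (x := w.1) (y := w.2) ?_ ?_ ?_ ?_ hv
          · push_cast; linarith
          · push_cast; linarith
          · push_cast; linarith
          · push_cast; linarith
        constructor
        · push_cast; linarith
        · push_cast; linarith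
    · refine Or.inr (Or.inl ⟨hw, m, ?_⟩)
      have h3 : (ν : ℝ) + (m : ℝ) * (n : ℝ) + 1 < w.2 := by
        by_contra hcon
        push Not at hcon
        refine P.not_vis_edge (ν + m * n) (x := w.1) (y := w.2) ?_ ?_ ?_ ?_ hv
        · push_cast; linarith
        · push_cast; linarith
        · push_cast; linarith
        · push_cast; linarith
      constructor
      · push_cast; linarith
      · push_cast; linarith
  have key : ∀ μ : ℤ, (G.filter fun w => InMod n (Ioo w.1 w.2) ((μ : ℤ) : ℝ)).card ≤ cS K * n := by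
    intro μ
    apply P.star_count hc p K μ
    intro w hw
    obtain ⟨hw, hm⟩ := Finset.mem_filter.1 hw
    obtain ⟨h0, h1, -, h2⟩ := hG w hw
    exact ⟨h0, h1, hm, h2⟩
  have h1 := Finset.card_le_card hsub
  have h2 := Finset.card_union_le (G.filter fun w => InMod n (Ioo w.1 w.2) ((ν : ℤ) : ℝ))
    ((G.filter fun w => InMod n (Ioo w.1 w.2) ((ν + 1 : ℤ) : ℝ)) ∪
      (G.filter fun w => InMod n (Ioo w.1 w.2) ((ν - 1 : ℤ) : ℝ)))
  have h3 := Finset.card_union_le (G.filter fun w => InMod n (Ioo w.1 w.2) ((ν + 1 : ℤ) : ℝ))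
      (G.filter fun w => InMod n (Ioo w.1 w.2) ((ν - 1 : ℤ) : ℝ))
  have k1 := key ν
  have k2 := key (ν + 1)
  have k3 := key (ν - 1)
  omega

open Classical in
theorem wd_sum (hc : P.CCW) (p : ℂ) (K : ℕ) (G : Finset (ℝ × ℝ))
    (hG : ∀ w ∈ G, 0 ≤ w.1 ∧ w.1 < n ∧ ∃ X, P.WD p K X w.1 w.2) :
    ∑ w ∈ G, ((Finset.range n).filter fun ν : ℕ => InMod n (Icc w.1 w.2) (ν : ℝ)).card ≤
      n * (3 * (cS K * n)) := by
  have hcomm : ∑ w ∈ G, ((Finset.range n).filter fun ν : ℕ => InMod n (Icc w.1 w.2) (ν : ℝ)).card =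
      ∑ ν ∈ Finset.range n, (G.filter fun w => InMod n (Icc w.1 w.2) (ν : ℝ)).card := by
    simp_rw [Finset.card_filter]
    exact Finset.sum_comm
  rw [hcomm]
  calc ∑ ν ∈ Finset.range n, (G.filter fun w => InMod n (Icc w.1 w.2) (ν : ℝ)).card
      ≤ ∑ _ν ∈ Finset.range n, 3 * (cS K * n) := by
        apply Finset.sum_le_sum
        intro ν _
        apply P.wd_at hc p K (ν : ℤ)
        intro w hw
        obtain ⟨hw, hm⟩ := Finset.mem_filter.1 hw
        obtain ⟨h0, h1, h2⟩ := hG w hw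
        refine ⟨h0, h1, ?_, h2⟩
        simpa using hm
    _ = n * (3 * (cS K * n)) := by
        rw [Finset.sum_const, Finset.card_range, smul_eq_mul]

end Poly

end Pool.Agent.Lib_PL
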