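import Pool.Agent.Lib_PLQ.DUniq
import Pool.Agent.Lib_PLQ.WDCount

/-!
# D: far points, first class: chords with `ν` in `[a,b]`

`(A z, B z)` is the chord of `z = pt (A z) (B z) (t z)`.  The chords `G = Z.image (fun z => (A z, B z))` are at most `3 * (cS K * n)` (`wd_at`); on the fibre of a chord `(a,b)` the function `t` is injective; `fib_thmB` for the image.
`Finset.card_le_mul_card_image` or `Finset.card_eq_sum_card_fiberwise`.
-/

open Set Complex
open scoped Topology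

namespace Pool.Agent.Lib_PL

namespace Poly

variable {n : ℕ} (P : Poly n)

theorem far_z1 (hc : P.CCW) (p : ℂ) (K : ℕ) (ν : ℤ) (Z : Finset ℂ) (A B t : ℂ → ℝ) (X : ℂ → Arc)
    (hZ : ∀ z ∈ Z, P.FU p K (A z) (B z) (X z) (t z) ∧ z = P.pt (A z) (B z) (t z) ∧
      InMod n (Icc (A z) (B z)) ν) :
    Z.card ≤ 3 * (cS K * n) * (2 * (cB (K + 1) * n)) := by
  classical
  have hG : (Z.image fun z => (A z, B z)).card ≤ 3 * (cS K * n) := by
    apply P.wd_at hc p K ν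
    intro w hw
    obtain ⟨z, hz, rfl⟩ := Finset.mem_image.1 hw
    obtain ⟨h1, -, h3⟩ := hZ z hz
    exact ⟨h1.a0, h1.an, h3, h1.wd⟩
  have hF : ∀ g ∈ Z.image (fun z => (A z, B z)),
      (Z.filter fun z => (A z, B z) = g).card ≤ 2 * (cB (K + 1) * n) := by
    intro g hg
    obtain ⟨z₀, hz₀, rfl⟩ := Finset.mem_image.1 hg
    obtain ⟨h0, -, -⟩ := hZ z₀ hz₀
    obtain ⟨X', hX'⟩ := h0.wd
    have hinj : Set.InjOn t (Z.filter fun z => (A z, B z) = (A z₀, B z₀) : Finset ℂ) := by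
      intro z hz z' hz' hzz
      have hz1 := Finset.mem_filter.1 (Finset.mem_coe.1 hz)
      have hz2 := Finset.mem_filter.1 (Finset.mem_coe.1 hz')
      obtain ⟨e1, e2⟩ := Prod.mk.injEq _ _ _ _ ▸ hz1.2
      obtain ⟨e3, e4⟩ := Prod.mk.injEq _ _ _ _ ▸ hz2.2
      rw [(hZ z hz1.1).2.1, (hZ z' hz2.1).2.1, e1, e2, e3, e4, hzz]
    rw [← Finset.card_image_of_injOn hinj]
    apply P.fib_thmB hc (p := p) (K := K) hX'.vis
    intro s hs
    obtain ⟨z, hz, rfl⟩ := Finset.mem_image.1 hs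
    obtain ⟨hz1, hz2⟩ := Finset.mem_filter.1 hz
    obtain ⟨e1, e2⟩ := Prod.mk.injEq _ _ _ _ ▸ hz2
    have h1 := (hZ z hz1).1
    rw [e1, e2] at h1
    exact ⟨X z, h1.Xc, h1.fin⟩
  have h := Finset.card_le_mul_card_image Z _ hF
  calc Z.card ≤ 2 * (cB (K + 1) * n) * (Z.image fun z => (A z, B z)).card := h
    _ ≤ 2 * (cB (K + 1) * n) * (3 * (cS K * n)) := Nat.mul_le_mul_left _ hG
    _ = 3 * (cS K * n) * (2 * (cB (K + 1) * n)) := Nat.mul_comm _ _

end Poly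

end Pool.Agent.Lib_PL
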