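import Pool.Agent.Lib_PLQ.LDefs

/-!
B1: number of components of `Bp p K` whose core is cornered, of level `0`, or good for the viewer `V ν`.

Proof: exactly as `TypeA_main` / `thmA` (file Lib_PL/TypeA.lean) without the hypothesis that `V ν` sees the components.  Cornered ones: `cornered_count`.  For the
others `F = G.image (core K)`, `rec_step` with `Ω = {ν}`, `MM = {{V ν}}`, `K' = K`, `L = K`, `N = c2 K 1 K * n` (`rec2`) and `a = 0`: a hooked item is not good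
(`hookL_not_good`, `hookR_not_good`), so `G = ∅` in `hL`, `hR`.
-/

open Set Complex
open scoped Topology

namespace Pool.Agent.Lib_PL

/-- constant of B1 -/
def cG (K : ℕ) : ℕ := 2 + 1 + (K + 1) * 2 * (2 + c2 K 1 K)

namespace Poly

variable {n : ℕ} (P : Poly n)

private theorem GoodCount_mem {S : Arc} {t : ℤ} {σ : ℝ} (hS : (S.i : ℝ) ≤ S.a)
    (hS' : S.b ≤ S.i + 1) (hσ : σ ∈ (S.sh t).s) :
    (((S.sh t).i : ℤ) : ℝ) < σ ∧ σ < (((S.sh t).i : ℤ) : ℝ) + 1 := by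
  have e1 : (S.sh t).i = S.i + t := rfl
  have e2 : (S.sh t).a = S.a + t := rfl
  have e3 : (S.sh t).b = S.b + t := rfl
  have h1 : (S.sh t).a < σ := hσ.1
  have h2 : σ < (S.sh t).b := hσ.2
  rw [e2] at h1
  rw [e3] at h2
  rw [e1, Int.cast_add]
  constructor <;> linarith

/-- a hooked item is not good (`S` may be shifted) -/
theorem hookL_not_good (hc : P.CCW) {S Y : Arc} {M : Set ℂ} (hM : M.Nonempty) {m : ℤ}
    (h : P.HookL (S.sh (m * n)) Y M) (hS : (S.i : ℝ) ≤ S.a) (hS' : S.b ≤ S.i + 1)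
    (ij : (S.sh (m * n)).i < Y.i) (ji : Y.i < (S.sh (m * n)).i + n) : ¬ P.Good M S Y.i := by
  intro hg
  have hg' := P.good_sh m 0 hg
  rw [zero_mul, add_zero] at hg'
  obtain ⟨σ, hσ, g, g1, g2, g3, g4, g5⟩ := h
  obtain ⟨s1, s2⟩ := GoodCount_mem hS hS' hσ
  have ij' : (((S.sh (m * n)).i : ℤ) : ℝ) + 1 ≤ (Y.i : ℝ) := by exact_mod_cast ij
  have ji' : ((Y.i : ℤ) : ℝ) + 1 ≤ (((S.sh (m * n)).i : ℤ) : ℝ) + n := by exact_mod_cast ji
  have hσg : σ < g := by linarith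
  have hgσ : g < σ + n := by linarith
  have h2 := (hg' σ g hσ g3 hσg hgσ g4 0).2 (by push_cast; linarith) (by push_cast; linarith)
  obtain ⟨z, hz⟩ := hM
  exact Set.disjoint_left.1 (P.side_disj hc hσg hgσ g4) (g5 hz) (h2 hz)

theorem hookR_not_good (hc : P.CCW) {S Y : Arc} {M : Set ℂ} (hM : M.Nonempty) {m : ℤ}
    (h : P.HookR (S.sh (m * n)) Y M) (hS : (S.i : ℝ) ≤ S.a) (hS' : S.b ≤ S.i + 1)
    (ij : (S.sh (m * n)).i < Y.i) (ji : Y.i < (S.sh (m * n)).i + n) : ¬ P.Good M S Y.i := by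
  intro hg
  have hg' := P.good_sh m 0 hg
  rw [zero_mul, add_zero] at hg'
  obtain ⟨σ, hσ, g, g1, g2, g3, g4, g5⟩ := h
  obtain ⟨s1, s2⟩ := GoodCount_mem hS hS' hσ
  have ij' : (((S.sh (m * n)).i : ℤ) : ℝ) + 1 ≤ (Y.i : ℝ) := by exact_mod_cast ij
  have ji' : ((Y.i : ℤ) : ℝ) + 1 ≤ (((S.sh (m * n)).i : ℤ) : ℝ) + n := by exact_mod_cast ji
  have hσg : σ < g := by linarith
  have hgσ : g < σ + n := by linarith
  have h2 := (hg' σ g hσ g3 hσg hgσ g4 0).1 (by push_cast; linarith) (by push_cast; linarith)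
  obtain ⟨z, hz⟩ := hM
  exact Set.disjoint_left.1 (P.side_disj hc hσg hgσ g4) (h2 hz) (g5 hz)

private theorem GoodCount_main (hc : P.CCW) {p : ℂ} {par core : ℕ → Arc → Arc}
    {lev : ℕ → Arc → ℕ} (hpar : P.PRule p par) (hcore : P.CRule p core lev) (K : ℕ) (ν : ℤ)
    (G : Finset Arc)
    (hG : ∀ A ∈ G, P.IsComp p K A ∧ 0 ≤ A.i ∧ A.i < n ∧ ¬ A.Cornered ∧ (lev K A = 0 ∨
      ∃ l, lev K A = l + 1 ∧ P.Good {P.V ν} (par l (core K A)) A.i)) :
    G.card ≤ n + 2 * 0 + (K + 1) * (2 * 1) * (2 * n + c2 K 1 K * n) := by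
  classical
  -- the core of a component determines the component
  have hinj : ∀ A ∈ G, ∀ B ∈ G, core K A = core K B → A = B := by
    intro A hA B hB hAB
    obtain ⟨-, hex, hsub, -, -⟩ := hcore.ex K A (hG A hA).1
    obtain ⟨-, -, hsub', -, -⟩ := hcore.ex K B (hG B hB).1
    have hab := hex.1.ab
    have hm : ((core K A).a + (core K A).b) / 2 ∈ (core K A).s :=
      ⟨by linarith, by linarith⟩
    have hm' := hm
    rw [hAB] at hm'
    exact P.comp_unique (hG A hA).1 (hG B hB).1 (hsub hm) (by rw [hAB]; exact hsub' hm')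
  set F : Finset Arc := G.image (core K) with hF
  have hcard : F.card = G.card := Finset.card_image_of_injOn fun A hA B hB h => hinj A hA B hB h
  have hex : ∀ Y, ∃ A, Y ∈ F → A ∈ G ∧ core K A = Y := by
    intro Y
    by_cases hY : Y ∈ F
    · obtain ⟨A, hA, hAY⟩ := Finset.mem_image.1 hY
      exact ⟨A, fun _ => ⟨hA, hAY⟩⟩
    · exact ⟨Y, fun h => absurd h hY⟩
  choose Xf hXf using hex
  have hrep : ∀ S : Arc, ∀ l, P.IsComp p l S → P.Rep {P.V ν} S (ν : ℝ) := by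
    intro S l hS
    exact P.rep_vertex hc ν hS.ia hS.bi
  have hM : ∀ M ∈ ({{P.V ν}} : Set (Set ℂ)), M.Nonempty ∧ ∀ l, l + 1 ≤ K → ∀ S, P.IsComp p l S →
      ∃ ω ∈ ({(ν : ℝ)} : Finset ℝ), P.Rep M S ω := by
    intro M hM
    rw [mem_singleton_iff] at hM
    rw [hM]
    exact ⟨singleton_nonempty _, fun l _ S hS => ⟨ν, Finset.mem_singleton_self _, hrep S l hS⟩⟩
  have hΩ : ∀ ω ∈ ({(ν : ℝ)} : Finset ℝ), ∀ ω' ∈ ({(ν : ℝ)} : Finset ℝ), ω ≠ ω' →
      P.Vis (P.γ ω) (P.γ ω') := by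
    intro ω hω ω' hω' hne
    rw [Finset.mem_singleton] at hω hω'
    exact absurd (hω.trans hω'.symm) hne
  have hN : ∀ H : Finset Arc, (∀ Y ∈ H, P.Item2 p par core lev {{P.V ν}} K K Y) →
      H.card ≤ c2 K 1 K * n := by
    intro H hH
    have := P.rec2 hc hpar hcore {(ν : ℝ)} hΩ {{P.V ν}} K hM K H hH
    rwa [Finset.card_singleton] at this
  -- an item of positive level is good
  have hgood : ∀ Y ∈ F, ∀ l, lev K (Xf Y) = l + 1 → P.Good {P.V ν} (par l Y) Y.i ∧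
      P.IsComp p l (par l Y) := by
    intro Y hY l hl
    obtain ⟨hXG, hXY⟩ := hXf Y hY
    obtain ⟨hXcomp, hX0, hXn, hXc, hXg⟩ := hG _ hXG
    obtain ⟨-, hYex, -, hYi, -⟩ := hcore.ex K (Xf Y) hXcomp
    rw [hXY] at hYex hYi
    rw [hl] at hYex
    rcases hXg with h0 | ⟨l', hl', hg⟩
    · rw [h0] at hl
      exact absurd hl (Nat.succ_ne_zero l).symm
    · rw [hl] at hl'
      have e : l = l' := Nat.succ_injective hl'
      subst e
      rw [hXY, ← hYi] at hg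
      exact ⟨hg, hpar.comp l Y hYex⟩
  have hstep := P.rec_step hc hpar hcore {(ν : ℝ)} {{P.V ν}} K K hM (c2 K 1 K * n) 0 hN F
    (fun Y => lev K (Xf Y)) (fun _ => {P.V ν}) ?_ ?_ ?_
  · rw [Finset.card_singleton, hcard] at hstep
    exact hstep
  · intro Y hY
    obtain ⟨hXG, hXY⟩ := hXf Y hY
    obtain ⟨hXcomp, hX0, hXn, hXc, -⟩ := hG _ hXG
    obtain ⟨hle, hYex, -, hYi, hYc⟩ := hcore.ex K (Xf Y) hXcomp
    rw [hXY] at hYex hYi hYc
    refine ⟨by rw [hYi]; exact hX0, by rw [hYi]; exact hXn, hYc hXc, hYex, ?_, hle, rfl⟩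
    exact hle.trans (Nat.le_succ K)
  · intro H hHF hH
    rw [Nat.le_zero, Finset.card_eq_zero, Finset.eq_empty_iff_forall_notMem]
    intro Y hY
    obtain ⟨l, hl, m, h1, h2, hk⟩ := hH Y hY
    obtain ⟨d1, d2⟩ := hgood Y (hHF hY) l hl
    exact P.hookL_not_good hc (singleton_nonempty _) hk d2.ia d2.bi h1 h2 d1
  · intro H hHF hH
    rw [Nat.le_zero, Finset.card_eq_zero, Finset.eq_empty_iff_forall_notMem]
    intro Y hY
    obtain ⟨l, hl, m, h1, h2, hk⟩ := hH Y hY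
    obtain ⟨d1, d2⟩ := hgood Y (hHF hY) l hl
    exact P.hookR_not_good hc (singleton_nonempty _) hk d2.ia d2.bi h1 h2 d1

theorem good_count (hc : P.CCW) {p : ℂ} {par core : ℕ → Arc → Arc} {lev : ℕ → Arc → ℕ}
    (hpar : P.PRule p par) (hcore : P.CRule p core lev) (K : ℕ) (ν : ℤ) (G : Finset Arc)
    (hG : ∀ A ∈ G, P.IsComp p K A ∧ 0 ≤ A.i ∧ A.i < n ∧ (A.Cornered ∨ lev K A = 0 ∨
      ∃ l, lev K A = l + 1 ∧ P.Good {P.V ν} (par l (core K A)) A.i)) :
    G.card ≤ cG K * n := by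
  classical
  have hc1 : (G.filter fun A => A.Cornered).card ≤ 2 * n := by
    refine P.cornered_count (p := p) (k := K) _ ?_
    intro A hA
    obtain ⟨hA1, hA2⟩ := Finset.mem_filter.1 hA
    obtain ⟨h2, h3, h4, -⟩ := hG A hA1
    exact ⟨h2, hA2, h3, h4⟩
  have hc2 := P.GoodCount_main hc hpar hcore K ν (G.filter fun A => ¬ A.Cornered) (by
    intro A hA
    obtain ⟨hA1, hA2⟩ := Finset.mem_filter.1 hA
    obtain ⟨h2, h3, h4, h5⟩ := hG A hA1
    exact ⟨h2, h3, h4, hA2, h5.resolve_left hA2⟩)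
  have hsum := Finset.card_filter_add_card_filter_not (s := G) (fun A : Arc => A.Cornered)
  rw [← hsum]
  refine (add_le_add hc1 hc2).trans (le_of_eq ?_)
  unfold cG
  ring

end Poly

end Pool.Agent.Lib_PL
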