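import Pool.Agent.Lib_PLQ.DUniq
import Pool.Agent.Lib_PLQ.WDCount
import Pool.Agent.Lib_PLQ.GoodCount

/-!
# D: far points, second class: the component is cornered, of level `0`, or good

`(A z, B z)` is the chord and `(X z).sh (m z * n)` the component of `z = pt (A z) (B z) (t z)`.  The components `Z.image X` are at most `cG K * n` (`good_count`).  The fibre of `X₀`: split it into the upper ends (`UpEnd`) and the lower ends (`DnEnd`); on each of the two `z ↦ (A z, B z)` is injective (`up_unique`, `dn_unique`), and the chord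
contains the shifted component (`FU.Xs`), so by `chord_arc` (`X₀.i + m n` or `X₀.i + 1 + m n` in `(A z, B z)`) it is in the union of the two sets of `star_count` for `ν' = X₀.i` and `ν' = X₀.i + 1`: at most `2 * (cS K * n)` chords.
-/

open Set Complex
open scoped Topology

namespace Pool.Agent.Lib_PL

namespace Poly

variable {n : ℕ} (P : Poly n)

theorem far_z2 (hc : P.CCW) {p : ℂ} {par core : ℕ → Arc → Arc} {lev : ℕ → Arc → ℕ}
    (hpar : P.PRule p par) (hcore : P.CRule p core lev) (K : ℕ) (ν : ℤ) (Z : Finset ℂ)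
    (A B t : ℂ → ℝ) (X : ℂ → Arc) (m : ℂ → ℤ)
    (hZ : ∀ z ∈ Z, P.FU p K (A z) (B z) ((X z).sh (m z * n)) (t z) ∧
      z = P.pt (A z) (B z) (t z) ∧ P.IsComp p K (X z) ∧
      0 ≤ (X z).i ∧ (X z).i < n ∧ ((X z).Cornered ∨ lev K (X z) = 0 ∨
        ∃ l, lev K (X z) = l + 1 ∧ P.Good {P.V ν} (par l (core K (X z))) (X z).i)) :
    Z.card ≤ cG K * n * (2 * (2 * (cS K * n))) := by
  classical
  have h1 : (Z.image X).card ≤ cG K * n := by
    refine P.good_count hc hpar hcore K ν (Z.image X) ?_
    intro Y hY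
    obtain ⟨z, hz, rfl⟩ := Finset.mem_image.1 hY
    exact (hZ z hz).2.2
  have key : ∀ (X₀ : Arc) (F : Finset ℂ), (∀ z ∈ F, z ∈ Z ∧ X z = X₀) →
      Set.InjOn (fun z => (A z, B z)) F → F.card ≤ 2 * (cS K * n) := by
    intro X₀ F hF hinjOn
    have hinj : (F.image fun z => (A z, B z)).card = F.card :=
      Finset.card_image_of_injOn hinjOn
    set G := F.image fun z => (A z, B z) with hG
    have hcov : G ⊆ (G.filter fun w => InMod n (Ioo w.1 w.2) ((X₀.i : ℤ) : ℝ)) ∪
        (G.filter fun w => InMod n (Ioo w.1 w.2) ((X₀.i + 1 : ℤ) : ℝ)) := by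
      intro w hw
      obtain ⟨z, hz, hzw⟩ := Finset.mem_image.1 hw
      have hz1 := hF z hz
      have a1 := (hZ z hz1.1).1
      rw [hz1.2] at a1
      obtain ⟨X', hX'⟩ := a1.wd
      have hh := P.chord_arc hX'.ab hX'.vis a1.Xc.ia a1.Xc.ab a1.Xc.bi a1.Xs
      have hi : (((X₀.sh (m z * n)).i : ℤ) : ℝ) = (X₀.i : ℝ) + (m z : ℝ) * (n : ℝ) := by
        show (((X₀.i + m z * n : ℤ)) : ℝ) = _
        push_cast
        ring
      rw [hi] at hh
      subst hzw
      rcases hh with hh | hh
      · refine Finset.mem_union_left _ (Finset.mem_filter.2 ⟨hw, m z, ?_, ?_⟩)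
        · exact hh.1
        · exact hh.2
      · refine Finset.mem_union_right _ (Finset.mem_filter.2 ⟨hw, m z, ?_, ?_⟩)
        · push_cast
          show A z < _
          linarith [hh.1]
        · push_cast
          show _ < B z
          linarith [hh.2]
    have hbase : ∀ w ∈ G, 0 ≤ w.1 ∧ w.1 < n ∧ ∃ X, P.WD p K X w.1 w.2 := by
      intro w hw
      obtain ⟨z, hz, hzw⟩ := Finset.mem_image.1 hw
      have a1 := (hZ z (hF z hz).1).1
      subst hzw
      exact ⟨a1.a0, a1.an, a1.wd⟩
    have hs : ∀ ν' : ℤ, (G.filter fun w => InMod n (Ioo w.1 w.2) (ν' : ℝ)).card ≤ cS K * n := by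
      intro ν'
      refine P.star_count hc p K ν' _ ?_
      intro w hw
      have hw' := Finset.mem_filter.1 hw
      have hb := hbase w hw'.1
      exact ⟨hb.1, hb.2.1, hw'.2, hb.2.2⟩
    calc F.card = G.card := hinj.symm
      _ ≤ _ := Finset.card_le_card hcov
      _ ≤ _ := Finset.card_union_le _ _
      _ ≤ cS K * n + cS K * n := Nat.add_le_add (hs _) (hs _)
      _ = 2 * (cS K * n) := by ring
  have h2 : ∀ X₀ ∈ Z.image X, (Z.filter fun z => X z = X₀).card ≤ 2 * (2 * (cS K * n)) := by
    intro X₀ _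
    set F := Z.filter fun z => X z = X₀ with hF
    have hmem : ∀ z ∈ F, z ∈ Z ∧ X z = X₀ := fun z hz => Finset.mem_filter.1 hz
    have hU := key X₀ (F.filter fun z => P.UpEnd p K (X₀.sh (m z * n)) (A z) (B z) (t z))
      (fun z hz => hmem z (Finset.mem_filter.1 hz).1) (by
        intro z hz z' hz' hzz
        have hz1 := Finset.mem_filter.1 (Finset.mem_coe.1 hz)
        have hz2 := Finset.mem_filter.1 (Finset.mem_coe.1 hz')
        have hA : A z = A z' := congrArg Prod.fst hzz
        have hB : B z = B z' := congrArg Prod.snd hzz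
        obtain ⟨a1, e1, c1, -⟩ := hZ z (hmem z hz1.1).1
        obtain ⟨-, e2, -⟩ := hZ z' (hmem z' hz2.1).1
        rw [(hmem z hz1.1).2] at c1
        obtain ⟨X', hX'⟩ := a1.wd
        have u1 := hz1.2
        have u2 := hz2.2
        rw [← hA, ← hB] at u2
        rw [← hA, ← hB] at e2
        have h := P.up_unique hc hX'.vis c1 u1 u2
        rw [e1, e2, h])
    have hD := key X₀ (F.filter fun z => P.DnEnd p K (X₀.sh (m z * n)) (A z) (B z) (t z))
      (fun z hz => hmem z (Finset.mem_filter.1 hz).1) (by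
        intro z hz z' hz' hzz
        have hz1 := Finset.mem_filter.1 (Finset.mem_coe.1 hz)
        have hz2 := Finset.mem_filter.1 (Finset.mem_coe.1 hz')
        have hA : A z = A z' := congrArg Prod.fst hzz
        have hB : B z = B z' := congrArg Prod.snd hzz
        obtain ⟨a1, e1, c1, -⟩ := hZ z (hmem z hz1.1).1
        obtain ⟨-, e2, -⟩ := hZ z' (hmem z' hz2.1).1
        rw [(hmem z hz1.1).2] at c1
        obtain ⟨X', hX'⟩ := a1.wd
        have u1 := hz1.2
        have u2 := hz2.2
        rw [← hA, ← hB] at u2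
        rw [← hA, ← hB] at e2
        have h := P.dn_unique hc hX'.vis c1 u1 u2
        rw [e1, e2, h])
    have hcov : F ⊆ (F.filter fun z => P.UpEnd p K (X₀.sh (m z * n)) (A z) (B z) (t z)) ∪
        (F.filter fun z => P.DnEnd p K (X₀.sh (m z * n)) (A z) (B z) (t z)) := by
      intro z hz
      have a1 := (hZ z (hmem z hz).1).1
      rw [(hmem z hz).2] at a1
      rcases a1.fin with h | h
      · exact Finset.mem_union_left _ (Finset.mem_filter.2 ⟨hz, h⟩)
      · exact Finset.mem_union_right _ (Finset.mem_filter.2 ⟨hz, h⟩)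
    calc F.card ≤ _ := Finset.card_le_card hcov
      _ ≤ _ := Finset.card_union_le _ _
      _ ≤ 2 * (cS K * n) + 2 * (cS K * n) := Nat.add_le_add hU hD
      _ = 2 * (2 * (cS K * n)) := by ring
  calc Z.card ≤ (2 * (2 * (cS K * n))) * (Z.image X).card :=
        Finset.card_le_mul_card_image Z _ h2
    _ ≤ (2 * (2 * (cS K * n))) * (cG K * n) := Nat.mul_le_mul_left _ h1
    _ = cG K * n * (2 * (2 * (cS K * n))) := by ring

end Poly

end Pool.Agent.Lib_PL
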