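import Pool.Agent.Lib_PLQ.LCountL

/-!
The local lemma: right hooked items by reflection (`P.mir`, positions `x ↦ n - x`, parameters `t ↦ 1 - t`, `S.mir`, `X.mir.sh n`, viewer `-ν`), and the final count.

Compare Lib_PL/HookR.lean (`hbase_mir`, `hookR_mir`, `t1a_countR`).  `local_count`: four classes (left/right hooked, upper/lower end); `UpEnd.sep`, `DnEnd.sep`.
-/

open Set Complex
open scoped Topology
open scoped ComplexConjugate

namespace Pool.Agent.Lib_PL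

namespace Poly

variable {n : ℕ} (P : Poly n)

private theorem LCountR_mem (A : Arc) (x : ℝ) : x ∈ (A.mir.sh (n : ℤ)).s ↔ (n : ℝ) - x ∈ A.s := by
  rw [Arc.mem_sh, mir_mem]
  have e : -(x - (((n : ℤ)) : ℝ)) = (n : ℝ) - x := by push_cast; ring
  rw [e]

private theorem LCountR_γ (x : ℝ) : P.mir.γ x = conj (P.γ (n - x)) := by
  rw [P.mir_γ]
  have e : (n : ℝ) - x = -x + n := by ring
  rw [e, P.γ_add_n]

private theorem LCountR_γn (x : ℝ) : P.mir.γ (n - x) = conj (P.γ x) := by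
  rw [P.LCountR_γ]
  congr 2
  ring

private theorem LCountR_vis (z w : ℂ) : P.mir.Vis (conj z) (conj w) ↔ P.Vis z w := by
  rw [P.mir_Vis, Complex.conj_conj, Complex.conj_conj]

private theorem LCountR_V (ν : ℤ) : P.mir.V (-ν) = conj (P.V ν) := by
  change conj (P.V (- -ν)) = conj (P.V ν)
  rw [neg_neg]

private theorem LCountR_Bp (p : ℂ) (K : ℕ) (x : ℝ) : (n : ℝ) - x ∈ P.mir.Bp (conj p) K ↔ x ∈ P.Bp p K := by
  rw [P.mir_Bp]
  have e : -((n : ℝ) - x) = x + ((-1 : ℤ) : ℝ) * n := by push_cast; ring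
  rw [e, P.Bp_add]

theorem pt_mir {a b t : ℝ} : P.mir.pt (n - b) (n - a) (1 - t) = conj (P.pt a b t) := by
  unfold pt
  rw [P.LCountR_γn, P.LCountR_γn, map_add, map_mul, map_sub, Complex.conj_ofReal]
  push_cast
  ring

theorem JJ_mir {a b t : ℝ} {X : Arc} :
    1 - t ∈ P.mir.JJ (X.mir.sh n) (n - b) (n - a) ↔ t ∈ P.JJ X a b := by
  constructor
  · rintro ⟨h0, h1, x, hx, hv⟩
    refine ⟨by linarith, by linarith, n - x, (LCountR_mem X x).1 hx, ?_⟩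
    rw [P.LCountR_γ, P.pt_mir, P.LCountR_vis] at hv
    exact hv
  · rintro ⟨h0, h1, x, hx, hv⟩
    refine ⟨by linarith, by linarith, n - x, (LCountR_mem X _).2 ?_, ?_⟩
    · rw [sub_sub_cancel]
      exact hx
    · rw [P.LCountR_γn, P.pt_mir, P.LCountR_vis]
      exact hv

theorem lchord_mir {p : ℂ} {K : ℕ} {ν : ℤ} {a b : ℝ} (h : P.LChord p K ν a b) :
    P.mir.LChord (conj p) K (-ν) (n - b) (n - a) := by
  refine ⟨by linarith [h.ab], by linarith [h.ba], ?_, ?_, ?_, ?_⟩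
  · rw [P.LCountR_γn, P.LCountR_γn, P.LCountR_vis]
    exact h.vis.symm
  · rw [P.LCountR_Bp]
    exact h.nb
  · rw [P.LCountR_Bp]
    exact h.na
  · rintro m ⟨h1, h2⟩
    apply h.nν (1 - m)
    push_cast at h1 h2 ⊢
    constructor
    · linarith
    · linarith

theorem litem_mir {p : ℂ} {K : ℕ} {ν : ℤ} {S X : Arc} (h : P.LItem p K ν S X) :
    P.mir.LItem (conj p) K (-ν) S.mir (X.mir.sh n) := by
  refine ⟨?_, ?_, ?_⟩
  · have hb := P.hbase_mir h.hb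
    rw [Finset.image_singleton, Set.image_singleton, ← P.LCountR_V] at hb
    have e : (((-ν : ℤ)) : ℝ) = -(ν : ℝ) := by push_cast; ring
    rw [e]
    exact hb
  · have h1 := P.mir.comp_sh 1 (P.mir_IsComp h.Xc)
    rw [one_mul] at h1
    exact h1
  · obtain ⟨l, hl, hS⟩ := h.Sc
    exact ⟨l, hl, P.mir_IsComp hS⟩

theorem countR_gen (hc : P.CCW) {p : ℂ} {K : ℕ} {ν : ℤ} {a b : ℝ} (hw : P.LChord p K ν a b)
    (T : Finset ℝ) (S X : ℝ → Arc)
    (hT : ∀ t ∈ T, P.LItem p K ν (S t) (X t) ∧ (X t).s ⊆ Ioo a b ∧ P.HookR (S t) (X t) {P.V ν} ∧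
      (P.JJ (X t) a b).Nonempty)
    (hsep : ∀ t1 ∈ T, ∀ t2 ∈ T, t1 < t2 → ∃ v1 ∈ P.JJ (X t1) a b, ∃ v2 ∈ P.JJ (X t2) a b,
      ∃ d : ℝ, v1 < d ∧ d < v2 ∧ P.pt a b d ∉ P.VV p (K + 1)) :
    T.card ≤ 3 * (⌈b⌉ - ⌊a⌋).toNat := by
  classical
  have hinj : Function.Injective (fun t : ℝ => 1 - t) := by
    intro x y h
    simp only at h
    linarith
  have h1 := P.mir.countL_gen (P.mir_CCW hc) (P.lchord_mir hw) (T.image (fun t => 1 - t))
    (fun t => (S (1 - t)).mir) (fun t => (X (1 - t)).mir.sh n) (by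
      intro t' ht'
      obtain ⟨t, ht, rfl⟩ := Finset.mem_image.1 ht'
      obtain ⟨i1, i2, i3, v, hv⟩ := hT t ht
      simp only [sub_sub_cancel]
      refine ⟨P.litem_mir i1, ?_, ?_, 1 - v, P.JJ_mir.2 hv⟩
      · intro x hx
        have := i2 ((LCountR_mem (X t) x).1 hx)
        exact ⟨by linarith [this.2], by linarith [this.1]⟩
      · have := P.hookR_mir i3
        rw [Set.image_singleton, ← P.LCountR_V] at this
        exact this) (by
      intro t1' ht1' t2' ht2' hlt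
      obtain ⟨t1, ht1, rfl⟩ := Finset.mem_image.1 ht1'
      obtain ⟨t2, ht2, rfl⟩ := Finset.mem_image.1 ht2'
      obtain ⟨v2, hv2, v1, hv1, d, hd1, hd2, hd3⟩ := hsep t2 ht2 t1 ht1 (by linarith)
      simp only [sub_sub_cancel]
      refine ⟨1 - v1, P.JJ_mir.2 hv1, 1 - v2, P.JJ_mir.2 hv2, 1 - d, by linarith, by linarith, ?_⟩
      rw [P.pt_mir, P.mir_VV, Complex.conj_conj]
      exact hd3)
  rw [Finset.card_image_of_injective _ hinj] at h1
  have e1 : ⌈(n : ℝ) - a⌉ = (n : ℤ) - ⌊a⌋ := by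
    have : (n : ℝ) - a = ((n : ℤ) : ℝ) + -a := by push_cast; ring
    rw [this, Int.ceil_intCast_add, Int.ceil_neg]
    ring
  have e2 : ⌊(n : ℝ) - b⌋ = (n : ℤ) - ⌈b⌉ := by
    have : (n : ℝ) - b = ((n : ℤ) : ℝ) + -b := by push_cast; ring
    rw [this, Int.floor_intCast_add, Int.floor_neg]
    ring
  rw [e1, e2] at h1
  have e3 : (n : ℤ) - ⌊a⌋ - ((n : ℤ) - ⌈b⌉) = ⌈b⌉ - ⌊a⌋ := by ring
  rw [e3] at h1
  exact h1

/-- the local lemma -/
theorem local_count (hc : P.CCW) {p : ℂ} {K : ℕ} {ν : ℤ} {a b : ℝ} (hw : P.LChord p K ν a b)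
    (T : Finset ℝ)
    (hT : ∀ t ∈ T, ∃ S X, P.LItem p K ν S X ∧ X.s ⊆ Ioo a b ∧
      (P.HookL S X {P.V ν} ∨ P.HookR S X {P.V ν}) ∧ (P.UpEnd p K X a b t ∨ P.DnEnd p K X a b t)) :
    T.card ≤ 12 * (⌈b⌉ - ⌊a⌋).toNat := by
  classical
  have hex : ∀ t : ℝ, ∃ S X : Arc, t ∈ T → P.LItem p K ν S X ∧ X.s ⊆ Ioo a b ∧
      (P.HookL S X {P.V ν} ∨ P.HookR S X {P.V ν}) ∧ (P.UpEnd p K X a b t ∨ P.DnEnd p K X a b t) := by
    intro t
    by_cases ht : t ∈ T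
    · obtain ⟨S, X, h⟩ := hT t ht
      exact ⟨S, X, fun _ => h⟩
    · exact ⟨⟨0, 0, 0⟩, ⟨0, 0, 0⟩, fun h => absurd h ht⟩
  choose S X hSX using hex
  have upne : ∀ t, P.UpEnd p K (X t) a b t → (P.JJ (X t) a b).Nonempty := by
    intro t h
    obtain ⟨t', h1, _, h3⟩ := h.acc
    exact ⟨(t + t') / 2, h3 _ (by linarith) (by linarith)⟩
  have dnne : ∀ t, P.DnEnd p K (X t) a b t → (P.JJ (X t) a b).Nonempty := by
    intro t h
    obtain ⟨t', _, h2, h3⟩ := h.acc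
    exact ⟨(t + t') / 2, h3 _ (by linarith) (by linarith)⟩
  have c1 := P.countL_gen hc hw (T.filter fun t => P.HookL (S t) (X t) {P.V ν} ∧ P.UpEnd p K (X t) a b t) S X
    (by
      intro t ht
      obtain ⟨ht, h1, h2⟩ := Finset.mem_filter.1 ht
      obtain ⟨i1, i2, _, _⟩ := hSX t ht
      exact ⟨i1, i2, h1, upne t h2⟩)
    (by
      intro t1 ht1 t2 ht2 hlt
      obtain ⟨ht1, _, u1⟩ := Finset.mem_filter.1 ht1
      obtain ⟨ht2, _, u2⟩ := Finset.mem_filter.1 ht2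
      exact UpEnd.sep hc hw.vis (hSX t1 ht1).1.Xc (hSX t2 ht2).1.Xc u1 u2 hlt)
  have c2 := P.countL_gen hc hw (T.filter fun t => P.HookL (S t) (X t) {P.V ν} ∧ P.DnEnd p K (X t) a b t) S X
    (by
      intro t ht
      obtain ⟨ht, h1, h2⟩ := Finset.mem_filter.1 ht
      obtain ⟨i1, i2, _, _⟩ := hSX t ht
      exact ⟨i1, i2, h1, dnne t h2⟩)
    (by
      intro t1 ht1 t2 ht2 hlt
      obtain ⟨ht1, _, u1⟩ := Finset.mem_filter.1 ht1
      obtain ⟨ht2, _, u2⟩ := Finset.mem_filter.1 ht2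
      exact DnEnd.sep hc hw.vis (hSX t1 ht1).1.Xc (hSX t2 ht2).1.Xc u1 u2 hlt)
  have c3 := P.countR_gen hc hw (T.filter fun t => P.HookR (S t) (X t) {P.V ν} ∧ P.UpEnd p K (X t) a b t) S X
    (by
      intro t ht
      obtain ⟨ht, h1, h2⟩ := Finset.mem_filter.1 ht
      obtain ⟨i1, i2, _, _⟩ := hSX t ht
      exact ⟨i1, i2, h1, upne t h2⟩)
    (by
      intro t1 ht1 t2 ht2 hlt
      obtain ⟨ht1, _, u1⟩ := Finset.mem_filter.1 ht1
      obtain ⟨ht2, _, u2⟩ := Finset.mem_filter.1 ht2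
      exact UpEnd.sep hc hw.vis (hSX t1 ht1).1.Xc (hSX t2 ht2).1.Xc u1 u2 hlt)
  have c4 := P.countR_gen hc hw (T.filter fun t => P.HookR (S t) (X t) {P.V ν} ∧ P.DnEnd p K (X t) a b t) S X
    (by
      intro t ht
      obtain ⟨ht, h1, h2⟩ := Finset.mem_filter.1 ht
      obtain ⟨i1, i2, _, _⟩ := hSX t ht
      exact ⟨i1, i2, h1, dnne t h2⟩)
    (by
      intro t1 ht1 t2 ht2 hlt
      obtain ⟨ht1, _, u1⟩ := Finset.mem_filter.1 ht1
      obtain ⟨ht2, _, u2⟩ := Finset.mem_filter.1 ht2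
      exact DnEnd.sep hc hw.vis (hSX t1 ht1).1.Xc (hSX t2 ht2).1.Xc u1 u2 hlt)
  have hcov : T ⊆ ((T.filter fun t => P.HookL (S t) (X t) {P.V ν} ∧ P.UpEnd p K (X t) a b t) ∪
      (T.filter fun t => P.HookL (S t) (X t) {P.V ν} ∧ P.DnEnd p K (X t) a b t)) ∪
      ((T.filter fun t => P.HookR (S t) (X t) {P.V ν} ∧ P.UpEnd p K (X t) a b t) ∪
      (T.filter fun t => P.HookR (S t) (X t) {P.V ν} ∧ P.DnEnd p K (X t) a b t)) := by
    intro t ht
    obtain ⟨_, _, hh, he⟩ := hSX t ht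
    simp only [Finset.mem_union, Finset.mem_filter]
    rcases hh with hh | hh
    · rcases he with he | he
      · exact Or.inl (Or.inl ⟨ht, hh, he⟩)
      · exact Or.inl (Or.inr ⟨ht, hh, he⟩)
    · rcases he with he | he
      · exact Or.inr (Or.inl ⟨ht, hh, he⟩)
      · exact Or.inr (Or.inr ⟨ht, hh, he⟩)
  have h0 := Finset.card_le_card hcov
  have h1 := h0.trans (Finset.card_union_le _ _)
  have h2 := Finset.card_union_le (T.filter fun t => P.HookL (S t) (X t) {P.V ν} ∧ P.UpEnd p K (X t) a b t)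
    (T.filter fun t => P.HookL (S t) (X t) {P.V ν} ∧ P.DnEnd p K (X t) a b t)
  have h3 := Finset.card_union_le (T.filter fun t => P.HookR (S t) (X t) {P.V ν} ∧ P.UpEnd p K (X t) a b t)
    (T.filter fun t => P.HookR (S t) (X t) {P.V ν} ∧ P.DnEnd p K (X t) a b t)
  omega

end Poly

end Pool.Agent.Lib_PL
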