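import Pool.Agent.Lib_PLQ.DUniq
import Pool.Agent.Lib_PLQ.DItem
import Pool.Agent.Lib_PLQ.WDCount
import Pool.Agent.Lib_PLQ.LCountR

/-!
# D: far points, third class: the local lemma

`(A z, B z)` is the chord and `(X z).sh (m z * n)` the component of `z = pt (A z) (B z) (t z)`.  `G = Z.image (fun z => (A z, B z))`.  For a chord `(a,b) ∈ G` the function `t` is injective on the fibre, which has at most `12 * (⌈b⌉ - ⌊a⌋).toNat ≤ 24 * #{ν' < n | InMod n (Icc a b) ν'}` points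
(`litem_exists`, `local_count` with `LChord` from `WD.a_not`, `WD.b_not`, `WD.vis` and `¬ InMod`; `nu_count`, `chord_int`); sum over `G` (`Finset.card_eq_sum_card_fiberwise`): `wd_sum`.
-/

open Set Complex
open scoped Topology

namespace Pool.Agent.Lib_PL

namespace Poly

variable {n : ℕ} (P : Poly n)

theorem far_z3 (hc : P.CCW) {p : ℂ} {par core : ℕ → Arc → Arc} {lev : ℕ → Arc → ℕ}
    (hpar : P.PRule p par) (hcore : P.CRule p core lev) (K : ℕ) (ν : ℤ) (Z : Finset ℂ)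
    (A B t : ℂ → ℝ) (X : ℂ → Arc) (m : ℂ → ℤ)
    (hZ : ∀ z ∈ Z, P.FU p K (A z) (B z) ((X z).sh (m z * n)) (t z) ∧
      z = P.pt (A z) (B z) (t z) ∧
      ¬ InMod n (Icc (A z) (B z)) ν ∧ P.IsComp p K (X z) ∧ 0 ≤ (X z).i ∧ (X z).i < n ∧
      ¬ (X z).Cornered ∧
        ∃ l, lev K (X z) = l + 1 ∧ ¬ P.Good {P.V ν} (par l (core K (X z))) (X z).i) :
    Z.card ≤ 24 * (n * (3 * (cS K * n))) := by
  classical
  have hF : ∀ g ∈ Z.image (fun z => (A z, B z)),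
      (Z.filter fun z => (A z, B z) = g).card ≤
        24 * ((Finset.range n).filter fun ν' : ℕ => InMod n (Icc g.1 g.2) (ν' : ℝ)).card := by
    intro g hg
    obtain ⟨z₀, hz₀, rfl⟩ := Finset.mem_image.1 hg
    obtain ⟨h0, -, h3, -⟩ := hZ z₀ hz₀
    obtain ⟨X', hX'⟩ := h0.wd
    have hinj : Set.InjOn t (Z.filter fun z => (A z, B z) = (A z₀, B z₀) : Finset ℂ) := by
      intro z hz z' hz' hzz
      have hz1 := Finset.mem_filter.1 (Finset.mem_coe.1 hz)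
      have hz2 := Finset.mem_filter.1 (Finset.mem_coe.1 hz')
      obtain ⟨e1, e2⟩ := Prod.mk.injEq _ _ _ _ ▸ hz1.2
      obtain ⟨e3, e4⟩ := Prod.mk.injEq _ _ _ _ ▸ hz2.2
      rw [(hZ z hz1.1).2.1, (hZ z' hz2.1).2.1, e1, e2, e3, e4, hzz]
    have hw : P.LChord p K ν (A z₀) (B z₀) :=
      ⟨hX'.ab, hX'.ba, hX'.vis, hX'.a_not, hX'.b_not, fun m' hm' => h3 ⟨m', hm'.1, hm'.2⟩⟩
    have h1 := P.local_count hc hw ((Z.filter fun z => (A z, B z) = (A z₀, B z₀)).image t) (by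
      intro s hs
      obtain ⟨z, hz, rfl⟩ := Finset.mem_image.1 hs
      obtain ⟨hz1, hz2⟩ := Finset.mem_filter.1 hz
      obtain ⟨e1, e2⟩ := Prod.mk.injEq _ _ _ _ ▸ hz2
      obtain ⟨f1, -, -, f4, f5, f6, f7, l, f8, f9⟩ := hZ z hz1
      rw [e1, e2] at f1
      obtain ⟨S, g1, g2⟩ := P.litem_exists hc hpar hcore ν f4 f5 f6 f7 f8 f9 (m z)
      exact ⟨S, _, g1, f1.Xs, g2, f1.fin⟩)
    rw [Finset.card_image_of_injOn hinj] at h1
    have h2 := nu_count (n := n) hX'.ab hX'.ba (P.chord_int hX'.ab hX'.vis)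
    calc _ ≤ 12 * (⌈B z₀⌉ - ⌊A z₀⌋).toNat := h1
      _ ≤ 12 * (2 * ((Finset.range n).filter fun ν' : ℕ => InMod n (Icc (A z₀) (B z₀)) (ν' : ℝ)).card) :=
        Nat.mul_le_mul_left _ h2
      _ = _ := by ring
  have hsum := P.wd_sum hc p K (Z.image fun z => (A z, B z)) (by
    intro w hw
    obtain ⟨z, hz, rfl⟩ := Finset.mem_image.1 hw
    obtain ⟨h1, -⟩ := hZ z hz
    exact ⟨h1.a0, h1.an, h1.wd⟩)
  calc Z.card = ∑ g ∈ Z.image (fun z => (A z, B z)), (Z.filter fun z => (A z, B z) = g).card :=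
        Finset.card_eq_sum_card_image _ _
    _ ≤ ∑ g ∈ Z.image (fun z => (A z, B z)),
        24 * ((Finset.range n).filter fun ν' : ℕ => InMod n (Icc g.1 g.2) (ν' : ℝ)).card :=
        Finset.sum_le_sum hF
    _ = 24 * ∑ g ∈ Z.image (fun z => (A z, B z)),
        ((Finset.range n).filter fun ν' : ℕ => InMod n (Icc g.1 g.2) (ν' : ℝ)).card := by
        rw [Finset.mul_sum]
    _ ≤ 24 * (n * (3 * (cS K * n))) := Nat.mul_le_mul_left _ hsum

end Poly

end Pool.Agent.Lib_PL
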