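import Pool.Agent.Lib_PL.MainCCW

/-!
# Definitions for `M_k(n) = O_k(n^2)` (MP_ee0a5d_co), on top of `Lib_PL`

Paper proof: /team-store/MP_ee0a5d_merged.md.
-/

open Set Complex
open scoped Topology

namespace Pool.Agent.Lib_PL

/-- near `z` the set `G` is the open half plane on the left of the direction `h` -/
def HalfAt (G : Set ℂ) (z h : ℂ) : Prop :=
  ∃ ρ > 0, ∀ z' : ℂ, ‖z' - z‖ < ρ → (z' ∈ G ↔ 0 < cr h (z' - z))

namespace Poly

variable {n : ℕ} (P : Poly n)

/-- the points which see the arc `X` -/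
def SeeA (X : Arc) : Set ℂ := {z | ∃ s ∈ X.s, P.Vis z (P.γ s)}

/-- the points which see the light source `p` -/
def SeeP (p : ℂ) : Set ℂ := {z | P.Vis p z}

/-- `z` is a boundary point of the open half disc of points which see the component `X` of `Bp p K`; `h` is the
direction of the boundary line (lit side on the left), `γ ξ` is on this line, `ξ` is in the closure of `X` -/
structure XS (p : ℂ) (K : ℕ) (X : Arc) (z h : ℂ) (ξ : ℝ) : Prop where
  Xc : P.IsComp p K X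
  h0 : h ≠ 0
  ξX : ξ ∈ Icc X.a X.b
  par : cr h (P.γ ξ - z) = 0
  seg : segment ℝ z (P.γ ξ) ⊆ P.R
  half : HalfAt (P.SeeA X) z h
  no : z ∉ P.SeeA X

/-- the same for the light source `p` -/
structure PS (p z h : ℂ) : Prop where
  h0 : h ≠ 0
  pz : p ≠ z
  par : cr h (p - z) = 0
  seg : segment ℝ z p ⊆ P.R
  half : HalfAt (P.SeeP p) z h
  no : z ∉ P.SeeP p

/-- Window datum: the chord `W = (γ a, γ b)` is a part of the boundary of the set of points which see the component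
`X` of `Bp p K`; the arc `(a,b)` is in the shadow; `W` contains a point which is not in `VV p (K + 1)`. -/
structure WD (p : ℂ) (K : ℕ) (X : Arc) (a b : ℝ) : Prop where
  ab : a < b
  ba : b < a + n
  Xc : P.IsComp p K X
  Xa : X.b ≤ a
  Xb : b ≤ X.a + n
  vis : P.Vis (P.γ a) (P.γ b)
  star : ∃ ξ ∈ Icc X.a X.b, segment ℝ (P.γ ξ) (P.γ a) ⊆ P.R ∧ segment ℝ (P.γ ξ) (P.γ b) ⊆ P.R
  nosee : ∀ w ∈ openSegment ℝ (P.γ a) (P.γ b), w ∉ P.SeeA X
  lim : openSegment ℝ (P.γ a) (P.γ b) ⊆ closure (P.SeeA X)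
  dark : ∃ z ∈ openSegment ℝ (P.γ a) (P.γ b), z ∉ P.VV p (K + 1)

/-- the position `x` lies in the set `S` modulo `n` -/
def InMod (n : ℕ) (S : Set ℝ) (x : ℝ) : Prop := ∃ m : ℤ, x + m * n ∈ S

/-- `z` is a non-lit point of the chord `(γ a, γ b)`, and the points of the chord just after `z` (towards `γ b`) see
the component `X` of `Bp p K`, which is in the arc `(a,b)` -/
structure LZ (p : ℂ) (K : ℕ) (a b : ℝ) (X : Arc) (z : ℂ) : Prop where
  zw : z ∈ openSegment ℝ (P.γ a) (P.γ b)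
  dark : z ∉ P.VV p (K + 1)
  Xc : P.IsComp p K X
  Xs : X.s ⊆ Ioo a b
  up : ∃ ε > 0, ∀ t : ℝ, 0 < t → t < ε → z + (t : ℂ) * (P.γ b - P.γ a) ∈ P.SeeA X

/-- `z` is a far point: it is on the boundary of the half discs of two components `X`, `X'`, and `X` is in the shadow
of `X'` -/
def Far (p : ℂ) (K : ℕ) (z : ℂ) : Prop :=
  ∃ (X X' : Arc) (h h' : ℂ) (ξ ξ' : ℝ), P.XS p K X z h ξ ∧ P.XS p K X' z h' ξ' ∧ cr h' (P.γ ξ - z) < 0

end Poly

end Pool.Agent.Lib_PL
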