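import Pool.Agent.Lib_PLQ.Defs

/-!
# A9: data of the edge count

`A = frontier (VV p k)`, `W` the chords of `windows` (file Lib_PL/WinB.lean), `Q`, `T` from `subdiv` (file Lib_PL/Subdiv.lean) for `E = W ∪` polygon edges.
-/

open Set Complex
open scoped Topology

namespace Pool.Agent.Lib_PL

namespace Poly

variable {n : ℕ} (P : Poly n)

/-- data of the edge count -/
structure EData (p : ℂ) (k : ℕ) (W : Finset (ℂ × ℂ)) (Q : Finset ℂ) (T : Finset (ℂ × ℂ)) : Prop where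
  W1 : ∀ w ∈ W, w.1 ∈ P.C ∧ w.2 ∈ P.C ∧ P.Vis w.1 w.2
  cov : ∀ z ∈ frontier (P.VV p k), z ∈ P.I → ∃ w ∈ W, z ∈ openSegment ℝ w.1 w.2
  sub : IsSubdiv (frontier (P.VV p k)) Q T
  reg : ∀ z ∈ frontier (P.VV p k), z ∉ Q → Reg (frontier (P.VV p k)) z
  ver : ∀ i : ℤ, P.V i ∈ frontier (P.VV p k) → P.V i ∈ Q
  wend : ∀ w ∈ W, (w.1 ∈ frontier (P.VV p k) → w.1 ∈ Q) ∧ (w.2 ∈ frontier (P.VV p k) → w.2 ∈ Q)

/-- an edge of the subdivision is a set of frontier points -/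
theorem EData.edge {P : Poly n} {p : ℂ} {k : ℕ} {W : Finset (ℂ × ℂ)} {Q : Finset ℂ}
    {T : Finset (ℂ × ℂ)} (h : P.EData p k W Q T) {t : ℂ × ℂ} (ht : t ∈ T) :
    openSegment ℝ t.1 t.2 ⊆ frontier (P.VV p k) := by
  intro z hz
  rw [h.sub.cover]
  exact Or.inr (mem_iUnion₂.2 ⟨t, ht, hz⟩)

theorem EData.vtx {P : Poly n} {p : ℂ} {k : ℕ} {W : Finset (ℂ × ℂ)} {Q : Finset ℂ}
    {T : Finset (ℂ × ℂ)} (h : P.EData p k W Q T) {z : ℂ} (hz : z ∈ Q) : z ∈ frontier (P.VV p k) := by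
  rw [h.sub.cover]
  exact Or.inl (Finset.mem_coe.2 hz)

/-- frontier points are in `R` -/
theorem frontier_R {p : ℂ} {k : ℕ} {z : ℂ} (hz : z ∈ frontier (P.VV p k)) : z ∈ P.R := by
  refine closure_minimal ?_ P.R_closed (frontier_subset_closure hz)
  rintro w ⟨j, -, hw⟩
  cases j with
  | zero => exact hw.1
  | succ j => exact hw.1

end Poly

end Pool.Agent.Lib_PL
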