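import Pool.Agent.Lib_PLQ.EDefs

/-!
# A9 (E4): the edges contained in the polygon

Let `t ∈ T`, `openSegment t.1 t.2 ⊆ C`.  It contains no vertex of the polygon (`ver`, `free`), so by connectedness it is contained in one open polygon edge `{γ x | i < x < i + 1}` (the closed polygon edges are finitely many modulo `n`; two points of `U` in different open edges are separated by the closed complement; or: one closed edge contains
infinitely many points of the segment, so the segment is on its line, and it cannot pass its ends).  So `t.1 = γ x`, `t.2 = γ y` with `i ≤ x, y ≤ i + 1`, `x ≠ y`.  If `x < y` put `s(t) = t.1`, otherwise `s(t) = t.2`: `s(t) ∈ Q ∩ C`, and the open segment near `s(t)` = the points `γ u`, `u` slightly larger than the parameter of `s(t)`.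
`s` is injective: if `s(t) = s(t')`, parameters `x, x'` with `γ x = γ x'`, `x = x' + m n` (`γ_inj` or the like), then the open segments have common points: `t = t'` (`disj`).
-/

open Set Complex
open scoped Topology

namespace Pool.Agent.Lib_PL

namespace Poly

variable {n : ℕ} (P : Poly n)

private theorem EdgeC_seg_closed (a b : ℂ) : IsClosed (segment ℝ a b) := by
  rw [← convexHull_pair]
  exact (Set.toFinite {a, b}).isClosed_convexHull ℝ

/-- a closed edge modulo `n` -/
private theorem EdgeC_edge_mod (i : ℤ) : segment ℝ (P.V i) (P.V (i + 1)) =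
    segment ℝ (P.V (i % n)) (P.V (i % n + 1)) := by
  have h : i = i % n + (i / n) * n := by
    have := Int.emod_add_mul_ediv i n
    linarith [mul_comm (n : ℤ) (i / n)]
  have h1 : P.V i = P.V (i % n) := by
    conv_lhs => rw [h]
    exact P.V_add_mul _ _
  have h2 : P.V (i + 1) = P.V (i % n + 1) := by
    have h3 : i + 1 = (i % n + 1) + (i / n) * n := by linarith
    rw [h3]
    exact P.V_add_mul _ _
  rw [h1, h2]

/-- an open segment in `C` without vertices is contained in a closed edge -/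
private theorem EdgeC_one {a b : ℂ} (hC : openSegment ℝ a b ⊆ P.C)
    (hv : ∀ i : ℤ, P.V i ∉ openSegment ℝ a b) :
    ∃ i : ℤ, openSegment ℝ a b ⊆ segment ℝ (P.V i) (P.V (i + 1)) := by
  obtain ⟨z0, hz0⟩ : (openSegment ℝ a b).Nonempty :=
    ⟨(1 / 2 : ℝ) • a + (1 / 2 : ℝ) • b, 1 / 2, 1 / 2, by norm_num, by norm_num, by norm_num, rfl⟩
  obtain ⟨i, hi⟩ := mem_iUnion.1 (hC hz0)
  refine ⟨i, ?_⟩
  have hn : (0 : ℤ) < n := by
    have := P.three_le
    omega
  set B : Set ℂ := ⋃ j ∈ ((Finset.range n).filter fun j : ℕ => ¬ (n : ℤ) ∣ (i - (j : ℤ))),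
    segment ℝ (P.V (j : ℤ)) (P.V ((j : ℤ) + 1)) with hB
  have hBc : IsClosed B := by
    rw [hB]
    exact isClosed_biUnion_finset fun j _ => EdgeC_seg_closed _ _
  have hAc : IsClosed (segment ℝ (P.V i) (P.V (i + 1))) := EdgeC_seg_closed _ _
  have hcov : openSegment ℝ a b ⊆ segment ℝ (P.V i) (P.V (i + 1)) ∪ B := by
    intro z hz
    obtain ⟨k, hk⟩ := mem_iUnion.1 (hC hz)
    by_cases hd : (n : ℤ) ∣ i - k
    · left
      rw [P.EdgeC_edge_mod] at hk ⊢
      have h3 : i % n = k % n := Int.emod_eq_emod_iff_emod_sub_eq_zero.2 (Int.emod_eq_zero_of_dvd hd)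
      rw [h3]
      exact hk
    · right
      rw [P.EdgeC_edge_mod] at hk
      have h0 : 0 ≤ k % n := Int.emod_nonneg k hn.ne'
      have h1 : k % n < n := Int.emod_lt_of_pos k hn
      rw [hB]
      refine mem_iUnion₂.2 ⟨(k % n).toNat, ?_, ?_⟩
      · refine Finset.mem_filter.2 ⟨Finset.mem_range.2 (by omega), ?_⟩
        rw [Int.toNat_of_nonneg h0]
        intro h2
        apply hd
        have h4 : k % n = k - n * (k / n) := by
          have := Int.emod_add_mul_ediv k n
          linarith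
        rw [h4] at h2
        have h5 : i - k = (i - (k - n * (k / n))) - n * (k / n) := by ring
        rw [h5]
        exact dvd_sub h2 (dvd_mul_right _ _)
      · rw [Int.toNat_of_nonneg h0]
        exact hk
  have hpre : IsPreconnected (openSegment ℝ a b) := (convex_openSegment a b).isPreconnected
  by_contra hcon
  obtain ⟨z1, hz1, hz1'⟩ := not_subset.1 hcon
  have h1 := (isPreconnected_closed_iff.1 hpre) _ _ hAc hBc hcov ⟨z0, hz0, hi⟩
    ⟨z1, hz1, (hcov hz1).resolve_left hz1'⟩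
  obtain ⟨z, hz, hzA, hzB⟩ := h1
  rw [hB] at hzB
  obtain ⟨j, hj, hzj⟩ := mem_iUnion₂.1 hzB
  have hd := (Finset.mem_filter.1 hj).2
  rcases (P.simple _ _ hd z hzA hzj).1 with h2 | h2
  · rw [h2] at hz
    exact hv _ hz
  · rw [h2] at hz
    exact hv _ hz

/-- parametrisation of an edge contained in the polygon -/
private theorem EdgeC_param {p : ℂ} {k : ℕ} {W : Finset (ℂ × ℂ)} {Q : Finset ℂ}
    {T : Finset (ℂ × ℂ)} (h : P.EData p k W Q T) {t : ℂ × ℂ} (ht : t ∈ T)
    (hC : openSegment ℝ t.1 t.2 ⊆ P.C) :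
    ∃ a b : ℝ, a < b ∧ P.γ a ∈ Q ∧ openSegment ℝ t.1 t.2 = P.γ '' Ioo a b := by
  have hv : ∀ i : ℤ, P.V i ∉ openSegment ℝ t.1 t.2 := fun i hi =>
    h.sub.free t ht _ (h.ver i (h.edge ht hi)) hi
  obtain ⟨i, hi⟩ := P.EdgeC_one hC hv
  obtain ⟨h1, h2, h12⟩ := h.sub.ends t ht
  have hcl : segment ℝ t.1 t.2 ⊆ segment ℝ (P.V i) (P.V (i + 1)) := by
    rw [← closure_openSegment]
    exact closure_minimal hi (EdgeC_seg_closed _ _)
  have hx := hcl (left_mem_segment ℝ t.1 t.2)
  have hy := hcl (right_mem_segment ℝ t.1 t.2)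
  rw [← P.γ_image_Icc] at hx hy
  obtain ⟨x, hx, hx'⟩ := hx
  obtain ⟨y, hy, hy'⟩ := hy
  have hxy : x ≠ y := by
    rintro rfl
    exact h12 (hx'.symm.trans hy')
  rcases lt_or_gt_of_ne hxy with hlt | hlt
  · refine ⟨x, y, hlt, by rw [hx']; exact h1, ?_⟩
    rw [← hx', ← hy']
    exact P.openSegment_γ hx.1 hy.2 hlt
  · refine ⟨y, x, hlt, by rw [hy']; exact h2, ?_⟩
    rw [← hx', ← hy', openSegment_symm]
    exact P.openSegment_γ hy.1 hx.2 hlt

open Classical in
theorem edge_C (hc : P.CCW) {p : ℂ} {k : ℕ} {W : Finset (ℂ × ℂ)} {Q : Finset ℂ}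
    {T : Finset (ℂ × ℂ)} (h : P.EData p k W Q T) :
    (T.filter fun t => openSegment ℝ t.1 t.2 ⊆ P.C).card ≤ (Q.filter fun z => z ∈ P.C).card := by
  have key : ∀ t : ℂ × ℂ, ∃ a b : ℝ, t ∈ T → openSegment ℝ t.1 t.2 ⊆ P.C →
      a < b ∧ P.γ a ∈ Q ∧ openSegment ℝ t.1 t.2 = P.γ '' Ioo a b := by
    intro t
    by_cases ht : t ∈ T
    · by_cases hC : openSegment ℝ t.1 t.2 ⊆ P.C
      · obtain ⟨a, b, hab⟩ := P.EdgeC_param h ht hC
        exact ⟨a, b, fun _ _ => hab⟩
      · exact ⟨0, 0, fun _ h' => absurd h' hC⟩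
    · exact ⟨0, 0, fun h' => absurd h' ht⟩
  choose a b hab using key
  refine Finset.card_le_card_of_injOn (fun t => P.γ (a t)) ?_ ?_
  · intro t ht
    obtain ⟨ht, hC⟩ := Finset.mem_filter.1 (Finset.mem_coe.1 ht)
    exact Finset.mem_coe.2 (Finset.mem_filter.2 ⟨(hab t ht hC).2.1, P.γ_mem_C _⟩)
  · intro t ht t' ht' htt
    obtain ⟨ht, hC⟩ := Finset.mem_filter.1 (Finset.mem_coe.1 ht)
    obtain ⟨ht', hC'⟩ := Finset.mem_filter.1 (Finset.mem_coe.1 ht')
    obtain ⟨h1, -, h2⟩ := hab t ht hC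
    obtain ⟨h1', -, h2'⟩ := hab t' ht' hC'
    obtain ⟨m, hm⟩ := P.γ_inj htt
    by_contra hne
    have hd := h.sub.disj t ht t' ht' hne
    set ε : ℝ := min (b t - a t) (b t' - a t') / 2 with hε
    have hε1 : 0 < min (b t - a t) (b t' - a t') := lt_min (by linarith) (by linarith)
    have hε2 : min (b t - a t) (b t' - a t') ≤ b t - a t := min_le_left _ _
    have hε3 : min (b t - a t) (b t' - a t') ≤ b t' - a t' := min_le_right _ _
    have h3 : P.γ (a t + ε) ∈ openSegment ℝ t.1 t.2 := by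
      rw [h2]
      exact ⟨a t + ε, ⟨by linarith, by linarith⟩, rfl⟩
    have h4 : P.γ (a t + ε) ∈ openSegment ℝ t'.1 t'.2 := by
      rw [h2']
      refine ⟨a t' + ε, ⟨by linarith, by linarith⟩, ?_⟩
      have h5 : a t' + ε = (a t + ε) + m * n := by
        rw [hm]
        ring
      rw [h5, P.γ_add_mul]
    exact Set.disjoint_left.1 hd h3 h4

end Poly

end Pool.Agent.Lib_PL
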