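import Pool.Agent.Lib_PLQ.HalfConv

/-!
# A2: the set of points which see the light source is an open half disc near its boundary points in `I`

`p ≠ z` because `Vis z z` holds for `z ∈ I` (`openSegment_same`).  Take `ρ` with `ball z ρ ⊆ I` and `ρ ≤ ‖p - z‖`.  `[z,p] ⊆ R` (limit of `[z_m,p]`, `R` closed).
Apply `half_of_chords` with `G = SeeP p`, `d = p - z`: `hopen`: `vis_open_I`; `hconv`: `u, v ∈ G` in the ball, `u ≠ v`: if `p, u, v` are not collinear `tri_vis` (or `f2_pt_chord` with a slightly longer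
chord in the ball); collinear: the point of `segment u v` is on `segment p u` or `segment p v` or between (`p` is not in the ball); `hch`: `u = z_m`, `e = p - z_m`; `t < 1` since `p` is not in the ball
(for `t ≥ 1`, `p = u + e` is between `u` and `u + t e`); `0 ≤ t < 1`: `Vis.sub`; `t < 0`: as in `half_disc`.
-/

open Set Complex
open scoped Topology

namespace Pool.Agent.Lib_PL

namespace Poly

variable {n : ℕ} (P : Poly n)

/-- the light source sees a convex part of a ball in the interior -/
private theorem HalfP_conv (hc : P.CCW) {p z : ℂ} {ρ : ℝ} (hb : Metric.ball z ρ ⊆ P.I) {u v : ℂ}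
    (hu : P.Vis p u) (hv : P.Vis p v) (hu1 : ‖u - z‖ < ρ) (hv1 : ‖v - z‖ < ρ) :
    ∀ c ∈ segment ℝ u v, P.Vis p c := by
  set w := v - u with hw
  set δ := min (ρ - ‖u - z‖) (ρ - ‖v - z‖) with hδ
  have hδ0 : 0 < δ := lt_min (by linarith) (by linarith)
  set τ : ℝ := δ / (2 * (‖w‖ + 1)) with hτ
  have hw0 : 0 ≤ ‖w‖ := norm_nonneg _
  have hτ0 : 0 < τ := by positivity
  have hτw : τ * ‖w‖ < δ := by
    rw [hτ, div_mul_eq_mul_div, div_lt_iff₀ (by positivity)]
    nlinarith
  have hA : u - (τ : ℂ) * w ∈ Metric.ball z ρ := by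
    rw [Metric.mem_ball, dist_eq_norm]
    have h1 : u - (τ : ℂ) * w - z = (u - z) - (τ : ℂ) * w := by ring
    have h2 : ‖(τ : ℂ) * w‖ = τ * ‖w‖ := by
      rw [norm_mul, Complex.norm_real, Real.norm_of_nonneg hτ0.le]
    calc ‖u - (τ : ℂ) * w - z‖ ≤ ‖u - z‖ + ‖(τ : ℂ) * w‖ := by
          rw [h1]
          exact norm_sub_le _ _
      _ < ρ := by
          rw [h2]
          have := min_le_left (ρ - ‖u - z‖) (ρ - ‖v - z‖)
          linarith
  have hB : v + (τ : ℂ) * w ∈ Metric.ball z ρ := by
    rw [Metric.mem_ball, dist_eq_norm]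
    have h1 : v + (τ : ℂ) * w - z = (v - z) + (τ : ℂ) * w := by ring
    have h2 : ‖(τ : ℂ) * w‖ = τ * ‖w‖ := by
      rw [norm_mul, Complex.norm_real, Real.norm_of_nonneg hτ0.le]
    calc ‖v + (τ : ℂ) * w - z‖ ≤ ‖v - z‖ + ‖(τ : ℂ) * w‖ := by
          rw [h1]
          exact norm_add_le _ _
      _ < ρ := by
          rw [h2]
          have := min_le_right (ρ - ‖u - z‖) (ρ - ‖v - z‖)
          linarith
  have hAB : P.Vis (u - (τ : ℂ) * w) (v + (τ : ℂ) * w) := by
    intro c hcc
    exact hb ((convex_ball z ρ).openSegment_subset hA hB hcc)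
  have hd : (0 : ℝ) < 1 + 2 * τ := by positivity
  have hd' : ((1 : ℂ) + 2 * τ) ≠ 0 := by
    have : ((1 + 2 * τ : ℝ) : ℂ) ≠ 0 := by exact_mod_cast hd.ne'
    simpa using this
  have hu2 : u ∈ openSegment ℝ (u - (τ : ℂ) * w) (v + (τ : ℂ) * w) := by
    refine ⟨(1 + τ) / (1 + 2 * τ), τ / (1 + 2 * τ), by positivity, by positivity, ?_, ?_⟩
    · field_simp
      ring
    · have hinv : ((1 : ℂ) + 2 * τ) * ((1 : ℂ) + 2 * τ)⁻¹ = 1 := mul_inv_cancel₀ hd'
      simp only [Complex.real_smul]
      push_cast
      rw [hw, div_eq_mul_inv, div_eq_mul_inv]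
      linear_combination u * hinv
  have hv2 : v ∈ openSegment ℝ (u - (τ : ℂ) * w) (v + (τ : ℂ) * w) := by
    refine ⟨τ / (1 + 2 * τ), (1 + τ) / (1 + 2 * τ), by positivity, by positivity, ?_, ?_⟩
    · field_simp
      ring
    · have hinv : ((1 : ℂ) + 2 * τ) * ((1 : ℂ) + 2 * τ)⁻¹ = 1 := mul_inv_cancel₀ hd'
      simp only [Complex.real_smul]
      push_cast
      rw [hw, div_eq_mul_inv, div_eq_mul_inv]
      linear_combination v * hinv
  exact P.f2_pt_chord hc hAB hu2 hv2 hu hv

theorem half_disc_p (hc : P.CCW) {p : ℂ} (hp : p ∈ P.R) {z : ℂ} (hz : z ∈ P.I)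
    (hcl : z ∈ closure (P.SeeP p)) (hno : z ∉ P.SeeP p) : ∃ h, P.PS p z h := by
  have _ := hp
  have hpz : p ≠ z := by
    rintro rfl
    apply hno
    intro c hcc
    rw [openSegment_same] at hcc
    rw [mem_singleton_iff.1 hcc]
    exact hz
  have hd : p - z ≠ 0 := sub_ne_zero.2 hpz
  obtain ⟨ρ0, hρ0, hb0⟩ := Metric.isOpen_iff.1 P.I_open z hz
  set ρ := min ρ0 ‖p - z‖ with hρdef
  have hρ : 0 < ρ := lt_min hρ0 (norm_pos_iff.2 hd)
  have hb : Metric.ball z ρ ⊆ P.I := (Metric.ball_subset_ball (min_le_left _ _)).trans hb0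
  have hpb : ρ ≤ ‖p - z‖ := min_le_right _ _
  have hbI : ∀ c : ℂ, ‖c - z‖ < ρ → c ∈ P.I := fun c hcc =>
    hb (by rw [Metric.mem_ball, dist_eq_norm]; exact hcc)
  -- the chords
  have hch : ∀ ε > 0, ∃ u e : ℂ, u ∈ P.SeeP p ∧ ‖u - z‖ < ε ∧ ‖e - (p - z)‖ < ε ∧
      ∀ t : ℝ, ‖u + (t : ℂ) * e - z‖ < ρ → u + (t : ℂ) * e ∈ P.SeeP p := by
    intro ε hε
    obtain ⟨u, hu, hdu⟩ := Metric.mem_closure_iff.1 hcl (min ε ρ) (lt_min hε hρ)
    rw [dist_comm, dist_eq_norm] at hdu
    have hu1 : ‖u - z‖ < ε := hdu.trans_le (min_le_left _ _)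
    have hu2 : ‖u - z‖ < ρ := hdu.trans_le (min_le_right _ _)
    have huV : P.Vis p u := hu
    refine ⟨u, p - u, hu, hu1, ?_, ?_⟩
    · have h1 : p - u - (p - z) = -(u - z) := by ring
      rw [h1, norm_neg]
      exact hu1
    · intro t ht
      set v := u + (t : ℂ) * (p - u) with hv
      have hpv : p ≠ v := by
        intro h
        rw [← h] at ht
        linarith
      have hub : u ∈ Metric.ball z ρ := by
        rw [Metric.mem_ball, dist_eq_norm]
        exact hu2
      have hvb : v ∈ Metric.ball z ρ := by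
        rw [Metric.mem_ball, dist_eq_norm]
        exact ht
      have ht1 : t < 1 := by
        by_contra hcon
        push Not at hcon
        have ht0 : 0 < t := by linarith
        have htc : (t : ℂ) ≠ 0 := by exact_mod_cast ht0.ne'
        have h1 : p ∈ segment ℝ u v := by
          refine ⟨1 - 1 / t, 1 / t, ?_, by positivity, by ring, ?_⟩
          · rw [sub_nonneg, div_le_one ht0]
            exact hcon
          · simp only [Complex.real_smul]
            push_cast
            rw [hv]
            field_simp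
            ring
        have h2 := (convex_ball z ρ).segment_subset hub hvb h1
        rw [Metric.mem_ball, dist_eq_norm] at h2
        linarith
      change P.Vis p v
      rcases le_or_gt 0 t with ht0 | ht0
      · refine huV.sub (left_mem_segment ℝ _ _) ?_ hpv
        refine ⟨t, 1 - t, ht0, by linarith, by ring, ?_⟩
        simp only [Complex.real_smul]
        push_cast
        rw [hv]
        ring
      · intro c hcc
        obtain ⟨a, b, ha, hb1, hab, rfl⟩ := hcc
        have hval : a • p + b • v = p - ((b * (1 - t) : ℝ) : ℂ) * (p - u) := by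
          have ha' : a = 1 - b := by linarith
          subst ha'
          simp only [Complex.real_smul]
          push_cast
          rw [hv]
          ring
        rw [hval]
        rcases lt_or_ge (b * (1 - t)) 1 with h1 | h1
        · apply huV
          refine ⟨1 - b * (1 - t), b * (1 - t), by linarith, mul_pos hb1 (by linarith), by ring, ?_⟩
          simp only [Complex.real_smul]
          push_cast
          ring
        · apply hb
          refine (convex_ball z ρ).segment_subset hub hvb ?_
          have htn : 0 < -t := by linarith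
          have htc : (t : ℂ) ≠ 0 := by exact_mod_cast ht0.ne
          have h2 : b * (1 - t) - 1 ≤ -t := by
            have : b ≤ 1 := by linarith
            nlinarith
          refine ⟨1 - (b * (1 - t) - 1) / (-t), (b * (1 - t) - 1) / (-t), ?_, ?_, by ring, ?_⟩
          · rw [sub_nonneg, div_le_one htn]
            exact h2
          · exact div_nonneg (by linarith) htn.le
          · simp only [Complex.real_smul]
            push_cast
            rw [hv]
            field_simp
            ring
  obtain ⟨h, hh, hhalf⟩ := half_of_chords (G := P.SeeP p) (z := z) (d := p - z) hρ hd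
    (fun u hu hu1 => by
      obtain ⟨ε, hε, H⟩ := P.vis_open_I hc (hbI u hu1) (show P.Vis p u from hu)
      exact ⟨ε, hε, fun u' hu' => H u' hu'⟩)
    (fun u hu v hv hu1 hv1 c hcc => P.HalfP_conv hc hb hu hv hu1 hv1 c hcc) hno hch
  refine ⟨h, ⟨?_, hpz, ?_, ?_, hhalf, hno⟩⟩
  · rcases hh with rfl | rfl
    · exact hd
    · exact neg_ne_zero.2 hd
  · rcases hh with rfl | rfl
    · exact cr_self _
    · rw [cr_neg_left, cr_self, neg_zero]
  · intro c hcc
    obtain ⟨a, b, ha, hb1, hab, rfl⟩ := hcc
    have hcont : Continuous fun w : ℂ => a • w + b • p := by fun_prop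
    have hmaps : ∀ w ∈ P.SeeP p, a • w + b • p ∈ P.R := by
      intro w hw
      have hw1 : P.Vis p w := hw
      refine hw1.symm.seg ?_
      exact ⟨a, b, ha, hb1, hab, rfl⟩
    have h1 : a • z + b • p ∈ closure P.R :=
      map_mem_closure (f := fun w : ℂ => a • w + b • p) hcont hcl hmaps
    rw [P.R_closed.closure_eq] at h1
    exact h1

end Poly

end Pool.Agent.Lib_PL
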