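import Pool.Agent.Lib_PLQ.HalfDisc
import Pool.Agent.Lib_PLQ.HalfP
import Pool.Agent.Lib_PLQ.CompFin
import Pool.Agent.Lib_PLQ.Cone

/-!
# A4: near a frontier point in `I` the lit region is a finite union of open half discs

`z ∈ frontier (VV p k)`, `z ∈ I`: `z ∉ VV p k` (`VV_open`) and `z ∈ closure (VV p k)`.
Near `z` (in `I ⊆ R`): `z' ∈ VV p k ↔ z' ∈ SeeP p ∨ (k = K + 1 ∧ ∃ X canonical component of Bp p K, z' ∈ SeeA X)` (`VV_zero`, `VV_succ`, `exists_comp`, `canon`, `comp_sh`, `γ_add_mul`).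
The components are finitely many (`comp_finite`).  For those with `z ∉ closure (SeeA X)` (and for `p` if `z ∉ closure (SeeP p)`) a ball around `z` misses the set.  For the others: `half_disc` (`z ∉ SeeA X` since `z ∉ VV p k`),
`half_disc_p`: a direction `h` and a radius.  `H` = the finite set of these `h`; `ρ` = minimum of the radii.  `H` is nonempty because `z ∈ closure (VV p k)`.
-/

open Set Complex
open scoped Topology

namespace Pool.Agent.Lib_PL

namespace Poly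

variable {n : ℕ} (P : Poly n)

/-- `h` is the direction of the half disc at `z` of the light source or of a component of `Bp p K`, `k = K + 1` -/
def Src (p : ℂ) (k : ℕ) (z h : ℂ) : Prop :=
  P.PS p z h ∨ ∃ (K : ℕ) (X : Arc) (ξ : ℝ), k = K + 1 ∧ P.XS p K X z h ξ

theorem Src.h0 {P : Poly n} {p : ℂ} {k : ℕ} {z h : ℂ} (hs : P.Src p k z h) : h ≠ 0 := by
  rcases hs with hs | ⟨K, X, ξ, -, hs⟩
  · exact hs.h0
  · exact hs.h0

/-- a finite family of sets each of which misses a ball around `z` or is a half disc near `z` -/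
private theorem LocalStruct_fin (S : ℂ → Prop) (z : ℂ) {F : Set (Set ℂ)} (hF : F.Finite)
    (hG : ∀ g ∈ F, z ∉ closure g ∨ ∃ h, S h ∧ HalfAt g z h) :
    ∃ H : Finset ℂ, (∀ h ∈ H, S h) ∧
      ∃ ρ > 0, ∀ z' : ℂ, ‖z' - z‖ < ρ → ((∃ g ∈ F, z' ∈ g) ↔ ∃ h ∈ H, 0 < cr h (z' - z)) := by
  classical
  induction F, hF using Set.Finite.induction_on with
  | empty =>
    refine ⟨∅, by simp, 1, one_pos, ?_⟩
    intro z' _
    simp
  | @insert a F' _ _ ih =>
    obtain ⟨H, hS, ρ, hρ, hH⟩ := ih fun g hg => hG g (mem_insert_of_mem _ hg)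
    rcases hG a (mem_insert _ _) with ha | ⟨h, hSh, ρ', hρ', hh⟩
    · obtain ⟨ε, hε, hb⟩ := Metric.isOpen_iff.1 isClosed_closure.isOpen_compl z ha
      refine ⟨H, hS, min ρ ε, lt_min hρ hε, ?_⟩
      intro z' hz'
      rw [← hH z' (hz'.trans_le (min_le_left _ _))]
      have hna : z' ∉ a := by
        intro h1
        refine hb (?_ : z' ∈ Metric.ball z ε) (subset_closure h1)
        rw [Metric.mem_ball, dist_eq_norm]
        exact hz'.trans_le (min_le_right _ _)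
      constructor
      · rintro ⟨g, hg, hzg⟩
        rcases hg with rfl | hg
        · exact absurd hzg hna
        · exact ⟨g, hg, hzg⟩
      · rintro ⟨g, hg, hzg⟩
        exact ⟨g, mem_insert_of_mem _ hg, hzg⟩
    · refine ⟨insert h H, ?_, min ρ ρ', lt_min hρ hρ', ?_⟩
      · intro h1 hh1
        rcases Finset.mem_insert.1 hh1 with rfl | hh1
        · exact hSh
        · exact hS _ hh1
      · intro z' hz'
        have h1 := hH z' (hz'.trans_le (min_le_left _ _))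
        have h2 := hh z' (hz'.trans_le (min_le_right _ _))
        constructor
        · rintro ⟨g, hg, hzg⟩
          rcases hg with rfl | hg
          · exact ⟨h, Finset.mem_insert_self _ _, h2.1 hzg⟩
          · obtain ⟨h3, hh3, hc⟩ := h1.1 ⟨g, hg, hzg⟩
            exact ⟨h3, Finset.mem_insert_of_mem hh3, hc⟩
        · rintro ⟨h3, hh3, hc⟩
          rcases Finset.mem_insert.1 hh3 with rfl | hh3
          · exact ⟨a, mem_insert _ _, h2.2 hc⟩
          · obtain ⟨g, hg, hzg⟩ := h1.2 ⟨h3, hh3, hc⟩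
            exact ⟨g, mem_insert_of_mem _ hg, hzg⟩

/-- the common part of the two cases -/
private theorem LocalStruct_glue {V : Set ℂ} (S : ℂ → Prop) {z : ℂ} {F : Set (Set ℂ)}
    (hF : F.Finite) (hG : ∀ g ∈ F, z ∉ closure g ∨ ∃ h, S h ∧ HalfAt g z h)
    (hloc : ∃ ρ > 0, ∀ z' : ℂ, ‖z' - z‖ < ρ → (z' ∈ V ↔ ∃ g ∈ F, z' ∈ g))
    (hcl : z ∈ closure V) :
    ∃ H : Finset ℂ, H.Nonempty ∧ (∀ h ∈ H, S h) ∧
      ∃ ρ > 0, ∀ z' : ℂ, ‖z' - z‖ < ρ → (z' ∈ V ↔ ∃ h ∈ H, 0 < cr h (z' - z)) := by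
  obtain ⟨H, hS, ρ, hρ, hH⟩ := LocalStruct_fin S z hF hG
  obtain ⟨ρ', hρ', hV⟩ := hloc
  have hmain : ∀ z' : ℂ, ‖z' - z‖ < min ρ ρ' → (z' ∈ V ↔ ∃ h ∈ H, 0 < cr h (z' - z)) := by
    intro z' hz'
    rw [hV z' (hz'.trans_le (min_le_right _ _)), hH z' (hz'.trans_le (min_le_left _ _))]
  refine ⟨H, ?_, hS, min ρ ρ', lt_min hρ hρ', hmain⟩
  obtain ⟨w, hwV, hw⟩ := Metric.mem_closure_iff.1 hcl (min ρ ρ') (lt_min hρ hρ')
  rw [dist_comm, dist_eq_norm] at hw
  obtain ⟨h, hh, -⟩ := (hmain w hw).1 hwV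
  exact ⟨h, hh⟩

theorem local_struct (hc : P.CCW) {p : ℂ} (hp : p ∈ P.R) {k : ℕ} {z : ℂ} (hz : z ∈ P.I)
    (hf : z ∈ frontier (P.VV p k)) :
    ∃ H : Finset ℂ, H.Nonempty ∧ (∀ h ∈ H, P.Src p k z h) ∧
      ∃ ρ > 0, ∀ z' : ℂ, ‖z' - z‖ < ρ → (z' ∈ P.VV p k ↔ ∃ h ∈ H, 0 < cr h (z' - z)) := by
  have hcl : z ∈ closure (P.VV p k) := frontier_subset_closure hf
  have hnV : z ∉ P.VV p k := by
    intro h
    obtain ⟨ε, hε, hb⟩ := P.VV_open hc h hz
    refine hf.2 (mem_interior_iff_mem_nhds.2 (Metric.mem_nhds_iff.2 ⟨ε, hε, ?_⟩))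
    intro w hw
    rw [Metric.mem_ball, dist_eq_norm] at hw
    exact hb w hw
  obtain ⟨δ, hδ, hI⟩ := Metric.isOpen_iff.1 P.I_open z hz
  have hR : ∀ z' : ℂ, ‖z' - z‖ < δ → z' ∈ P.R := fun z' hz' =>
    P.I_sub_R (hI (by rw [Metric.mem_ball, dist_eq_norm]; exact hz'))
  have hnP : z ∉ P.SeeP p := by
    intro h
    exact hnV (P.VV_mono p (Nat.zero_le k) ((P.VV_zero p z).2 ⟨P.I_sub_R hz, h⟩))
  have hsP : z ∉ closure (P.SeeP p) ∨ ∃ h, P.Src p k z h ∧ HalfAt (P.SeeP p) z h := by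
    by_cases h : z ∈ closure (P.SeeP p)
    · obtain ⟨h1, hh1⟩ := P.half_disc_p hc hp hz h hnP
      exact Or.inr ⟨h1, Or.inl hh1, hh1.half⟩
    · exact Or.inl h
  rcases k with _ | K
  · refine LocalStruct_glue (P.Src p 0 z) (F := {P.SeeP p}) (finite_singleton _) ?_ ?_ hcl
    · intro g hg
      rw [mem_singleton_iff] at hg
      rw [hg]
      exact hsP
    · refine ⟨δ, hδ, fun z' hz' => ?_⟩
      rw [P.VV_zero]
      constructor
      · intro h
        exact ⟨P.SeeP p, mem_singleton _, h.2⟩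
      · rintro ⟨g, hg, h⟩
        rw [mem_singleton_iff] at hg
        rw [hg] at h
        exact ⟨hR z' hz', h⟩
  · refine LocalStruct_glue (P.Src p (K + 1) z)
      (F := insert (P.SeeP p) (P.SeeA '' {X : Arc | P.IsComp p K X ∧ 0 ≤ X.i ∧ X.i < n}))
      (((P.comp_finite hc p K).image _).insert _) ?_ ?_ hcl
    · intro g hg
      rcases hg with rfl | ⟨X, ⟨hX, -, -⟩, rfl⟩
      · exact hsP
      · have hnX : z ∉ P.SeeA X := by
          rintro ⟨s, hs, hv⟩
          exact hnV (P.VV_of_vis (hX.sub hs) hv.symm)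
        by_cases h : z ∈ closure (P.SeeA X)
        · obtain ⟨h1, ξ, h10, hξ, hpar, hseg, hhalf⟩ := P.half_disc hc hX.ia hX.bi hz h hnX
          exact Or.inr ⟨h1, Or.inr ⟨K, X, ξ, rfl, hX, h10, hξ, hpar, hseg, hhalf, hnX⟩, hhalf⟩
        · exact Or.inl h
    · refine ⟨δ, hδ, fun z' hz' => ?_⟩
      rw [P.VV_succ, P.VV_zero]
      constructor
      · rintro (h | ⟨-, x, hx, hv⟩)
        · exact ⟨P.SeeP p, mem_insert _ _, h.2⟩
        · obtain ⟨A, hA, hxA⟩ := P.exists_comp hc hx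
          obtain ⟨m, hm0, hmn⟩ := P.canon A
          refine ⟨P.SeeA (A.sh (m * n)), mem_insert_of_mem _ ⟨_, ⟨P.comp_sh m hA, hm0, hmn⟩, rfl⟩, ?_⟩
          refine ⟨x + m * n, ?_, ?_⟩
          · rw [Arc.mem_sh]
            push_cast
            rw [add_sub_cancel_right]
            exact hxA
          · rw [P.γ_add_mul]
            exact hv.symm
      · rintro ⟨g, hg, h⟩
        rcases hg with rfl | ⟨X, ⟨hX, -, -⟩, rfl⟩
        · exact Or.inl ⟨hR z' hz', h⟩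
        · obtain ⟨s, hs, hv⟩ := h
          exact Or.inr ⟨hR z' hz', s, hX.sub hs, hv.symm⟩

end Poly

end Pool.Agent.Lib_PL
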