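import Pool.Agent.Lib_PLQ.EDefs
import Pool.Agent.Lib_PLQ.LocalStruct

/-!
# A9 (E2): at most two edges of the subdivision at a vertex in `I`

`local_struct` and `frontier_cone` at `z` (`Src.h0`).  Let `t ∈ T` have the end `z` and the other end `y ≠ z`; the points `z + s (y - z)`, small `s > 0`, are in `frontier V` (`EData.edge`), so `Ext H (s (y - z))`, so `Ext H (y - z)` (homogeneity).
Three different edges at `z` with other ends `y₁, y₂, y₃`: `ext_rays` gives two which are positive multiples `yⱼ - z = c (yᵢ - z)`; then the two open segments have a common point near `z`: against `disj`.  (`Finset.two_lt_card`.)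
-/

open Set Complex
open scoped Topology

namespace Pool.Agent.Lib_PL

/-- a short part of a segment of frontier points gives an extreme direction -/
private theorem EdgeTwo_ext {A : Set ℂ} {z y : ℂ} {H : Finset ℂ} {ρ : ℝ} (hρ : 0 < ρ) (hy : y ≠ z)
    (hl : ∀ z' : ℂ, ‖z' - z‖ < ρ → (z' ∈ A ↔ Ext H (z' - z))) (hs : openSegment ℝ z y ⊆ A) :
    Ext H (y - z) := by
  have hn : 0 < ‖y - z‖ := norm_pos_iff.2 (sub_ne_zero.2 hy)
  obtain ⟨s, hs0, hs1, hs2⟩ : ∃ s : ℝ, 0 < s ∧ s < 1 ∧ s * ‖y - z‖ < ρ := by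
    refine ⟨min (1 / 2) (ρ / (2 * ‖y - z‖)), by positivity, ?_, ?_⟩
    · exact lt_of_le_of_lt (min_le_left _ _) (by norm_num)
    · calc min (1 / 2) (ρ / (2 * ‖y - z‖)) * ‖y - z‖ ≤ ρ / (2 * ‖y - z‖) * ‖y - z‖ :=
            mul_le_mul_of_nonneg_right (min_le_right _ _) hn.le
        _ = ρ / 2 := by field_simp
        _ < ρ := by linarith
  have hmem : z + s • (y - z) ∈ openSegment ℝ z y := by
    rw [openSegment_eq_image']
    exact ⟨s, ⟨hs0, hs1⟩, rfl⟩
  have hE := (hl (z + s • (y - z)) (by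
    rw [add_sub_cancel_left, norm_smul, Real.norm_of_nonneg hs0.le]
    exact hs2)).1 (hs hmem)
  rw [add_sub_cancel_left, Complex.real_smul] at hE
  have hcr : ∀ h : ℂ, cr h ((s : ℂ) * (y - z)) = s * cr h (y - z) := fun h => by
    rw [cr_mul_right]
  refine ⟨fun h hh => ?_, ?_⟩
  · have h1 := hE.1 h hh
    rw [hcr] at h1
    by_contra hcon
    exact absurd h1 (not_le.2 (mul_pos hs0 (not_le.1 hcon)))
  · obtain ⟨h, hh, h1⟩ := hE.2
    rw [hcr] at h1
    exact ⟨h, hh, (mul_eq_zero.1 h1).resolve_left hs0.ne'⟩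

/-- two segments with a common end in the same direction meet -/
private theorem EdgeTwo_meet {z y y' : ℂ} {c : ℝ} (hc : 0 < c) (h : y' - z = (c : ℂ) * (y - z)) :
    ¬ Disjoint (openSegment ℝ z y) (openSegment ℝ z y') := by
  rw [Set.not_disjoint_iff]
  obtain ⟨s, hs0, hs1, hs2⟩ : ∃ s : ℝ, 0 < s ∧ s < 1 ∧ s < c := by
    refine ⟨min 1 c / 2, by positivity, ?_, ?_⟩
    · have := min_le_left 1 c
      linarith
    · have := min_le_right 1 c
      linarith
  refine ⟨z + s • (y - z), ?_, ?_⟩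
  · rw [openSegment_eq_image']
    exact ⟨s, ⟨hs0, hs1⟩, rfl⟩
  · rw [openSegment_eq_image']
    refine ⟨s / c, ⟨div_pos hs0 hc, (div_lt_one hc).2 hs2⟩, ?_⟩
    show z + (s / c) • (y' - z) = z + s • (y - z)
    rw [h, Complex.real_smul, Complex.real_smul]
    have hc' : (c : ℂ) ≠ 0 := by exact_mod_cast hc.ne'
    push_cast
    field_simp

namespace Poly

variable {n : ℕ} (P : Poly n)

open Classical in
theorem edge_two (hc : P.CCW) {p : ℂ} (hp : p ∈ P.R) {k : ℕ} {W : Finset (ℂ × ℂ)} {Q : Finset ℂ}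
    {T : Finset (ℂ × ℂ)} (h : P.EData p k W Q T) {z : ℂ} (hz : z ∈ Q) (hI : z ∈ P.I) :
    (T.filter fun t => t.1 = z ∨ t.2 = z).card ≤ 2 := by
  by_contra hcon
  obtain ⟨t₁, h₁, t₂, h₂, t₃, h₃, n12, n13, n23⟩ := Finset.two_lt_card.1 (not_le.1 hcon)
  obtain ⟨H, -, hS, hloc⟩ := P.local_struct hc hp hI (h.vtx hz)
  have h0 : ∀ v ∈ H, v ≠ 0 := fun v hv => (hS v hv).h0
  obtain ⟨ρ, hρ, hl⟩ := frontier_cone h0 hloc
  have hoe : ∀ t ∈ T.filter (fun t => t.1 = z ∨ t.2 = z), ∃ y : ℂ, y ≠ z ∧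
      openSegment ℝ t.1 t.2 = openSegment ℝ z y ∧ Ext H (y - z) := by
    intro t ht
    obtain ⟨ht1, ht2⟩ := Finset.mem_filter.1 ht
    obtain ⟨-, -, hne⟩ := h.sub.ends t ht1
    have hsub := h.edge ht1
    rcases ht2 with he | he
    · refine ⟨t.2, fun hh => hne (he.trans hh.symm), by rw [he], ?_⟩
      exact EdgeTwo_ext hρ (fun hh => hne (he.trans hh.symm)) hl (by rw [← he]; exact hsub)
    · have hh : t.1 ≠ z := fun hh => hne (hh.trans he.symm)
      refine ⟨t.1, hh, by rw [he, openSegment_symm], ?_⟩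
      exact EdgeTwo_ext hρ hh hl (by rw [← he, openSegment_symm]; exact hsub)
  obtain ⟨y₁, g1, o1, e1⟩ := hoe t₁ h₁
  obtain ⟨y₂, g2, o2, e2⟩ := hoe t₂ h₂
  obtain ⟨y₃, g3, o3, e3⟩ := hoe t₃ h₃
  have hT : ∀ {t}, t ∈ T.filter (fun t => t.1 = z ∨ t.2 = z) → t ∈ T := fun ht =>
    (Finset.mem_filter.1 ht).1
  rcases ext_rays h0 (sub_ne_zero.2 g1) (sub_ne_zero.2 g2) (sub_ne_zero.2 g3) e1 e2 e3 with
    ⟨c, hc0, he⟩ | ⟨c, hc0, he⟩ | ⟨c, hc0, he⟩
  · refine EdgeTwo_meet hc0 he ?_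
    rw [← o1, ← o2]
    exact h.sub.disj _ (hT h₁) _ (hT h₂) n12
  · refine EdgeTwo_meet hc0 he ?_
    rw [← o1, ← o3]
    exact h.sub.disj _ (hT h₁) _ (hT h₃) n13
  · refine EdgeTwo_meet hc0 he ?_
    rw [← o2, ← o3]
    exact h.sub.disj _ (hT h₂) _ (hT h₃) n23

end Poly

end Pool.Agent.Lib_PL
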