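import Pool.Agent.Lib_PLQ.EDefs

/-!
# A9 (E3): an edge in `I` with both ends in `C` is a chord of `W`

`U = openSegment t.1 t.2 ⊆ I` is infinite and contained in the finite union of the open chords of `W` (`cov`), so (pigeonhole: e.g. `Set.Infinite` / the points `t.1 + (1 / (j + 2)) (t.2 - t.1)`, or `Finset.exists_ne_map_eq_of_card_lt_of_maps_to`) there is `w ∈ W` which contains two different points `z, z'` of `U`.
So the four points are on one line; write everything in the parameter of the line (`z` as origin, `z' - z` as direction).  `openSegment w.1 w.2 ⊆ I` (`Vis`), `w.1, w.2 ∈ C`, `t.1, t.2 ∈ C`, `I ∩ C = ∅`: the ends of `t` are not inside `w` and conversely; both open segments contain `z`.  So the two segments are equal: `t.1 = w.1, t.2 = w.2` or `t.1 = w.2, t.2 = w.1`.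
-/

open Set Complex
open scoped Topology

namespace Pool.Agent.Lib_PL

namespace Poly

variable {n : ℕ} (P : Poly n)

private theorem mem_os_iff (p q x : ℂ) :
    x ∈ openSegment ℝ p q ↔ ∃ θ : ℝ, 0 < θ ∧ θ < 1 ∧ x = p + (θ : ℂ) * (q - p) := by
  constructor
  · rintro ⟨a, b, ha, hb, hab, rfl⟩
    refine ⟨b, hb, by linarith, ?_⟩
    have : a = 1 - b := by linarith
    subst this
    simp only [real_smul]
    push_cast
    ring
  · rintro ⟨θ, h0, h1, rfl⟩
    refine ⟨1 - θ, θ, by linarith, h0, by ring, ?_⟩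
    simp only [real_smul]
    push_cast
    ring

private theorem edgeWhole_aux {t w : ℂ × ℂ} (hne : t.1 ≠ t.2)
    (hI : openSegment ℝ t.1 t.2 ⊆ P.I) (h1 : t.1 ∈ P.C) (h2 : t.2 ∈ P.C)
    (hw1 : w.1 ∈ P.C) (hw2 : w.2 ∈ P.C) (hvis : P.Vis w.1 w.2) {a b : ℝ} (ha0 : 0 < a) (ha1 : a < 1)
    (hab : a ≠ b) (hz : t.1 + (a : ℂ) * (t.2 - t.1) ∈ openSegment ℝ w.1 w.2)
    (hz' : t.1 + (b : ℂ) * (t.2 - t.1) ∈ openSegment ℝ w.1 w.2) :
    (t.1 = w.1 ∧ t.2 = w.2) ∨ (t.1 = w.2 ∧ t.2 = w.1) := by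
  have hu : t.2 - t.1 ≠ 0 := sub_ne_zero.2 hne.symm
  obtain ⟨c, hc0, hc1, hc⟩ := (mem_os_iff _ _ _).1 hz
  obtain ⟨d, hd0, hd1, hd⟩ := (mem_os_iff _ _ _).1 hz'
  have hdc : d - c ≠ 0 := by
    intro he
    have he' : d = c := by linarith
    rw [he', ← hc] at hd
    have h3 : ((b : ℂ) - a) * (t.2 - t.1) = 0 := by linear_combination hd
    rcases mul_eq_zero.1 h3 with h4 | h4
    · apply hab
      have h5 : (b : ℂ) = a := sub_eq_zero.1 h4
      exact_mod_cast h5.symm
    · exact hu h4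
  have hdcC : (d : ℂ) - c ≠ 0 := by
    intro he
    apply hdc
    exact_mod_cast he
  -- direction
  have hdir : w.2 - w.1 = (((b - a) / (d - c) : ℝ) : ℂ) * (t.2 - t.1) := by
    have h3 : ((d : ℂ) - c) * (w.2 - w.1) = ((b : ℂ) - a) * (t.2 - t.1) := by
      linear_combination hc - hd
    push_cast
    field_simp
    linear_combination h3
  have hlam : (b - a) / (d - c) ≠ 0 := div_ne_zero (sub_ne_zero.2 hab.symm) hdc
  generalize (b - a) / (d - c) = l at hdir hlam
  have hw1' : w.1 = t.1 + ((a - c * l : ℝ) : ℂ) * (t.2 - t.1) := by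
    push_cast
    linear_combination - hc - (c : ℂ) * hdir
  have hw2' : w.2 = t.1 + ((a - c * l + l : ℝ) : ℂ) * (t.2 - t.1) := by
    push_cast
    linear_combination - hc + (1 - (c : ℂ)) * hdir
  -- membership in the open segments
  have hint : ∀ x : ℝ, 0 < x → x < 1 → t.1 + (x : ℂ) * (t.2 - t.1) ∉ P.C := fun x hx0 hx1 hx =>
    (hI ((mem_os_iff _ _ _).2 ⟨x, hx0, hx1, rfl⟩)).1 hx
  have hintw : ∀ x : ℝ, 0 < x → x < 1 → w.1 + (x : ℂ) * (w.2 - w.1) ∉ P.C := fun x hx0 hx1 hx =>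
    (hvis ((mem_os_iff _ _ _).2 ⟨x, hx0, hx1, rfl⟩)).1 hx
  -- a point with parameter `s` of the line of `t` is inside `w` if `s` is between the parameters of the ends
  have key : ∀ s : ℝ, t.1 + (s : ℂ) * (t.2 - t.1) ∈ P.C → ¬ (0 < (s - (a - c * l)) / l ∧ (s - (a - c * l)) / l < 1) := by
    rintro s hs ⟨hx0, hx1⟩
    refine hintw _ hx0 hx1 ?_
    have : w.1 + (((s - (a - c * l)) / l : ℝ) : ℂ) * (w.2 - w.1) = t.1 + (s : ℂ) * (t.2 - t.1) := by
      rw [hdir, hw1']
      have hlC : (l : ℂ) ≠ 0 := by exact_mod_cast hlam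
      push_cast
      field_simp
      ring
    rw [this]
    exact hs
  have k0 := key 0 (by simpa using h1)
  have k1 := key 1 (by simpa using h2)
  have q1 : ¬ (0 < a - c * l ∧ a - c * l < 1) := fun h => hint _ h.1 h.2 (hw1' ▸ hw1)
  have q2 : ¬ (0 < a - c * l + l ∧ a - c * l + l < 1) := fun h => hint _ h.1 h.2 (hw2' ▸ hw2)
  rcases lt_or_gt_of_ne hlam with hl | hl
  · -- `l < 0`
    have e1 : a - c * l = 1 := by
      have hgt : 0 < a - c * l := by nlinarith
      have h3 : 1 ≤ a - c * l := by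
        by_contra h4
        exact q1 ⟨hgt, not_le.1 h4⟩
      refine le_antisymm ?_ h3
      by_contra h4
      push Not at h4
      apply k1
      constructor
      · exact div_pos_of_neg_of_neg (by linarith) hl
      · rw [div_lt_one_of_neg hl]
        nlinarith
    have e2 : a - c * l + l = 0 := by
      have hlt : a - c * l + l < 1 := by linarith
      have h3 : a - c * l + l ≤ 0 := by
        by_contra h4
        exact q2 ⟨not_le.1 h4, hlt⟩
      refine le_antisymm h3 ?_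
      by_contra h4
      push Not at h4
      apply k0
      constructor
      · exact div_pos_of_neg_of_neg (by linarith) hl
      · rw [div_lt_one_of_neg hl]
        linarith
    right
    constructor
    · rw [hw2', e2]
      simp
    · rw [hw1', e1]
      simp
  · -- `0 < l`
    have e1 : a - c * l = 0 := by
      have hlt : a - c * l < 1 := by nlinarith
      have h3 : a - c * l ≤ 0 := by
        by_contra h4
        exact q1 ⟨not_le.1 h4, hlt⟩
      refine le_antisymm h3 ?_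
      by_contra h4
      push Not at h4
      apply k0
      constructor
      · exact div_pos (by linarith) hl
      · rw [div_lt_one hl]
        nlinarith
    have e2 : a - c * l + l = 1 := by
      have hgt : 0 < a - c * l + l := by linarith
      have h3 : 1 ≤ a - c * l + l := by
        by_contra h4
        exact q2 ⟨hgt, not_le.1 h4⟩
      refine le_antisymm ?_ h3
      by_contra h4
      push Not at h4
      apply k1
      constructor
      · exact div_pos (by linarith) hl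
      · rw [div_lt_one hl]
        linarith
    left
    constructor
    · rw [hw1', e1]
      simp
    · rw [hw2', e2]
      simp

theorem edge_whole (hc : P.CCW) {p : ℂ} {k : ℕ} {W : Finset (ℂ × ℂ)} {Q : Finset ℂ}
    {T : Finset (ℂ × ℂ)} (h : P.EData p k W Q T) {t : ℂ × ℂ} (ht : t ∈ T)
    (hI : openSegment ℝ t.1 t.2 ⊆ P.I) (h1 : t.1 ∈ P.C) (h2 : t.2 ∈ P.C) :
    ∃ w ∈ W, (t.1 = w.1 ∧ t.2 = w.2) ∨ (t.1 = w.2 ∧ t.2 = w.1) := by
  have hne : t.1 ≠ t.2 := (h.sub.ends t ht).2.2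
  have hu : t.2 - t.1 ≠ 0 := sub_ne_zero.2 hne.symm
  have hIC : ∀ x, x ∈ P.I → x ∉ P.C := fun x hx => hx.1
  -- the points
  let θ : ℕ → ℝ := fun j => 1 / ((j : ℝ) + 2)
  have hθ0 : ∀ j, 0 < θ j := fun j => by
    show (0 : ℝ) < 1 / ((j : ℝ) + 2)
    positivity
  have hθ1 : ∀ j, θ j < 1 := fun j => by
    show 1 / ((j : ℝ) + 2) < (1 : ℝ)
    rw [div_lt_one (by positivity)]
    have : (0 : ℝ) ≤ j := Nat.cast_nonneg j
    linarith
  have hz : ∀ j, t.1 + (θ j : ℂ) * (t.2 - t.1) ∈ openSegment ℝ t.1 t.2 := fun j =>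
    (mem_os_iff _ _ _).2 ⟨θ j, hθ0 j, hθ1 j, rfl⟩
  have hw : ∀ j, ∃ w : W, t.1 + (θ j : ℂ) * (t.2 - t.1) ∈ openSegment ℝ w.1.1 w.1.2 := fun j => by
    obtain ⟨w, hwW, hw⟩ := h.cov _ (h.edge ht (hz j)) (hI (hz j))
    exact ⟨⟨w, hwW⟩, hw⟩
  choose f hf using hw
  obtain ⟨i, j, hij, hfij⟩ := Finite.exists_ne_map_eq_of_infinite f
  have hθij : θ i ≠ θ j := by
    intro he
    apply hij
    have h3 : (i : ℝ) + 2 = (j : ℝ) + 2 := by
      have h4 : 1 / ((i : ℝ) + 2) = 1 / ((j : ℝ) + 2) := he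
      rw [one_div, one_div, inv_inj] at h4
      exact h4
    exact_mod_cast (add_right_cancel h3)
  have hfi := hf i
  have hfj := hf j
  rw [← hfij] at hfj
  obtain ⟨hw1, hw2, hvis⟩ := h.W1 (f i).1 (f i).2
  exact ⟨(f i).1, (f i).2,
    edgeWhole_aux P hne hI h1 h2 hw1 hw2 hvis (hθ0 i) (hθ1 i) hθij hfi hfj⟩

end Poly

end Pool.Agent.Lib_PL
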