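import Pool.Agent.Lib_PLQ.EdgeIC
import Pool.Agent.Lib_PLQ.EdgeTwo
import Pool.Agent.Lib_PLQ.EdgeWhole
import Pool.Agent.Lib_PLQ.EdgeC

/-!
# A9: the number of edges of the subdivision

`T` is covered by: the edges with an end in `I` (`edge_two`, `Finset.card_biUnion_le_card_mul`), the edges in `C` (`edge_C`), and the others: by `edge_IC` they are contained in `I`, both ends are in `R`, not in `I`, so in `C`: `edge_whole`; the map to `w ∈ W` is injective, because two different edges with the same two ends have the same open segment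
(`openSegment_symm`): against `disj` (the open segment is nonempty).
-/

open Set Complex
open scoped Topology

namespace Pool.Agent.Lib_PL

namespace Poly

variable {n : ℕ} (P : Poly n)

private theorem EdgeCount_ne (a b : ℂ) : (openSegment ℝ a b).Nonempty := by
  refine ⟨(2⁻¹ : ℝ) • a + (2⁻¹ : ℝ) • b, 2⁻¹, 2⁻¹, by norm_num, by norm_num, by norm_num, rfl⟩

open Classical in
theorem edges_count (hc : P.CCW) {p : ℂ} (hp : p ∈ P.R) {k : ℕ} {W : Finset (ℂ × ℂ)}
    {Q : Finset ℂ} {T : Finset (ℂ × ℂ)} (h : P.EData p k W Q T) :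
    T.card ≤ 2 * (Q.filter fun z => z ∈ P.I).card + W.card + (Q.filter fun z => z ∈ P.C).card := by
  set A : Finset (ℂ × ℂ) :=
    (Q.filter fun z => z ∈ P.I).biUnion fun z => T.filter fun t => t.1 = z ∨ t.2 = z with hA
  set B : Finset (ℂ × ℂ) :=
    T.filter fun t => openSegment ℝ t.1 t.2 ⊆ P.I ∧ t.1 ∈ P.C ∧ t.2 ∈ P.C with hB
  set D : Finset (ℂ × ℂ) := T.filter fun t => openSegment ℝ t.1 t.2 ⊆ P.C with hD
  have hAc : A.card ≤ (Q.filter fun z => z ∈ P.I).card * 2 := by
    refine Finset.card_biUnion_le_card_mul _ _ _ ?_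
    intro z hz
    rw [Finset.mem_filter] at hz
    exact P.edge_two hc hp h hz.1 hz.2
  have hDc : D.card ≤ (Q.filter fun z => z ∈ P.C).card := P.edge_C hc h
  have hBc : B.card ≤ W.card := by
    have hex : ∀ t ∈ B, ∃ w ∈ W, (t.1 = w.1 ∧ t.2 = w.2) ∨ (t.1 = w.2 ∧ t.2 = w.1) := by
      intro t ht
      rw [hB, Finset.mem_filter] at ht
      exact P.edge_whole hc h ht.1 ht.2.1 ht.2.2.1 ht.2.2.2
    choose! f hf using hex
    refine Finset.card_le_card_of_injOn f (fun t ht => (hf t ht).1) ?_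
    intro t ht t' ht' he
    have ht0 : t ∈ B := Finset.mem_coe.1 ht
    have ht0' : t' ∈ B := Finset.mem_coe.1 ht'
    by_contra hne
    have hT : t ∈ T := (Finset.mem_filter.1 ht0).1
    have hT' : t' ∈ T := (Finset.mem_filter.1 ht0').1
    have hd := h.sub.disj t hT t' hT' hne
    have hseg : ∀ s ∈ B, openSegment ℝ s.1 s.2 = openSegment ℝ (f s).1 (f s).2 := by
      intro s hs
      rcases (hf s hs).2 with ⟨h1, h2⟩ | ⟨h1, h2⟩
      · rw [h1, h2]
      · rw [h1, h2, openSegment_symm]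
    have e : openSegment ℝ t.1 t.2 = openSegment ℝ t'.1 t'.2 := by
      rw [hseg t ht0, hseg t' ht0', he]
    rw [e, disjoint_self] at hd
    exact (EdgeCount_ne t'.1 t'.2).ne_empty hd
  have hcov : T ⊆ (A ∪ B) ∪ D := by
    intro t ht
    rw [Finset.mem_union, Finset.mem_union]
    obtain ⟨h1, h2, -⟩ := h.sub.ends t ht
    by_cases hI1 : t.1 ∈ P.I
    · refine Or.inl (Or.inl ?_)
      rw [hA, Finset.mem_biUnion]
      exact ⟨t.1, Finset.mem_filter.2 ⟨h1, hI1⟩, Finset.mem_filter.2 ⟨ht, Or.inl rfl⟩⟩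
    by_cases hI2 : t.2 ∈ P.I
    · refine Or.inl (Or.inl ?_)
      rw [hA, Finset.mem_biUnion]
      exact ⟨t.2, Finset.mem_filter.2 ⟨h2, hI2⟩, Finset.mem_filter.2 ⟨ht, Or.inr rfl⟩⟩
    have hC1 : t.1 ∈ P.C := (P.frontier_R (h.vtx h1)).resolve_right hI1
    have hC2 : t.2 ∈ P.C := (P.frontier_R (h.vtx h2)).resolve_right hI2
    rcases P.edge_IC hc h ht with hI | hC
    · exact Or.inl (Or.inr (Finset.mem_filter.2 ⟨ht, hI, hC1, hC2⟩))
    · exact Or.inr (Finset.mem_filter.2 ⟨ht, hC⟩)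
  have h1 := Finset.card_le_card hcov
  have h2 := Finset.card_union_le (A ∪ B) D
  have h3 := Finset.card_union_le A B
  omega

end Poly

end Pool.Agent.Lib_PL
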