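import Pool.Agent.Lib_PLQ.EDefs

/-!
# A9 (E1): every edge of the subdivision is contained in `I` or in `C`

The edge `U = openSegment t.1 t.2` is preconnected and contained in `A ⊆ R = C ∪ I`.  `I` is open, so `U ∩ I` is open in `U`.  `U ∩ C` is open in `U`: let `z ∈ U ∩ C`; `z ∉ Q` (`free`), so `z = γ x` with `NI x` (`mem_C_iff`, `ver`) and `z` is not an end of a chord of `W` (`wend`), so (`Vis.end_of_C`) it is in no closed segment of `W`
(finite union of closed sets): a ball around `z` misses all of them, so by `cov` the points of `A` in this ball are in `C`.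
`IsPreconnected.subset_or_subset` style (or `isPreconnected_iff_subset_of_disjoint` with `u = I` and `v` = an open set with `v ∩ U = C ∩ U`, e.g. the union of these balls).
-/

open Set Complex
open scoped Topology

namespace Pool.Agent.Lib_PL

namespace Poly

variable {n : ℕ} (P : Poly n)

theorem edge_IC (hc : P.CCW) {p : ℂ} {k : ℕ} {W : Finset (ℂ × ℂ)} {Q : Finset ℂ}
    {T : Finset (ℂ × ℂ)} (h : P.EData p k W Q T) {t : ℂ × ℂ} (ht : t ∈ T) :
    openSegment ℝ t.1 t.2 ⊆ P.I ∨ openSegment ℝ t.1 t.2 ⊆ P.C := by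
  classical
  have hU : ∀ z ∈ openSegment ℝ t.1 t.2, z ∈ frontier (P.VV p k) := fun z hz => h.edge ht hz
  have hcl : IsClosed (⋃ w ∈ W, segment ℝ w.1 w.2) := by
    refine W.finite_toSet.isClosed_biUnion fun w _ => ?_
    rw [segment_eq_image_lineMap]
    exact (isCompact_Icc.image AffineMap.lineMap_continuous).isClosed
  have hpre : IsPreconnected (openSegment ℝ t.1 t.2) := (convex_openSegment t.1 t.2).isPreconnected
  have hI : ∀ z ∈ openSegment ℝ t.1 t.2, z ∈ P.I → z ∈ ⋃ w ∈ W, segment ℝ w.1 w.2 := by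
    intro z hz hzI
    obtain ⟨w, hw, hzw⟩ := h.cov z (hU z hz) hzI
    exact mem_iUnion₂.2 ⟨w, hw, openSegment_subset_segment ℝ _ _ hzw⟩
  have hC : ∀ z ∈ openSegment ℝ t.1 t.2, z ∈ P.C → z ∉ ⋃ w ∈ W, segment ℝ w.1 w.2 := by
    intro z hz hzC hzK
    obtain ⟨w, hw, hzw⟩ := mem_iUnion₂.1 hzK
    have hQ : z ∈ Q := by
      rcases (h.W1 w hw).2.2.end_of_C hzw hzC with e | e
      · rw [e]
        exact (h.wend w hw).1 (e ▸ hU z hz)
      · rw [e]
        exact (h.wend w hw).2 (e ▸ hU z hz)
    exact h.sub.free t ht z hQ hz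
  rw [isPreconnected_iff_subset_of_disjoint] at hpre
  rcases hpre P.I (⋃ w ∈ W, segment ℝ w.1 w.2)ᶜ P.I_open hcl.isOpen_compl (by
      intro z hz
      rcases P.frontier_R (hU z hz) with hzC | hzI
      · exact Or.inr (hC z hz hzC)
      · exact Or.inl hzI) (by
      rw [Set.eq_empty_iff_forall_notMem]
      rintro z ⟨hz, hzI, hzK⟩
      exact hzK (hI z hz hzI)) with h1 | h1
  · exact Or.inl h1
  · right
    intro z hz
    rcases P.frontier_R (hU z hz) with hzC | hzI
    · exact hzC
    · exact absurd (hI z hz hzI) (h1 hz)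

end Poly

end Pool.Agent.Lib_PL
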