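import Pool.Agent.Lib_PLQ.Window
import Pool.Agent.Lib_PLQ.LDefs

/-!
# A6: far points are ends on the window chord

`z` far: `XS p K X z h ξ`, `XS p K X' z h' ξ'`, `cr h' (γ ξ - z) < 0`.  `chord_through` and `xs_window` for `h'`: `a, b`, `0 ≤ a < n`, `WD p K (X'.sh ..) a b`, `γ b - γ a = t h'`, `t > 0`.
`cr h h' ≠ 0`: `γ ξ - z` is a real multiple of `h` (`cr_eq_zero` from `par`) and `cr h' (γ ξ - z) ≠ 0`.
`X` is in the arc: for small `ε ≠ 0` of the sign of `cr h h'` the point `w' = z + ε h'` is in `SeeA X` (`HalfAt`) and on the open chord; it sees `γ x'`, `x' ∈ X.s`; by `xs_dir` (with `v = -h'`, `0 < cr (-h') (γ ξ - z)`) for `w'` close to `z`: `cr h' (γ x' - w') < 0`.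
So points of `openSegment w' (γ x')` near `w'` are in `Side a b` (`side_local`: right of the chord), and the whole segment up to `γ x'` (it does not meet the chord again: a second common point would make the line `w' x'` the line of the chord, but `cr h' (γ x' - w') ≠ 0`; `two_points`): `γ x' ∈ Side a b`, so
`x' + m n ∈ (a,b)` (`side_mem_arc`); `a, b ∉ Bp p K` (`WD.a_not`), so `(X.sh (m n)).s ⊆ (a,b)` (interval in `Bp p K`).
`0 < cr h h'`: `UpEnd`: `z + s (γ b - γ a) = z + s t h'` has `0 < cr h (s t h')`: in `SeeA X` (= `SeeA` of the shift, `seeA_sh`) for small `s > 0`.  If `cr h h' < 0`: `DnEnd`, the same for `z - s (γ b - γ a)`.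
-/

open Set Complex
open scoped Topology

namespace Pool.Agent.Lib_PL

namespace Poly

variable {n : ℕ} (P : Poly n)

/-- a point seen from a point of the open chord, on the right of the chord, is in `Side a b` -/
private theorem FarLZ_right (hc : P.CCW) {a b : ℝ} (hab : a < b) (hba : b < a + n)
    (h : P.Vis (P.γ a) (P.γ b)) {c y : ℂ} (hR : segment ℝ c y ⊆ P.R)
    (hcc : c ∈ openSegment ℝ (P.γ a) (P.γ b)) (hneg : cr (P.γ b - P.γ a) (y - c) < 0) :
    y ∈ P.Side a b := by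
  obtain ⟨ρ, hρ, hloc⟩ := P.side_local hc hab hba h hcc
  obtain ⟨ε, hε0, hε1, hε2⟩ : ∃ ε : ℝ, 0 < ε ∧ ε < 1 ∧ ‖(ε : ℂ) * (y - c)‖ < ρ := by
    refine ⟨min (1 / 2) (ρ / (2 * (‖y - c‖ + 1))), ?_, ?_, ?_⟩
    · have := norm_nonneg (y - c)
      exact lt_min (by norm_num) (by positivity)
    · exact (min_le_left _ _).trans_lt (by norm_num)
    · have h1 := norm_nonneg (y - c)
      rw [norm_mul, Complex.norm_real, Real.norm_eq_abs, abs_of_pos
        (lt_min (by norm_num) (by positivity))]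
      have h2 : min (1 / 2) (ρ / (2 * (‖y - c‖ + 1))) * ‖y - c‖ ≤
          ρ / (2 * (‖y - c‖ + 1)) * ‖y - c‖ :=
        mul_le_mul_of_nonneg_right (min_le_right _ _) h1
      refine h2.trans_lt ?_
      rw [div_mul_eq_mul_div, div_lt_iff₀ (by positivity)]
      nlinarith
  have h1 : c + (ε : ℂ) * (y - c) ∈ P.Side a b := by
    refine (hloc _ hε2).1 ?_
    rw [cr_mul_right]
    exact mul_neg_of_pos_of_neg hε0 hneg
  have hcs : cr (P.γ b - P.γ a) (c - P.γ a) = 0 := by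
    rw [openSegment_eq_image'] at hcc
    obtain ⟨t, -, rfl⟩ := hcc
    rw [add_sub_cancel_left, cr_smul_right, cr_self, mul_zero]
  have hcr : ∀ w ∈ segment ℝ (P.γ a) (P.γ b), cr (P.γ b - P.γ a) (w - P.γ a) = 0 := by
    intro w hw
    rw [segment_eq_image'] at hw
    obtain ⟨t, -, rfl⟩ := hw
    rw [add_sub_cancel_left, cr_smul_right, cr_self, mul_zero]
  have h2 : segment ℝ (c + (ε : ℂ) * (y - c)) y ⊆ segment ℝ c y := by
    refine (convex_segment c y).segment_subset ?_ (right_mem_segment ℝ _ _)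
    rw [segment_eq_image']
    exact ⟨ε, ⟨hε0.le, hε1.le⟩, by simp only [Complex.real_smul]⟩
  have h3 : Disjoint (segment ℝ (c + (ε : ℂ) * (y - c)) y) (segment ℝ (P.γ a) (P.γ b)) := by
    rw [disjoint_left]
    intro w hw hw'
    have h4 := hcr w hw'
    rw [segment_eq_image'] at hw
    obtain ⟨t, ⟨ht0, ht1⟩, ht⟩ := hw
    have h5 : w - P.γ a = (c - P.γ a) + ((ε + t * (1 - ε) : ℝ) : ℂ) * (y - c) := by
      rw [← ht]
      simp only [Complex.real_smul]
      push_cast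
      ring
    rw [h5, cr_add_right, hcs, cr_mul_right, zero_add] at h4
    have h6 : 0 < ε + t * (1 - ε) := by nlinarith
    exact absurd h4 (mul_neg_of_pos_of_neg h6 hneg).ne
  rcases P.side_conn hc hab hba h (convex_segment _ y).isPreconnected (h2.trans hR) h3 with h4 | h4
  · exact h4 (right_mem_segment ℝ _ _)
  · exact absurd (h4 (left_mem_segment ℝ _ _)) (disjoint_left.1 (P.side_disj hc hab hba h) h1)

/-- an interval in `Bp p K` which has a point in `(a,b)`, while `a`, `b` are not in `Bp p K` -/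
private theorem FarLZ_sub {p : ℂ} {K : ℕ} {X : Arc} (hX : P.IsComp p K X) {a b x : ℝ}
    (ha : a ∉ P.Bp p K) (hb : b ∉ P.Bp p K) (hx : x ∈ X.s) (hxa : a < x) (hxb : x < b) :
    X.s ⊆ Ioo a b := by
  intro y hy
  constructor
  · by_contra hcon
    rw [not_lt] at hcon
    exact ha (hX.sub ⟨lt_of_lt_of_le hy.1 hcon, hxa.trans hx.2⟩)
  · by_contra hcon
    rw [not_lt] at hcon
    exact hb (hX.sub ⟨hx.1.trans hxb, lt_of_le_of_lt hcon hy.2⟩)

theorem far_cases (hc : P.CCW) {p : ℂ} {K : ℕ} {z : ℂ} (hz : z ∈ P.I) (hd : z ∉ P.VV p (K + 1))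
    (hf : P.Far p K z) : ∃ (a b : ℝ) (X X' : Arc) (t : ℝ), 0 ≤ a ∧ a < n ∧ P.WD p K X' a b ∧
      P.IsComp p K X ∧ X.s ⊆ Ioo a b ∧ z = P.pt a b t ∧
      (P.UpEnd p K X a b t ∨ P.DnEnd p K X a b t) := by
  obtain ⟨X, X', h, h', ξ, ξ', hX, hX', hcr⟩ := hf
  obtain ⟨a, b, ha0, han, hab, hba, hv, hzw, t0, ht0, hdiff⟩ := P.chord_through hc hz hX'.h0
  obtain ⟨⟨m', hwd⟩, -⟩ := P.xs_window hc hX' hz hd hab hba hv hzw ⟨t0, ht0, hdiff⟩
  -- `h`, `h'` are not parallel
  have hne : cr h h' ≠ 0 := by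
    intro h0
    obtain ⟨s, hs⟩ := cr_eq_zero hX.h0 h0
    obtain ⟨r, hr⟩ := cr_eq_zero hX.h0 hX.par
    rw [hs, hr, cr_mul_left, cr_mul_right, cr_self, mul_zero, mul_zero] at hcr
    exact lt_irrefl _ hcr
  -- parameter of `z`
  have hzw' := hzw
  rw [openSegment_eq_image'] at hzw'
  obtain ⟨t, ⟨ht1, ht2⟩, hzt⟩ := hzw'
  have hzt' : z = P.pt a b t := by
    rw [← hzt]
    simp only [Complex.real_smul, pt]
  have hpt : ∀ u : ℝ, P.pt a b u = z + (((u - t) * t0 : ℝ) : ℂ) * h' := by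
    intro u
    rw [hzt']
    unfold pt
    rw [hdiff]
    push_cast
    ring
  have hpt_open : ∀ u : ℝ, 0 < u → u < 1 → P.pt a b u ∈ openSegment ℝ (P.γ a) (P.γ b) := by
    intro u h0 h1
    rw [openSegment_eq_image']
    exact ⟨u, ⟨h0, h1⟩, by simp only [Complex.real_smul, pt]⟩
  obtain ⟨ρ1, hρ1, hhalf⟩ := hX.half
  have hv0 : 0 < cr (-h') (P.γ ξ - z) := by
    rw [cr_neg_left]
    linarith
  obtain ⟨ρ2, hρ2, hdir⟩ := P.xs_dir hc hX.Xc.ia hX.Xc.bi hz hX.ξX hX.seg hX.no hv0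
  -- the length scale
  set L : ℝ := t0 * ‖h'‖ with hL
  have hL0 : 0 < L := mul_pos ht0 (norm_pos_iff.2 hX'.h0)
  have hnorm : ∀ u : ℝ, ‖P.pt a b u - z‖ = |u - t| * L := by
    intro u
    rw [hpt u, add_sub_cancel_left, norm_mul, Complex.norm_real, Real.norm_eq_abs, abs_mul,
      abs_of_pos ht0, hL]
    ring
  have hsee : ∀ u : ℝ, |u - t| * L < ρ1 → (P.pt a b u ∈ P.SeeA X ↔ 0 < (u - t) * cr h h') := by
    intro u hu
    rw [hhalf (P.pt a b u) (by rw [hnorm]; exact hu), hpt u, add_sub_cancel_left, cr_mul_right]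
    have e : (u - t) * t0 * cr h h' = t0 * ((u - t) * cr h h') := by ring
    rw [e]
    exact mul_pos_iff_of_pos_left ht0
  -- `X` is in the arc
  have key : ∀ u : ℝ, 0 < u → u < 1 → |u - t| * L < ρ1 → |u - t| * L < ρ2 →
      0 < (u - t) * cr h h' → ∃ m : ℤ, (X.sh (m * n)).s ⊆ Ioo a b := by
    intro u hu0 hu1 huρ1 huρ2 hus
    obtain ⟨x, hx, hvx⟩ := (hsee u huρ1).2 hus
    have h1 := hdir (P.pt a b u) x (by rw [hnorm]; exact huρ2) hx hvx
    have h2 : cr (P.γ b - P.γ a) (P.γ x - P.pt a b u) < 0 := by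
      rw [hdiff, cr_mul_left]
      rw [cr_neg_left] at h1
      exact mul_neg_of_pos_of_neg ht0 (by linarith)
    have h3 := P.FarLZ_right hc hab hba hv hvx.seg (hpt_open u hu0 hu1) h2
    obtain ⟨m, hm1, hm2⟩ := P.side_mem_arc hc hab hba hv h3
    refine ⟨m, P.FarLZ_sub (P.comp_sh m hX.Xc) hwd.a_not hwd.b_not (x := x + m * n) ?_ hm1 hm2⟩
    rw [Arc.mem_sh]
    have e : x + (m : ℝ) * n - ((m * (n : ℤ) : ℤ) : ℝ) = x := by
      push_cast
      ring
    rw [e]
    exact hx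
  have hJJ : ∀ (m : ℤ) (u : ℝ), 0 < u → u < 1 → |u - t| * L < ρ1 → 0 < (u - t) * cr h h' →
      u ∈ P.JJ (X.sh (m * n)) a b := by
    intro m u hu0 hu1 huρ hus
    have h1 := (hsee u huρ).2 hus
    rw [← P.seeA_sh X m] at h1
    obtain ⟨x, hx, hvx⟩ := h1
    exact ⟨hu0, hu1, x, hx, hvx.symm⟩
  have hdark : P.pt a b t ∉ P.VV p (K + 1) := by
    rw [← hzt']
    exact hd
  rcases lt_or_gt_of_ne hne with hneg | hpos
  · -- points below see `X`
    set δ : ℝ := min t (min ρ1 ρ2 / (2 * L)) with hδ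
    have hm0 : 0 < min ρ1 ρ2 := lt_min hρ1 hρ2
    have hδ0 : 0 < δ := lt_min ht1 (by positivity)
    have hδt : δ ≤ t := min_le_left _ _
    have hδL : δ * L ≤ min ρ1 ρ2 / 2 := by
      have h1 : δ ≤ min ρ1 ρ2 / (2 * L) := min_le_right _ _
      calc δ * L ≤ min ρ1 ρ2 / (2 * L) * L := by gcongr
        _ = min ρ1 ρ2 / 2 := by field_simp
    have hr1 := min_le_left ρ1 ρ2
    have hr2 := min_le_right ρ1 ρ2
    have hu : ∀ u : ℝ, t - δ < u → u < t → 0 < u ∧ u < 1 ∧ |u - t| * L < ρ1 ∧ |u - t| * L < ρ2 ∧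
        0 < (u - t) * cr h h' := by
      intro u h1 h2
      have h3 : |u - t| = t - u := by
        rw [abs_of_neg (by linarith)]
        ring
      have h4 : (t - u) * L < δ * L := by
        apply mul_lt_mul_of_pos_right _ hL0
        linarith
      rw [h3]
      refine ⟨by linarith, by linarith, by linarith, by linarith, ?_⟩
      exact mul_pos_of_neg_of_neg (by linarith) hneg
    obtain ⟨k1, k2, k3, k4, k5⟩ := hu (t - δ / 2) (by linarith) (by linarith)
    obtain ⟨m, hm⟩ := key _ k1 k2 k3 k4 k5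
    refine ⟨a, b, X.sh (m * n), X'.sh (m' * n), t, ha0, han, hwd, P.comp_sh m hX.Xc, hm, hzt',
      Or.inr ⟨ht1, ht2, hdark, t - δ, by linarith, by linarith, fun u h1 h2 => ?_⟩⟩
    obtain ⟨j1, j2, j3, -, j5⟩ := hu u h1 h2
    exact hJJ m u j1 j2 j3 j5
  · -- points above see `X`
    set δ : ℝ := min (1 - t) (min ρ1 ρ2 / (2 * L)) with hδ
    have hm0 : 0 < min ρ1 ρ2 := lt_min hρ1 hρ2
    have hδ0 : 0 < δ := lt_min (by linarith) (by positivity)
    have hδt : δ ≤ 1 - t := min_le_left _ _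
    have hδL : δ * L ≤ min ρ1 ρ2 / 2 := by
      have h1 : δ ≤ min ρ1 ρ2 / (2 * L) := min_le_right _ _
      calc δ * L ≤ min ρ1 ρ2 / (2 * L) * L := by gcongr
        _ = min ρ1 ρ2 / 2 := by field_simp
    have hr1 := min_le_left ρ1 ρ2
    have hr2 := min_le_right ρ1 ρ2
    have hu : ∀ u : ℝ, t < u → u < t + δ → 0 < u ∧ u < 1 ∧ |u - t| * L < ρ1 ∧ |u - t| * L < ρ2 ∧
        0 < (u - t) * cr h h' := by
      intro u h1 h2
      have h3 : |u - t| = u - t := abs_of_pos (by linarith)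
      have h4 : (u - t) * L < δ * L := by
        apply mul_lt_mul_of_pos_right _ hL0
        linarith
      rw [h3]
      refine ⟨by linarith, by linarith, by linarith, by linarith, ?_⟩
      exact mul_pos (by linarith) hpos
    obtain ⟨k1, k2, k3, k4, k5⟩ := hu (t + δ / 2) (by linarith) (by linarith)
    obtain ⟨m, hm⟩ := key _ k1 k2 k3 k4 k5
    refine ⟨a, b, X.sh (m * n), X'.sh (m' * n), t, ha0, han, hwd, P.comp_sh m hX.Xc, hm, hzt',
      Or.inl ⟨ht1, ht2, hdark, t + δ, by linarith, by linarith, fun u h1 h2 => ?_⟩⟩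
    obtain ⟨j1, j2, j3, -, j5⟩ := hu u h1 h2
    exact hJJ m u j1 j2 j3 j5

end Poly

end Pool.Agent.Lib_PL
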