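import Pool.Agent.Lib_PLQ.DZ1
import Pool.Agent.Lib_PLQ.DZ2
import Pool.Agent.Lib_PLQ.DZ3
import Pool.Agent.Lib_PLQ.FarLZ

/-!
# D: the number of far points is `O_K(n²)`

`exists_par`, `exists_core`.  For `z ∈ Z` choose (`far_cases`) the canonical datum `FU p K (A z) (B z) (X₁ z) (t z)`, `z = pt (A z) (B z) (t z)`, and the canonical component `X z` with `X₁ z = (X z).sh (m z * n)` (`canon`, `comp_sh`).  `ν = 0`.  `Z` is the union of the three filters: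
`InMod n (Icc (A z) (B z)) 0`; not, and cornered or level `0` or good; the rest.  `far_z1`, `far_z2`, `far_z3`.
-/

open Set Complex
open scoped Topology

namespace Pool.Agent.Lib_PL

/-- constant of the far points -/
def cF (K : ℕ) : ℕ := 6 * (cS K * cB (K + 1)) + 4 * (cG K * cS K) + 72 * cS K

namespace Poly

variable {n : ℕ} (P : Poly n)

theorem far_count (hc : P.CCW) (p : ℂ) (K : ℕ) (Z : Finset ℂ)
    (hZ : ∀ z ∈ Z, z ∈ P.I ∧ z ∉ P.VV p (K + 1) ∧ P.Far p K z) :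
    Z.card ≤ cF K * n ^ 2 := by
  classical
  obtain ⟨par, hpar⟩ := P.exists_par hc p
  obtain ⟨core, lev, hcore⟩ := P.exists_core hc p
  have key : ∀ z ∈ Z, ∃ (a b t : ℝ) (X : Arc) (m : ℤ), P.FU p K a b (X.sh (m * n)) t ∧
      z = P.pt a b t ∧ P.IsComp p K X ∧ 0 ≤ X.i ∧ X.i < n := by
    intro z hz
    obtain ⟨h1, h2, h3⟩ := hZ z hz
    obtain ⟨a, b, X, X', t, ha0, han, hw, hX, hXs, hzt, hf⟩ := P.far_cases hc h1 h2 h3
    obtain ⟨m, hm0, hmn⟩ := P.canon X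
    refine ⟨a, b, t, X.sh (m * n), -m, ?_, hzt, P.comp_sh m hX, hm0, hmn⟩
    have e : (X.sh (m * n)).sh (-m * n) = X := by
      rw [Arc.sh_sh]
      have e0 : m * (n : ℤ) + -m * n = 0 := by ring
      rw [e0, Arc.sh_zero]
    rw [e]
    exact ⟨ha0, han, ⟨X', hw⟩, hX, hXs, hf⟩
  have : Nonempty Arc := ⟨⟨0, 0, 0⟩⟩
  choose! A B t X m hA using key
  let C : ℂ → Prop := fun z => (X z).Cornered ∨ lev K (X z) = 0 ∨
    ∃ l, lev K (X z) = l + 1 ∧ P.Good {P.V (0 : ℤ)} (par l (core K (X z))) (X z).i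
  have h1 : (Z.filter fun z => InMod n (Icc (A z) (B z)) ((0 : ℤ) : ℝ)).card ≤
      3 * (cS K * n) * (2 * (cB (K + 1) * n)) := by
    apply P.far_z1 hc p K 0 _ A B t (fun z => (X z).sh (m z * n))
    intro z hz
    rw [Finset.mem_filter] at hz
    obtain ⟨a1, a2, -, -, -⟩ := hA z hz.1
    exact ⟨a1, a2, hz.2⟩
  have h2 : (Z.filter fun z => C z).card ≤ cG K * n * (2 * (2 * (cS K * n))) := by
    apply P.far_z2 hc hpar hcore K 0 _ A B t X m
    intro z hz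
    rw [Finset.mem_filter] at hz
    obtain ⟨a1, a2, a3, a4, a5⟩ := hA z hz.1
    exact ⟨a1, a2, a3, a4, a5, hz.2⟩
  have h3 : (Z.filter fun z => ¬ InMod n (Icc (A z) (B z)) ((0 : ℤ) : ℝ) ∧ ¬ C z).card ≤
      24 * (n * (3 * (cS K * n))) := by
    apply P.far_z3 hc hpar hcore K 0 _ A B t X m
    intro z hz
    rw [Finset.mem_filter] at hz
    obtain ⟨a1, a2, a3, a4, a5⟩ := hA z hz.1
    obtain ⟨b1, b2⟩ := hz.2
    have c1 : ¬ (X z).Cornered := fun h => b2 (Or.inl h)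
    have c2 : lev K (X z) ≠ 0 := fun h => b2 (Or.inr (Or.inl h))
    obtain ⟨l, hl⟩ := Nat.exists_eq_succ_of_ne_zero c2
    exact ⟨a1, a2, b1, a3, a4, a5, c1, l, hl, fun h => b2 (Or.inr (Or.inr ⟨l, hl, h⟩))⟩
  have hsub : Z ⊆ (Z.filter fun z => InMod n (Icc (A z) (B z)) ((0 : ℤ) : ℝ)) ∪
      (Z.filter fun z => C z) ∪
      (Z.filter fun z => ¬ InMod n (Icc (A z) (B z)) ((0 : ℤ) : ℝ) ∧ ¬ C z) := by
    intro z hz
    rw [Finset.mem_union, Finset.mem_union, Finset.mem_filter, Finset.mem_filter,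
      Finset.mem_filter]
    by_cases q1 : InMod n (Icc (A z) (B z)) ((0 : ℤ) : ℝ)
    · exact Or.inl (Or.inl ⟨hz, q1⟩)
    · by_cases q2 : C z
      · exact Or.inl (Or.inr ⟨hz, q2⟩)
      · exact Or.inr ⟨hz, q1, q2⟩
  have h4 := Finset.card_le_card hsub
  have h5 := Finset.card_union_le ((Z.filter fun z => InMod n (Icc (A z) (B z)) ((0 : ℤ) : ℝ)) ∪
      (Z.filter fun z => C z))
      (Z.filter fun z => ¬ InMod n (Icc (A z) (B z)) ((0 : ℤ) : ℝ) ∧ ¬ C z)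
  have h6 := Finset.card_union_le (Z.filter fun z => InMod n (Icc (A z) (B z)) ((0 : ℤ) : ℝ))
      (Z.filter fun z => C z)
  have h7 : cF K * n ^ 2 = 3 * (cS K * n) * (2 * (cB (K + 1) * n)) +
      cG K * n * (2 * (2 * (cS K * n))) + 24 * (n * (3 * (cS K * n))) := by
    unfold cF
    ring
  rw [h7]
  omega

end Poly

end Pool.Agent.Lib_PL
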