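import Pool.Agent.Lib_PLQ.HalfDisc

/-!
# A5b: the half disc property propagates along a free segment

`D = {w ∈ openSegment A B | HalfAt (SeeA X) w h}`.
Open in the segment: if `HalfAt G w h` with radius `ρ` and `w' = w + s h` (`s` real), `‖w' - w‖ < ρ/2`: `HalfAt G w' h` with radius `ρ/2` because `cr h (z' - w') = cr h (z' - w)`.
Closed in the segment: let `w` be a limit of points of `D`, `w ∈ openSegment A B ⊆ I`.  `w ∈ closure G` (the points of `D` are in `closure G`: move in direction `Complex.I * h`).  `w ∉ G`: otherwise (`vis_open_I`) `G` contains a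
neighbourhood of `w`, but points of `D` are not in `G` (`cr h 0 = 0`).  `half_disc` gives `h'` with `HalfAt G w h'`, radius `ρ'`.  Take `w' ∈ D`, `‖w' - w‖ < ρ'/2`, `w' = w + s h`; for small `u`: `0 < cr h u ↔ w' + u ∈ G ↔ 0 < cr h' (w' - w + u)`.
`u → 0`: `cr h' (w' - w) = 0` (it is `≤ 0` by `u = 0`, and `≥ 0` as a limit of `u = t * I * h`, `t → 0+`), and then `0 < cr h u ↔ 0 < cr h' u` for all small `u`, so for all `u` (scaling): `HalfAt G w h`.
`openSegment` is preconnected: `IsPreconnected` + clopen argument (e.g. along the parametrisation `t ↦ A + t (B - A)` on `Ioo 0 1`).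
-/

open Set Complex
open scoped Topology

namespace Pool.Agent.Lib_PL

namespace Poly

variable {n : ℕ} (P : Poly n)

private theorem HalfAlong_crI (h : ℂ) (hh : h ≠ 0) : 0 < cr h (Complex.I * h) := by
  have e : cr h (Complex.I * h) = Complex.normSq h := by
    simp [cr, Complex.normSq_apply]
  rw [e]
  exact Complex.normSq_pos.2 hh

private theorem HalfAlong_equiv {G : Set ℂ} {w w' h h' : ℂ} (hh0 : h ≠ 0) {ρ ρ' : ℝ} (hρ : 0 < ρ)
    (hρ' : 0 < ρ')
    (hG' : ∀ z' : ℂ, ‖z' - w‖ < ρ' → (z' ∈ G ↔ 0 < cr h' (z' - w)))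
    (hG : ∀ z' : ℂ, ‖z' - w'‖ < ρ → (z' ∈ G ↔ 0 < cr h (z' - w')))
    (hd : ‖w' - w‖ < ρ' / 2) (u : ℂ) : 0 < cr h u ↔ 0 < cr h' u := by
  obtain ⟨δ, hδ, hδ1, hδ2⟩ : ∃ δ : ℝ, 0 < δ ∧ δ ≤ ρ ∧ δ ≤ ρ' / 2 :=
    ⟨min ρ (ρ' / 2), lt_min hρ (by linarith), min_le_left _ _, min_le_right _ _⟩
  have key : ∀ v : ℂ, ‖v‖ < δ → (0 < cr h v ↔ 0 < cr h' (w' - w) + cr h' v) := by
    intro v hv
    have a1 := hG (w' + v) (by
      have e : w' + v - w' = v := by ring
      rw [e]
      exact lt_of_lt_of_le hv hδ1)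
    have a2 := hG' (w' + v) (by
      have e : w' + v - w = (w' - w) + v := by ring
      rw [e]
      calc ‖(w' - w) + v‖ ≤ ‖w' - w‖ + ‖v‖ := norm_add_le _ _
        _ < ρ' / 2 + ρ' / 2 := by linarith
        _ = ρ' := by ring)
    have e1 : w' + v - w' = v := by ring
    have e2 : w' + v - w = (w' - w) + v := by ring
    rw [e1] at a1
    rw [e2, cr_add_right] at a2
    exact a1.symm.trans a2
  have hsc : ∀ v : ℂ, ∃ t : ℝ, 0 < t ∧ t ≤ 1 ∧ ‖(t : ℂ) * v‖ < δ := by
    intro v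
    have hv : 0 < 2 * (‖v‖ + 1) := by positivity
    refine ⟨min 1 (δ / (2 * (‖v‖ + 1))), lt_min one_pos (div_pos hδ hv), min_le_left _ _, ?_⟩
    rw [norm_mul, Complex.norm_real, Real.norm_eq_abs,
      abs_of_pos (lt_min one_pos (div_pos hδ hv))]
    calc min 1 (δ / (2 * (‖v‖ + 1))) * ‖v‖ ≤ (δ / (2 * (‖v‖ + 1))) * ‖v‖ :=
          mul_le_mul_of_nonneg_right (min_le_right _ _) (norm_nonneg _)
      _ = δ * (‖v‖ / (2 * (‖v‖ + 1))) := by ring
      _ < δ * 1 := by
          apply mul_lt_mul_of_pos_left _ hδ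
          rw [div_lt_one hv]
          have := norm_nonneg v
          linarith
      _ = δ := mul_one _
  have c1 : cr h' (w' - w) ≤ 0 := by
    have := key 0 (by rw [norm_zero]; exact hδ)
    rw [cr_zero_right, cr_zero_right, add_zero] at this
    exact not_lt.1 (fun hlt => lt_irrefl _ (this.2 hlt))
  have c2 : 0 ≤ cr h' (w' - w) := by
    by_contra hneg
    rw [not_le] at hneg
    have hpos : 0 < cr h (Complex.I * h) := HalfAlong_crI h hh0
    obtain ⟨t, ht, ht1, htn⟩ := hsc (Complex.I * h)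
    obtain ⟨τ, hτ, hτ1, hτ2⟩ : ∃ τ : ℝ, 0 < τ ∧ τ ≤ 1 ∧
        τ * |cr h' (Complex.I * h)| < -cr h' (w' - w) := by
      have hq : 0 < |cr h' (Complex.I * h)| + 1 := by positivity
      refine ⟨min 1 (-cr h' (w' - w) / (|cr h' (Complex.I * h)| + 1)),
        lt_min one_pos (div_pos (by linarith) hq), min_le_left _ _, ?_⟩
      have hneg' : 0 < -cr h' (w' - w) := by linarith
      calc min 1 (-cr h' (w' - w) / (|cr h' (Complex.I * h)| + 1)) * |cr h' (Complex.I * h)|
          ≤ (-cr h' (w' - w) / (|cr h' (Complex.I * h)| + 1)) * |cr h' (Complex.I * h)| :=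
            mul_le_mul_of_nonneg_right (min_le_right _ _) (abs_nonneg _)
        _ = (-cr h' (w' - w)) * (|cr h' (Complex.I * h)| / (|cr h' (Complex.I * h)| + 1)) := by
            ring
        _ < (-cr h' (w' - w)) * 1 := by
            apply mul_lt_mul_of_pos_left _ hneg'
            rw [div_lt_one hq]
            linarith
        _ = -cr h' (w' - w) := mul_one _
    have hn : ‖((τ * t : ℝ) : ℂ) * (Complex.I * h)‖ < δ := by
      have e : ((τ * t : ℝ) : ℂ) * (Complex.I * h) = (τ : ℂ) * ((t : ℂ) * (Complex.I * h)) := by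
        push_cast
        ring
      rw [e, norm_mul, Complex.norm_real, Real.norm_eq_abs, abs_of_pos hτ]
      calc τ * ‖(t : ℂ) * (Complex.I * h)‖ ≤ 1 * ‖(t : ℂ) * (Complex.I * h)‖ :=
            mul_le_mul_of_nonneg_right hτ1 (norm_nonneg _)
        _ < δ := by rw [one_mul]; exact htn
    have k1 := (key _ hn).1 (by rw [cr_mul_right]; positivity)
    rw [cr_mul_right] at k1
    have k2 : τ * t * cr h' (Complex.I * h) ≤ τ * |cr h' (Complex.I * h)| := by
      calc τ * t * cr h' (Complex.I * h) ≤ τ * t * |cr h' (Complex.I * h)| :=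
            mul_le_mul_of_nonneg_left (le_abs_self _) (by positivity)
        _ = t * (τ * |cr h' (Complex.I * h)|) := by ring
        _ ≤ 1 * (τ * |cr h' (Complex.I * h)|) :=
            mul_le_mul_of_nonneg_right ht1 (by positivity)
        _ = τ * |cr h' (Complex.I * h)| := one_mul _
    linarith
  have c3 : cr h' (w' - w) = 0 := le_antisymm c1 c2
  obtain ⟨t, ht, -, htn⟩ := hsc u
  have k := key _ htn
  rw [c3, zero_add, cr_mul_right, cr_mul_right, mul_pos_iff_of_pos_left ht,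
    mul_pos_iff_of_pos_left ht] at k
  exact k

/-- translation of the base point along the boundary line -/
private theorem HalfAlong_shift {G : Set ℂ} {w h : ℂ} (hh : HalfAt G w h) :
    ∃ ρ > 0, ∀ s : ℝ, ‖(s : ℂ) * h‖ < ρ → HalfAt G (w + (s : ℂ) * h) h := by
  obtain ⟨ρ, hρ, hG⟩ := hh
  refine ⟨ρ / 2, by positivity, fun s hs => ⟨ρ / 2, by positivity, fun z' hz' => ?_⟩⟩
  have e : z' - w = (z' - (w + (s : ℂ) * h)) + (s : ℂ) * h := by ring
  have h1 : ‖z' - w‖ < ρ := by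
    rw [e]
    calc _ ≤ ‖z' - (w + (s : ℂ) * h)‖ + ‖(s : ℂ) * h‖ := norm_add_le _ _
      _ < ρ / 2 + ρ / 2 := by linarith
      _ = ρ := by ring
  rw [hG z' h1]
  have e2 : cr h (z' - w) = cr h (z' - (w + (s : ℂ) * h)) := by
    rw [e, cr_add_right, cr_mul_right, cr_self, mul_zero, add_zero]
  rw [e2]

private theorem HalfAlong_closed (hc : P.CCW) {X : Arc} (h1 : (X.i : ℝ) ≤ X.a)
    (h3 : X.b ≤ X.i + 1) {w h : ℂ} (hw : w ∈ P.I) (hh0 : h ≠ 0)
    (hap : ∀ ε > 0, ∃ w' : ℂ, ‖w' - w‖ < ε ∧ HalfAt (P.SeeA X) w' h) :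
    HalfAt (P.SeeA X) w h := by
  have hcl : w ∈ closure (P.SeeA X) := by
    rw [Metric.mem_closure_iff]
    intro ε hε
    obtain ⟨w', hw', ρ, hρ, hG⟩ := hap (ε / 2) (by positivity)
    have hnI : 0 < ‖Complex.I * h‖ := by
      rw [norm_pos_iff]
      exact mul_ne_zero Complex.I_ne_zero hh0
    obtain ⟨t, ht, ht1⟩ : ∃ t : ℝ, 0 < t ∧ t * ‖Complex.I * h‖ < min ρ (ε / 2) := by
      have hm : 0 < min ρ (ε / 2) := lt_min hρ (by positivity)
      refine ⟨min ρ (ε / 2) / (2 * ‖Complex.I * h‖), by positivity, ?_⟩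
      have : min ρ (ε / 2) / (2 * ‖Complex.I * h‖) * ‖Complex.I * h‖ = min ρ (ε / 2) / 2 := by
        field_simp
      rw [this]
      linarith
    have hn : ‖(t : ℂ) * (Complex.I * h)‖ = t * ‖Complex.I * h‖ := by
      rw [norm_mul, Complex.norm_real, Real.norm_eq_abs, abs_of_pos ht]
    refine ⟨w' + (t : ℂ) * (Complex.I * h), ?_, ?_⟩
    · rw [hG _ (by
        rw [add_sub_cancel_left, hn]
        exact lt_of_lt_of_le ht1 (min_le_left _ _)), add_sub_cancel_left, cr_mul_right]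
      exact mul_pos ht (HalfAlong_crI h hh0)
    · rw [dist_comm, dist_eq_norm]
      have e : w' + (t : ℂ) * (Complex.I * h) - w = (w' - w) + (t : ℂ) * (Complex.I * h) := by ring
      rw [e]
      calc _ ≤ ‖w' - w‖ + ‖(t : ℂ) * (Complex.I * h)‖ := norm_add_le _ _
        _ < ε / 2 + ε / 2 := by
            rw [hn]
            have := lt_of_lt_of_le ht1 (min_le_right ρ (ε / 2))
            linarith
        _ = ε := by ring
  have hno : w ∉ P.SeeA X := by
    rintro ⟨s, hs, hv⟩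
    obtain ⟨ε, hε, H⟩ := P.vis_open_I hc hw hv.symm
    obtain ⟨w', hw', ρ, hρ, hG⟩ := hap ε hε
    have hin : w' ∈ P.SeeA X := ⟨s, hs, (H w' hw').symm⟩
    have := (hG w' (by rw [sub_self, norm_zero]; exact hρ)).1 hin
    rw [sub_self, cr_zero_right] at this
    exact lt_irrefl _ this
  obtain ⟨h', ξ, hh', -, -, -, ρ', hρ', hG'⟩ := P.half_disc hc h1 h3 hw hcl hno
  obtain ⟨w', hw', ρ, hρ, hG⟩ := hap (ρ' / 2) (by positivity)
  have heq := HalfAlong_equiv hh0 hρ hρ' hG' hG hw'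
  exact ⟨ρ', hρ', fun z' hz' => (hG' z' hz').trans (heq _).symm⟩

theorem half_along (hc : P.CCW) {X : Arc} (h1 : (X.i : ℝ) ≤ X.a) (h3 : X.b ≤ X.i + 1) {A B h : ℂ}
    (hW : openSegment ℝ A B ⊆ P.I) (ht : ∃ t : ℝ, t ≠ 0 ∧ B - A = (t : ℂ) * h) {z : ℂ}
    (hz : z ∈ openSegment ℝ A B) (hh : HalfAt (P.SeeA X) z h) :
    ∀ w ∈ openSegment ℝ A B, HalfAt (P.SeeA X) w h := by
  obtain ⟨t, ht0, hBA⟩ := ht
  by_cases hh0 : h = 0
  · have hBA' : B = A := by
      rw [hh0, mul_zero, sub_eq_zero] at hBA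
      exact hBA
    intro w hw
    rw [hBA', openSegment_same] at hw hz
    rw [mem_singleton_iff] at hw hz
    rw [hw, ← hz]
    exact hh
  -- parametrisation
  have hseg : ∀ w : ℂ, w ∈ openSegment ℝ A B ↔ ∃ s : ℝ, s ∈ Ioo (0 : ℝ) 1 ∧
      w = A + (s : ℂ) * (B - A) := by
    intro w
    rw [openSegment_eq_image']
    constructor
    · rintro ⟨s, hs, rfl⟩
      exact ⟨s, hs, by simp⟩
    · rintro ⟨s, hs, rfl⟩
      exact ⟨s, hs, by simp⟩
  obtain ⟨U, hU⟩ : ∃ U : Set ℝ, U = {s : ℝ | HalfAt (P.SeeA X) (A + (s : ℂ) * (B - A)) h} :=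
    ⟨_, rfl⟩
  have hUo : IsOpen U := by
    rw [Metric.isOpen_iff]
    intro s hs
    rw [hU] at hs
    obtain ⟨ρ, hρ, H⟩ := HalfAlong_shift hs
    have hq : 0 < ‖(t : ℂ) * h‖ := by
      rw [norm_pos_iff]
      exact mul_ne_zero (by exact_mod_cast ht0) hh0
    refine ⟨ρ / ‖(t : ℂ) * h‖, div_pos hρ hq, fun s' hs' => ?_⟩
    rw [hU]
    have e : A + (s' : ℂ) * (B - A) = A + (s : ℂ) * (B - A) + (((s' - s) * t : ℝ) : ℂ) * h := by
      rw [hBA]
      push_cast
      ring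
    have hn : ‖(((s' - s) * t : ℝ) : ℂ) * h‖ < ρ := by
      have e2 : (((s' - s) * t : ℝ) : ℂ) * h = ((s' - s : ℝ) : ℂ) * ((t : ℂ) * h) := by
        push_cast
        ring
      rw [e2, norm_mul, Complex.norm_real, Real.norm_eq_abs]
      rw [Metric.mem_ball, Real.dist_eq, lt_div_iff₀ hq] at hs'
      exact hs'
    change HalfAt (P.SeeA X) (A + (s' : ℂ) * (B - A)) h
    rw [e]
    exact H _ hn
  have hsub : Ioo (0 : ℝ) 1 ⊆ U := by
    refine (isPreconnected_Ioo).subset_of_closure_inter_subset hUo ?_ ?_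
    · obtain ⟨s, hs, hs'⟩ := (hseg z).1 hz
      refine ⟨s, hs, ?_⟩
      rw [hU]
      change HalfAt (P.SeeA X) (A + (s : ℂ) * (B - A)) h
      rw [← hs']
      exact hh
    · rintro s ⟨hs, hs01⟩
      rw [hU]
      change HalfAt (P.SeeA X) (A + (s : ℂ) * (B - A)) h
      refine P.HalfAlong_closed hc h1 h3 (hW ((hseg _).2 ⟨s, hs01, rfl⟩)) hh0 ?_
      intro ε hε
      rw [Metric.mem_closure_iff] at hs
      have hq : 0 < ‖B - A‖ + 1 := by positivity
      obtain ⟨s', hs', hd⟩ := hs (ε / (‖B - A‖ + 1)) (by positivity)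
      rw [hU] at hs'
      refine ⟨_, ?_, hs'⟩
      have e : A + (s' : ℂ) * (B - A) - (A + (s : ℂ) * (B - A)) = ((s' - s : ℝ) : ℂ) * (B - A) := by
        push_cast
        ring
      rw [e, norm_mul, Complex.norm_real, Real.norm_eq_abs]
      rw [dist_comm, Real.dist_eq, lt_div_iff₀ hq] at hd
      have hle : |s' - s| * ‖B - A‖ ≤ |s' - s| * (‖B - A‖ + 1) :=
        mul_le_mul_of_nonneg_left (by linarith) (abs_nonneg _)
      linarith
  intro w hw
  obtain ⟨s, hs, rfl⟩ := (hseg w).1 hw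
  have := hsub hs
  rw [hU] at this
  exact this

end Poly

end Pool.Agent.Lib_PL
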