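import Pool.Agent.Lib_PLQ.Defs

/-!
# A0: convex sets which contain long chords near a point (pure plane geometry)

`half_of_chords`: `G` is open and convex in the ball `B = ball z ρ`, `z ∉ G`, and for every `ε` there is `u ∈ G` with
`‖u - z‖ < ε` and a direction `e` with `‖e - d‖ < ε` such that the whole part in `B` of the line `u + ℝ e` is in `G`.
Then `G` is, near `z`, the open half plane on the left of `d` or of `-d`.

Proof.  Put `f w = cr d (w - z)`.  For every `m` take `u_m, e_m` with `ε = 1/(m+1)` (and `ε` small compared with `ρ`, `‖d‖`), `L_m` = line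
`u_m + ℝ e_m`.  `z ∉ L_m` (else `z ∈ G`).  Let `g_m = cr e_m (u_m - z) ≠ 0`; for infinitely many `m` it has one sign; the statement
is symmetric under `d → -d`, `e → -e` (take `-e_m`), so it is enough to treat: (S) for every `ε > 0` there are `u, e` as
above with `0 < cr e (u - z)` (`L_m` is on the left of `z` when looking along `e_m`).  Claim: `HalfAt G z d`.
(1) no `w ∈ G ∩ B` has `f w < 0`: let `f w < 0`, `w ∈ G ∩ B`.  For small `ε` the points `z + t (w - z) * (-1)`... more precisely the ray from `w` through `z` hits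
`L_m` beyond `z` in a point of `B`: the point `z + τ (z - w)` with `τ = cr e (u - z) / cr e (z - w)`; here `cr e (z - w)` is close to
`cr d (z - w) = - f w > 0` and `cr e (u - z) > 0` is close to `0`, so `0 < τ` is small, the point is in `B`, and it is on `L_m` (its `cr e (· - u)`
vanishes, `e ≠ 0`), so it is in `G`.  Then `z ∈ segment w (z + τ (z - w)) ⊆ G`, contradiction.
(2) no `w ∈ G ∩ B` has `f w = 0`: `hopen` gives a point of `G ∩ B` with `f < 0` near `w`.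
(3) Converse: fix one pair `u₁, e₁` of (S) (with `ε` so small that `cr d (Complex.I * d)`-type estimates hold, e.g. `ε ≤ ‖d‖/2`, `ε < ρ/8`), so `0 < cr e₁ (u₁ - z)`.
Let `ν = Complex.I * d` (`cr d ν = ‖d‖² > 0`, `cr e ν > 0` for `e` near `d`).  There is `ρ' ≤ ρ/4` such that for `‖z' - z‖ < ρ'` also `0 < cr e₁ (u₁ - z')`.
Let moreover `0 < f z' = cr d (z' - z)`.  Take in (S) `ε` so small (depending on `z'`) that `cr e (u - z') < 0` (limit of `cr e (u - z')` is `cr d (z - z') < 0`).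
The line `z' + ℝ ν` meets `L_1` in `z' + τ₁ ν`, `τ₁ = cr e₁ (u₁ - z') / cr e₁ ν > 0`, and `L` in `z' + τ ν`, `τ = cr e (u - z') / cr e ν < 0`; both points are in `B` when `ρ'`, `ε` and
the distance of `u₁` are small compared with `ρ` (choose `u₁, e₁` such that `τ₁‖ν‖ < ρ/4`: `|cr e₁ (u₁ - z')| ≤ ‖e₁‖ (‖u₁ - z‖ + ‖z' - z‖)` and
`cr e₁ ν ≥ ‖d‖²/2`), so both are in `G` and `z'` is between them: `z' ∈ G` by convexity.
-/

open Set Complex
open scoped Topology

namespace Pool.Agent.Lib_PL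

private theorem HalfConv_abs (u v : ℂ) : |cr u v| ≤ ‖u‖ * ‖v‖ := by
  have h1 : cr u v = ((starRingEnd ℂ) u * v).im := by
    unfold cr
    simp [Complex.mul_im]
    ring
  rw [h1]
  refine (Complex.abs_im_le_norm _).trans (le_of_eq ?_)
  rw [norm_mul, Complex.norm_conj]

private theorem HalfConv_I (d : ℂ) : cr d (Complex.I * d) = ‖d‖ ^ 2 := by
  rw [← Complex.normSq_eq_norm_sq]
  unfold cr
  simp [Complex.normSq_apply]
  

private theorem HalfConv_line {u e p : ℂ} (he : e ≠ 0) (h : cr e (p - u) = 0) :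
    ∃ t : ℝ, p = u + (t : ℂ) * e := by
  obtain ⟨t, ht⟩ := cr_eq_zero he h
  exact ⟨t, by rw [← ht]; ring⟩

private theorem HalfConv_main {G : Set ℂ} {z d : ℂ} {ρ : ℝ} (hρ : 0 < ρ) (hd : d ≠ 0)
    (hopen : ∀ u ∈ G, ‖u - z‖ < ρ → ∃ ε > 0, ∀ u' : ℂ, ‖u' - u‖ < ε → u' ∈ G)
    (hconv : ∀ u ∈ G, ∀ v ∈ G, ‖u - z‖ < ρ → ‖v - z‖ < ρ → segment ℝ u v ⊆ G) (hz : z ∉ G)
    (hch : ∀ ε > 0, ∃ u e : ℂ, u ∈ G ∧ ‖u - z‖ < ε ∧ ‖e - d‖ < ε ∧ 0 < cr e (u - z) ∧
      ∀ t : ℝ, ‖u + (t : ℂ) * e - z‖ < ρ → u + (t : ℂ) * e ∈ G) : HalfAt G z d := by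
  have hd0 : 0 < ‖d‖ := norm_pos_iff.2 hd
  -- (1)
  have h1 : ∀ w ∈ G, ‖w - z‖ < ρ → 0 ≤ cr d (w - z) := by
    intro w hw hwρ
    by_contra hneg
    rw [not_le] at hneg
    set c : ℝ := -cr d (w - z) with hc
    have hc0 : 0 < c := by rw [hc]; linarith
    have hcz : cr d (z - w) = c := by
      rw [hc, ← cr_neg_right]; congr 1; ring
    obtain ⟨u, e, hu, huε, heε, hpos, hline⟩ := hch (min 1 (min (c / (4 * ρ)) (c / (4 * (‖d‖ + 1)))))
      (lt_min one_pos (lt_min (by positivity) (by positivity)))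
    have hu1 : ‖u - z‖ < c / (4 * (‖d‖ + 1)) :=
      huε.trans_le ((min_le_right _ _).trans (min_le_right _ _))
    have he1 : ‖e - d‖ < 1 := heε.trans_le (min_le_left _ _)
    have he2 : ‖e - d‖ < c / (4 * ρ) := heε.trans_le ((min_le_right _ _).trans (min_le_left _ _))
    have he0 : e ≠ 0 := by
      rintro rfl
      rw [cr_zero_left] at hpos
      exact lt_irrefl _ hpos
    have hen : ‖e‖ ≤ ‖d‖ + 1 := by
      have := norm_le_norm_add_norm_sub' e d
      linarith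
    have hzw : ‖z - w‖ < ρ := by rw [norm_sub_rev]; exact hwρ
    have h2 : c / 2 < cr e (z - w) := by
      have h3 : cr e (z - w) = cr d (z - w) + cr (e - d) (z - w) := by rw [cr_sub_left]; ring
      have h4 := HalfConv_abs (e - d) (z - w)
      have h5 : ‖e - d‖ * ‖z - w‖ ≤ c / (4 * ρ) * ρ := by gcongr
      have h6 : c / (4 * ρ) * ρ = c / 4 := by field_simp
      have h7 := (abs_le.1 (h4.trans h5)).1
      rw [h3, hcz]
      rw [h6] at h7
      linarith
    have h3 : cr e (u - z) ≤ c / 4 := by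
      have h4 := (le_abs_self _).trans (HalfConv_abs e (u - z))
      have h5 : ‖e‖ * ‖u - z‖ ≤ (‖d‖ + 1) * (c / (4 * (‖d‖ + 1))) := by gcongr
      have h6 : (‖d‖ + 1) * (c / (4 * (‖d‖ + 1))) = c / 4 := by field_simp
      linarith
    have h20 : 0 < cr e (z - w) := by linarith
    set τ : ℝ := cr e (u - z) / cr e (z - w) with hτ
    have hτ0 : 0 < τ := div_pos hpos h20
    have hτ1 : τ ≤ 1 := by
      rw [hτ, div_le_one h20]
      linarith
    have hp : cr e (z + (τ : ℂ) * (z - w) - u) = 0 := by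
      have h4 : z + (τ : ℂ) * (z - w) - u = (τ : ℂ) * (z - w) - (u - z) := by ring
      rw [h4, cr_sub_right, cr_mul_right, hτ]
      field_simp
      ring
    obtain ⟨t, ht⟩ := HalfConv_line he0 hp
    have hpρ : ‖z + (τ : ℂ) * (z - w) - z‖ < ρ := by
      rw [add_sub_cancel_left, norm_mul, Complex.norm_real, Real.norm_of_nonneg hτ0.le]
      calc τ * ‖z - w‖ ≤ 1 * ‖z - w‖ := by gcongr
        _ < ρ := by rw [one_mul]; exact hzw
    have hpG : z + (τ : ℂ) * (z - w) ∈ G := by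
      rw [ht]
      exact hline t (by rw [← ht]; exact hpρ)
    refine hz (hconv w hw _ hpG hwρ hpρ ?_)
    refine ⟨τ / (1 + τ), 1 / (1 + τ), by positivity, by positivity, by field_simp; ring, ?_⟩
    simp only [Complex.real_smul]
    push_cast
    have h5 : (1 + (τ : ℂ)) ≠ 0 := by
      have : (1 + τ : ℝ) ≠ 0 := by positivity
      exact_mod_cast this
    field_simp
    ring
  -- (2)
  have h2 : ∀ w ∈ G, ‖w - z‖ < ρ → 0 < cr d (w - z) := by
    intro w hw hwρ
    rcases (h1 w hw hwρ).lt_or_eq with h3 | h3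
    · exact h3
    exfalso
    obtain ⟨ε, hε, hε1⟩ := hopen w hw hwρ
    set s : ℝ := min ε (ρ - ‖w - z‖) / (2 * ‖d‖) with hs
    have hs0 : 0 < s := div_pos (lt_min hε (by linarith)) (by positivity)
    have hsd : s * ‖d‖ = min ε (ρ - ‖w - z‖) / 2 := by rw [hs]; field_simp
    have hmin0 : 0 < min ε (ρ - ‖w - z‖) := lt_min hε (by linarith)
    have hn : ‖(s : ℂ) * (Complex.I * d)‖ = s * ‖d‖ := by
      rw [norm_mul, norm_mul, Complex.norm_I, Complex.norm_real, Real.norm_of_nonneg hs0.le, one_mul]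
    have hw' : w - (s : ℂ) * (Complex.I * d) ∈ G := by
      apply hε1
      have : w - (s : ℂ) * (Complex.I * d) - w = -((s : ℂ) * (Complex.I * d)) := by ring
      rw [this, norm_neg, hn, hsd]
      have := min_le_left ε (ρ - ‖w - z‖)
      linarith
    have hwρ' : ‖w - (s : ℂ) * (Complex.I * d) - z‖ < ρ := by
      have h4 : w - (s : ℂ) * (Complex.I * d) - z = (w - z) - (s : ℂ) * (Complex.I * d) := by ring
      rw [h4]
      refine (norm_sub_le _ _).trans_lt ?_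
      rw [hn, hsd]
      have := min_le_right ε (ρ - ‖w - z‖)
      linarith
    have h5 := h1 _ hw' hwρ'
    have h4 : w - (s : ℂ) * (Complex.I * d) - z = (w - z) - (s : ℂ) * (Complex.I * d) := by ring
    rw [h4, cr_sub_right, cr_mul_right, HalfConv_I, ← h3] at h5
    have : 0 < s * ‖d‖ ^ 2 := by positivity
    linarith
  -- (3)
  set ν : ℂ := Complex.I * d with hν
  have hνn : ‖ν‖ = ‖d‖ := by rw [hν, norm_mul, Complex.norm_I, one_mul]
  have hcν : ∀ e : ℂ, ‖e - d‖ < ‖d‖ / 2 → ‖d‖ ^ 2 / 2 < cr e ν := by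
    intro e he
    have h3 : cr e ν = cr d ν + cr (e - d) ν := by rw [cr_sub_left]; ring
    have h4 := (abs_le.1 (HalfConv_abs (e - d) ν)).1
    rw [hνn] at h4
    rw [h3, hν, HalfConv_I, ← hν]
    nlinarith
  have hpt : ∀ (u e z' : ℂ) (a b : ℝ), ‖e - d‖ < ‖d‖ / 2 → ‖u - z‖ < a → ‖z' - z‖ < b →
      5 * b + 4 * a ≤ ρ → (∀ t : ℝ, ‖u + (t : ℂ) * e - z‖ < ρ → u + (t : ℂ) * e ∈ G) →
      z' + ((cr e (u - z') / cr e ν : ℝ) : ℂ) * ν ∈ G ∧
        ‖z' + ((cr e (u - z') / cr e ν : ℝ) : ℂ) * ν - z‖ < ρ := by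
    intro u e z' a b he hu hz' hab hline
    have hc := hcν e he
    have hc0 : 0 < cr e ν := lt_trans (by positivity) hc
    have he0 : e ≠ 0 := by
      rintro rfl
      rw [cr_zero_left] at hc0
      exact lt_irrefl _ hc0
    have hen : ‖e‖ ≤ 2 * ‖d‖ := by
      have := norm_le_norm_add_norm_sub' e d
      linarith
    set τ : ℝ := cr e (u - z') / cr e ν with hτ
    have hp : cr e (z' + (τ : ℂ) * ν - u) = 0 := by
      have h4 : z' + (τ : ℂ) * ν - u = (τ : ℂ) * ν - (u - z') := by ring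
      rw [h4, cr_sub_right, cr_mul_right, hτ]
      field_simp
      ring
    obtain ⟨t, ht⟩ := HalfConv_line he0 hp
    have hτn : |τ| * ‖d‖ ≤ 4 * (a + b) := by
      have h5 := HalfConv_abs e (u - z')
      have h6 : ‖u - z'‖ ≤ a + b := by
        have h7 : u - z' = (u - z) - (z' - z) := by ring
        rw [h7]
        exact (norm_sub_le _ _).trans (by linarith)
      have ha0 : 0 ≤ a + b := (norm_nonneg _).trans h6
      have h7 : |cr e (u - z')| ≤ 2 * ‖d‖ * (a + b) := h5.trans (by gcongr)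
      rw [hτ, abs_div, abs_of_pos hc0, div_mul_eq_mul_div, div_le_iff₀ hc0]
      calc |cr e (u - z')| * ‖d‖ ≤ 2 * ‖d‖ * (a + b) * ‖d‖ := by gcongr
        _ = 4 * (a + b) * (‖d‖ ^ 2 / 2) := by ring
        _ ≤ 4 * (a + b) * cr e ν := by gcongr
    have hpρ : ‖z' + (τ : ℂ) * ν - z‖ < ρ := by
      have h4 : z' + (τ : ℂ) * ν - z = (z' - z) + (τ : ℂ) * ν := by ring
      rw [h4]
      refine (norm_add_le _ _).trans_lt ?_
      rw [norm_mul, Complex.norm_real, hνn, Real.norm_eq_abs]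
      linarith
    refine ⟨?_, hpρ⟩
    rw [ht]
    exact hline t (by rw [← ht]; exact hpρ)
  obtain ⟨u1, e1, hu1, hu1ε, he1ε, hpos1, hline1⟩ := hch (min (‖d‖ / 2) (ρ / 16))
    (lt_min (by positivity) (by positivity))
  have hu1a : ‖u1 - z‖ < ρ / 16 := hu1ε.trans_le (min_le_right _ _)
  have he1a : ‖e1 - d‖ < ‖d‖ / 2 := he1ε.trans_le (min_le_left _ _)
  have hc1 := hcν e1 he1a
  have hc10 : 0 < cr e1 ν := lt_trans (by positivity) hc1
  have hen1 : ‖e1‖ ≤ 2 * ‖d‖ := by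
    have := norm_le_norm_add_norm_sub' e1 d
    linarith
  refine ⟨min (ρ / 16) (cr e1 (u1 - z) / (2 * ‖d‖)), lt_min (by positivity) (by positivity), ?_⟩
  intro z' hz'
  have hz'a : ‖z' - z‖ < ρ / 16 := hz'.trans_le (min_le_left _ _)
  have hz'b : ‖z' - z‖ < cr e1 (u1 - z) / (2 * ‖d‖) := hz'.trans_le (min_le_right _ _)
  refine ⟨fun h3 => h2 z' h3 (by linarith), fun hf => ?_⟩
  -- first point
  have hτ1 : 0 < cr e1 (u1 - z') := by
    have h4 : u1 - z' = (u1 - z) - (z' - z) := by ring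
    have h5 := (le_abs_self _).trans (HalfConv_abs e1 (z' - z))
    have h6 : ‖e1‖ * ‖z' - z‖ < cr e1 (u1 - z) := by
      rw [lt_div_iff₀ (by positivity)] at hz'b
      have h7 : ‖e1‖ * ‖z' - z‖ ≤ 2 * ‖d‖ * ‖z' - z‖ := by gcongr
      linarith
    rw [h4, cr_sub_right]
    linarith
  obtain ⟨hp1, hp1ρ⟩ := hpt u1 e1 z' (ρ / 16) (ρ / 16) he1a hu1a hz'a (by linarith) hline1
  -- second point
  set f : ℝ := cr d (z' - z) with hfd
  obtain ⟨u, e, hu, huε, heε, hpos, hline⟩ := hch (min (min (‖d‖ / 2) (ρ / 16))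
    (min 1 (f / (2 * (ρ + ‖d‖ + 1))))) (lt_min (lt_min (by positivity) (by positivity))
      (lt_min one_pos (by positivity)))
  have hua : ‖u - z‖ < ρ / 16 := huε.trans_le ((min_le_left _ _).trans (min_le_right _ _))
  have hea : ‖e - d‖ < ‖d‖ / 2 := heε.trans_le ((min_le_left _ _).trans (min_le_left _ _))
  have heb : ‖e - d‖ < 1 := heε.trans_le ((min_le_right _ _).trans (min_le_left _ _))
  have hub : ‖u - z‖ < f / (2 * (ρ + ‖d‖ + 1)) :=
    huε.trans_le ((min_le_right _ _).trans (min_le_right _ _))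
  have hec : ‖e - d‖ < f / (2 * (ρ + ‖d‖ + 1)) :=
    heε.trans_le ((min_le_right _ _).trans (min_le_right _ _))
  have hcc := hcν e hea
  have hcc0 : 0 < cr e ν := lt_trans (by positivity) hcc
  have hen : ‖e‖ ≤ ‖d‖ + 1 := by
    have := norm_le_norm_add_norm_sub' e d
    linarith
  have hτ2 : cr e (u - z') < 0 := by
    have h4 : cr e (u - z') = cr e (u - z) - cr (e - d) (z' - z) - f := by
      have h5 : u - z' = (u - z) - (z' - z) := by ring
      rw [h5, cr_sub_right, cr_sub_left, hfd]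
      ring
    have h5 := (le_abs_self _).trans (HalfConv_abs e (u - z))
    have h6 := (abs_le.1 (HalfConv_abs (e - d) (z' - z))).1
    have h7 : ‖e‖ * ‖u - z‖ ≤ (‖d‖ + 1) * (f / (2 * (ρ + ‖d‖ + 1))) := by gcongr
    have h8 : ‖e - d‖ * ‖z' - z‖ ≤ f / (2 * (ρ + ‖d‖ + 1)) * ρ := by
      have : ‖z' - z‖ ≤ ρ := by linarith
      gcongr
    have h9 : (‖d‖ + 1) * (f / (2 * (ρ + ‖d‖ + 1))) + f / (2 * (ρ + ‖d‖ + 1)) * ρ = f / 2 := by
      field_simp
      ring
    rw [h4]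
    linarith
  obtain ⟨hp2, hp2ρ⟩ := hpt u e z' (ρ / 16) (ρ / 16) hea hua hz'a (by linarith) hline
  set τ1 : ℝ := cr e1 (u1 - z') / cr e1 ν with hτ1d
  set τ2 : ℝ := cr e (u - z') / cr e ν with hτ2d
  have hτ1p : 0 < τ1 := div_pos hτ1 hc10
  have hτ2n : τ2 < 0 := div_neg_of_neg_of_pos hτ2 hcc0
  have hdiff : 0 < τ1 - τ2 := by linarith
  refine hconv _ hp2 _ hp1 hp2ρ hp1ρ ?_
  refine ⟨τ1 / (τ1 - τ2), -τ2 / (τ1 - τ2), by positivity, div_nonneg (by linarith) hdiff.le,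
    by field_simp; ring, ?_⟩
  simp only [Complex.real_smul]
  push_cast
  have h5 : ((τ1 : ℂ) - (τ2 : ℂ)) ≠ 0 := by
    have : (τ1 - τ2 : ℝ) ≠ 0 := hdiff.ne'
    exact_mod_cast this
  field_simp
  ring

theorem half_of_chords {G : Set ℂ} {z d : ℂ} {ρ : ℝ} (hρ : 0 < ρ) (hd : d ≠ 0)
    (hopen : ∀ u ∈ G, ‖u - z‖ < ρ → ∃ ε > 0, ∀ u' : ℂ, ‖u' - u‖ < ε → u' ∈ G)
    (hconv : ∀ u ∈ G, ∀ v ∈ G, ‖u - z‖ < ρ → ‖v - z‖ < ρ → segment ℝ u v ⊆ G) (hz : z ∉ G)
    (hch : ∀ ε > 0, ∃ u e : ℂ, u ∈ G ∧ ‖u - z‖ < ε ∧ ‖e - d‖ < ε ∧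
      ∀ t : ℝ, ‖u + (t : ℂ) * e - z‖ < ρ → u + (t : ℂ) * e ∈ G) :
    ∃ h : ℂ, (h = d ∨ h = -d) ∧ HalfAt G z h := by
  have hd0 : 0 < ‖d‖ := norm_pos_iff.2 hd
  by_cases hS : ∀ ε > 0, ∃ u e : ℂ, u ∈ G ∧ ‖u - z‖ < ε ∧ ‖e - d‖ < ε ∧ 0 < cr e (u - z) ∧
      ∀ t : ℝ, ‖u + (t : ℂ) * e - z‖ < ρ → u + (t : ℂ) * e ∈ G
  · exact ⟨d, Or.inl rfl, HalfConv_main hρ hd hopen hconv hz hS⟩
  · simp only [not_forall] at hS
    obtain ⟨ε1, hε1, hS⟩ := hS
    refine ⟨-d, Or.inr rfl, HalfConv_main hρ (neg_ne_zero.2 hd) hopen hconv hz ?_⟩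
    intro ε hε
    obtain ⟨u, e, hu, huε, heε, hline⟩ := hch (min (min ε ε1) ‖d‖) (lt_min (lt_min hε hε1) hd0)
    have hu1 : ‖u - z‖ < ε := huε.trans_le ((min_le_left _ _).trans (min_le_left _ _))
    have hu2 : ‖u - z‖ < ε1 := huε.trans_le ((min_le_left _ _).trans (min_le_right _ _))
    have he1 : ‖e - d‖ < ε := heε.trans_le ((min_le_left _ _).trans (min_le_left _ _))
    have he2 : ‖e - d‖ < ε1 := heε.trans_le ((min_le_left _ _).trans (min_le_right _ _))
    have he3 : ‖e - d‖ < ‖d‖ := heε.trans_le (min_le_right _ _)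
    have he0 : e ≠ 0 := by
      rintro rfl
      rw [zero_sub, norm_neg] at he3
      exact lt_irrefl _ he3
    refine ⟨u, -e, hu, hu1, ?_, ?_, ?_⟩
    · have : -e - -d = -(e - d) := by ring
      rw [this, norm_neg]
      exact he1
    · rw [cr_neg_left]
      rcases lt_trichotomy (cr e (u - z)) 0 with h1 | h1 | h1
      · linarith
      · exfalso
        have h2 : cr e (z - u) = 0 := by
          have : z - u = -(u - z) := by ring
          rw [this, cr_neg_right, h1, neg_zero]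
        obtain ⟨t, ht⟩ := HalfConv_line he0 h2
        have h3 := hline t (by rw [← ht, sub_self, norm_zero]; exact hρ)
        rw [← ht] at h3
        exact hz h3
      · exact absurd ⟨u, e, hu, hu2, he2, h1, hline⟩ hS
    · intro t ht
      have h1 : u + (t : ℂ) * -e = u + ((-t : ℝ) : ℂ) * e := by push_cast; ring
      rw [h1] at ht ⊢
      exact hline (-t) ht

end Pool.Agent.Lib_PL
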