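import Pool.Agent.Lib_PLQ.HalfConv

/-!
# A1: the set of points which see an arc is an open half disc near its boundary points in `I`

`xs_par`: `ξ, ξ' ∈ [X.a, X.b]`, `[z, γ ξ], [z, γ ξ'] ⊆ R`, `z ∈ I` does not see `X`: then `γ ξ' - z` is a positive multiple of `γ ξ - z`.
Proof: `ξ = ξ'` trivial.  If `cr (γ ξ - z) (γ ξ' - z) ≠ 0`: `tri_vis` for the triangle `γ ξ, γ ξ', z` (third side in an edge, so in `R`): every point of
`openSegment (γ ξ) (γ ξ') = γ '' Ioo ..` sees `z` (`openSegment_γ`), its position is in `X.s`: contradiction.  If it is `0`: `γ ξ' - z = c (γ ξ - z)` (`cr_eq_zero`), `c ≠ 0` (`z ∉ C`), and `c < 0` would put `z`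
on `segment (γ ξ) (γ ξ') ⊆ C`.

`xs_dir`: if not, there are `z_m → z`, `s_m ∈ X.s`, `Vis z_m (γ s_m)`, `cr v (γ s_m - z_m) ≤ 0`; a subsequence `s_m → ξ' ∈ [X.a, X.b]` (`IsCompact.tendsto_subseq`);
`[z, γ ξ'] ⊆ R` because `R` is closed (`R_closed`; points `(1-t) z_m + t γ s_m ∈ R`); `cr v (γ ξ' - z) ≤ 0` against `xs_par`.

`half_disc`: `ρ` with `ball z ρ ⊆ I` (`I_open`).  `G = SeeA X`.  Take `z_m → z` in `G` (`mem_closure_iff_seq_limit`), `s_m ∈ X.s`, a subsequence `s_m → ξ`; `[z, γ ξ] ⊆ R`; `d = γ ξ - z ≠ 0`.  Apply `half_of_chords`: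
* `hopen`: `vis_open_I` (and `Vis.symm`);
* `hconv`: for `u, v ∈ G` in the ball, `u ≠ v`: `f2` with `z := u`, `z' := v` (the segment is in the ball, so in `I ⊆ R` and disjoint from `C`); the `σ ∈ uIcc s s'` is in `X.s`;
* `hch`: `u = z_m`, `e = γ s_m - z_m → d`.  For `t` with `u + t e` in the ball: `t < 1` (for `t ≥ 1` the point `γ s_m = u + e` would be in the ball, between `u` and `u + t e`, but it is in `C`);
  `0 ≤ t < 1`: `Vis.sub`; `t < 0`: `openSegment (u + t e) (γ s_m) ⊆ segment (u + t e) u ∪ openSegment u (γ s_m)`, the first part in the ball, so in `I`.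
Then `h = ± d`, `cr h d = 0`.
-/

open Set Complex
open scoped Topology

namespace Pool.Agent.Lib_PL

private theorem HalfDisc_between (u e : ℂ) {t1 t2 τ : ℝ} (h1 : t1 ≤ τ) (h2 : τ ≤ t2) :
    u + (τ : ℂ) * e ∈ segment ℝ (u + (t1 : ℂ) * e) (u + (t2 : ℂ) * e) := by
  rcases (h1.trans h2).eq_or_lt with h | h
  · have e1 : τ = t1 := by linarith
    rw [e1]
    exact left_mem_segment ℝ _ _
  · have h3 : t2 - t1 ≠ 0 := by linarith
    have h3' : (0 : ℝ) < t2 - t1 := by linarith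
    refine ⟨(t2 - τ) / (t2 - t1), (τ - t1) / (t2 - t1), div_nonneg (by linarith) h3'.le,
      div_nonneg (by linarith) h3'.le, ?_, ?_⟩
    · field_simp
      ring
    · have h4 : ((t2 - t1 : ℝ) : ℂ) ≠ 0 := by exact_mod_cast h3
      simp only [Complex.real_smul]
      push_cast at h4 ⊢
      field_simp
      ring

namespace Poly

variable {n : ℕ} (P : Poly n)

private theorem HalfDisc_segC {X : Arc} (h1 : (X.i : ℝ) ≤ X.a) (h3 : X.b ≤ X.i + 1) {ξ ξ' : ℝ}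
    (hξ : ξ ∈ Icc X.a X.b) (hξ' : ξ' ∈ Icc X.a X.b) :
    segment ℝ (P.γ ξ) (P.γ ξ') ⊆ P.C := by
  rw [P.segment_γ (i := X.i) (h1.trans hξ.1) (hξ.2.trans h3) (h1.trans hξ'.1) (hξ'.2.trans h3)]
  rintro w ⟨x, -, rfl⟩
  exact P.γ_mem_C x

private theorem HalfDisc_ne {z : ℂ} (hz : z ∈ P.I) (ξ : ℝ) : P.γ ξ - z ≠ 0 := by
  intro h
  have h2 : z = P.γ ξ := (sub_eq_zero.1 h).symm
  rw [h2] at hz
  exact P.I_disj_C hz (P.γ_mem_C ξ)

private theorem HalfDisc_cr {X : Arc} (h1 : (X.i : ℝ) ≤ X.a) (h3 : X.b ≤ X.i + 1)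
    {z : ℂ} {ξ ξ' : ℝ} (hξ : ξ ∈ Icc X.a X.b) (hξ' : ξ' ∈ Icc X.a X.b) (hlt : ξ < ξ')
    (hseg : segment ℝ z (P.γ ξ) ⊆ P.R) (hseg' : segment ℝ z (P.γ ξ') ⊆ P.R)
    (hno : z ∉ P.SeeA X) : cr (P.γ ξ - z) (P.γ ξ' - z) = 0 := by
  by_contra hne
  apply hno
  have hm : (ξ + ξ') / 2 ∈ Ioo ξ ξ' := ⟨by linarith, by linarith⟩
  refine ⟨(ξ + ξ') / 2, ⟨by linarith [hm.1, hξ.1], by linarith [hm.2, hξ'.2]⟩, ?_⟩
  refine (P.tri_vis (P.γ ξ) (P.γ ξ') z ?_ ?_ ?_ ?_ _ ?_).symm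
  · intro h0
    apply hne
    have e1 : cr (P.γ ξ' - P.γ ξ) (z - P.γ ξ) = cr (P.γ ξ - z) (P.γ ξ' - z) := by
      simp only [cr, Complex.sub_re, Complex.sub_im]
      ring
    rw [← e1, h0]
  · exact (P.HalfDisc_segC h1 h3 hξ hξ').trans P.C_sub_R
  · rw [segment_symm]
    exact hseg'
  · exact hseg
  · rw [P.openSegment_γ (i := X.i) (h1.trans hξ.1) (hξ'.2.trans h3) hlt]
    exact ⟨_, hm, rfl⟩

theorem xs_par (hc : P.CCW) {X : Arc} (h1 : (X.i : ℝ) ≤ X.a) (h3 : X.b ≤ X.i + 1) {z : ℂ}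
    (hz : z ∈ P.I) {ξ ξ' : ℝ} (hξ : ξ ∈ Icc X.a X.b) (hξ' : ξ' ∈ Icc X.a X.b)
    (hseg : segment ℝ z (P.γ ξ) ⊆ P.R) (hseg' : segment ℝ z (P.γ ξ') ⊆ P.R) (hno : z ∉ P.SeeA X) :
    ∃ c : ℝ, 0 < c ∧ P.γ ξ' - z = (c : ℂ) * (P.γ ξ - z) := by
  have _ := hc
  have hd := P.HalfDisc_ne hz ξ
  have hd' := P.HalfDisc_ne hz ξ'
  have hcr : cr (P.γ ξ - z) (P.γ ξ' - z) = 0 := by
    rcases lt_trichotomy ξ ξ' with h | h | h
    · exact P.HalfDisc_cr h1 h3 hξ hξ' h hseg hseg' hno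
    · rw [h]
      exact cr_self _
    · have h4 := P.HalfDisc_cr h1 h3 hξ' hξ h hseg' hseg hno
      rw [cr_swap, h4, neg_zero]
  obtain ⟨c, hcc⟩ := cr_eq_zero hd hcr
  refine ⟨c, ?_, hcc⟩
  by_contra hle
  push Not at hle
  rcases hle.eq_or_lt with h | h
  · rw [h] at hcc
    apply hd'
    rw [hcc]
    simp
  · apply P.I_disj_C hz
    apply P.HalfDisc_segC h1 h3 hξ hξ'
    have h5 : (0 : ℝ) < 1 - c := by linarith
    refine ⟨-c / (1 - c), 1 / (1 - c), div_nonneg (by linarith) h5.le, by positivity, ?_, ?_⟩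
    · field_simp
      ring
    · have h6 : ((1 - c : ℝ) : ℂ) ≠ 0 := by exact_mod_cast h5.ne'
      have h7 : P.γ ξ' = z + (c : ℂ) * (P.γ ξ - z) := by
        rw [← hcc]
        ring
      simp only [Complex.real_smul]
      rw [h7]
      push_cast at h6 ⊢
      field_simp
      ring

/-- limits of chords -/
private theorem HalfDisc_lim {X : Arc} {z : ℂ} {zs : ℕ → ℂ} {ss : ℕ → ℝ}
    (hz : Filter.Tendsto zs Filter.atTop (𝓝 z)) (hs : ∀ m, ss m ∈ X.s)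
    (hv : ∀ m, P.Vis (zs m) (P.γ (ss m))) :
    ∃ ξ ∈ Icc X.a X.b, segment ℝ z (P.γ ξ) ⊆ P.R ∧ ∃ φ : ℕ → ℕ, StrictMono φ ∧
      Filter.Tendsto (fun m => ss (φ m)) Filter.atTop (𝓝 ξ) ∧
      Filter.Tendsto (fun m => zs (φ m)) Filter.atTop (𝓝 z) ∧
      Filter.Tendsto (fun m => P.γ (ss (φ m)) - zs (φ m)) Filter.atTop (𝓝 (P.γ ξ - z)) := by
  obtain ⟨ξ, hξ, φ, hφ, hlim⟩ := isCompact_Icc.tendsto_subseq
    (fun m => (⟨(hs m).1.le, (hs m).2.le⟩ : ss m ∈ Icc X.a X.b))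
  have hlim' : Filter.Tendsto (fun m => ss (φ m)) Filter.atTop (𝓝 ξ) := hlim
  have hz' : Filter.Tendsto (fun m => zs (φ m)) Filter.atTop (𝓝 z) := hz.comp hφ.tendsto_atTop
  have hγ : Filter.Tendsto (fun m => P.γ (ss (φ m))) Filter.atTop (𝓝 (P.γ ξ)) :=
    (P.γ_cont.tendsto ξ).comp hlim'
  refine ⟨ξ, hξ, ?_, φ, hφ, hlim', hz', hγ.sub hz'⟩
  rintro w ⟨a, b, ha, hb, hab, rfl⟩
  have hw : Filter.Tendsto (fun m => a • zs (φ m) + b • P.γ (ss (φ m))) Filter.atTop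
      (𝓝 (a • z + b • P.γ ξ)) := (hz'.const_smul a).add (hγ.const_smul b)
  refine P.R_closed.mem_of_tendsto hw (Filter.Eventually.of_forall fun m => ?_)
  exact (hv (φ m)).seg ⟨a, b, ha, hb, hab, rfl⟩

theorem xs_dir (hc : P.CCW) {X : Arc} (h1 : (X.i : ℝ) ≤ X.a) (h3 : X.b ≤ X.i + 1) {z : ℂ}
    (hz : z ∈ P.I) {ξ : ℝ} (hξ : ξ ∈ Icc X.a X.b) (hseg : segment ℝ z (P.γ ξ) ⊆ P.R)
    (hno : z ∉ P.SeeA X) {v : ℂ} (hv : 0 < cr v (P.γ ξ - z)) :
    ∃ ρ > 0, ∀ (z' : ℂ) (s : ℝ), ‖z' - z‖ < ρ → s ∈ X.s → P.Vis z' (P.γ s) →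
      0 < cr v (P.γ s - z') := by
  by_contra hcon
  push Not at hcon
  have hpos : ∀ m : ℕ, (0 : ℝ) < 1 / ((m : ℝ) + 1) := fun m => by positivity
  choose zs ss hzs hss hvs hcs using fun m : ℕ => hcon (1 / ((m : ℝ) + 1)) (hpos m)
  have hlz : Filter.Tendsto zs Filter.atTop (𝓝 z) := by
    rw [tendsto_iff_norm_sub_tendsto_zero]
    exact squeeze_zero (fun m => norm_nonneg _) (fun m => (hzs m).le)
      tendsto_one_div_add_atTop_nhds_zero_nat
  obtain ⟨ξ', hξ', hseg', φ, -, -, -, hd⟩ := P.HalfDisc_lim hlz hss hvs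
  obtain ⟨c, hc0, hcc⟩ := P.xs_par hc h1 h3 hz hξ hξ' hseg hseg' hno
  have hcont : Continuous fun w : ℂ => cr v w :=
    cr_continuous.comp (continuous_const.prodMk continuous_id)
  have hl : Filter.Tendsto (fun m => cr v (P.γ (ss (φ m)) - zs (φ m))) Filter.atTop
      (𝓝 (cr v (P.γ ξ' - z))) := (hcont.tendsto _).comp hd
  have h4 : cr v (P.γ ξ' - z) ≤ 0 :=
    le_of_tendsto hl (Filter.Eventually.of_forall fun m => hcs (φ m))
  rw [hcc, cr_mul_right] at h4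
  have := mul_pos hc0 hv
  linarith

theorem half_disc (hc : P.CCW) {X : Arc} (h1 : (X.i : ℝ) ≤ X.a) (h3 : X.b ≤ X.i + 1) {z : ℂ}
    (hz : z ∈ P.I) (hcl : z ∈ closure (P.SeeA X)) (hno : z ∉ P.SeeA X) :
    ∃ (h : ℂ) (ξ : ℝ), h ≠ 0 ∧ ξ ∈ Icc X.a X.b ∧ cr h (P.γ ξ - z) = 0 ∧
      segment ℝ z (P.γ ξ) ⊆ P.R ∧ HalfAt (P.SeeA X) z h := by
  obtain ⟨ρ, hρ, hball⟩ := Metric.isOpen_iff.1 P.I_open z hz
  have hI : ∀ w : ℂ, ‖w - z‖ < ρ → w ∈ P.I := fun w hw =>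
    hball (by rw [Metric.mem_ball, dist_eq_norm]; exact hw)
  obtain ⟨zs, hzs, hlz⟩ := mem_closure_iff_seq_limit.1 hcl
  choose ss hss hvs using hzs
  obtain ⟨ξ, hξ, hseg, φ, -, hlim, hlz', hd⟩ := P.HalfDisc_lim hlz hss hvs
  have hd0 := P.HalfDisc_ne hz ξ
  have hconvb : ∀ u v w : ℂ, ‖u - z‖ < ρ → ‖v - z‖ < ρ → w ∈ segment ℝ u v → ‖w - z‖ < ρ := by
    intro u v w hu hv hw
    have h4 := (convex_ball z ρ).segment_subset
      (by rw [Metric.mem_ball, dist_eq_norm]; exact hu)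
      (by rw [Metric.mem_ball, dist_eq_norm]; exact hv) hw
    rwa [Metric.mem_ball, dist_eq_norm] at h4
  have key := half_of_chords (G := P.SeeA X) (z := z) (d := P.γ ξ - z) (ρ := ρ) hρ hd0 ?_ ?_ hno ?_
  · obtain ⟨h, hh, hH⟩ := key
    refine ⟨h, ξ, ?_, hξ, ?_, hseg, hH⟩
    · rcases hh with rfl | rfl
      · exact hd0
      · exact neg_ne_zero.2 hd0
    · rcases hh with rfl | rfl
      · exact cr_self _
      · rw [cr_neg_left, cr_self, neg_zero]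
  · rintro u ⟨s, hs, hv⟩ hu
    obtain ⟨ε, hε, H⟩ := P.vis_open_I hc (hI u hu) hv.symm
    exact ⟨ε, hε, fun u' hu' => ⟨s, hs, (H u' hu').symm⟩⟩
  · rintro u ⟨s, hs, hv⟩ v ⟨s', hs', hv'⟩ hu hv1 c hcseg
    have hsI : segment ℝ u v ⊆ P.I := fun w hw => hI w (hconvb u v w hu hv1 hw)
    have i1 : (X.i : ℝ) < s := h1.trans_lt hs.1
    have i2 : s < X.i + 1 := hs.2.trans_le h3
    have i3 : (X.i : ℝ) < s' := h1.trans_lt hs'.1
    have i4 : s' < X.i + 1 := hs'.2.trans_le h3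
    have hdis : Disjoint (segment ℝ u v) (segment ℝ (P.γ s) (P.γ s')) := by
      rw [Set.disjoint_left]
      intro w hw hw'
      exact P.I_disj_C (hsI hw) (P.HalfDisc_segC h1 h3 ⟨hs.1.le, hs.2.le⟩ ⟨hs'.1.le, hs'.2.le⟩ hw')
    obtain ⟨σ, hσ, hvσ⟩ := P.f2 hc i1 i2 i3 i4 (hsI.trans subset_union_right) hdis hv hv' c hcseg
    refine ⟨σ, ?_, hvσ⟩
    have h5 : OrdConnected (Ioo X.a X.b) := ordConnected_Ioo
    exact h5.uIcc_subset hs hs' hσ
  · intro ε hε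
    have hm : ∀ᶠ m in Filter.atTop, ‖zs (φ m) - z‖ < min ε ρ :=
      (tendsto_iff_norm_sub_tendsto_zero.1 hlz').eventually (gt_mem_nhds (lt_min hε hρ))
    have hm' : ∀ᶠ m in Filter.atTop, ‖(P.γ (ss (φ m)) - zs (φ m)) - (P.γ ξ - z)‖ < ε :=
      (tendsto_iff_norm_sub_tendsto_zero.1 hd).eventually (gt_mem_nhds hε)
    obtain ⟨m, hm1, hm2⟩ := (hm.and hm').exists
    set u := zs (φ m) with hu
    set s := ss (φ m) with hsd
    set e := P.γ s - u with he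
    have hv : P.Vis u (P.γ s) := hvs (φ m)
    have hsX : s ∈ X.s := hss (φ m)
    have hur : ‖u - z‖ < ρ := hm1.trans_le (min_le_right _ _)
    refine ⟨u, e, ⟨s, hsX, hv⟩, hm1.trans_le (min_le_left _ _), hm2, fun t ht => ?_⟩
    refine ⟨s, hsX, ?_⟩
    have e0 : u + ((0 : ℝ) : ℂ) * e = u := by simp
    have e1 : u + ((1 : ℝ) : ℂ) * e = P.γ s := by rw [he]; push_cast; ring
    have hwI : u + (t : ℂ) * e ∈ P.I := hI _ ht
    have htl : t < 1 := by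
      by_contra hge
      push Not at hge
      have h6 := HalfDisc_between u e (t1 := 0) (t2 := t) (τ := 1) zero_le_one hge
      rw [e0, e1] at h6
      exact P.I_disj_C (hI _ (hconvb u _ _ hur ht h6)) (P.γ_mem_C s)
    rcases le_or_gt 0 t with h0 | h0
    · refine hv.sub ?_ (right_mem_segment ℝ _ _) ?_
      · have h6 := HalfDisc_between u e (t1 := 0) (t2 := 1) (τ := t) h0 htl.le
        rwa [e0, e1] at h6
      · intro heq
        rw [heq] at hwI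
        exact P.I_disj_C hwI (P.γ_mem_C s)
    · rintro c ⟨a, b, ha, hb, hab, rfl⟩
      have h7 : a • (u + (t : ℂ) * e) + b • P.γ s = u + ((a * t + b : ℝ) : ℂ) * e := by
        have h8 : (a : ℂ) + (b : ℂ) = 1 := by exact_mod_cast hab
        have h9 : (a : ℂ) = 1 - b := by rw [← h8]; ring
        simp only [Complex.real_smul]
        rw [← e1]
        push_cast
        rw [h9]
        ring
      rw [h7]
      have h10 : t < a * t + b := by
        have : b * t < b := by nlinarith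
        have h11 : a = 1 - b := by linarith
        rw [h11]
        nlinarith
      have h12 : a * t + b < 1 := by nlinarith
      rcases le_or_gt (a * t + b) 0 with h13 | h13
      · have h14 := HalfDisc_between u e (t1 := t) (t2 := 0) (τ := a * t + b) h10.le h13
        rw [e0] at h14
        exact hI _ (hconvb _ u _ ht hur h14)
      · apply hv
        refine ⟨1 - (a * t + b), a * t + b, by linarith, h13, by ring, ?_⟩
        simp only [Complex.real_smul]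
        rw [he]
        push_cast
        ring

end Poly

end Pool.Agent.Lib_PL
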