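import Pool.Agent.Lib_PLQ.LBasic

/-!
C1 (items hooked to the left whose parent is in the arc `(a,b)` modulo `n`, that is in `(a-n,b-n)`).

`c1_q`: by `hook_ω` some lift `ν' = ν + m n` satisfies `S.b ≤ ν' < q`; `q ≤ X.i < b`; `ν'` is not in `[a,b]` and not in `[a-n,b-n]`, and `S.b > a - n`
(`S` sees `X`, or simply `X.i < S.i + n`), so `b - n < ν' < a`.  If `q < a` then `p2` for the chord `(b-n, a)`: `s0 < S.b ≤ b - n < q < a ≤ X.a ≤ D` (`hook_D`).

`c1_pair`: `u ∈ JJ X1`: `x ∈ X1.s` sees `w = pt u`.  Prolong beyond `w` (`ray_hit`) to `γ o`; the chord `(x, o)` crosses `W` in `w`, `x ∈ (a,b)`, so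
`γ o ∈ Side b (a+n)` and `o` can be taken in `(b-n, a)`.  `X1`, `X2` disjoint and `D1 < D2` give `q < x ≤ D2`.  `s2 < S2.b ≤ b - n < o < a ≤ q` (`c1_q`): `p2` of `hp2`.
-/

open Set Complex
open scoped Topology

namespace Pool.Agent.Lib_PL

/-- collinear points: leaving an open segment through one of its ends -/
private theorem LC1_line {p q c z : ℂ} (hpq : p ≠ q) (hc : c ∈ openSegment ℝ p q)
    (hz : z ∉ segment ℝ p q) (h0 : cr (q - p) (z - c) = 0) :
    p ∈ openSegment ℝ c z ∨ q ∈ openSegment ℝ c z := by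
  obtain ⟨t, ht⟩ := cr_eq_zero (sub_ne_zero.2 hpq.symm) h0
  rw [openSegment_eq_image'] at hc
  obtain ⟨s, ⟨hs0, hs1⟩, hs⟩ := hc
  have hz2 : z = p + (s + t) • (q - p) := by
    have h1 : z = c + (t : ℂ) * (q - p) := by rw [← ht]; ring
    rw [h1, ← hs]
    simp only [Complex.real_smul]
    push_cast
    ring
  have h3 : s + t < 0 ∨ 1 < s + t := by
    by_contra hcon
    push Not at hcon
    apply hz
    rw [segment_eq_image']
    exact ⟨s + t, ⟨hcon.1, hcon.2⟩, hz2.symm⟩
  rcases h3 with h3 | h3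
  · left
    have ht0 : t < 0 := by linarith
    rw [openSegment_eq_image']
    refine ⟨-s / t, ⟨div_pos_of_neg_of_neg (by linarith) ht0, ?_⟩, ?_⟩
    · rw [div_lt_one_of_neg ht0]
      linarith
    · have h4 : z - c = (t : ℂ) * (q - p) := ht
      have h5 : (t : ℂ) ≠ 0 := by exact_mod_cast ht0.ne
      simp only [Complex.real_smul]
      rw [h4, ← hs]
      simp only [Complex.real_smul]
      push_cast
      field_simp
      ring
  · right
    have ht0 : 0 < t := by linarith
    rw [openSegment_eq_image']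
    refine ⟨(1 - s) / t, ⟨div_pos (by linarith) ht0, ?_⟩, ?_⟩
    · rw [div_lt_one ht0]
      linarith
    · have h4 : z - c = (t : ℂ) * (q - p) := ht
      have h5 : (t : ℂ) ≠ 0 := by exact_mod_cast ht0.ne'
      simp only [Complex.real_smul]
      rw [h4, ← hs]
      simp only [Complex.real_smul]
      push_cast
      field_simp
      ring

namespace Poly

variable {n : ℕ} (P : Poly n)

/-- prolongation of a sight line from `x ∈ (a,b)` through a point of `W` -/
theorem prolong_W (hc : P.CCW) {a b x u : ℝ} (hab : a < b) (hba : b < a + n)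
    (hw : P.Vis (P.γ a) (P.γ b)) (hax : a < x) (hxb : x < b) (h0 : 0 < u) (h1 : u < 1)
    (h : P.Vis (P.γ x) (P.pt a b u)) :
    ∃ o : ℝ, b < o ∧ o < a + n ∧ P.Vis (P.γ x) (P.γ o) ∧
      P.pt a b u ∈ openSegment ℝ (P.γ x) (P.γ o) := by
  set w := P.pt a b u with hwdef
  have hwo : w ∈ openSegment ℝ (P.γ a) (P.γ b) := P.pt_mem_open h0 h1
  have hwI : w ∈ P.I := hw.mem hwo
  have hd : w - P.γ x ≠ 0 := sub_ne_zero.2 (Ne.symm h.ne)
  obtain ⟨t, ht0, htC, htI⟩ := P.ray_hit w hwI (w - P.γ x) hd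
  obtain ⟨o, ho1, ho2, ho⟩ := P.mem_C_window a htC
  have hwe : w = P.γ x + (w - P.γ x) := by ring
  have hoe : P.γ o - P.γ x = ((1 + t : ℝ) : ℂ) * (w - P.γ x) := by
    rw [ho]
    push_cast
    ring
  have hxo : w ∈ openSegment ℝ (P.γ x) (P.γ o) := by
    rw [openSegment_eq_image']
    refine ⟨1 / (1 + t), ⟨by positivity, ?_⟩, ?_⟩
    · rw [div_lt_one (by positivity)]
      linarith
    · have h5 : ((1 + t : ℝ) : ℂ) ≠ 0 := by
        have : (1 + t : ℝ) ≠ 0 := by positivity
        exact_mod_cast this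
      simp only [Complex.real_smul]
      rw [hoe]
      push_cast at h5 ⊢
      field_simp
      ring
  have hvis : P.Vis (P.γ x) (P.γ o) := by
    intro c hcc
    rw [openSegment_eq_image'] at hcc
    obtain ⟨r, ⟨hr0, hr1⟩, rfl⟩ := hcc
    simp only [Complex.real_smul]
    rw [hoe]
    rcases lt_or_ge (r * (1 + t)) 1 with h2 | h2
    · apply h
      rw [openSegment_eq_image']
      refine ⟨r * (1 + t), ⟨by positivity, h2⟩, ?_⟩
      simp only [Complex.real_smul]
      push_cast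
      ring
    · have h3 := htI (r * (1 + t) - 1) (by linarith) (by nlinarith)
      have e : P.γ x + (r : ℂ) * (((1 + t : ℝ) : ℂ) * (w - P.γ x)) =
          w + ((r * (1 + t) - 1 : ℝ) : ℂ) * (w - P.γ x) := by
        push_cast
        ring
      rw [e]
      exact h3
  have hxS : P.γ x ∈ P.Side a b := P.side_arc hba hw ⟨hax, hxb⟩
  have hxs := P.side_sub hxS
  have hwseg : w ∈ segment ℝ (P.γ a) (P.γ b) := openSegment_subset_segment ℝ _ _ hwo
  -- the ends of the chord are not `γ o`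
  have hend : ∀ c : ℂ, c ∈ P.C → (c = P.γ a ∨ c = P.γ b) → c ≠ P.γ o := by
    intro c hcC hcab hco
    have hcr : cr (P.γ b - P.γ a) (P.γ x - w) = 0 := by
      have e1 : P.γ x - w = ((-1 / t : ℝ) : ℂ) * (P.γ o - w) := by
        have h5 : (t : ℂ) ≠ 0 := by exact_mod_cast ht0.ne'
        rw [ho]
        push_cast
        field_simp
        ring
      have e2 : cr (P.γ b - P.γ a) (P.γ o - w) = 0 := by
        have e3 : w - P.γ a = (u : ℂ) * (P.γ b - P.γ a) := by
          rw [hwdef, pt]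
          ring
        rcases hcab with h6 | h6
        · have e4 : P.γ o - w = ((-u : ℝ) : ℂ) * (P.γ b - P.γ a) := by
            rw [← hco, h6]
            push_cast
            linear_combination -e3
          rw [e4, cr_mul_right, cr_self, mul_zero]
        · have e4 : P.γ o - w = ((1 - u : ℝ) : ℂ) * (P.γ b - P.γ a) := by
            rw [← hco, h6]
            push_cast
            linear_combination -e3
          rw [e4, cr_mul_right, cr_self, mul_zero]
      rw [e1, cr_mul_right, e2, mul_zero]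
    rcases LC1_line hw.ne hwo hxs.2 hcr with h6 | h6
    · rw [openSegment_symm] at h6
      exact P.I_disj_C (h.mem h6) (P.γ_mem_C a)
    · rw [openSegment_symm] at h6
      exact P.I_disj_C (h.mem h6) (P.γ_mem_C b)
  have hoa : a < o := by
    rcases ho1.lt_or_eq with h2 | h2
    · exact h2
    · exact absurd (by rw [h2]) (hend _ (P.γ_mem_C a) (Or.inl rfl))
  refine ⟨o, ?_, ho2, hvis, hxo⟩
  by_contra hcon
  rw [not_lt] at hcon
  rcases hcon.lt_or_eq with h2 | h2
  · have h3 := P.side_same_vis hc hab hba hw hvis hxS (P.side_arc hba hw ⟨hoa, h2⟩)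
    exact (P.side_sub (h3 (openSegment_subset_segment ℝ _ _ hxo))).2 hwseg
  · exact hend _ (P.γ_mem_C b) (Or.inr rfl) (by rw [h2])

theorem c1_q (hc : P.CCW) {p : ℂ} {K : ℕ} {ν : ℤ} {a b : ℝ} {S X : Arc} (hw : P.LChord p K ν a b)
    (hI : P.LItem p K ν S X) (hk : P.HookL S X {P.V ν}) (hXs : X.s ⊆ Ioo a b) (hS : S.b ≤ b - n)
    {D s0 : ℝ} {q : ℤ} (hp : P.Pivot S.i X.i S.a S.b D s0 q) : a ≤ q := by
  obtain ⟨ω, hω, -, m, hm1, hm2⟩ := P.hook_ω hc hI.hb hk hp
  rw [Finset.mem_singleton] at hω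
  subst hω
  have hXab : X.a < X.b := hI.hb.Xab
  have hXa : a ≤ X.a := by
    by_contra hcon
    rw [not_le] at hcon
    have h1 : min ((a + X.a) / 2) ((X.a + X.b) / 2) ∈ X.s := by
      refine ⟨lt_min (by linarith) (by linarith), ?_⟩
      exact (min_le_right _ _).trans_lt (by linarith)
    have h2 := (hXs h1).1
    have h3 := min_le_left ((a + X.a) / 2) ((X.a + X.b) / 2)
    linarith
  have hXb : X.b ≤ b := by
    by_contra hcon
    rw [not_le] at hcon
    have h1 : max ((b + X.b) / 2) ((X.a + X.b) / 2) ∈ X.s := by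
      refine ⟨?_, max_lt (by linarith) (by linarith)⟩
      exact lt_of_lt_of_le (by linarith) (le_max_right _ _)
    have h2 := (hXs h1).2
    have h3 := le_max_left ((b + X.b) / 2) ((X.a + X.b) / 2)
    linarith
  have hqi : (q : ℝ) ≤ X.i := by exact_mod_cast hp.qj
  have hXi := hI.hb.Xia
  have hji : (X.i : ℝ) + 1 ≤ S.i + n := by exact_mod_cast hI.hb.ji
  have hXbi := hI.hb.Xbi
  have hSia := hI.hb.Sia
  have hSab := hI.hb.Sab
  have h1 := hw.nν m
  have h2 := hw.nν (m + 1)
  have h3 : b - n < (ν : ℝ) + m * n := by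
    by_contra hcon
    rw [not_lt] at hcon
    apply h2
    push_cast
    constructor
    · have e : (ν : ℝ) + (m + 1) * n = ν + m * n + n := by ring
      rw [e]
      linarith
    · have e : (ν : ℝ) + (m + 1) * n = ν + m * n + n := by ring
      rw [e]
      linarith
  by_contra hcon
  rw [not_le] at hcon
  have h4 := P.hook_D hc hI.hb hp
  refine hp.p2 (b - n) a (by linarith [hp.sβ]) (by linarith) hcon (by linarith [h4.1]) ?_
  have e : P.γ (b - n) = P.γ b := by
    have := P.γ_add_n (b - n)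
    rw [sub_add_cancel] at this
    exact this.symm
  rw [e]
  exact hw.vis.symm

theorem c1_pair (hc : P.CCW) {p : ℂ} {K : ℕ} {ν : ℤ} {a b : ℝ} {S1 X1 S2 X2 : Arc}
    (hw : P.LChord p K ν a b)
    (hI1 : P.LItem p K ν S1 X1) (hX1 : X1.s ⊆ Ioo a b)
    (hI2 : P.LItem p K ν S2 X2) (hk2 : P.HookL S2 X2 {P.V ν}) (hX2 : X2.s ⊆ Ioo a b)
    (hS2 : S2.b ≤ b - n) {D1 s1 D2 s2 : ℝ} {q : ℤ}
    (hp1 : P.Pivot S1.i X1.i S1.a S1.b D1 s1 q) (hp2 : P.Pivot S2.i X2.i S2.a S2.b D2 s2 q)
    (hD : D1 < D2) (hdis : Disjoint X1.s X2.s) (hJ : (P.JJ X1 a b).Nonempty) : False := by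
  obtain ⟨u, hu0, hu1, x, hx, hv⟩ := hJ
  have hxab := hX1 hx
  obtain ⟨o, ho1, ho2, hvo, -⟩ := P.prolong_W hc hw.ab hw.ba hw.vis hxab.1 hxab.2 hu0 hu1 hv
  have hd1 := P.hook_D hc hI1.hb hp1
  have hd2 := P.hook_D hc hI2.hb hp2
  have hX1b : X1.b ≤ X2.a := by
    by_contra hcon
    rw [not_le] at hcon
    have h1 : max X1.a X2.a < min X1.b X2.b := by
      refine max_lt (lt_min hI1.hb.Xab ?_) (lt_min hcon hI2.hb.Xab)
      linarith
    obtain ⟨y, hy1, hy2⟩ := exists_between h1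
    exact Set.disjoint_left.1 hdis (show y ∈ X1.s from
      ⟨(le_max_left _ _).trans_lt hy1, hy2.trans_le (min_le_left _ _)⟩)
      ⟨(le_max_right _ _).trans_lt hy1, hy2.trans_le (min_le_right _ _)⟩
  have hq := P.c1_q hc hw hI2 hk2 hX2 hS2 hp2
  have hqi : (q : ℝ) ≤ X1.i := by exact_mod_cast hp1.qj
  have hX1i := hI1.hb.Xia
  refine hp2.p2 (o - n) x (by linarith [hp2.sβ]) (by linarith) (by linarith [hx.1])
    (by linarith [hx.2, hd2.1]) ?_
  have e : P.γ (o - n) = P.γ o := by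
    have := P.γ_add_n (o - n)
    rw [sub_add_cancel] at this
    exact this.symm
  rw [e]
  exact hvo.symm

end Poly

end Pool.Agent.Lib_PL
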