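import Pool.Agent.Lib_PLQ.LBasic

/-!
C2 (items whose parent is outside `[a,b]` and whose pivot `q` is in `(a,b)`).

`p4` of `hp1`, `hp2`: take `x` non-integer just before `q` with `a < x` (and `x < b`: `q ≤ X.i < X.a < b`), which sees `s1 ∈ S1.s` and `s2 ∈ S2.s`; `x ∈ (a,b)`,
`s1 + n, s2 + n ∈ (b, a+n)`.  `cross_W`: points `pt u1`, `pt u2` of `W` on the chords `(x,s1)`, `(x,s2)`; `x ∈ Bp p K` (it sees
`S1`: `Bp_of_vis`).  `see(x) ∩ W` is an interval (`f2_pt_chord`), lit: all parameters between `u1` and `u2` are lit.  A chord `y s` (`y ∈ X1`, `s ∈ S1`, `hb.SX`) crosses `W` in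
`pt v ∈ JJ X1`, seen by `S1`; by `f2_chord` for the interval `[s, s1] ⊆ S1.s` all parameters between `v` and `u1` are lit; between `v` and `v1` by `JJ_conv`, `JJ_lit`.
Same for item 2.
-/

open Set Complex
open scoped Topology

namespace Pool.Agent.Lib_PL

namespace Poly

variable {n : ℕ} (P : Poly n)

/-- convexity of the `JJ`-sets for unordered end points -/
private theorem LC2_conv (hc : P.CCW) {a b : ℝ} (hv : P.Vis (P.γ a) (P.γ b)) {X : Arc}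
    (ia : (X.i : ℝ) ≤ X.a) (bi : X.b ≤ X.i + 1) {u v t : ℝ} (hu : u ∈ P.JJ X a b)
    (hv' : v ∈ P.JJ X a b) (ht : t ∈ uIcc u v) : t ∈ P.JJ X a b := by
  rcases le_total u v with h | h
  · rw [uIcc_of_le h] at ht
    exact P.JJ_conv hc hv ia bi hu hv' ht.1 ht.2
  · rw [uIcc_of_ge h] at ht
    exact P.JJ_conv hc hv ia bi hv' hu ht.1 ht.2

/-- one item: everything between `JJ X` and the crossing point of `W` with a chord `(x,s)`, `s ∈ S`, is lit -/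
theorem c2_one (hc : P.CCW) {p : ℂ} {K : ℕ} {ν : ℤ} {a b : ℝ} {S X : Arc} (hw : P.LChord p K ν a b)
    (hI : P.LItem p K ν S X) (hX : X.s ⊆ Ioo a b) (hS : b - n ≤ S.a) (hS' : S.b ≤ a) {v : ℝ}
    (hv : v ∈ P.JJ X a b) {x s : ℝ} (hx : a < x) (hx' : x < b) (hs : s ∈ S.s)
    (hxs : P.Vis (P.γ x) (P.γ s)) :
    ∃ u : ℝ, 0 < u ∧ u < 1 ∧ P.Vis (P.γ x) (P.pt a b u) ∧
      ∀ t ∈ uIcc v u, P.pt a b t ∈ P.VV p (K + 1) := by
  obtain ⟨l, hl, hSc⟩ := hI.Sc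
  have hSB : S.s ⊆ P.Bp p K := hSc.sub.trans (P.Bp_mono p (by omega))
  have hsI : S.a < s ∧ s < S.b := hs
  obtain ⟨u, hu0, hu1, -, hu2, hu3⟩ := P.cross_W hc (y := s + n) hw.vis hx hx' (by linarith [hsI.1])
    (by linarith [hsI.2]) (by rw [P.γ_add_n]; exact hxs)
  rw [P.γ_add_n] at hu3
  obtain ⟨s', hs', y, hy, hys⟩ := hI.hb.SX
  have hsI' : S.a < s' ∧ s' < S.b := hs'
  have hyI := hX hy
  obtain ⟨w, hw0, hw1, -, hw2, hw3⟩ := P.cross_W hc (y := s' + n) hw.vis hyI.1 hyI.2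
    (by linarith [hsI'.1]) (by linarith [hsI'.2]) (by rw [P.γ_add_n]; exact hys.symm)
  rw [P.γ_add_n] at hw3
  have hJ1 : w ∈ P.JJ X a b := ⟨hw0, hw1, y, hy, hw2⟩
  have hJ2 : w ∈ P.JJ S a b := ⟨hw0, hw1, s', hs', hw3⟩
  have hJ3 : u ∈ P.JJ S a b := ⟨hu0, hu1, s, hs, hu3⟩
  refine ⟨u, hu0, hu1, hu2, ?_⟩
  intro t ht
  rcases uIcc_subset_uIcc_union_uIcc (b := w) ht with h | h
  · exact P.JJ_lit hI.Xc.sub (P.LC2_conv hc hw.vis hI.Xc.ia hI.Xc.bi hv hJ1 h)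
  · exact P.JJ_lit hSB (P.LC2_conv hc hw.vis hI.hb.Sia hI.hb.Sbi hJ2 hJ3 h)

theorem c2_hull (hc : P.CCW) {p : ℂ} {K : ℕ} {ν : ℤ} {a b : ℝ} {S1 X1 S2 X2 : Arc}
    (hw : P.LChord p K ν a b)
    (hI1 : P.LItem p K ν S1 X1) (hX1 : X1.s ⊆ Ioo a b) (hS1 : b - n ≤ S1.a) (hS1' : S1.b ≤ a)
    (hI2 : P.LItem p K ν S2 X2) (hX2 : X2.s ⊆ Ioo a b) (hS2 : b - n ≤ S2.a) (hS2' : S2.b ≤ a)
    {D1 s1 D2 s2 : ℝ} {q : ℤ} (hp1 : P.Pivot S1.i X1.i S1.a S1.b D1 s1 q)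
    (hp2 : P.Pivot S2.i X2.i S2.a S2.b D2 s2 q) (hq : a < q) {v1 v2 : ℝ}
    (hv1 : v1 ∈ P.JJ X1 a b) (hv2 : v2 ∈ P.JJ X2 a b) :
    ∀ t ∈ uIcc v1 v2, P.pt a b t ∈ P.VV p (K + 1) := by
  obtain ⟨σ1, hσ1, ε1, hε1, h1⟩ := hp1.p4
  obtain ⟨σ2, hσ2, ε2, hε2, h2⟩ := hp2.p4
  -- `q < b`
  have hqb : (q : ℝ) < b := by
    have h3 : (q : ℝ) ≤ X1.i := by exact_mod_cast hp1.qj
    have h4 := hI1.hb.Xia
    have h5 := hI1.hb.Xab
    have h6 : (X1.a + X1.b) / 2 ∈ X1.s := ⟨by linarith, by linarith⟩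
    have h7 := (hX1 h6).2
    linarith
  obtain ⟨m, hm0, hm1, hm2, hm3, hm4⟩ : ∃ m : ℝ, 0 < m ∧ m < ε1 ∧ m < ε2 ∧ m < 1 ∧ m < q - a := by
    refine ⟨min (min ε1 ε2) (min 1 (q - a)) / 2, ?_, ?_, ?_, ?_, ?_⟩
    all_goals
      have hpos : 0 < min (min ε1 ε2) (min 1 ((q : ℝ) - a)) :=
        lt_min (lt_min hε1 hε2) (lt_min one_pos (sub_pos.2 hq))
      have ha1 : min (min ε1 ε2) (min 1 ((q : ℝ) - a)) ≤ ε1 :=
        (min_le_left _ _).trans (min_le_left _ _)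
      have ha2 : min (min ε1 ε2) (min 1 ((q : ℝ) - a)) ≤ ε2 :=
        (min_le_left _ _).trans (min_le_right _ _)
      have ha3 : min (min ε1 ε2) (min 1 ((q : ℝ) - a)) ≤ 1 :=
        (min_le_right _ _).trans (min_le_left _ _)
      have ha4 : min (min ε1 ε2) (min 1 ((q : ℝ) - a)) ≤ q - a :=
        (min_le_right _ _).trans (min_le_right _ _)
      linarith
  set x : ℝ := q - m with hx
  have hxa : a < x := by linarith
  have hxb : x < b := by linarith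
  have hxNI : NI x := by
    have e1 : ((q - 1 : ℤ) : ℝ) < x := by
      push_cast
      linarith
    have e2 : x < ((q - 1 : ℤ) : ℝ) + 1 := by
      push_cast
      linarith
    exact (NI_of_Ioo e1 e2).1
  have hv1x := h1 x (by linarith) (by linarith)
  have hv2x := h2 x (by linarith) (by linarith)
  obtain ⟨u1, hu10, hu11, hu12, hu13⟩ := P.c2_one hc hw hI1 hX1 hS1 hS1' hv1 hxa hxb hσ1 hv1x
  obtain ⟨u2, hu20, hu21, hu22, hu23⟩ := P.c2_one hc hw hI2 hX2 hS2 hS2' hv2 hxa hxb hσ2 hv2x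
  have hxB : x ∈ P.Bp p K := by
    obtain ⟨l, hl, hSc⟩ := hI1.Sc
    exact P.Bp_mono p hl (P.Bp_of_vis (hSc.sub hσ1) hv1x.symm hxNI)
  have hmid : ∀ t ∈ uIcc u1 u2, P.pt a b t ∈ P.VV p (K + 1) := by
    intro t ht
    refine P.VV_of_vis hxB ?_
    rcases le_total u1 u2 with h | h
    · rw [uIcc_of_le h] at ht
      exact P.f2_pt_chord hc hw.vis (P.pt_mem_open hu10 hu11) (P.pt_mem_open hu20 hu21) hu12 hu22 _
        (P.pt_seg ht.1 ht.2)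
    · rw [uIcc_of_ge h] at ht
      exact P.f2_pt_chord hc hw.vis (P.pt_mem_open hu20 hu21) (P.pt_mem_open hu10 hu11) hu22 hu12 _
        (P.pt_seg ht.1 ht.2)
  intro t ht
  rcases uIcc_subset_uIcc_union_uIcc (b := u1) ht with h | h
  · exact hu13 t h
  · rcases uIcc_subset_uIcc_union_uIcc (b := u2) h with h' | h'
    · exact hmid t h'
    · exact hu23 t (by rwa [uIcc_comm])

end Poly

end Pool.Agent.Lib_PL
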