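import Pool.Agent.Lib_PLQ.LBasic

/-!
C3, crossing position: chords `κ1 = (y1,s1)`, `κ2 = (y2,s2)`, `a < y2 < y1 < b < s1, s2 < a + n`, crossing `W` in `pt t1`, `pt t2` with `t1 < τ < t2`.

`κ2` separates: `y2 < y1 < b < s2`, so `γ y1, γ b ∈ Side y2 s2` and `γ a ∈ Side s2 (y2+n)`; `W` crosses `κ2` in `pt t2` only, so `pt t1, pt τ ∈ Side s2 (y2+n)`, and the segment
`(γ y1, pt t1)` crosses `κ2` in `x` (`side_cross`); `x` is in `Side a b`, so it is between `γ y2` and `pt t2` on `κ2`.  The triangle `x, pt t1, pt t2` is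
non-degenerate with sides in `R` (`tri_vis`): `Vis x (pt τ)`.  `ray_hit` from `pt τ ∈ I` in direction `pt τ - x`: `γ h`, `h ∈ (b, a+n)` (the segment `x, γ h` crosses `W`
in `pt τ`, `x ∈ Side a b`).  The segment `(pt τ, γ h)` does not meet `κ1`, `κ2` again (straight lines through `x`): `pt τ ∈ Side y1 s1`, so `h < s1`;
`pt τ ∈ Side s2 (y2+n)`, so `s2 < h`.
-/

open Set Complex
open scoped Topology

namespace Pool.Agent.Lib_PL

namespace Poly

variable {n : ℕ} (P : Poly n)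

private theorem LC3b_o {z w c : ℂ} (h : c ∈ openSegment ℝ z w) :
    ∃ t : ℝ, 0 < t ∧ t < 1 ∧ c = z + (t : ℂ) * (w - z) := by
  obtain ⟨a, b, ha, hb, hab, rfl⟩ := h
  refine ⟨b, hb, by linarith, ?_⟩
  have : a = 1 - b := by linarith
  rw [this]
  simp only [Complex.real_smul]
  push_cast
  ring

private theorem LC3b_o' (z w : ℂ) {t : ℝ} (h0 : 0 < t) (h1 : t < 1) :
    z + (t : ℂ) * (w - z) ∈ openSegment ℝ z w := by
  refine ⟨1 - t, t, by linarith, h0, by ring, ?_⟩
  simp only [Complex.real_smul]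
  push_cast
  ring

private theorem LC3b_s {z w c : ℂ} (h : c ∈ segment ℝ z w) :
    ∃ t : ℝ, 0 ≤ t ∧ t ≤ 1 ∧ c = z + (t : ℂ) * (w - z) := by
  obtain ⟨a, b, ha, hb, hab, rfl⟩ := h
  refine ⟨b, hb, by linarith, ?_⟩
  have : a = 1 - b := by linarith
  rw [this]
  simp only [Complex.real_smul]
  push_cast
  ring

private theorem LC3b_s' (z w : ℂ) {t : ℝ} (h0 : 0 ≤ t) (h1 : t ≤ 1) :
    z + (t : ℂ) * (w - z) ∈ segment ℝ z w := by
  refine ⟨1 - t, t, by linarith, h0, by ring, ?_⟩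
  simp only [Complex.real_smul]
  push_cast
  ring

private theorem LC3b_cr_mul (t : ℝ) (d e : ℂ) : cr ((t : ℂ) * d) e = t * cr d e := by
  unfold cr
  simp
  ring

private theorem LC3b_cr_self (t : ℝ) (d : ℂ) : cr ((t : ℂ) * d) d = 0 := by
  unfold cr
  simp
  ring

private theorem LC3b_cr_add (u v w : ℂ) : cr (u + v) w = cr u w + cr v w := by
  unfold cr
  simp
  ring

/-- points of a line which crosses the segment in `p0` only -/
private theorem LC3b_disj {p0 d G1 G2 : ℂ} {α β : ℝ} (hp : p0 ∈ segment ℝ G1 G2)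
    (hcr : cr d (G2 - G1) ≠ 0) (hαβ : 0 < α * β) :
    Disjoint (segment ℝ (p0 + (α : ℂ) * d) (p0 + (β : ℂ) * d)) (segment ℝ G1 G2) := by
  rw [Set.disjoint_left]
  intro z hz hz'
  obtain ⟨s, hs0, hs1, hs⟩ := LC3b_s hz
  obtain ⟨u, _, _, hu⟩ := LC3b_s hz'
  obtain ⟨v, _, _, hv⟩ := LC3b_s hp
  have e1 : ((α + s * (β - α) : ℝ) : ℂ) * d = ((u - v : ℝ) : ℂ) * (G2 - G1) := by
    have h1 : z - p0 = ((α + s * (β - α) : ℝ) : ℂ) * d := by
      rw [hs]
      push_cast
      ring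
    have h2 : z - p0 = ((u - v : ℝ) : ℂ) * (G2 - G1) := by
      rw [hu, hv]
      push_cast
      ring
    rw [← h1, h2]
  have e2 : (α + s * (β - α)) * cr d (G2 - G1) = 0 := by
    rw [← LC3b_cr_mul, e1, LC3b_cr_self]
  rcases mul_eq_zero.mp e2 with h | h
  · have hα : 0 < α ^ 2 := by
      have : α ≠ 0 := by
        rintro rfl
        simp at hαβ
      positivity
    have h3 : (α + s * (β - α)) * α = (1 - s) * α ^ 2 + s * (α * β) := by ring
    rw [h, zero_mul] at h3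
    rcases hs0.eq_or_lt with h4 | h4
    · rw [← h4] at h3
      linarith
    · have h5 : 0 ≤ (1 - s) * α ^ 2 := mul_nonneg (by linarith) hα.le
      have h6 : 0 < s * (α * β) := mul_pos h4 hαβ
      linarith
  · exact hcr h

private theorem LC3b_side (hc : P.CCW) {u v : ℝ} (huv : u < v) (hvu : v < u + n)
    (hv : P.Vis (P.γ u) (P.γ v)) {p0 d : ℂ} {α β : ℝ} (hp : p0 ∈ segment ℝ (P.γ u) (P.γ v))
    (hcr : cr d (P.γ v - P.γ u) ≠ 0) (hαβ : 0 < α * β)
    (hR : segment ℝ (p0 + (α : ℂ) * d) (p0 + (β : ℂ) * d) ⊆ P.R) :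
    (p0 + (α : ℂ) * d ∈ P.Side u v → p0 + (β : ℂ) * d ∈ P.Side u v) ∧
      (p0 + (α : ℂ) * d ∈ P.Side v (u + n) → p0 + (β : ℂ) * d ∈ P.Side v (u + n)) := by
  have h1 := P.side_conn hc huv hvu hv (convex_segment _ _).isPreconnected hR
    (LC3b_disj hp hcr hαβ)
  have h2 := P.side_disj hc huv hvu hv
  have l := left_mem_segment ℝ (p0 + (α : ℂ) * d) (p0 + (β : ℂ) * d)
  have r := right_mem_segment ℝ (p0 + (α : ℂ) * d) (p0 + (β : ℂ) * d)
  constructor
  · intro h
    rcases h1 with h1 | h1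
    · exact h1 r
    · exact absurd (h1 l) (Set.disjoint_left.mp h2 h)
  · intro h
    rcases h1 with h1 | h1
    · exact absurd h (Set.disjoint_left.mp h2 (h1 l))
    · exact h1 r

private theorem LC3b_segR {z w : ℂ} {u v : ℂ} (h : segment ℝ z w ⊆ P.R) (hu : u ∈ segment ℝ z w)
    (hv : v ∈ segment ℝ z w) : segment ℝ u v ⊆ P.R :=
  ((convex_segment z w).segment_subset hu hv).trans h

/-- first part: the crossing point `x` -/
theorem c3_x (hc : P.CCW) {a b : ℝ} (hba : b < a + n) (hw : P.Vis (P.γ a) (P.γ b))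
    {y1 y2 s1 s2 : ℝ} (hay : a < y2) (hyy : y2 < y1) (hyb : y1 < b) (hs1 : b < s1)
    (hs1' : s1 < a + n) (hs2 : b < s2) (hs2' : s2 < a + n) (hv1 : P.Vis (P.γ y1) (P.γ s1))
    (hv2 : P.Vis (P.γ y2) (P.γ s2)) {t1 t2 : ℝ} (h0 : 0 < t1) (h12 : t1 < t2) (h1 : t2 < 1)
    (ht1 : P.pt a b t1 ∈ openSegment ℝ (P.γ y1) (P.γ s1))
    (ht2 : P.pt a b t2 ∈ openSegment ℝ (P.γ y2) (P.γ s2)) :
    ∃ x ∈ P.Side a b, x ∈ openSegment ℝ (P.γ y1) (P.pt a b t1) ∧
      x ∈ openSegment ℝ (P.γ y2) (P.pt a b t2) ∧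
      cr (P.pt a b t1 - x) (P.pt a b t2 - x) ≠ 0 := by
  have hab : a < b := by linarith
  obtain ⟨-, -, -, hcr1⟩ := P.cross_chords hc (by linarith : a < y1) hyb hs1 hs1' hw hv1
  obtain ⟨-, -, -, hcr2⟩ := P.cross_chords hc hay (by linarith : y2 < b) hs2 hs2' hw hv2
  have hy2n : s2 < y2 + n := by linarith
  have hp1W : P.pt a b t1 ∈ segment ℝ (P.γ a) (P.γ b) := LC3b_s' _ _ h0.le (by linarith)
  have hp2W : P.pt a b t2 ∈ segment ℝ (P.γ a) (P.γ b) := LC3b_s' _ _ (by linarith) h1.le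
  have hWR := hw.seg
  -- the point `pt t1` and the chord `κ2`
  have hp1S : P.pt a b t1 ∈ P.Side s2 (y2 + n) := by
    have e1 : P.γ a = P.pt a b t2 + ((-t2 : ℝ) : ℂ) * (P.γ b - P.γ a) := by
      unfold pt
      push_cast
      ring
    have e2 : P.pt a b t1 = P.pt a b t2 + ((t1 - t2 : ℝ) : ℂ) * (P.γ b - P.γ a) := by
      unfold pt
      push_cast
      ring
    have hA : P.γ a ∈ P.Side s2 (y2 + n) := by
      have h3 := P.side_arc' (by linarith : y2 < s2) hv2 (x := a + n) ⟨hs2', by linarith⟩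
      rwa [P.γ_add_n] at h3
    have key := (P.LC3b_side hc (by linarith : y2 < s2) hy2n hv2 (p0 := P.pt a b t2)
      (d := P.γ b - P.γ a) (α := -t2) (β := t1 - t2) (openSegment_subset_segment ℝ _ _ ht2) hcr2
      (by nlinarith) (by
        rw [← e1, ← e2]
        exact P.LC3b_segR hWR (left_mem_segment ℝ _ _) hp1W)).2
    rw [← e1, ← e2] at key
    exact key hA
  have hy1S : P.γ y1 ∈ P.Side y2 s2 := P.side_arc hy2n hv2 ⟨hyy, by linarith⟩
  have hκ1R : segment ℝ (P.γ y1) (P.pt a b t1) ⊆ P.R :=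
    P.LC3b_segR hv1.seg (left_mem_segment ℝ _ _) (openSegment_subset_segment ℝ _ _ ht1)
  obtain ⟨x, hx1, hx2⟩ := P.side_cross hc (by linarith : y2 < s2) hy2n hv2 hκ1R hy1S hp1S
  -- `x` is in `Side a b`
  obtain ⟨r1, hr1, hr1', hxr⟩ := LC3b_o hx1
  obtain ⟨q1, hq1, hq1', hpq⟩ := LC3b_o ht1
  have hxI : x ∈ P.I := by
    apply hv1.mem
    have : x = P.γ y1 + ((r1 * q1 : ℝ) : ℂ) * (P.γ s1 - P.γ y1) := by
      rw [hxr, hpq]
      push_cast
      ring
    rw [this]
    exact LC3b_o' _ _ (mul_pos hr1 hq1) (by nlinarith)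
  have hxS : x ∈ P.Side a b := by
    have e1 : P.γ y1 = P.pt a b t1 + ((1 : ℝ) : ℂ) * (P.γ y1 - P.pt a b t1) := by
      push_cast
      ring
    have e2 : x = P.pt a b t1 + ((1 - r1 : ℝ) : ℂ) * (P.γ y1 - P.pt a b t1) := by
      rw [hxr]
      push_cast
      ring
    have hcr' : cr (P.γ y1 - P.pt a b t1) (P.γ b - P.γ a) ≠ 0 := by
      have : P.γ y1 - P.pt a b t1 = ((-q1 : ℝ) : ℂ) * (P.γ s1 - P.γ y1) := by
        rw [hpq]
        push_cast
        ring
      rw [this, LC3b_cr_mul]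
      have h5 : cr (P.γ s1 - P.γ y1) (P.γ b - P.γ a) = -cr (P.γ b - P.γ a) (P.γ s1 - P.γ y1) := by
        unfold cr
        ring
      rw [h5]
      exact mul_ne_zero (by linarith) (neg_ne_zero.mpr hcr1)
    have key := (P.LC3b_side hc hab hba hw (p0 := P.pt a b t1) (d := P.γ y1 - P.pt a b t1)
      (α := 1) (β := 1 - r1) hp1W hcr' (by linarith) (by
        rw [← e1, ← e2]
        exact P.LC3b_segR hκ1R (left_mem_segment ℝ _ _) (openSegment_subset_segment ℝ _ _ hx1))).1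
    rw [← e1, ← e2] at key
    exact key (P.side_arc hba hw ⟨by linarith, hyb⟩)
  -- the position of `x` on `κ2`
  obtain ⟨r, hr, hr', hxr2⟩ := LC3b_s hx2
  obtain ⟨q2, hq2, hq2', hpq2⟩ := LC3b_o ht2
  have hlt : r < q2 := by
    by_contra hcon
    rcases (not_lt.mp hcon).eq_or_lt with h6 | h6
    · have : x = P.pt a b t2 := by rw [hxr2, ← h6, hpq2]
      exact (P.side_sub hxS).2 (this ▸ hp2W)
    · have e1 : P.γ s2 = P.pt a b t2 + ((1 - q2 : ℝ) : ℂ) * (P.γ s2 - P.γ y2) := by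
        rw [hpq2]
        push_cast
        ring
      have e2 : x = P.pt a b t2 + ((r - q2 : ℝ) : ℂ) * (P.γ s2 - P.γ y2) := by
        rw [hpq2, hxr2]
        push_cast
        ring
      have hcr' : cr (P.γ s2 - P.γ y2) (P.γ b - P.γ a) ≠ 0 := by
        have h5 : cr (P.γ s2 - P.γ y2) (P.γ b - P.γ a) =
            -cr (P.γ b - P.γ a) (P.γ s2 - P.γ y2) := by
          unfold cr
          ring
        rw [h5]
        exact neg_ne_zero.mpr hcr2
      have key := (P.LC3b_side hc hab hba hw (p0 := P.pt a b t2) (d := P.γ s2 - P.γ y2)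
        (α := 1 - q2) (β := r - q2) hp2W hcr' (mul_pos (by linarith) (by linarith)) (by
          rw [← e1, ← e2]
          exact P.LC3b_segR hv2.seg (right_mem_segment ℝ _ _) hx2)).2
      rw [← e1, ← e2] at key
      exact Set.disjoint_left.mp (P.side_disj hc hab hba hw) hxS (key (P.side_arc' hab hw ⟨hs2, hs2'⟩))
  have hr0 : 0 < r := by
    rcases hr.eq_or_lt with h6 | h6
    · exfalso
      have : x = P.γ y2 := by
        rw [hxr2, ← h6]
        simp
      exact hxI.1 (this ▸ P.γ_mem_C y2)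
    · exact h6
  have hx3 : x ∈ openSegment ℝ (P.γ y2) (P.pt a b t2) := by
    have e3 : x = P.γ y2 + ((r / q2 : ℝ) : ℂ) * (P.pt a b t2 - P.γ y2) := by
      rw [hpq2, hxr2]
      have : (q2 : ℂ) ≠ 0 := by exact_mod_cast hq2.ne'
      push_cast
      field_simp
      ring
    rw [e3]
    exact LC3b_o' _ _ (div_pos hr0 hq2) (by rw [div_lt_one hq2]; exact hlt)
  refine ⟨x, hxS, hx1, hx3, ?_⟩
  have e4 : cr (P.pt a b t1 - x) (P.pt a b t2 - x) =
      -((t2 - t1) * ((1 - r1) * q1)) * cr (P.γ b - P.γ a) (P.γ s1 - P.γ y1) := by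
    have h7 : P.pt a b t1 - x = (((1 - r1) * q1 : ℝ) : ℂ) * (P.γ s1 - P.γ y1) := by
      have : P.pt a b t1 - x = ((1 - r1 : ℝ) : ℂ) * (P.pt a b t1 - P.γ y1) := by
        rw [hxr]
        push_cast
        ring
      rw [this, hpq]
      push_cast
      ring
    have h8 : P.pt a b t2 - x = (P.pt a b t1 - x) + ((t2 - t1 : ℝ) : ℂ) * (P.γ b - P.γ a) := by
      unfold pt
      push_cast
      ring
    rw [h8, h7]
    unfold cr
    simp
    ring
  rw [e4]
  have h9 : 0 < (t2 - t1) * ((1 - r1) * q1) :=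
    mul_pos (by linarith) (mul_pos (by linarith) hq1)
  exact mul_ne_zero (neg_ne_zero.mpr h9.ne') hcr1

/-- second part: the ray from `x` through `pt τ` -/
theorem c3_ray (hc : P.CCW) {a b : ℝ} (hba : b < a + n) (hw : P.Vis (P.γ a) (P.γ b))
    {y1 y2 s1 s2 : ℝ} (hay : a < y2) (hyy : y2 < y1) (hyb : y1 < b) (hs1 : b < s1)
    (hs1' : s1 < a + n) (hs2 : b < s2) (hs2' : s2 < a + n) (hv1 : P.Vis (P.γ y1) (P.γ s1))
    (hv2 : P.Vis (P.γ y2) (P.γ s2)) {t1 τ t2 : ℝ} (h0 : 0 < t1) (h1τ : t1 < τ) (hτ2 : τ < t2)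
    (h1 : t2 < 1)
    (ht1 : P.pt a b t1 ∈ openSegment ℝ (P.γ y1) (P.γ s1))
    (ht2 : P.pt a b t2 ∈ openSegment ℝ (P.γ y2) (P.γ s2)) :
    ∃ (x : ℂ) (h : ℝ), s2 < h ∧ h < s1 ∧ P.Vis x (P.γ s1) ∧ P.Vis x (P.γ s2) ∧ x ∈ P.I ∧
      x ∈ P.Side a b ∧ P.Vis x (P.γ h) ∧ P.pt a b τ ∈ openSegment ℝ x (P.γ h) := by
  have hab : a < b := by linarith
  have ht1' : t1 < t2 := by linarith
  obtain ⟨x, hxS, hx1, hx2, hnd⟩ := P.c3_x hc hba hw hay hyy hyb hs1 hs1' hs2 hs2' hv1 hv2 h0 ht1' h1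
    ht1 ht2
  obtain ⟨-, -, -, hcr1⟩ := P.cross_chords hc (by linarith : a < y1) hyb hs1 hs1' hw hv1
  obtain ⟨-, -, -, hcr2⟩ := P.cross_chords hc hay (by linarith : y2 < b) hs2 hs2' hw hv2
  have hp1W : P.pt a b t1 ∈ segment ℝ (P.γ a) (P.γ b) := LC3b_s' _ _ h0.le (by linarith)
  have hp2W : P.pt a b t2 ∈ segment ℝ (P.γ a) (P.γ b) := LC3b_s' _ _ (by linarith) h1.le
  have hzW : P.pt a b τ ∈ openSegment ℝ (P.γ a) (P.γ b) := LC3b_o' _ _ (by linarith) (by linarith)
  have hzW' := openSegment_subset_segment ℝ _ _ hzW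
  have hWR := hw.seg
  obtain ⟨r1, hr1, hr1', hxr⟩ := LC3b_o hx1
  obtain ⟨q1, hq1, hq1', hpq⟩ := LC3b_o ht1
  obtain ⟨r2, hr2, hr2', hxr2⟩ := LC3b_o hx2
  obtain ⟨q2, hq2, hq2', hpq2⟩ := LC3b_o ht2
  have hxe1 : x = P.γ y1 + ((r1 * q1 : ℝ) : ℂ) * (P.γ s1 - P.γ y1) := by
    rw [hxr, hpq]
    push_cast
    ring
  have hxe2 : x = P.γ y2 + ((r2 * q2 : ℝ) : ℂ) * (P.γ s2 - P.γ y2) := by
    rw [hxr2, hpq2]
    push_cast
    ring
  have hxo1 : x ∈ openSegment ℝ (P.γ y1) (P.γ s1) := by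
    rw [hxe1]
    exact LC3b_o' _ _ (mul_pos hr1 hq1) (by nlinarith)
  have hxo2 : x ∈ openSegment ℝ (P.γ y2) (P.γ s2) := by
    rw [hxe2]
    exact LC3b_o' _ _ (mul_pos hr2 hq2) (by nlinarith)
  have hxI : x ∈ P.I := hv1.mem hxo1
  have hxs1 : P.Vis x (P.γ s1) := hv1.sub (openSegment_subset_segment ℝ _ _ hxo1)
    (right_mem_segment ℝ _ _) (fun h => hxI.1 (h ▸ P.γ_mem_C s1))
  have hxs2 : P.Vis x (P.γ s2) := hv2.sub (openSegment_subset_segment ℝ _ _ hxo2)
    (right_mem_segment ℝ _ _) (fun h => hxI.1 (h ▸ P.γ_mem_C s2))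
  set z := P.pt a b τ with hzdef
  have hzI : z ∈ P.I := hw.mem hzW
  -- `x` sees `z`
  have hzx : P.Vis z x := by
    refine P.tri_vis (P.pt a b t1) (P.pt a b t2) x ?_ (P.LC3b_segR hWR hp1W hp2W)
      (P.LC3b_segR hv2.seg (openSegment_subset_segment ℝ _ _ ht2)
        (openSegment_subset_segment ℝ _ _ hxo2))
      (P.LC3b_segR hv1.seg (openSegment_subset_segment ℝ _ _ hxo1)
        (openSegment_subset_segment ℝ _ _ ht1)) z ?_
    · have : cr (P.pt a b t2 - P.pt a b t1) (x - P.pt a b t1) =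
          cr (P.pt a b t1 - x) (P.pt a b t2 - x) := by
        unfold cr
        simp
        ring
      rw [this]
      exact hnd
    · have h3 : z = P.pt a b t1 +
          (((τ - t1) / (t2 - t1) : ℝ) : ℂ) * (P.pt a b t2 - P.pt a b t1) := by
        have h4 : ((t2 - t1 : ℝ) : ℂ) ≠ 0 := by
          exact_mod_cast (by linarith : t2 - t1 ≠ 0)
        have h5 : P.pt a b t2 - P.pt a b t1 = ((t2 - t1 : ℝ) : ℂ) * (P.γ b - P.γ a) := by
          unfold pt
          push_cast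
          ring
        rw [h5, ← mul_assoc, ← Complex.ofReal_mul, div_mul_cancel₀ _ (by linarith : t2 - t1 ≠ 0)]
        rw [hzdef]
        unfold pt
        push_cast
        ring
      rw [h3]
      refine LC3b_o' _ _ (div_pos (by linarith) (by linarith)) ?_
      rw [div_lt_one (by linarith)]
      linarith
  set d := z - x with hd
  have hcrd1 : cr d (P.γ s1 - P.γ y1) ≠ 0 := by
    have h3 : d = ((τ - t1 : ℝ) : ℂ) * (P.γ b - P.γ a) +
        (((1 - r1) * q1 : ℝ) : ℂ) * (P.γ s1 - P.γ y1) := by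
      have h4 : P.pt a b t1 - x = (((1 - r1) * q1 : ℝ) : ℂ) * (P.γ s1 - P.γ y1) := by
        rw [hxe1, hpq]
        push_cast
        ring
      rw [← h4, hd, hzdef]
      unfold pt
      push_cast
      ring
    rw [h3, LC3b_cr_add, LC3b_cr_self, LC3b_cr_mul, add_zero]
    exact mul_ne_zero (by linarith) hcr1
  have hcrd2 : cr d (P.γ s2 - P.γ y2) ≠ 0 := by
    have h3 : d = ((τ - t2 : ℝ) : ℂ) * (P.γ b - P.γ a) +
        (((1 - r2) * q2 : ℝ) : ℂ) * (P.γ s2 - P.γ y2) := by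
      have h4 : P.pt a b t2 - x = (((1 - r2) * q2 : ℝ) : ℂ) * (P.γ s2 - P.γ y2) := by
        rw [hxe2, hpq2]
        push_cast
        ring
      rw [← h4, hd, hzdef]
      unfold pt
      push_cast
      ring
    rw [h3, LC3b_cr_add, LC3b_cr_self, LC3b_cr_mul, add_zero]
    exact mul_ne_zero (by linarith) hcr2
  have hd0 : d ≠ 0 := by
    intro h
    apply hcrd1
    rw [h]
    unfold cr
    simp
  obtain ⟨t, ht0, htC, htI⟩ := P.ray_hit z hzI d hd0
  set H := z + (t : ℂ) * d with hH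
  have hHR : H ∈ P.R := Or.inl htC
  -- the segment from `x` to `H`
  have hzH : P.Vis z H := by
    intro w hw'
    obtain ⟨u, hu0, hu1, rfl⟩ := LC3b_o hw'
    have h3 : z + (u : ℂ) * (H - z) = z + ((u * t : ℝ) : ℂ) * d := by
      rw [hH]
      push_cast
      ring
    rw [h3]
    exact htI _ (by positivity) (by nlinarith)
  have hzo : z ∈ openSegment ℝ x H := by
    have h3 : z = x + ((1 / (1 + t) : ℝ) : ℂ) * (H - x) := by
      have h4 : H - x = ((1 + t : ℝ) : ℂ) * d := by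
        rw [hH, hd]
        push_cast
        ring
      rw [h4, ← mul_assoc, ← Complex.ofReal_mul, one_div_mul_cancel (by linarith : (1 + t : ℝ) ≠ 0),
        hd]
      push_cast
      ring
    rw [h3]
    refine LC3b_o' _ _ (by positivity) ?_
    rw [div_lt_one (by linarith)]
    linarith
  have hxH : P.Vis x H := by
    intro w hw'
    obtain ⟨u, hu0, hu1, rfl⟩ := LC3b_o hw'
    have h4 : H - x = ((1 + t : ℝ) : ℂ) * d := by
      rw [hH, hd]
      push_cast
      ring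
    rcases lt_trichotomy (u * (1 + t)) 1 with h5 | h5 | h5
    · have h6 : x + (u : ℂ) * (H - x) = x + ((u * (1 + t) : ℝ) : ℂ) * (z - x) := by
        rw [h4, hd]
        push_cast
        ring
      rw [h6]
      exact hzx.symm (LC3b_o' _ _ (by positivity) h5)
    · have h6 : x + (u : ℂ) * (H - x) = z := by
        have : x + (u : ℂ) * (H - x) = x + ((u * (1 + t) : ℝ) : ℂ) * (z - x) := by
          rw [h4, hd]
          push_cast
          ring
        rw [this, h5]
        push_cast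
        ring
      rw [h6]
      exact hzI
    · have h6 : x + (u : ℂ) * (H - x) = z + ((u * (1 + t) - 1 : ℝ) : ℂ) * d := by
        rw [h4, hd]
        push_cast
        ring
      rw [h6]
      exact htI _ (by linarith) (by nlinarith)
  have hHxR : segment ℝ x H ⊆ P.R := hxH.seg
  have hzseg : z ∈ segment ℝ x H := openSegment_subset_segment ℝ _ _ hzo
  have eH : H = x + ((1 + t : ℝ) : ℂ) * d := by
    rw [hH, hd]
    push_cast
    ring
  have ez : z = x + ((1 : ℝ) : ℂ) * d := by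
    rw [hd]
    push_cast
    ring
  -- `H` is beyond `W`
  have hcrW : cr d (P.γ b - P.γ a) ≠ 0 := by
    intro h3
    -- then `x` is on the line of `W`
    have h4 : P.pt a b t1 - x = (((1 - r1) * q1 : ℝ) : ℂ) * (P.γ s1 - P.γ y1) := by
      rw [hxe1, hpq]
      push_cast
      ring
    have h5 : d = ((τ - t1 : ℝ) : ℂ) * (P.γ b - P.γ a) +
        (((1 - r1) * q1 : ℝ) : ℂ) * (P.γ s1 - P.γ y1) := by
      rw [← h4, hd, hzdef]
      unfold pt
      push_cast
      ring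
    rw [h5, LC3b_cr_add, LC3b_cr_self, LC3b_cr_mul, zero_add] at h3
    have h6 : cr (P.γ s1 - P.γ y1) (P.γ b - P.γ a) = -cr (P.γ b - P.γ a) (P.γ s1 - P.γ y1) := by
      unfold cr
      ring
    rw [h6] at h3
    have h7 : 0 < (1 - r1) * q1 := mul_pos (by linarith) hq1
    exact mul_ne_zero h7.ne' (neg_ne_zero.mpr hcr1) h3
  obtain ⟨ρ, hρ, hloc⟩ := P.side_local hc hab hba hw hzW
  obtain ⟨ε, hε0, hε1, hεt, hε2⟩ : ∃ ε : ℝ, 0 < ε ∧ ε < 1 ∧ ε < t ∧ ‖((ε : ℝ) : ℂ) * d‖ < ρ := by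
    have hnd' : 0 < ‖d‖ := norm_pos_iff.mpr hd0
    refine ⟨min (min (1 / 2) (t / 2)) (ρ / (2 * ‖d‖)), by positivity, ?_, ?_, ?_⟩
    · exact lt_of_le_of_lt ((min_le_left _ _).trans (min_le_left _ _)) (by norm_num)
    · exact lt_of_le_of_lt ((min_le_left _ _).trans (min_le_right _ _)) (by linarith)
    · rw [norm_mul, Complex.norm_real, Real.norm_eq_abs, abs_of_pos (by positivity)]
      calc min (min (1 / 2) (t / 2)) (ρ / (2 * ‖d‖)) * ‖d‖ ≤ ρ / (2 * ‖d‖) * ‖d‖ :=
            mul_le_mul_of_nonneg_right (min_le_right _ _) hnd'.le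
        _ = ρ / 2 := by field_simp
        _ < ρ := by linarith
  have hmem : ∀ u : ℝ, 0 ≤ u → u ≤ 1 + t → x + (u : ℂ) * d ∈ segment ℝ x H := by
    intro u hu0 hu1
    have : x + (u : ℂ) * d = x + ((u / (1 + t) : ℝ) : ℂ) * (H - x) := by
      have h4 : H - x = ((1 + t : ℝ) : ℂ) * d := by
        rw [eH]
        ring
      rw [h4, ← mul_assoc, ← Complex.ofReal_mul, div_mul_cancel₀ _ (by linarith : (1 + t : ℝ) ≠ 0)]
    rw [this]
    exact LC3b_s' _ _ (by positivity) (by rw [div_le_one (by linarith)]; exact hu1)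
  have hpos : 0 < cr (P.γ b - P.γ a) d := by
    by_contra hcon
    have h3 : cr (P.γ b - P.γ a) d = -cr d (P.γ b - P.γ a) := by
      unfold cr
      ring
    have h4 : cr (P.γ b - P.γ a) d < 0 := by
      rcases (not_lt.mp hcon).eq_or_lt with h5 | h5
      · rw [h3] at h5
        exact absurd (neg_eq_zero.mp h5) hcrW
      · exact h5
    have h5 : 0 < cr (P.γ b - P.γ a) (((-ε : ℝ) : ℂ) * d) := by
      have : cr (P.γ b - P.γ a) (((-ε : ℝ) : ℂ) * d) = -ε * cr (P.γ b - P.γ a) d := by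
        unfold cr
        simp
        ring
      rw [this]
      nlinarith
    have h6 : z + ((-ε : ℝ) : ℂ) * d ∈ P.Side b (a + n) := by
      refine (hloc _ ?_).2 h5
      have : ‖((-ε : ℝ) : ℂ) * d‖ = ‖((ε : ℝ) : ℂ) * d‖ := by
        rw [norm_mul, norm_mul, Complex.norm_real, Complex.norm_real, norm_neg]
      rw [this]
      exact hε2
    have e1 : x = z + ((-1 : ℝ) : ℂ) * d := by
      rw [hd]
      push_cast
      ring
    have key := (P.LC3b_side hc hab hba hw (p0 := z) (d := d) (α := -1) (β := -ε) hzW' hcrW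
      (by linarith) (by
        rw [← e1]
        refine P.LC3b_segR hHxR (left_mem_segment ℝ _ _) ?_
        have : z + ((-ε : ℝ) : ℂ) * d = x + ((1 - ε : ℝ) : ℂ) * d := by
          rw [ez]
          push_cast
          ring
        rw [this]
        exact hmem _ (by linarith) (by linarith))).1
    rw [← e1] at key
    exact Set.disjoint_left.mp (P.side_disj hc hab hba hw) (key hxS) h6
  have hHS : H ∈ P.Side b (a + n) := by
    have h5 : 0 < cr (P.γ b - P.γ a) (((ε : ℝ) : ℂ) * d) := by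
      have : cr (P.γ b - P.γ a) (((ε : ℝ) : ℂ) * d) = ε * cr (P.γ b - P.γ a) d := by
        unfold cr
        simp
        ring
      rw [this]
      positivity
    have h6 : z + ((ε : ℝ) : ℂ) * d ∈ P.Side b (a + n) := (hloc _ hε2).2 h5
    have key := (P.LC3b_side hc hab hba hw (p0 := z) (d := d) (α := ε) (β := t) hzW' hcrW
      (by positivity) (by
        refine P.LC3b_segR hHxR ?_ ?_
        · have : z + ((ε : ℝ) : ℂ) * d = x + ((1 + ε : ℝ) : ℂ) * d := by
            rw [ez]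
            push_cast
            ring
          rw [this]
          exact hmem _ (by linarith) (by linarith)
        · have : z + ((t : ℝ) : ℂ) * d = x + ((1 + t : ℝ) : ℂ) * d := by
            rw [ez]
            push_cast
            ring
          rw [this]
          exact hmem _ (by linarith) le_rfl)).2
    rw [← hH] at key
    exact key h6
  -- the position of `H`
  obtain ⟨h0', hh0'⟩ : ∃ x : ℝ, P.γ x = H := by
    obtain ⟨i, hi⟩ := Set.mem_iUnion.mp htC
    rw [← P.γ_image_Icc] at hi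
    obtain ⟨y, -, hy⟩ := hi
    exact ⟨y, hy⟩
  have hn : (0 : ℝ) < n := by
    have := P.three_le
    exact_mod_cast (by omega : 0 < n)
  obtain ⟨m, hm1, hm2⟩ := P.side_mem_arc hc hba (by linarith : a + n < b + n)
    (by rw [P.γ_add_n]; exact hw.symm) (x := h0') (by rw [hh0']; exact hHS)
  set h := h0' + m * n with hh
  have hγh : P.γ h = H := by rw [hh, P.γ_add_mul, hh0']
  -- `H` and `κ1`
  have hy1n : s1 < y1 + n := by linarith
  have hzS1 : z ∈ P.Side y1 s1 := by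
    have e1 : P.γ b = P.pt a b t1 + ((1 - t1 : ℝ) : ℂ) * (P.γ b - P.γ a) := by
      unfold pt
      push_cast
      ring
    have e2 : z = P.pt a b t1 + ((τ - t1 : ℝ) : ℂ) * (P.γ b - P.γ a) := by
      rw [hzdef]
      unfold pt
      push_cast
      ring
    have key := (P.LC3b_side hc (by linarith : y1 < s1) hy1n hv1 (p0 := P.pt a b t1)
      (d := P.γ b - P.γ a) (α := 1 - t1) (β := τ - t1) (openSegment_subset_segment ℝ _ _ ht1) hcr1
      (mul_pos (by linarith) (by linarith)) (by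
        rw [← e1, ← e2]
        exact P.LC3b_segR hWR (right_mem_segment ℝ _ _) hzW')).1
    rw [← e1, ← e2] at key
    exact key (P.side_arc hy1n hv1 ⟨hyb, hs1⟩)
  have hHS1 : H ∈ P.Side y1 s1 := by
    have key := (P.LC3b_side hc (by linarith : y1 < s1) hy1n hv1 (p0 := x)
      (d := d) (α := 1) (β := 1 + t) (openSegment_subset_segment ℝ _ _ hxo1) hcrd1
      (by linarith) (by
        rw [← eH, ← ez]
        exact P.LC3b_segR hHxR hzseg (right_mem_segment ℝ _ _))).1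
    rw [← eH, ← ez] at key
    exact key hzS1
  obtain ⟨m1, hm11, hm12⟩ := P.side_mem_arc hc (by linarith : y1 < s1) hy1n hv1 (x := h)
    (by rw [hγh]; exact hHS1)
  have hm1z : m1 = 0 := by
    have h5 : ¬ (1 ≤ m1) := by
      intro h6
      have h7 : (1 : ℝ) ≤ m1 := by exact_mod_cast h6
      nlinarith
    have h8 : ¬ (m1 ≤ -1) := by
      intro h6
      have h7 : (m1 : ℝ) ≤ -1 := by exact_mod_cast h6
      nlinarith
    omega
  -- `H` and `κ2`
  have hy2n : s2 < y2 + n := by linarith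
  have hzS2 : z ∈ P.Side s2 (y2 + n) := by
    have e1 : P.γ a = P.pt a b t2 + ((-t2 : ℝ) : ℂ) * (P.γ b - P.γ a) := by
      unfold pt
      push_cast
      ring
    have e2 : z = P.pt a b t2 + ((τ - t2 : ℝ) : ℂ) * (P.γ b - P.γ a) := by
      rw [hzdef]
      unfold pt
      push_cast
      ring
    have hA : P.γ a ∈ P.Side s2 (y2 + n) := by
      have h3 := P.side_arc' (by linarith : y2 < s2) hv2 (x := a + n) ⟨hs2', by linarith⟩
      rwa [P.γ_add_n] at h3
    have key := (P.LC3b_side hc (by linarith : y2 < s2) hy2n hv2 (p0 := P.pt a b t2)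
      (d := P.γ b - P.γ a) (α := -t2) (β := τ - t2) (openSegment_subset_segment ℝ _ _ ht2) hcr2
      (by nlinarith) (by
        rw [← e1, ← e2]
        exact P.LC3b_segR hWR (left_mem_segment ℝ _ _) hzW')).2
    rw [← e1, ← e2] at key
    exact key hA
  have hHS2 : H ∈ P.Side s2 (y2 + n) := by
    have key := (P.LC3b_side hc (by linarith : y2 < s2) hy2n hv2 (p0 := x)
      (d := d) (α := 1) (β := 1 + t) (openSegment_subset_segment ℝ _ _ hxo2) hcrd2
      (by linarith) (by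
        rw [← eH, ← ez]
        exact P.LC3b_segR hHxR hzseg (right_mem_segment ℝ _ _))).2
    rw [← eH, ← ez] at key
    exact key hzS2
  obtain ⟨m2, hm21, hm22⟩ := P.side_mem_arc hc hy2n (by linarith : y2 + n < s2 + n)
    (by rw [P.γ_add_n]; exact hv2.symm) (x := h) (by rw [hγh]; exact hHS2)
  have hm2z : m2 = 0 := by
    have h5 : ¬ (1 ≤ m2) := by
      intro h6
      have h7 : (1 : ℝ) ≤ m2 := by exact_mod_cast h6
      nlinarith
    have h8 : ¬ (m2 ≤ -1) := by
      intro h6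
      have h7 : (m2 : ℝ) ≤ -1 := by exact_mod_cast h6
      nlinarith
    omega
  rw [hm1z] at hm12
  rw [hm2z] at hm21
  refine ⟨x, h, by simpa using hm21, by simpa using hm12, hxs1, hxs2, hxI, hxS, ?_, ?_⟩
  · rw [hγh]
    exact hxH
  · rw [hγh]
    exact hzo

end Poly

end Pool.Agent.Lib_PL
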