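import Pool.Agent.Lib_PLQ.LC3a
import Pool.Agent.Lib_PLQ.LC3b

/-!
C3 (outer items): parent `S` (shifted) in `(b, a+n)`, hooking chord `(σ,g)` with both ends in `(b, a+n)` and the viewer position `ν + m n` strictly between.

`c3_hook`: `x ∈ Side a b` sees `γ h` through `pt τ`, `h` strictly between `σ` and `g`: the chord `(σ,g)` does not meet `W` (`nest_chords` or `side_same`: both ends in the
complementary arc), so `W` is on the side of `(σ,g)` which does not contain `γ h`; the segment `(pt τ, γ h)` crosses it in `c` (`side_cross`), `c` sees `γ σ`, `x` sees `γ s`; `f2`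
on the segment `x c ⊆ I`: `pt τ` sees some `γ σ'`, `σ' ∈ uIcc s σ`.

`c3_pair`: chords `(y_i, s_i)` (`SX`) cross `W` in `pt w_i`, `w_i ∈ JJ X_i`, `w1 < d < w2` (`JJ_conv`, `d` is dark).  `y1 < y2`: `c3_par` and the fact that `y2 ∈ Bp p K`.
`y2 < y1`: `c3_ray` with `τ = d`: `x`, `h`; `h ∉ Bp p K` (`not_Bp_of_dark`), so `h ∉ S1.s`, `h ∉ S2.s`; `S1`, `S2` intervals: `σ1 > h`, `σ2 < h`.  Let `μ` be the lift of `ν` in
`(b,a+n)`.  If `μ ≤ h`: `g1 < μ < σ1` so `g1 < h < σ1`: `c3_hook`: `pt d` sees a point of `S1.s ⊆ Bp p K`: lit.  If `h < μ`: `σ2 < μ < g2`, `σ2 < h < g2`: same with `S2`.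
`y1 = y2` impossible (`X1`, `X2` would meet: then `X1 = X2` (`comp_unique`), and `JJ X1` would contain `d`).
-/

open Set Complex
open scoped Topology

namespace Pool.Agent.Lib_PL

namespace Poly

variable {n : ℕ} (P : Poly n)

/-- outer item -/
structure OItem (p : ℂ) (K : ℕ) (ν : ℤ) (a b : ℝ) (S X : Arc) : Prop where
  Xc : P.IsComp p K X
  Xs : X.s ⊆ Ioo a b
  Sc : ∃ l, l + 1 ≤ K ∧ P.IsComp p l S
  Ss : S.s ⊆ Ioo b (a + n)
  SX : ∃ s ∈ S.s, ∃ x ∈ X.s, P.Vis (P.γ s) (P.γ x)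
  hook : ∃ σ ∈ S.s, ∃ g ∈ Ioo b (a + n), P.Vis (P.γ σ) (P.γ g) ∧ ∃ m : ℤ,
    (σ < ν + m * n ∧ (ν : ℝ) + m * n < g) ∨ (g < ν + m * n ∧ (ν : ℝ) + m * n < σ)

private theorem LC3_between {x w p c : ℂ} (hp : p ∈ openSegment ℝ x w)
    (hcc : c ∈ openSegment ℝ p w) : p ∈ segment ℝ x c ∧ c ∈ openSegment ℝ x w := by
  rw [openSegment_eq_image'] at hp hcc
  obtain ⟨α, ⟨hα0, hα1⟩, rfl⟩ := hp
  obtain ⟨β, ⟨hβ0, hβ1⟩, rfl⟩ := hcc
  have h1 : 0 < 1 - α := by linarith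
  have h2 : 0 < β * (1 - α) := mul_pos hβ0 h1
  have h3 : β * (1 - α) < 1 - α := by nlinarith
  have h4 : 0 < α + β * (1 - α) := by linarith
  have e : x + α • (w - x) + β • (w - (x + α • (w - x))) = x + (α + β * (1 - α)) • (w - x) := by
    simp only [Complex.real_smul]
    push_cast
    ring
  constructor
  · show x + α • (w - x) ∈ segment ℝ x (x + α • (w - x) + β • (w - (x + α • (w - x))))
    rw [e, segment_eq_image']
    refine ⟨α / (α + β * (1 - α)), ⟨by positivity, ?_⟩, ?_⟩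
    · rw [div_le_one h4]
      linarith
    · show x + (α / (α + β * (1 - α))) • (x + (α + β * (1 - α)) • (w - x) - x) = x + α • (w - x)
      rw [add_sub_cancel_left, smul_smul, div_mul_cancel₀ _ h4.ne']
  · show x + α • (w - x) + β • (w - (x + α • (w - x))) ∈ openSegment ℝ x w
    rw [e, openSegment_eq_image']
    exact ⟨α + β * (1 - α), ⟨h4, by linarith⟩, rfl⟩

/-- the chord `(A,B)` in the complementary arc separates `γ h` from `W` -/
private theorem LC3_cross (hc : P.CCW) {a b : ℝ} (hab : a < b) (hw : P.Vis (P.γ a) (P.γ b))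
    {A B h τ : ℝ} (hbA : b < A) (hAh : A < h) (hhB : h < B) (hBa : B < a + n)
    (hv : P.Vis (P.γ A) (P.γ B)) (h0 : 0 < τ) (h1 : τ < 1) {x : ℂ} (hx : P.Vis x (P.γ h))
    (hτ : P.pt a b τ ∈ openSegment ℝ x (P.γ h)) :
    ∃ c ∈ openSegment ℝ (P.pt a b τ) (P.γ h), c ∈ segment ℝ (P.γ A) (P.γ B) := by
  have hAB : A < B := hAh.trans hhB
  have hBA : B < A + n := by linarith
  have ha1 : P.γ a ∈ P.Side B (A + n) := by
    have h2 := P.side_arc' (a := A) (b := B) hAB hv (x := a + n) ⟨hBa, by linarith⟩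
    rwa [P.γ_add_n] at h2
  have hb1 : P.γ b ∈ P.Side B (A + n) := by
    have h2 := P.side_arc' (a := A) (b := B) hAB hv (x := b + n) ⟨by linarith, by linarith⟩
    rwa [P.γ_add_n] at h2
  have hpt : P.pt a b τ ∈ P.Side B (A + n) :=
    P.side_same_vis' hc hAB hBA hv hw ha1 hb1
      (openSegment_subset_segment ℝ _ _ (P.pt_mem_open h0 h1))
  have hh : P.γ h ∈ P.Side A B := P.side_arc hBA hv ⟨hAh, hhB⟩
  have hseg : segment ℝ (P.γ h) (P.pt a b τ) ⊆ P.R := by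
    refine Set.Subset.trans ?_ hx.seg
    exact (convex_segment _ _).segment_subset (right_mem_segment ℝ _ _)
      (openSegment_subset_segment ℝ _ _ hτ)
  obtain ⟨c, hc1, hc2⟩ := P.side_cross hc hAB hBA hv hseg hh hpt
  refine ⟨c, ?_, hc2⟩
  rw [openSegment_symm]
  exact hc1

include P in
private theorem LC3_lift {b c : ℝ} (hbc : c ≤ b + n) {x : ℝ} {m1 m2 : ℤ}
    (h1 : b < x + m1 * n) (h2 : x + m1 * n < c) (h3 : b < x + m2 * n) (h4 : x + m2 * n < c) :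
    m1 = m2 := by
  have hn : (0 : ℝ) < n := by
    have := P.three_le
    exact_mod_cast (by omega : 0 < n)
  have h5 : ((m1 : ℝ) - m2) * n < 1 * n := by linarith
  have h6 : ((m2 : ℝ) - m1) * n < 1 * n := by linarith
  have h7 := lt_of_mul_lt_mul_right h5 hn.le
  have h8 := lt_of_mul_lt_mul_right h6 hn.le
  have h9 : m1 - m2 < 1 := by exact_mod_cast h7
  have h10 : m2 - m1 < 1 := by exact_mod_cast h8
  omega

theorem c3_hook (hc : P.CCW) {a b : ℝ} (hab : a < b) (hba : b < a + n)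
    (hw : P.Vis (P.γ a) (P.γ b)) {x : ℂ} {h τ : ℝ} (hxI : x ∈ P.I) (hb : b < h) (ha : h < a + n)
    (hx : P.Vis x (P.γ h)) (h0 : 0 < τ) (h1 : τ < 1)
    (hτ : P.pt a b τ ∈ openSegment ℝ x (P.γ h)) {i : ℤ} {s σ g : ℝ} (hs : (i : ℝ) < s)
    (hs' : s < i + 1) (hσ : (i : ℝ) < σ) (hσ' : σ < i + 1) (hxs : P.Vis x (P.γ s))
    (hv : P.Vis (P.γ σ) (P.γ g)) (hbσ : b < σ) (hσa : σ < a + n) (hbg : b < g) (hga : g < a + n)
    (hh : (σ < h ∧ h < g) ∨ (g < h ∧ h < σ)) :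
    ∃ σ' ∈ uIcc s σ, P.Vis (P.γ σ') (P.pt a b τ) := by
  have hcr : ∃ c ∈ openSegment ℝ (P.pt a b τ) (P.γ h), c ∈ segment ℝ (P.γ σ) (P.γ g) := by
    rcases hh with ⟨h2, h3⟩ | ⟨h2, h3⟩
    · exact P.LC3_cross hc hab hw hbσ h2 h3 hga hv h0 h1 hx hτ
    · obtain ⟨c, hc1, hc2⟩ := P.LC3_cross hc hab hw hbg h2 h3 hσa hv.symm h0 h1 hx hτ
      exact ⟨c, hc1, by rw [segment_symm]; exact hc2⟩
  obtain ⟨c, hc1, hc2⟩ := hcr
  obtain ⟨hp, hco⟩ := LC3_between hτ hc1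
  have hcI : c ∈ P.I := hx hco
  have hcσ : c ≠ P.γ σ := by
    rintro rfl
    exact hcI.1 (P.γ_mem_C σ)
  have hvc : P.Vis c (P.γ σ) := hv.sub hc2 (left_mem_segment ℝ _ _) hcσ
  have hxc : segment ℝ x c ⊆ P.I := by
    intro y hy
    rw [← insert_endpoints_openSegment] at hy
    rcases hy with rfl | rfl | hy
    · exact hxI
    · exact hcI
    · by_cases hne : x = c
      · rw [← hne, openSegment_same, mem_singleton_iff] at hy
        rw [hy]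
        exact hxI
      · exact (hx.sub (left_mem_segment ℝ _ _) (openSegment_subset_segment ℝ _ _ hco) hne) hy
  have hdis : Disjoint (segment ℝ x c) (segment ℝ (P.γ s) (P.γ σ)) := by
    rw [Set.disjoint_left]
    intro w hw1 hw2
    rw [P.segment_γ hs.le hs'.le hσ.le hσ'.le] at hw2
    obtain ⟨t, -, rfl⟩ := hw2
    exact (hxc hw1).1 (P.γ_mem_C t)
  obtain ⟨σ', hσ1, hσ2⟩ := P.f2 hc hs hs' hσ hσ' (hxc.trans Set.subset_union_right) hdis hxs hvc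
    (P.pt a b τ) hp
  exact ⟨σ', hσ1, hσ2.symm⟩

/-- the crossing parameter of the chord of an outer item -/
private theorem LC3_w (hc : P.CCW) {p : ℂ} {K : ℕ} {ν : ℤ} {a b : ℝ} {S X : Arc}
    (hw : P.LChord p K ν a b) (h : P.OItem p K ν a b S X) :
    ∃ s ∈ S.s, ∃ y ∈ X.s, P.Vis (P.γ y) (P.γ s) ∧ ∃ w : ℝ, 0 < w ∧ w < 1 ∧
      P.pt a b w ∈ openSegment ℝ (P.γ y) (P.γ s) ∧ P.Vis (P.γ y) (P.pt a b w) ∧
      w ∈ P.JJ X a b := by
  obtain ⟨s, hs, y, hy, hv⟩ := h.SX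
  obtain ⟨w, w0, w1, w2, w3, w4⟩ := P.cross_W hc hw.vis (h.Xs hy).1 (h.Xs hy).2 (h.Ss hs).1
    (h.Ss hs).2 hv.symm
  exact ⟨s, hs, y, hy, hv.symm, w, w0, w1, w2, w3, w0, w1, y, hy, w3⟩

theorem c3_pair (hc : P.CCW) {p : ℂ} {K : ℕ} {ν : ℤ} {a b : ℝ} {S1 X1 S2 X2 : Arc}
    (hw : P.LChord p K ν a b) (h1 : P.OItem p K ν a b S1 X1) (h2 : P.OItem p K ν a b S2 X2)
    (hi : X1.i = X2.i) {v1 v2 d : ℝ} (hv1 : v1 ∈ P.JJ X1 a b) (hv2 : v2 ∈ P.JJ X2 a b)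
    (h1d : v1 < d) (hd2 : d < v2) (hd : P.pt a b d ∉ P.VV p (K + 1)) : False := by
  obtain ⟨s1, hs1, y1, hy1, hc1, w1, w10, w11, w12, w13, w14⟩ := P.LC3_w hc hw h1
  obtain ⟨s2, hs2, y2, hy2, hc2, w2, w20, w21, w22, w23, w24⟩ := P.LC3_w hc hw h2
  have hdJ1 : d ∉ P.JJ X1 a b := fun h => hd (P.JJ_lit h1.Xc.sub h)
  have hdJ2 : d ∉ P.JJ X2 a b := fun h => hd (P.JJ_lit h2.Xc.sub h)
  have hw1d : w1 < d := by
    by_contra hcon
    exact hdJ1 (P.JJ_conv hc hw.vis h1.Xc.ia h1.Xc.bi hv1 w14 h1d.le (not_lt.1 hcon))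
  have hdw2 : d < w2 := by
    by_contra hcon
    exact hdJ2 (P.JJ_conv hc hw.vis h2.Xc.ia h2.Xc.bi w24 hv2 (not_lt.1 hcon) hd2.le)
  have hy1a := h1.Xs hy1
  have hy2a := h2.Xs hy2
  have hs1a := h1.Ss hs1
  have hs2a := h2.Ss hs2
  have i1 : (X1.i : ℝ) < y1 := h1.Xc.ia.trans_lt hy1.1
  have i2 : (X1.i : ℝ) < y2 := by
    rw [hi]
    exact h2.Xc.ia.trans_lt hy2.1
  have j1 : y1 < X1.i + 1 := hy1.2.trans_le h1.Xc.bi
  have j2 : y2 < X1.i + 1 := by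
    rw [hi]
    exact hy2.2.trans_le h2.Xc.bi
  have hS1 : S1.s ⊆ P.Bp p K := by
    obtain ⟨l, hl, hS⟩ := h1.Sc
    exact hS.sub.trans (P.Bp_mono p (by omega))
  have hS2 : S2.s ⊆ P.Bp p K := by
    obtain ⟨l, hl, hS⟩ := h2.Sc
    exact hS.sub.trans (P.Bp_mono p (by omega))
  rcases lt_trichotomy y1 y2 with hlt | heq | hgt
  · have h3 := (P.c3_par hc hw.ab hw.ba hw.vis i1 hlt j2 hy1a.1 hy2a.2 w10 (hw1d.trans hdw2) w21
      w13 w23 d ⟨hw1d.le, hdw2.le⟩).1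
    exact P.not_Bp_of_dark hd h3 (h1.Xc.sub hy1)
  · subst heq
    have h3 := P.f2_pt_chord hc hw.vis (P.pt_mem_open w10 w11) (P.pt_mem_open w20 w21) w13 w23
      (P.pt a b d) (P.pt_seg hw1d.le hdw2.le)
    exact P.not_Bp_of_dark hd h3 (h1.Xc.sub hy1)
  · obtain ⟨x, h, k1, k2, k3, k4, k5, k6, k7, k8⟩ := P.c3_ray hc hw.ba hw.vis hy2a.1 hgt hy1a.2
      hs1a.1 hs1a.2 hs2a.1 hs2a.2 hc1 hc2 w10 hw1d hdw2 w21 w12 w22
    have hne : P.pt a b d ≠ P.γ h := by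
      intro h3
      have h4 := k7 k8
      rw [h3] at h4
      exact h4.1 (P.γ_mem_C h)
    have hvh : P.Vis (P.γ h) (P.pt a b d) :=
      (k7.sub (openSegment_subset_segment ℝ _ _ k8) (right_mem_segment ℝ _ _) hne).symm
    have hh := P.not_Bp_of_dark hd hvh
    have hbh : b < h := hs2a.1.trans k1
    have hha : h < a + n := k2.trans hs1a.2
    obtain ⟨σ1, hσ1, g1, hg1, hv1', m1, hm1⟩ := h1.hook
    obtain ⟨σ2, hσ2, g2, hg2, hv2', m2, hm2⟩ := h2.hook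
    have hσ1a := h1.Ss hσ1
    have hσ2a := h2.Ss hσ2
    have hhσ1 : h < σ1 := by
      by_contra hcon
      exact hh (hS1 ⟨hσ1.1.trans_le (not_lt.1 hcon), k2.trans hs1.2⟩)
    have hσ2h : σ2 < h := by
      by_contra hcon
      exact hh (hS2 ⟨hs2.1.trans k1, (not_lt.1 hcon).trans_lt hσ2.2⟩)
    have hm : m1 = m2 := by
      refine P.LC3_lift (b := b) (c := a + n) (by linarith [hw.ab]) (x := ν) ?_ ?_ ?_ ?_
      · rcases hm1 with ⟨h3, h4⟩ | ⟨h3, h4⟩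
        · exact hσ1a.1.trans h3
        · exact hg1.1.trans h3
      · rcases hm1 with ⟨h3, h4⟩ | ⟨h3, h4⟩
        · exact h4.trans hg1.2
        · exact h4.trans hσ1a.2
      · rcases hm2 with ⟨h3, h4⟩ | ⟨h3, h4⟩
        · exact hσ2a.1.trans h3
        · exact hg2.1.trans h3
      · rcases hm2 with ⟨h3, h4⟩ | ⟨h3, h4⟩
        · exact h4.trans hg2.2
        · exact h4.trans hσ2a.2
    subst hm
    have hd0 : 0 < d := w10.trans hw1d
    have hd1 : d < 1 := hdw2.trans w21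
    rcases le_or_gt ((ν : ℝ) + m1 * n) h with hμ | hμ
    · have h5 : g1 < (ν : ℝ) + m1 * n := by
        rcases hm1 with ⟨h3, h4⟩ | ⟨h3, h4⟩
        · exfalso
          linarith
        · exact h3
      obtain ⟨l, -, hSc⟩ := h1.Sc
      obtain ⟨σ', hσ', hvσ'⟩ := P.c3_hook hc hw.ab hw.ba hw.vis k5 hbh hha k7 hd0 hd1 k8
        (i := S1.i) (hSc.ia.trans_lt hs1.1) (hs1.2.trans_le hSc.bi) (hSc.ia.trans_lt hσ1.1)
        (hσ1.2.trans_le hSc.bi) k3 hv1' hσ1a.1 hσ1a.2 hg1.1 hg1.2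
        (Or.inr ⟨h5.trans_le hμ, hhσ1⟩)
      refine P.not_Bp_of_dark hd hvσ' (hS1 ?_)
      exact (Set.ordConnected_Ioo.uIcc_subset hs1 hσ1) hσ'
    · have h5 : (ν : ℝ) + m1 * n < g2 := by
        rcases hm2 with ⟨h3, h4⟩ | ⟨h3, h4⟩
        · exact h4
        · exfalso
          linarith
      obtain ⟨l, -, hSc⟩ := h2.Sc
      obtain ⟨σ', hσ', hvσ'⟩ := P.c3_hook hc hw.ab hw.ba hw.vis k5 hbh hha k7 hd0 hd1 k8
        (i := S2.i) (hSc.ia.trans_lt hs2.1) (hs2.2.trans_le hSc.bi) (hSc.ia.trans_lt hσ2.1)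
        (hσ2.2.trans_le hSc.bi) k4 hv2' hσ2a.1 hσ2a.2 hg2.1 hg2.2
        (Or.inl ⟨hσ2h, hμ.trans h5⟩)
      refine P.not_Bp_of_dark hd hvσ' (hS2 ?_)
      exact (Set.ordConnected_Ioo.uIcc_subset hs2 hσ2) hσ'

end Poly

end Pool.Agent.Lib_PL
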