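import Pool.Agent.Lib_PLQ.LBasic

/-!
C3, parallel position: two sight lines from one edge to `W` which do not cross.

`γ y1, γ y2, pt t2, pt t1` is a convex quadrilateral (counterclockwise) with sides in `R`: `quad` gives the diagonals `Vis (γ y1) (pt t2)`, `Vis (γ y2) (pt t1)`; then
`f2_pt_chord`.  Cross products: `Vis.left'` for the edge; for `W`: `γ y ∈ Side a b` sees a point of `W`, so it is strictly right of `a → b`
(`right_of_W`: `side_local` at the point of `W`, `side_same_vis`-type argument; not on the line since then `γ a` or `γ b` would be on the sight line).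
-/

open Set Complex
open scoped Topology

namespace Pool.Agent.Lib_PL

namespace Poly

variable {n : ℕ} (P : Poly n)

/-- a boundary point in the arc `(a,b)` which sees a point of `W` is strictly right of `W` -/
theorem right_of_W (hc : P.CCW) {a b y t : ℝ} (hab : a < b) (hba : b < a + n)
    (hw : P.Vis (P.γ a) (P.γ b)) (hay : a < y) (hyb : y < b) (h0 : 0 < t) (h1 : t < 1)
    (h : P.Vis (P.γ y) (P.pt a b t)) : cr (P.γ b - P.γ a) (P.γ y - P.pt a b t) < 0 := by
  have hne : P.γ b - P.γ a ≠ 0 := sub_ne_zero.2 hw.ne.symm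
  have hwo : P.pt a b t ∈ openSegment ℝ (P.γ a) (P.γ b) := P.pt_mem_open h0 h1
  rcases lt_trichotomy (cr (P.γ b - P.γ a) (P.γ y - P.pt a b t)) 0 with hlt | heq | hgt
  · exact hlt
  · exfalso
    obtain ⟨τ, hτ⟩ := cr_eq_zero hne heq
    have hy : P.γ y = P.γ a + ((t + τ : ℝ) : ℂ) * (P.γ b - P.γ a) := by
      have e : P.γ y = P.pt a b t + (τ : ℂ) * (P.γ b - P.γ a) := by
        linear_combination hτ
      rw [e]
      unfold pt
      push_cast
      ring
    have hyC : P.γ y ∉ P.I := fun hI => P.I_disj_C hI (P.γ_mem_C y)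
    rcases lt_trichotomy (t + τ) 0 with h3 | h3 | h3
    · -- `γ a` is between `γ y` and `w`
      have hs : P.γ a ∈ openSegment ℝ (P.γ y) (P.pt a b t) := by
        have hd : 0 < t - (t + τ) := by linarith
        refine ⟨t / (t - (t + τ)), -(t + τ) / (t - (t + τ)), div_pos h0 hd,
          div_pos (by linarith) hd, ?_, ?_⟩
        · field_simp
          ring
        · rw [Complex.real_smul, Complex.real_smul, hy, pt]
          have hd' : ((t - (t + τ) : ℝ) : ℂ) ≠ 0 := by exact_mod_cast hd.ne'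
          push_cast at hd' ⊢
          field_simp
          ring
      exact P.I_disj_C (h hs) (P.γ_mem_C a)
    · rw [h3] at hy
      have hya : P.γ y = P.γ a := by
        rw [hy]
        simp
      have := P.γ_inj' hya (c := a) hay.le (by linarith) le_rfl (by linarith)
      linarith
    · rcases lt_trichotomy (t + τ) 1 with h4 | h4 | h4
      · apply hyC
        apply hw
        have := P.pt_mem_open (a := a) (b := b) h3 h4
        rw [hy]
        exact this
      · rw [h4] at hy
        have hyb' : P.γ y = P.γ b := by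
          rw [hy]
          push_cast
          ring
        have := P.γ_inj' hyb' (c := a) hay.le (by linarith) hab.le hba
        linarith
      · -- `γ b` is between `w` and `γ y`
        have hs : P.γ b ∈ openSegment ℝ (P.γ y) (P.pt a b t) := by
          have hd : 0 < (t + τ) - t := by linarith
          refine ⟨(1 - t) / ((t + τ) - t), ((t + τ) - 1) / ((t + τ) - t),
            div_pos (by linarith) hd, div_pos (by linarith) hd, ?_, ?_⟩
          · field_simp
            ring
          · rw [Complex.real_smul, Complex.real_smul, hy, pt]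
            have hd' : (((t + τ) - t : ℝ) : ℂ) ≠ 0 := by exact_mod_cast hd.ne'
            push_cast at hd' ⊢
            field_simp
            ring
        exact P.I_disj_C (h hs) (P.γ_mem_C b)
  · exfalso
    obtain ⟨ρ, hρ, hl⟩ := P.side_local hc hab hba hw hwo
    set d : ℂ := P.γ y - P.pt a b t with hd
    have hd0 : 0 < ‖d‖ := by
      rw [norm_pos_iff]
      intro h0
      rw [h0, cr_zero_right] at hgt
      exact lt_irrefl _ hgt
    -- a small multiple
    set ε : ℝ := min (1 / 2) (ρ / (2 * ‖d‖)) with hε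
    have hε0 : 0 < ε := lt_min (by norm_num) (by positivity)
    have hε1 : ε ≤ 1 / 2 := min_le_left _ _
    have hε2 : ε * ‖d‖ < ρ := by
      have h5 : ε * ‖d‖ ≤ ρ / (2 * ‖d‖) * ‖d‖ :=
        mul_le_mul_of_nonneg_right (min_le_right _ _) hd0.le
      have h6 : ρ / (2 * ‖d‖) * ‖d‖ = ρ / 2 := by
        field_simp
      linarith
    have hn : ‖(ε : ℂ) * d‖ < ρ := by
      rw [norm_mul, Complex.norm_real, Real.norm_eq_abs, abs_of_pos hε0]
      exact hε2
    have hside : P.pt a b t + (ε : ℂ) * d ∈ P.Side b (a + n) := by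
      refine (hl _ hn).2 ?_
      rw [cr_mul_right]
      positivity
    have hyS : P.γ y ∈ P.Side a b := P.side_arc hba hw ⟨hay, hyb⟩
    have hsub : segment ℝ (P.γ y) (P.pt a b t + (ε : ℂ) * d) ⊆ segment ℝ (P.γ y) (P.pt a b t) := by
      refine (convex_segment _ _).segment_subset (left_mem_segment ℝ _ _) ?_
      refine ⟨ε, 1 - ε, hε0.le, by linarith, by ring, ?_⟩
      rw [Complex.real_smul, Complex.real_smul, hd]
      push_cast
      ring
    obtain ⟨c, hco, hcs⟩ := P.side_cross hc hab hba hw (hsub.trans h.seg) hyS hside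
    obtain ⟨r1, r2, hr1, hr2, hr, rfl⟩ := hco
    obtain ⟨u, -, -, hu⟩ := P.mem_seg_pt hcs
    have e1 : r1 • P.γ y + r2 • (P.pt a b t + (ε : ℂ) * d) - P.pt a b t =
        ((r1 + r2 * ε : ℝ) : ℂ) * d := by
      rw [Complex.real_smul, Complex.real_smul]
      have hr' : (r1 : ℂ) = 1 - r2 := by
        have : r1 = 1 - r2 := by linarith
        rw [this]
        push_cast
        ring
      rw [hd]
      push_cast
      rw [hr']
      ring
    have e2 : r1 • P.γ y + r2 • (P.pt a b t + (ε : ℂ) * d) - P.pt a b t =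
        ((u - t : ℝ) : ℂ) * (P.γ b - P.γ a) := by
      rw [hu]
      unfold pt
      push_cast
      ring
    have e3 : cr (P.γ b - P.γ a) (((r1 + r2 * ε : ℝ) : ℂ) * d) = 0 := by
      rw [← e1, e2, cr_mul_right, cr_self, mul_zero]
    rw [cr_mul_right] at e3
    have : 0 < (r1 + r2 * ε) * cr (P.γ b - P.γ a) d := by positivity
    linarith

theorem c3_par (hc : P.CCW) {a b : ℝ} (hab : a < b) (hba : b < a + n)
    (hw : P.Vis (P.γ a) (P.γ b)) {i : ℤ} {y1 y2 : ℝ} (hi : (i : ℝ) < y1) (hyy : y1 < y2)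
    (hi' : y2 < i + 1) (hay : a < y1) (hyb : y2 < b) {t1 t2 : ℝ} (h0 : 0 < t1) (h12 : t1 < t2)
    (h1 : t2 < 1) (hv1 : P.Vis (P.γ y1) (P.pt a b t1)) (hv2 : P.Vis (P.γ y2) (P.pt a b t2)) :
    ∀ t ∈ Icc t1 t2, P.Vis (P.γ y1) (P.pt a b t) ∧ P.Vis (P.γ y2) (P.pt a b t) := by
  have hBA : P.γ y2 - P.γ y1 = ((y2 - y1 : ℝ) : ℂ) * (P.V (i + 1) - P.V i) :=
    P.γ_sub i y1 y2 hi.le (by linarith) (by linarith) hi'.le
  have hDE : P.pt a b t1 - P.pt a b t2 = ((-(t2 - t1) : ℝ) : ℂ) * (P.γ b - P.γ a) := by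
    unfold pt
    push_cast
    ring
  have hy : 0 < y2 - y1 := by linarith
  have ht : 0 < t2 - t1 := by linarith
  have l1 := hv1.left' hc hi (by linarith : y1 < i + 1)
  have l2 := hv2.left' hc (by linarith : (i : ℝ) < y2) hi'
  have r1 := P.right_of_W hc hab hba hw hay (by linarith) h0 (by linarith) hv1
  have r2 := P.right_of_W hc hab hba hw (by linarith) hyb (by linarith) h1 hv2
  have o1 : P.pt a b t1 ∈ openSegment ℝ (P.γ a) (P.γ b) := P.pt_mem_open h0 (by linarith)
  have o2 : P.pt a b t2 ∈ openSegment ℝ (P.γ a) (P.γ b) := P.pt_mem_open (by linarith) h1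
  have q1 : 0 < cr (P.γ y2 - P.γ y1) (P.pt a b t2 - P.γ y2) := by
    rw [hBA, cr_mul_left]
    positivity
  have q2 : 0 < cr (P.pt a b t2 - P.γ y2) (P.pt a b t1 - P.pt a b t2) := by
    rw [hDE, cr_mul_right, cr_swap]
    have e : P.pt a b t2 - P.γ y2 = -(P.γ y2 - P.pt a b t2) := by ring
    rw [e, cr_neg_right]
    nlinarith
  have q3 : 0 < cr (P.pt a b t1 - P.pt a b t2) (P.γ y1 - P.pt a b t1) := by
    rw [hDE, cr_mul_left]
    nlinarith
  have q4 : 0 < cr (P.γ y1 - P.pt a b t1) (P.γ y2 - P.γ y1) := by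
    rw [cr_swap, hBA, cr_mul_left]
    have e : P.γ y1 - P.pt a b t1 = -(P.pt a b t1 - P.γ y1) := by ring
    rw [e, cr_neg_right]
    nlinarith
  have s1 : segment ℝ (P.γ y1) (P.γ y2) ⊆ P.R := by
    rw [P.segment_γ hi.le (by linarith) (by linarith) hi'.le]
    rintro z ⟨x, -, rfl⟩
    exact P.C_sub_R (P.γ_mem_C x)
  have s3 : segment ℝ (P.pt a b t2) (P.pt a b t1) ⊆ P.R :=
    (((convex_openSegment _ _).segment_subset o2 o1).trans hw).trans P.I_sub_R
  obtain ⟨v1, v2⟩ := P.quad (P.γ y1) (P.γ y2) (P.pt a b t2) (P.pt a b t1) q1 q2 q3 q4 s1 hv2.seg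
    s3 hv1.symm.seg
  intro t ⟨ht1, ht2⟩
  have hseg := P.pt_seg (a := a) (b := b) ht1 ht2
  exact ⟨P.f2_pt_chord hc hw o1 o2 hv1 v1 _ hseg, P.f2_pt_chord hc hw o1 o2 v2 hv2 _ hseg⟩

end Poly

end Pool.Agent.Lib_PL
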