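import Pool.Agent.Lib_PLQ.LC1
import Pool.Agent.Lib_PLQ.LC2
import Pool.Agent.Lib_PLQ.LC3

/-!
Counting the left hooked items of the local lemma.

`hookL_pos`: `hook_pivot`, `hook_ω`: some `ν' = ν + m n` with `S.b ≤ ν' < q ≤ X.i < b`, so `ν' < a` (`LChord.nν`); `b - n ∉ S.s` (`S.s ⊆ Bp p K`, `nb`).
`oitem_of`: `HookL`: `σ`, `g` with `g < q ≤ a` (`hook_lt`); `V ν ∈ Side σ g`, `side_mem_arc`; shift by `n`.
`countL_gen`: three classes: (A) `S.b ≤ b - n`: label `q`, `a ≤ q < b` (`c1_q`), injective by `c1_pair`; (B) `b - n ≤ S.a`, `a < q`: label `q`, injective by `c2_hull` and `hsep`;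
(C) `b - n ≤ S.a`, `q ≤ a`: label `X.i ∈ [⌊a⌋, ⌈b⌉)`, injective by `oitem_of`, `c3_pair` and `hsep`.  In (A) `D1 = D2` gives `X1 = X2` (`hook_D`, `comp_unique`), excluded by `hsep`
(`JJ_conv`, `JJ_lit`).
-/

open Set Complex
open scoped Topology

namespace Pool.Agent.Lib_PL

namespace Poly

variable {n : ℕ} (P : Poly n)

/-- the component is between the ends of the chord -/
private theorem LCountL_X {X : Arc} {a b : ℝ} (h : X.a < X.b) (hXs : X.s ⊆ Ioo a b) :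
    a ≤ X.a ∧ X.b ≤ b := by
  constructor
  · by_contra hcon
    rw [not_le] at hcon
    obtain ⟨x, hx1, hx2⟩ := exists_between (lt_min hcon h)
    exact absurd (hXs ⟨hx1, hx2.trans_le (min_le_right _ _)⟩).1
      (not_lt.2 (hx2.trans_le (min_le_left _ _)).le)
  · by_contra hcon
    rw [not_le] at hcon
    obtain ⟨x, hx1, hx2⟩ := exists_between (max_lt hcon h)
    exact absurd (hXs ⟨(le_max_right _ _).trans_lt hx1, hx2⟩).2
      (not_lt.2 ((le_max_left _ _).trans_lt hx1).le)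

theorem hookL_pos (hc : P.CCW) {p : ℂ} {K : ℕ} {ν : ℤ} {a b : ℝ} {S X : Arc}
    (hw : P.LChord p K ν a b) (hI : P.LItem p K ν S X) (hk : P.HookL S X {P.V ν})
    (hXs : X.s ⊆ Ioo a b) : S.b ≤ a ∧ (S.b ≤ b - n ∨ b - n ≤ S.a) := by
  obtain ⟨D, s0, q, hp⟩ := P.hook_pivot hc hI.hb hk
  obtain ⟨ω, hω, -, m, h1, h2⟩ := P.hook_ω hc hI.hb hk hp
  rw [Finset.mem_singleton] at hω
  subst hω
  obtain ⟨e1, e2⟩ := LCountL_X hI.hb.Xab hXs
  have hq : (q : ℝ) ≤ X.i := by exact_mod_cast hp.qj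
  have h3 := hI.hb.Xia
  have h4 := hI.hb.Xab
  have h5 : (ν : ℝ) + m * n < a := by
    by_contra hcon
    exact hw.nν m ⟨not_lt.1 hcon, by linarith⟩
  refine ⟨by linarith, ?_⟩
  by_contra hcon
  push Not at hcon
  obtain ⟨l, hl, hS⟩ := hI.Sc
  have h6 : b - n ∈ P.Bp p K := P.Bp_mono p (by omega) (hS.sub ⟨hcon.2, hcon.1⟩)
  have h7 := (P.Bp_add p K (b - n) 1).2 h6
  apply hw.nb
  have e : b - n + ((1 : ℤ) : ℝ) * n = b := by push_cast; ring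
  rwa [e] at h7

theorem oitem_of (hc : P.CCW) {p : ℂ} {K : ℕ} {ν : ℤ} {a b : ℝ} {S X : Arc}
    (hw : P.LChord p K ν a b) (hI : P.LItem p K ν S X) (hk : P.HookL S X {P.V ν})
    (hXs : X.s ⊆ Ioo a b) (hS : b - n ≤ S.a) {D s0 : ℝ} {q : ℤ}
    (hp : P.Pivot S.i X.i S.a S.b D s0 q) (hq : (q : ℝ) ≤ a) :
    P.OItem p K ν a b (S.sh n) X := by
  obtain ⟨hSa, -⟩ := P.hookL_pos hc hw hI hk hXs
  have hmem : ∀ s : ℝ, s ∈ S.s → s + n ∈ (S.sh n).s := by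
    intro s hs
    have h1 := hs.1
    have h2 := hs.2
    exact ⟨by simp only [Arc.sh]; push_cast; linarith, by simp only [Arc.sh]; push_cast; linarith⟩
  refine ⟨hI.Xc, hXs, ?_, ?_, ?_, ?_⟩
  · obtain ⟨l, hl, hSc⟩ := hI.Sc
    refine ⟨l, hl, ?_⟩
    have h1 := P.comp_sh 1 hSc
    rwa [one_mul] at h1
  · intro x hx
    have h1 : S.a + n < x := by
      have := hx.1
      simp only [Arc.sh] at this
      push_cast at this
      exact this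
    have h2 : x < S.b + n := by
      have := hx.2
      simp only [Arc.sh] at this
      push_cast at this
      exact this
    exact ⟨by linarith, by linarith⟩
  · obtain ⟨s, hs, x, hx, hv⟩ := hI.hb.SX
    refine ⟨s + n, hmem s hs, x, hx, ?_⟩
    rw [P.γ_add_n]
    exact hv
  · obtain ⟨σ, hσ, g, hg, hg', hgN, hv, hM⟩ := hk
    have h1 : g < q := hp.hook_lt hσ hg' hgN hv
    have h2 := hI.hb.Sbi
    have h3 := hI.hb.Sia
    have h4 := hσ.1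
    have h5 := hσ.2
    have hji : (X.i : ℝ) + 1 ≤ S.i + n := by exact_mod_cast hI.hb.ji
    refine ⟨σ + n, hmem σ hσ, g + n, ⟨by linarith, by linarith⟩, ?_, ?_⟩
    · rw [P.γ_add_n, P.γ_add_n]
      exact hv
    · have h6 : P.γ (ν : ℝ) ∈ P.Side σ g := by
        rw [P.γ_int]
        exact hM rfl
      obtain ⟨m, h7, h8⟩ := P.side_mem_arc hc (by linarith) (by linarith) hv h6
      refine ⟨m + 1, Or.inl ⟨?_, ?_⟩⟩
      · push_cast
        linarith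
      · push_cast
        linarith

theorem countL_gen (hc : P.CCW) {p : ℂ} {K : ℕ} {ν : ℤ} {a b : ℝ} (hw : P.LChord p K ν a b)
    (T : Finset ℝ) (S X : ℝ → Arc)
    (hT : ∀ t ∈ T, P.LItem p K ν (S t) (X t) ∧ (X t).s ⊆ Ioo a b ∧ P.HookL (S t) (X t) {P.V ν} ∧
      (P.JJ (X t) a b).Nonempty)
    (hsep : ∀ t1 ∈ T, ∀ t2 ∈ T, t1 < t2 → ∃ v1 ∈ P.JJ (X t1) a b, ∃ v2 ∈ P.JJ (X t2) a b,
      ∃ d : ℝ, v1 < d ∧ d < v2 ∧ P.pt a b d ∉ P.VV p (K + 1)) :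
    T.card ≤ 3 * (⌈b⌉ - ⌊a⌋).toNat := by
  classical
  -- the pivots
  have hpiv : ∀ t : ℝ, ∃ (D s0 : ℝ) (q : ℤ), t ∈ T → P.Pivot (S t).i (X t).i (S t).a (S t).b D s0 q := by
    intro t
    by_cases ht : t ∈ T
    · obtain ⟨D, s0, q, hp⟩ := P.hook_pivot hc (hT t ht).1.hb (hT t ht).2.2.1
      exact ⟨D, s0, q, fun _ => hp⟩
    · exact ⟨0, 0, 0, fun h => absurd h ht⟩
  choose D s0 q hp using hpiv
  -- different items have disjoint components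
  have hne : ∀ t1 ∈ T, ∀ t2 ∈ T, t1 < t2 → X t1 ≠ X t2 := by
    intro t1 h1 t2 h2 hlt heq
    obtain ⟨v1, hv1, v2, hv2, d, h3, h4, h5⟩ := hsep t1 h1 t2 h2 hlt
    rw [← heq] at hv2
    have hXc := (hT t1 h1).1.Xc
    exact h5 (P.JJ_lit hXc.sub (P.JJ_conv hc hw.vis hXc.ia hXc.bi hv1 hv2 h3.le h4.le))
  have hne' : ∀ t1 ∈ T, ∀ t2 ∈ T, t1 ≠ t2 → X t1 ≠ X t2 := by
    intro t1 h1 t2 h2 hlt
    rcases lt_or_gt_of_ne hlt with h | h
    · exact hne t1 h1 t2 h2 h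
    · exact (hne t2 h2 t1 h1 h).symm
  have hdis : ∀ t1 ∈ T, ∀ t2 ∈ T, t1 ≠ t2 → Disjoint (X t1).s (X t2).s := by
    intro t1 h1 t2 h2 hlt
    rw [disjoint_left]
    intro x hx hx'
    exact hne' t1 h1 t2 h2 hlt (P.comp_unique (hT t1 h1).1.Xc (hT t2 h2).1.Xc hx hx')
  have hDne : ∀ t1 ∈ T, ∀ t2 ∈ T, t1 ≠ t2 → D t1 ≠ D t2 := by
    intro t1 h1 t2 h2 hlt heq
    obtain ⟨e1, e2⟩ := P.hook_D hc (hT t1 h1).1.hb (hp t1 h1)
    obtain ⟨e3, e4⟩ := P.hook_D hc (hT t2 h2).1.hb (hp t2 h2)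
    rw [← heq] at e3 e4
    obtain ⟨x, hx1, hx2⟩ := exists_between (lt_min e2 e4)
    exact disjoint_left.1 (hdis t1 h1 t2 h2 hlt)
      (show x ∈ (X t1).s from ⟨by linarith, hx2.trans_le (min_le_left _ _)⟩)
      ⟨by linarith, hx2.trans_le (min_le_right _ _)⟩
  -- bounds of the labels
  have hXi : ∀ t ∈ T, (X t).i < ⌈b⌉ ∧ ⌊a⌋ ≤ (X t).i := by
    intro t ht
    obtain ⟨hI, hXs, -, -⟩ := hT t ht
    obtain ⟨e1, e2⟩ := LCountL_X hI.hb.Xab hXs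
    have e3 := hI.hb.Xia
    have e4 := hI.hb.Xab
    have e5 := hI.hb.Xbi
    refine ⟨Int.lt_ceil.2 (by linarith), ?_⟩
    have h1 : ⌊a⌋ < (X t).i + 1 := by
      rw [Int.floor_lt]
      push_cast
      linarith
    omega
  have hqi : ∀ t ∈ T, q t < ⌈b⌉ := fun t ht => (hp t ht).qj.trans_lt (hXi t ht).1
  -- the three classes
  set TA : Finset ℝ := T.filter fun t => (S t).b ≤ b - n with hTA
  set TB : Finset ℝ := T.filter fun t => b - n ≤ (S t).a ∧ a < q t with hTB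
  set TC : Finset ℝ := T.filter fun t => b - n ≤ (S t).a ∧ (q t : ℝ) ≤ a with hTC
  have hcover : T ⊆ TA ∪ (TB ∪ TC) := by
    intro t ht
    rw [Finset.mem_union, Finset.mem_union, hTA, hTB, hTC, Finset.mem_filter, Finset.mem_filter,
      Finset.mem_filter]
    obtain ⟨hI, hXs, hk, -⟩ := hT t ht
    rcases (P.hookL_pos hc hw hI hk hXs).2 with h1 | h1
    · exact Or.inl ⟨ht, h1⟩
    · rcases lt_or_ge a (q t : ℝ) with h2 | h2
      · exact Or.inr (Or.inl ⟨ht, h1, h2⟩)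
      · exact Or.inr (Or.inr ⟨ht, h1, h2⟩)
  have hcard : (Finset.Ico ⌊a⌋ ⌈b⌉).card = (⌈b⌉ - ⌊a⌋).toNat := Int.card_Ico _ _
  have hA : TA.card ≤ (⌈b⌉ - ⌊a⌋).toNat := by
    rw [← hcard]
    refine Finset.card_le_card_of_injOn q ?_ ?_
    · intro t ht
      have ht' := Finset.mem_filter.1 (Finset.mem_coe.1 ht)
      obtain ⟨hI, hXs, hk, -⟩ := hT t ht'.1
      have h1 := P.c1_q hc hw hI hk hXs ht'.2 (hp t ht'.1)
      rw [Finset.coe_Ico]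
      refine ⟨?_, hqi t ht'.1⟩
      have h2 : (⌊a⌋ : ℝ) ≤ q t := (Int.floor_le a).trans h1
      exact_mod_cast h2
    · intro t1 ht1 t2 ht2 heq
      have ht1' := Finset.mem_filter.1 (Finset.mem_coe.1 ht1)
      have ht2' := Finset.mem_filter.1 (Finset.mem_coe.1 ht2)
      by_contra hcon
      obtain ⟨hI1, hX1, hk1, hJ1⟩ := hT t1 ht1'.1
      obtain ⟨hI2, hX2, hk2, hJ2⟩ := hT t2 ht2'.1
      have hp1 := hp t1 ht1'.1
      have hp2 := hp t2 ht2'.1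
      have heq' : q t1 = q t2 := heq
      rw [heq'] at hp1
      rcases lt_or_gt_of_ne (hDne t1 ht1'.1 t2 ht2'.1 hcon) with h | h
      · exact P.c1_pair hc hw hI1 hX1 hI2 hk2 hX2 ht2'.2 hp1 hp2 h (hdis t1 ht1'.1 t2 ht2'.1 hcon) hJ1
      · exact P.c1_pair hc hw hI2 hX2 hI1 hk1 hX1 ht1'.2 hp2 hp1 h
          (hdis t2 ht2'.1 t1 ht1'.1 (Ne.symm hcon)) hJ2
  have hB : TB.card ≤ (⌈b⌉ - ⌊a⌋).toNat := by
    rw [← hcard]
    have key : ∀ t1 ∈ TB, ∀ t2 ∈ TB, t1 < t2 → q t1 ≠ q t2 := by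
      intro t1 ht1 t2 ht2 hlt heq
      obtain ⟨m1, b1, q1⟩ := Finset.mem_filter.1 ht1
      obtain ⟨m2, b2, q2⟩ := Finset.mem_filter.1 ht2
      obtain ⟨hI1, hX1, hk1, hJ1⟩ := hT t1 m1
      obtain ⟨hI2, hX2, hk2, hJ2⟩ := hT t2 m2
      have hp1 := hp t1 m1
      have hp2 := hp t2 m2
      rw [heq] at hp1
      obtain ⟨v1, hv1, v2, hv2, d, h3, h4, h5⟩ := hsep t1 m1 t2 m2 hlt
      refine h5 (P.c2_hull hc hw hI1 hX1 b1 (P.hookL_pos hc hw hI1 hk1 hX1).1 hI2 hX2 b2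
        (P.hookL_pos hc hw hI2 hk2 hX2).1 hp1 hp2 q2 hv1 hv2 d ?_)
      rw [mem_uIcc]
      exact Or.inl ⟨h3.le, h4.le⟩
    refine Finset.card_le_card_of_injOn q ?_ ?_
    · intro t ht
      obtain ⟨m1, b1, q1⟩ := Finset.mem_filter.1 (Finset.mem_coe.1 ht)
      rw [Finset.coe_Ico]
      refine ⟨?_, hqi t m1⟩
      have h2 : (⌊a⌋ : ℝ) ≤ q t := (Int.floor_le a).trans q1.le
      exact_mod_cast h2
    · intro t1 ht1 t2 ht2 heq
      by_contra hcon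
      rcases lt_or_gt_of_ne hcon with h | h
      · exact key t1 (Finset.mem_coe.1 ht1) t2 (Finset.mem_coe.1 ht2) h heq
      · exact key t2 (Finset.mem_coe.1 ht2) t1 (Finset.mem_coe.1 ht1) h heq.symm
  have hC : TC.card ≤ (⌈b⌉ - ⌊a⌋).toNat := by
    rw [← hcard]
    have key : ∀ t1 ∈ TC, ∀ t2 ∈ TC, t1 < t2 → (X t1).i ≠ (X t2).i := by
      intro t1 ht1 t2 ht2 hlt heq
      obtain ⟨m1, b1, q1⟩ := Finset.mem_filter.1 ht1
      obtain ⟨m2, b2, q2⟩ := Finset.mem_filter.1 ht2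
      obtain ⟨hI1, hX1, hk1, hJ1⟩ := hT t1 m1
      obtain ⟨hI2, hX2, hk2, hJ2⟩ := hT t2 m2
      obtain ⟨v1, hv1, v2, hv2, d, h3, h4, h5⟩ := hsep t1 m1 t2 m2 hlt
      exact P.c3_pair hc hw (P.oitem_of hc hw hI1 hk1 hX1 b1 (hp t1 m1) q1)
        (P.oitem_of hc hw hI2 hk2 hX2 b2 (hp t2 m2) q2) heq hv1 hv2 h3 h4 h5
    refine Finset.card_le_card_of_injOn (fun t => (X t).i) ?_ ?_
    · intro t ht
      obtain ⟨m1, b1, q1⟩ := Finset.mem_filter.1 (Finset.mem_coe.1 ht)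
      rw [Finset.coe_Ico]
      exact ⟨(hXi t m1).2, (hXi t m1).1⟩
    · intro t1 ht1 t2 ht2 heq
      by_contra hcon
      rcases lt_or_gt_of_ne hcon with h | h
      · exact key t1 (Finset.mem_coe.1 ht1) t2 (Finset.mem_coe.1 ht2) h heq
      · exact key t2 (Finset.mem_coe.1 ht2) t1 (Finset.mem_coe.1 ht1) h heq.symm
  have h1 := (Finset.card_le_card hcover).trans (Finset.card_union_le _ _)
  have h2 := Finset.card_union_le TB TC
  omega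

end Poly

end Pool.Agent.Lib_PL
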