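import Pool.Agent.Lib_PLQ.NonReg
import Pool.Agent.Lib_PLQ.EdgeCount
import Pool.Agent.Lib_PL.Final

/-!
# Assembly: `O_k(n²)` vertices and edges

Windows `W` (at most `n (1 + n + 2 a n)`, `thmA`), `E = W` and the polygon edges, `subdiv`.  The vertices in `C` are ends of windows or vertices of the polygon (`edge_reg`), the
vertices in `I` are non-regular points (`nonreg_count`), the edges are counted by `edges_count`.
-/

open Set Complex
open scoped Topology

namespace Pool.Agent.Lib_PL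

namespace Poly

variable {n : ℕ} (P : Poly n)

/-- a set of complex numbers all of whose finite subsets have at most `N` elements is finite -/
private theorem Main2_finite {S : Set ℂ} {N : ℕ}
    (h : ∀ F : Finset ℂ, (∀ z ∈ F, z ∈ S) → F.card ≤ N) : S.Finite := by
  by_contra hcon
  obtain ⟨F, hF1, hF2⟩ := Set.Infinite.exists_subset_card_eq hcon (N + 1)
  have := h F fun z hz => hF1 hz
  omega

private theorem Main2_vertex (i : ℤ) :
    ∃ m : ℕ, m < n ∧ P.V i = P.V m ∧ P.V (i + 1) = P.V (m + 1) := by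
  have hn : (0 : ℤ) < n := by
    have := P.three_le
    omega
  have h1 := Int.emod_nonneg i hn.ne'
  have h2 := Int.emod_lt_of_pos i hn
  have h3 : i = i % n + (i / n) * n := by
    have := Int.emod_add_mul_ediv i n
    linarith
  obtain ⟨m, hm⟩ := Int.eq_ofNat_of_zero_le h1
  have hm' : i % n = (m : ℤ) := hm
  refine ⟨m, ?_, ?_, ?_⟩
  · rw [hm'] at h2
    exact_mod_cast h2
  · rw [← hm', ← P.V_add_mul (i % n) (i / n), ← h3]
  · rw [← hm', ← P.V_add_mul (i % n + 1) (i / n)]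
    congr 1
    linarith

theorem main_ccw2 (k : ℕ) : ∃ c : ℕ, ∀ (n : ℕ) (P : Poly n), P.CCW → ∀ p ∈ P.R,
    ∃ (Q : Finset ℂ) (T : Finset (ℂ × ℂ)), Q.card + T.card ≤ c * n ^ 2 ∧
      IsSubdiv (frontier (P.VV p k)) Q T := by
  classical
  obtain ⟨a, ha⟩ : ∃ a : ℕ, ∀ j < k, cA j ≤ a :=
    ⟨∑ j ∈ Finset.range k, cA j, fun j hj =>
      Finset.single_le_sum (f := cA) (fun _ _ => Nat.zero_le _) (Finset.mem_range.2 hj)⟩
  refine ⟨3 * cN k + 5 * (2 + 2 * a) + 2, ?_⟩
  intro n P hc p hp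
  have hn : 1 ≤ n := le_trans (by norm_num) P.three_le
  obtain ⟨W, hW1, hW2, hW3⟩ := P.windows hc hp (k := k) (A := a * n) (by
    intro j ν T hj hT hsep
    exact (P.thmA hc p j ν T hT hsep).trans (Nat.mul_le_mul_right _ (ha j hj)))
  have hWC : ∀ w ∈ W, w.1 ∈ P.C ∧ w.2 ∈ P.C ∧ P.Vis w.1 w.2 := by
    intro w hw
    obtain ⟨ν, ω, h1, h2, h3⟩ := hW2 w hw
    refine ⟨?_, ?_, h3⟩
    · rw [h1, ← P.γ_int]
      exact P.γ_mem_C _
    · rw [h2]
      exact P.γ_mem_C _
  set A : Set ℂ := frontier (P.VV p k) with hAdef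
  -- the points of `Q` in `C`
  set D : Finset ℂ := (W.image Prod.fst ∪ W.image Prod.snd) ∪
    (Finset.range n).image (fun i : ℕ => P.V i) with hDdef
  have hD : D.card ≤ 2 * W.card + n := by
    have h1 : (W.image Prod.fst).card ≤ W.card := Finset.card_image_le
    have h2 : (W.image Prod.snd).card ≤ W.card := Finset.card_image_le
    have h3 : ((Finset.range n).image (fun i : ℕ => P.V i)).card ≤ n :=
      Finset.card_image_le.trans (by simp)
    have h4 := Finset.card_union_le (W.image Prod.fst) (W.image Prod.snd)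
    have h5 := Finset.card_union_le (W.image Prod.fst ∪ W.image Prod.snd)
      ((Finset.range n).image (fun i : ℕ => P.V i))
    rw [hDdef]
    omega
  have hDW : ∀ w ∈ W, w.1 ∈ D ∧ w.2 ∈ D := by
    intro w hw
    constructor
    · exact Finset.mem_union_left _ (Finset.mem_union_left _ (Finset.mem_image_of_mem _ hw))
    · exact Finset.mem_union_left _ (Finset.mem_union_right _ (Finset.mem_image_of_mem _ hw))
  have hDV : ∀ i : ℤ, P.V i ∈ D := by
    intro i
    obtain ⟨m, hm, h1, -⟩ := P.Main2_vertex i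
    rw [h1]
    exact Finset.mem_union_right _ (Finset.mem_image.2 ⟨m, Finset.mem_range.2 hm, rfl⟩)
  have hDC : ∀ z ∈ D, z ∈ P.C := by
    intro z hz
    rcases Finset.mem_union.1 hz with h | h
    · rcases Finset.mem_union.1 h with h | h
      · obtain ⟨w, hw, rfl⟩ := Finset.mem_image.1 h
        exact (hWC w hw).1
      · obtain ⟨w, hw, rfl⟩ := Finset.mem_image.1 h
        exact (hWC w hw).2.1
    · obtain ⟨i, -, rfl⟩ := Finset.mem_image.1 h
      rw [← P.γ_int]
      exact P.γ_mem_C _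
  -- irregular points of `A`
  have hirrC : ∀ z ∈ A, ¬ Reg A z → z ∈ P.C → z ∈ D := by
    intro z hz hreg hC
    obtain ⟨x, rfl⟩ := (P.mem_C_iff z).1 hC
    by_cases hx : NI x
    · by_contra hcon
      refine hreg (P.edge_reg hc W hWC hW3 hx hz ?_)
      intro w hw
      constructor
      · intro h
        exact hcon (h ▸ (hDW w hw).1)
      · intro h
        exact hcon (h ▸ (hDW w hw).2)
    · unfold NI at hx
      push Not at hx
      obtain ⟨m, rfl⟩ := hx
      rw [P.γ_int]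
      exact hDV m
  have hirrI : ∀ F : Finset ℂ, (∀ z ∈ F, z ∈ P.I ∧ z ∈ A ∧ ¬ Reg A z) → F.card ≤ cN k * n ^ 2 :=
    fun F hF => P.nonreg_count hc hp W hWC hW3 F hF
  set Ed : Finset (ℂ × ℂ) := (Finset.range n).image (fun i : ℕ => (P.V i, P.V ((i : ℤ) + 1)))
    with hEd
  have hE1 : ∀ e ∈ W ∪ Ed, e.1 ≠ e.2 := by
    intro e he
    rcases Finset.mem_union.1 he with h | h
    · obtain ⟨x, hx⟩ := (P.mem_C_iff _).1 (hWC e h).1
      have hv := (hWC e h).2.2
      rw [← hx] at hv ⊢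
      exact hv.ne
    · obtain ⟨i, -, rfl⟩ := Finset.mem_image.1 h
      exact P.V_ne i
  have hE2 : ∀ z ∈ A, ∃ e ∈ W ∪ Ed, z ∈ segment ℝ e.1 e.2 := by
    intro z hz
    rcases P.frontier_R hz with hC | hI
    · obtain ⟨i, hi⟩ := mem_iUnion.1 hC
      obtain ⟨m, hm, h1, h2⟩ := P.Main2_vertex i
      rw [h1, h2] at hi
      exact ⟨_, Finset.mem_union_right _ (Finset.mem_image.2 ⟨m, Finset.mem_range.2 hm, rfl⟩), hi⟩
    · obtain ⟨w, hw, h⟩ := hW3 z hz hI
      exact ⟨w, Finset.mem_union_left _ hw, openSegment_subset_segment _ _ _ h⟩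
  have hE3 : {z | z ∈ A ∧ ¬ Reg A z}.Finite := by
    refine Set.Finite.subset (D.finite_toSet.union (Main2_finite (N := cN k * n ^ 2)
      (S := {z | z ∈ P.I ∧ z ∈ A ∧ ¬ Reg A z}) fun F hF => hirrI F hF)) ?_
    rintro z ⟨hz, hreg⟩
    rcases P.frontier_R hz with hC | hI
    · exact Or.inl (Finset.mem_coe.2 (hirrC z hz hreg hC))
    · exact Or.inr ⟨hI, hz, hreg⟩
  obtain ⟨Q, T, hsub, hQ, -⟩ := subdiv A isClosed_frontier (W ∪ Ed) hE1 hE2 hE3
  have hends : ∀ e ∈ W ∪ Ed, e.1 ∈ D ∧ e.2 ∈ D := by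
    intro e he
    rcases Finset.mem_union.1 he with h | h
    · exact hDW e h
    · obtain ⟨i, -, rfl⟩ := Finset.mem_image.1 h
      exact ⟨hDV i, hDV (i + 1)⟩
  have hdat : P.EData p k W Q T := by
    refine ⟨hWC, hW3, hsub, ?_, ?_, ?_⟩
    · intro z hz hzQ
      by_contra hr
      exact hzQ ((hQ z).2 ⟨hz, Or.inl hr⟩)
    · intro i hi
      obtain ⟨m, hm, h1, -⟩ := P.Main2_vertex i
      refine (hQ _).2 ⟨hi, Or.inr ⟨(P.V (m : ℤ), P.V ((m : ℤ) + 1)), ?_, Or.inl h1⟩⟩
      exact Finset.mem_union_right _ (Finset.mem_image.2 ⟨m, Finset.mem_range.2 hm, rfl⟩)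
    · intro w hw
      exact ⟨fun h => (hQ _).2 ⟨h, Or.inr ⟨w, Finset.mem_union_left _ hw, Or.inl rfl⟩⟩,
        fun h => (hQ _).2 ⟨h, Or.inr ⟨w, Finset.mem_union_left _ hw, Or.inr rfl⟩⟩⟩
  have hQI : (Q.filter fun z => z ∈ P.I).card ≤ cN k * n ^ 2 := by
    refine hirrI _ fun z hz => ?_
    obtain ⟨h1, hI⟩ := Finset.mem_filter.1 hz
    obtain ⟨h2, h3 | ⟨e, he, h3 | h3⟩⟩ := (hQ z).1 h1
    · exact ⟨hI, h2, h3⟩
    · exact absurd (hDC _ (h3 ▸ (hends e he).1)) (P.I_disj_C hI)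
    · exact absurd (hDC _ (h3 ▸ (hends e he).2)) (P.I_disj_C hI)
  have hQC : (Q.filter fun z => z ∈ P.C).card ≤ 2 * W.card + n := by
    refine (Finset.card_le_card (t := D) ?_).trans hD
    intro z hz
    obtain ⟨h1, hC⟩ := Finset.mem_filter.1 hz
    obtain ⟨h2, h3 | ⟨e, he, h3 | h3⟩⟩ := (hQ z).1 h1
    · exact hirrC z h2 h3 hC
    · rw [h3]
      exact (hends e he).1
    · rw [h3]
      exact (hends e he).2
  have hQc : Q.card ≤ (Q.filter fun z => z ∈ P.I).card + (Q.filter fun z => z ∈ P.C).card := by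
    refine (Finset.card_le_card ?_).trans (Finset.card_union_le _ _)
    intro z hz
    rcases P.frontier_R (hdat.vtx hz) with hC | hI
    · exact Finset.mem_union_right _ (Finset.mem_filter.2 ⟨hz, hC⟩)
    · exact Finset.mem_union_left _ (Finset.mem_filter.2 ⟨hz, hI⟩)
  have hTc := P.edges_count hc hp hdat
  refine ⟨Q, T, ?_, hsub⟩
  have hWn : W.card ≤ (2 + 2 * a) * n ^ 2 := by
    refine hW1.trans ?_
    have : n * (1 + n + 2 * (a * n)) ≤ n * (n + n + 2 * (a * n)) :=
      Nat.mul_le_mul_left _ (by omega)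
    refine this.trans (le_of_eq (by ring))
  have hn2 : n ≤ n ^ 2 := Nat.le_self_pow (by norm_num) n
  have h5 : Q.card + T.card ≤ 3 * (cN k * n ^ 2) + 5 * W.card + 2 * n := by omega
  calc Q.card + T.card ≤ 3 * (cN k * n ^ 2) + 5 * W.card + 2 * n := h5
    _ ≤ 3 * (cN k * n ^ 2) + 5 * ((2 + 2 * a) * n ^ 2) + 2 * n ^ 2 := by
      refine Nat.add_le_add (Nat.add_le_add_left (Nat.mul_le_mul_left _ hWn) _)
        (Nat.mul_le_mul_left _ hn2)
    _ = (3 * cN k + 5 * (2 + 2 * a) + 2) * n ^ 2 := by ring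

end Poly

/-- for every `k` there is a constant `c` such that for every simple polygon with `n` edges and every light source in it, the boundary of the region lit with at most
`k` diffuse reflections is subdivided into at most `c n²` vertices and edges -/
theorem main_final2 (k : ℕ) : ∃ c : ℕ, ∀ (n : ℕ) (P : SimplePolygon n), ∀ p ∈ P.region,
    ∃ (Q : Finset ℂ) (T : Finset (ℂ × ℂ)), Q.card + T.card ≤ c * n ^ 2 ∧
      IsSubdiv (frontier (P.litRegion p k)) Q T := by
  obtain ⟨c, hc⟩ := Poly.main_ccw2 k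
  refine ⟨c, fun n P p hp => ?_⟩
  rcases P.toPoly.ccw_or with h | h
  · have h1 := hc n P.toPoly h p (by rw [P.toPoly_R]; exact hp)
    rw [P.toPoly_VV] at h1
    exact h1
  · have h1 := hc n P.toPoly.rev h p (by rw [rev_R, P.toPoly_R]; exact hp)
    rw [rev_VV, P.toPoly_VV] at h1
    exact h1

end Pool.Agent.Lib_PL
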