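import Pool.Agent.Lib_PLQ.NNext

/-!
# A8, second part: counting the points of class `NN`

`nn_next` splits `Z` into `Z₁` (first alternative) and `Z₂`.
`Z₁`: choose `(X, a, b)` and the end.  The map `z ↦ ((a,b), end)` is injective on `Z₁`: let `z ≠ z'` have the same chord and the same end `E`; both are on the open chord, so `z' ∈ openSegment z E` or `z ∈ openSegment z' E`; say the first.  Then the points `z' + t (z' - E)`, small `t > 0`, are on `openSegment z E` and lit: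
contradiction.  The chords form a finite set of canonical window data: at most `N2`; so `|Z₁| ≤ 2 N2`.
`Z₂`: choose `z2` for every `z`.  The image has at most `N1` elements.  A fibre has at most `2` elements: three different `z, z', z''` with the same `z2`; by `local_struct`, `frontier_cone` at `z2` the directions `z - z2` .. are in `Ext H`; by `ext_rays` two of them are positive multiples, say `z' - z2 = t (z - z2)`, `t > 0`, `t ≠ 1`; if `t > 1` then
`z ∈ openSegment z' z2` and the points `z + s (z - z2)`, small `s > 0`, are lit and on `openSegment z' z2`: contradiction; `t < 1` symmetric.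
-/

open Set Complex
open scoped Topology

namespace Pool.Agent.Lib_PL

namespace Poly

variable {n : ℕ} (P : Poly n)

/-- two dark segments on the same ray which end at the same point start at the same point -/
private theorem NNCount_ray_lt {p : ℂ} {k : ℕ} {z z' w : ℂ} (h : P.DarkSeg p k z w)
    (h' : P.DarkSeg p k z' w) {t : ℝ} (ht : 0 < t) (ht1 : t < 1)
    (e : z' - w = (t : ℂ) * (z - w)) : False := by
  obtain ⟨-, h2, -⟩ := h
  obtain ⟨-, -, ε, hε, h3⟩ := h'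
  obtain ⟨s, hs0, hs1, hs2⟩ : ∃ s : ℝ, 0 < s ∧ s < ε ∧ (1 + s) * t < 1 := by
    refine ⟨min (ε / 2) ((1 - t) / 2), ?_, ?_, ?_⟩
    · exact lt_min (by linarith) (by linarith)
    · exact lt_of_le_of_lt (min_le_left _ _) (by linarith)
    · have hm : min (ε / 2) ((1 - t) / 2) ≤ (1 - t) / 2 := min_le_right _ _
      have hm0 : 0 < min (ε / 2) ((1 - t) / 2) := lt_min (by linarith) (by linarith)
      nlinarith
  refine h2 (z' + (s : ℂ) * (z' - w)) ?_ (h3 s hs0 hs1)
  rw [openSegment_eq_image]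
  refine ⟨1 - (1 + s) * t, ⟨by linarith, ?_⟩, ?_⟩
  · have : 0 < (1 + s) * t := by positivity
    linarith
  · have e' : z' = w + (t : ℂ) * (z - w) := by rw [← e]; ring
    rw [e]
    simp only [Complex.real_smul]
    rw [e']
    push_cast
    ring

private theorem NNCount_ray {p : ℂ} {k : ℕ} {z z' w : ℂ} (h : P.DarkSeg p k z w)
    (h' : P.DarkSeg p k z' w) {t : ℝ} (ht : 0 < t) (e : z' - w = (t : ℂ) * (z - w)) :
    z = z' := by
  rcases lt_trichotomy t 1 with h1 | h1 | h1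
  · exact (P.NNCount_ray_lt h h' ht h1 e).elim
  · subst h1
    have : z' - w = z - w := by rw [e]; push_cast; ring
    have h4 := sub_left_injective this
    exact h4.symm
  · refine (P.NNCount_ray_lt h' h (inv_pos.2 ht) (inv_lt_one_of_one_lt₀ h1) ?_).elim
    have ht' : (t : ℂ) ≠ 0 := by exact_mod_cast ht.ne'
    rw [e]
    push_cast
    field_simp

private theorem NNCount_seg {u v z z' : ℂ} (hz : z ∈ openSegment ℝ u v)
    (hz' : z' ∈ openSegment ℝ u v) : ∃ t : ℝ, 0 < t ∧ z' - u = (t : ℂ) * (z - u) := by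
  rw [openSegment_eq_image'] at hz hz'
  obtain ⟨s, ⟨hs0, -⟩, rfl⟩ := hz
  obtain ⟨s', ⟨hs0', -⟩, rfl⟩ := hz'
  refine ⟨s' / s, div_pos hs0' hs0, ?_⟩
  have hs : (s : ℂ) ≠ 0 := by exact_mod_cast hs0.ne'
  simp only [Complex.real_smul]
  push_cast
  field_simp
  ring

private theorem NNCount_end {p : ℂ} {k : ℕ} {u v z z' : ℂ} (hz : z ∈ openSegment ℝ u v)
    (hz' : z' ∈ openSegment ℝ u v) (h : P.DarkSeg p k z u) (h' : P.DarkSeg p k z' u) :
    z = z' := by
  obtain ⟨t, ht, e⟩ := NNCount_seg hz hz'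
  exact P.NNCount_ray h h' ht e

private theorem NNCount_ext {H : Finset ℂ} {v : ℂ} {t : ℝ} (ht : 0 < t)
    (h : Ext H ((t : ℂ) * v)) : Ext H v := by
  obtain ⟨h1, g, hg, h2⟩ := h
  refine ⟨fun g' hg' => ?_, g, hg, ?_⟩
  · have := h1 g' hg'
    rw [cr_mul_right] at this
    exact nonpos_of_mul_nonpos_right this ht
  · rw [cr_mul_right] at h2
    exact (mul_eq_zero.1 h2).resolve_left ht.ne'

private theorem NNCount_frray {p : ℂ} {k : ℕ} {w z : ℂ} {H : Finset ℂ} {ρ : ℝ} (hρ : 0 < ρ)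
    (hH : ∀ z' : ℂ, ‖z' - w‖ < ρ → (z' ∈ frontier (P.VV p k) ↔ Ext H (z' - w)))
    (h : P.FrRay p k w z) : Ext H (z - w) := by
  obtain ⟨ε, hε, h1⟩ := h
  set t : ℝ := min (ε / 2) (ρ / (2 * (‖z - w‖ + 1))) with htdef
  have hn : 0 < ‖z - w‖ + 1 := by positivity
  have ht : 0 < t := lt_min (by linarith) (by positivity)
  have ht1 : t < ε := lt_of_le_of_lt (min_le_left _ _) (by linarith)
  have ht2 : t * ‖z - w‖ < ρ := by
    have h3 : t ≤ ρ / (2 * (‖z - w‖ + 1)) := min_le_right _ _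
    have h4 : t * (2 * (‖z - w‖ + 1)) ≤ ρ := (le_div_iff₀ (by positivity)).1 h3
    nlinarith [norm_nonneg (z - w)]
  have h5 := h1 t ht ht1
  rw [hH] at h5
  · rw [add_sub_cancel_left] at h5
    exact NNCount_ext ht h5
  · rw [add_sub_cancel_left, norm_mul, Complex.norm_real, Real.norm_of_nonneg ht.le]
    exact ht2

theorem nn_count (hc : P.CCW) {p : ℂ} (hp : p ∈ P.R) {K N1 N2 : ℕ}
    (h1 : ∀ F : Finset ℂ, (∀ z ∈ F, z ∈ P.I ∧ z ∈ frontier (P.VV p (K + 1)) ∧
      ¬ Reg (frontier (P.VV p (K + 1))) z ∧ ((∃ h, P.PS p z h) ∨ P.Far p K z)) → F.card ≤ N1)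
    (h2 : ∀ G : Finset (ℝ × ℝ), (∀ w ∈ G, 0 ≤ w.1 ∧ w.1 < n ∧ ∃ X, P.WD p K X w.1 w.2) →
      G.card ≤ N2)
    (Z : Finset ℂ) (hZ : ∀ z ∈ Z, z ∈ P.I ∧ z ∉ P.VV p (K + 1) ∧ P.NN p K z) :
    Z.card ≤ 2 * N1 + 2 * N2 := by
  classical
  have hnext := fun z (hz : z ∈ Z) => P.nn_next hc hp (hZ z hz).1 (hZ z hz).2.1 (hZ z hz).2.2
  -- the two alternatives
  set A : ℂ → Prop := fun z => ∃ (X : Arc) (a b : ℝ), P.WD p K X a b ∧ 0 ≤ a ∧ a < n ∧
    z ∈ openSegment ℝ (P.γ a) (P.γ b) ∧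
      (P.DarkSeg p (K + 1) z (P.γ a) ∨ P.DarkSeg p (K + 1) z (P.γ b)) with hA
  set B : ℂ → Prop := fun z => ∃ z2 ∈ P.I, z2 ∈ frontier (P.VV p (K + 1)) ∧
    ¬ Reg (frontier (P.VV p (K + 1))) z2 ∧ ((∃ h, P.PS p z2 h) ∨ P.Far p K z2) ∧
      P.DarkSeg p (K + 1) z z2 ∧ P.FrRay p (K + 1) z2 z with hB
  have hsplit : Z.card = (Z.filter A).card + (Z.filter fun z => ¬ A z).card :=
    (Finset.card_filter_add_card_filter_not (s := Z) A).symm
  have hZ1 : (Z.filter A).card ≤ 2 * N2 := by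
    have hch : ∀ z : ℂ, ∃ w : ℝ × ℝ, z ∈ Z.filter A → (0 ≤ w.1 ∧ w.1 < n ∧
        (∃ X, P.WD p K X w.1 w.2) ∧ z ∈ openSegment ℝ (P.γ w.1) (P.γ w.2) ∧
          (P.DarkSeg p (K + 1) z (P.γ w.1) ∨ P.DarkSeg p (K + 1) z (P.γ w.2))) := by
      intro z
      by_cases hz : z ∈ Z.filter A
      · obtain ⟨X, a, b, h3, h4, h5, h6, h7⟩ := (Finset.mem_filter.1 hz).2
        exact ⟨(a, b), fun _ => ⟨h4, h5, ⟨X, h3⟩, h6, h7⟩⟩
      · exact ⟨(0, 0), fun h => (hz h).elim⟩
    choose f hf using hch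
    have hcard := Finset.card_le_mul_card_image (f := f) (Z.filter A) 2 (fun w _ => by
      by_contra hlt
      obtain ⟨z, z', z'', hz, hz', hz'', n1, n2, n3⟩ := Finset.two_lt_card_iff.1 (not_le.1 hlt)
      rw [Finset.mem_filter] at hz hz' hz''
      obtain ⟨-, -, -, a1, a2⟩ := hf z hz.1
      obtain ⟨-, -, -, b1, b2⟩ := hf z' hz'.1
      obtain ⟨-, -, -, c1, c2⟩ := hf z'' hz''.1
      rw [hz.2] at a1 a2
      rw [hz'.2] at b1 b2
      rw [hz''.2] at c1 c2
      have sa := a1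
      have sb := b1
      have sc := c1
      rw [openSegment_symm] at sa sb sc
      rcases a2 with a2 | a2 <;> rcases b2 with b2 | b2 <;> rcases c2 with c2 | c2
      · exact n1 (P.NNCount_end a1 b1 a2 b2)
      · exact n1 (P.NNCount_end a1 b1 a2 b2)
      · exact n2 (P.NNCount_end a1 c1 a2 c2)
      · exact n3 (P.NNCount_end sb sc b2 c2)
      · exact n3 (P.NNCount_end b1 c1 b2 c2)
      · exact n2 (P.NNCount_end sa sc a2 c2)
      · exact n1 (P.NNCount_end sa sb a2 b2)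
      · exact n1 (P.NNCount_end sa sb a2 b2))
    have hG := h2 ((Z.filter A).image f) (fun w hw => by
      obtain ⟨z, hz, rfl⟩ := Finset.mem_image.1 hw
      obtain ⟨h3, h4, h5, -⟩ := hf z hz
      exact ⟨h3, h4, h5⟩)
    calc (Z.filter A).card ≤ 2 * ((Z.filter A).image f).card := hcard
      _ ≤ 2 * N2 := Nat.mul_le_mul_left _ hG
  have hZ2 : (Z.filter fun z => ¬ A z).card ≤ 2 * N1 := by
    have hch : ∀ z : ℂ, ∃ w : ℂ, z ∈ (Z.filter fun z => ¬ A z) → (w ∈ P.I ∧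
        w ∈ frontier (P.VV p (K + 1)) ∧ ¬ Reg (frontier (P.VV p (K + 1))) w ∧
          ((∃ h, P.PS p w h) ∨ P.Far p K w) ∧ P.DarkSeg p (K + 1) z w ∧
            P.FrRay p (K + 1) w z) := by
      intro z
      by_cases hz : z ∈ (Z.filter fun z => ¬ A z)
      · obtain ⟨hz1, hz2⟩ := Finset.mem_filter.1 hz
        rcases hnext z hz1 with h | ⟨w, h3, h4⟩
        · exact (hz2 h).elim
        · exact ⟨w, fun _ => ⟨h3, h4⟩⟩
      · exact ⟨0, fun h => (hz h).elim⟩
    choose f hf using hch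
    have hcard := Finset.card_le_mul_card_image (f := f) (Z.filter fun z => ¬ A z) 2 (fun w _ => by
      by_contra hlt
      obtain ⟨z, z', z'', hz, hz', hz'', n1, n2, n3⟩ := Finset.two_lt_card_iff.1 (not_le.1 hlt)
      rw [Finset.mem_filter] at hz hz' hz''
      obtain ⟨wI, wf, -, -, a1, a2⟩ := hf z hz.1
      obtain ⟨-, -, -, -, b1, b2⟩ := hf z' hz'.1
      obtain ⟨-, -, -, -, c1, c2⟩ := hf z'' hz''.1
      rw [hz.2] at wI wf a1 a2
      rw [hz'.2] at b1 b2
      rw [hz''.2] at c1 c2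
      obtain ⟨H, -, hS, hloc⟩ := P.local_struct hc hp wI wf
      have h0 : ∀ h ∈ H, h ≠ 0 := fun h hh => (hS h hh).h0
      obtain ⟨ρ, hρ, hfr⟩ := frontier_cone h0 hloc
      have ea := P.NNCount_frray hρ hfr a2
      have eb := P.NNCount_frray hρ hfr b2
      have ec := P.NNCount_frray hρ hfr c2
      rcases ext_rays h0 (sub_ne_zero.2 a1.1) (sub_ne_zero.2 b1.1) (sub_ne_zero.2 c1.1) ea eb ec
        with ⟨t, ht, e⟩ | ⟨t, ht, e⟩ | ⟨t, ht, e⟩
      · exact n1 (P.NNCount_ray a1 b1 ht e)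
      · exact n2 (P.NNCount_ray a1 c1 ht e)
      · exact n3 (P.NNCount_ray b1 c1 ht e))
    have hG := h1 ((Z.filter fun z => ¬ A z).image f) (fun w hw => by
      obtain ⟨z, hz, rfl⟩ := Finset.mem_image.1 hw
      obtain ⟨h3, h4, h5, h6, -⟩ := hf z hz
      exact ⟨h3, h4, h5, h6⟩)
    calc (Z.filter fun z => ¬ A z).card ≤ 2 * ((Z.filter fun z => ¬ A z).image f).card := hcard
      _ ≤ 2 * N1 := Nat.mul_le_mul_left _ hG
  omega

end Poly

end Pool.Agent.Lib_PL
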