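import Pool.Agent.Lib_PLQ.Chord

/-!
# B4 (i), A5 consequences: basic facts on window data

`WD.a_not`, `WD.b_not`: `dark_not` (`Vis.sub` for the half chords from the dark point `z`).
`WD.arc` (D2): `x ∈ (a,b)`, `s ∈ X.s ⊆ (b - n, a)`: `cross_chords` for the chords `(a,b)`, `(x, s + n)` gives `c` on both open segments; `c` sees `γ s` (`Vis.sub`, `c ≠ γ s` as `c ∈ I`): against `nosee`.
`WD.side` (D3): `z' ∈ Side a b` sees `γ s`, `s ∈ X.s`; `γ s = γ (s + n) ∈ Side b (a+n)` (`side_arc'`); `side_cross` gives `c ∈ openSegment z' (γ s)` on the closed chord; `c ∈ I`, so `c` is on the open chord; `c` sees `γ s`: `nosee`.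
`WD.disj_side`: two window data of the same component (`X` and a shift of `X` have the same `SeeA`): the open chord of the first does not meet `Side a' b'`: a point `w` in both is in `closure (SeeA X)` (`lim`), and `Side a' b'` is open in `R` (`side_open`) and misses `SeeA X`;
the points of `SeeA X` near `w ∈ I` are in `I ⊆ R`: contradiction.
`wd_unique`: `ν + mn ∈ (a,b)`, `ν + m'n ∈ (a',b')`.  After a shift of the second datum (`wd_sh`) assume `m = m'`, `x = ν + m n` in both open arcs.  If `a' < a` then (`a < x < b'`) `a ∈ (a',b')`, `γ a ∈ Side a' b'` (`side_arc`), open in `R`: points of the open chord `(γ a, γ b)` near `γ a` are in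
`Side a' b'`: against `WD.disj_side`.  Same for `a < a'`, `b < b'`, `b' < b`.  So `a = a'`, `b = b'` (after the shift).
`wd_sh`: `comp_sh`, `γ_add_mul`; `SeeA` of a shift is the same set (`seeA_sh`).
-/

open Set Complex
open scoped Topology

namespace Pool.Agent.Lib_PL

namespace Poly

variable {n : ℕ} (P : Poly n)

theorem seeA_sh (X : Arc) (m : ℤ) : P.SeeA (X.sh (m * n)) = P.SeeA X := by
  ext z
  constructor
  · rintro ⟨s, hs, hv⟩
    rw [Arc.mem_sh] at hs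
    refine ⟨_, hs, ?_⟩
    have e : s - ((m * (n : ℤ) : ℤ) : ℝ) = s + ((-m : ℤ) : ℝ) * n := by
      push_cast
      ring
    rw [e, P.γ_add_mul]
    exact hv
  · rintro ⟨s, hs, hv⟩
    refine ⟨s + (m : ℝ) * n, ?_, ?_⟩
    · rw [Arc.mem_sh]
      have e : s + (m : ℝ) * n - ((m * (n : ℤ) : ℤ) : ℝ) = s := by
        push_cast
        ring
      rw [e]
      exact hs
    · rw [P.γ_add_mul]
      exact hv

private theorem WDBasic_ne {P : Poly n} {z : ℂ} {x : ℝ} (h : z ∈ P.I) : z ≠ P.γ x := by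
  rintro rfl
  exact P.I_disj_C h (P.γ_mem_C x)

theorem WD.a_not {P : Poly n} {p : ℂ} {K : ℕ} {X : Arc} {a b : ℝ} (h : P.WD p K X a b) :
    a ∉ P.Bp p K := by
  obtain ⟨z, hz, hd⟩ := h.dark
  exact P.dark_not hd (h.vis.sub (openSegment_subset_segment ℝ _ _ hz) (left_mem_segment ℝ _ _)
    (WDBasic_ne (h.vis.mem hz)))

theorem WD.b_not {P : Poly n} {p : ℂ} {K : ℕ} {X : Arc} {a b : ℝ} (h : P.WD p K X a b) :
    b ∉ P.Bp p K := by
  obtain ⟨z, hz, hd⟩ := h.dark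
  exact P.dark_not hd (h.vis.sub (openSegment_subset_segment ℝ _ _ hz) (right_mem_segment ℝ _ _)
    (WDBasic_ne (h.vis.mem hz)))

/-- a position of `X`, shifted by `n`, is in the arc `(b, a + n)` -/
private theorem WDBasic_pos {P : Poly n} {p : ℂ} {K : ℕ} {X : Arc} {a b : ℝ} (h : P.WD p K X a b)
    {s : ℝ} (hs : s ∈ X.s) : b < s + n ∧ s + n < a + n := by
  have h1 := h.Xa
  have h2 := h.Xb
  obtain ⟨hs1, hs2⟩ := hs
  constructor <;> linarith

/-- `γ (s + n) = γ s` -/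
private theorem WDBasic_γ (P : Poly n) (s : ℝ) : P.γ (s + n) = P.γ s := P.γ_add_n s

theorem WD.arc {P : Poly n} (hc : P.CCW) {p : ℂ} {K : ℕ} {X : Arc} {a b : ℝ} (h : P.WD p K X a b)
    {x : ℝ} (hx : x ∈ Ioo a b) {s : ℝ} (hs : s ∈ X.s) : ¬ P.Vis (P.γ x) (P.γ s) := by
  intro hv
  obtain ⟨h1, h2⟩ := WDBasic_pos h hs
  rw [← WDBasic_γ P s] at hv
  obtain ⟨c, hc1, hc2, -⟩ := P.cross_chords hc hx.1 hx.2 h1 h2 h.vis hv
  have hv2 : P.Vis c (P.γ (s + n)) := hv.sub (openSegment_subset_segment ℝ _ _ hc2)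
    (right_mem_segment ℝ _ _) (WDBasic_ne (hv.mem hc2))
  rw [WDBasic_γ P s] at hv2
  exact h.nosee c hc1 ⟨s, hs, hv2⟩

theorem WD.side {P : Poly n} (hc : P.CCW) {p : ℂ} {K : ℕ} {X : Arc} {a b : ℝ} (h : P.WD p K X a b) :
    Disjoint (P.Side a b) (P.SeeA X) := by
  rw [Set.disjoint_left]
  rintro z hz ⟨s, hs, hv⟩
  have h12 := WDBasic_pos h hs
  have h3 : P.γ s ∈ P.Side b (a + n) := by
    rw [← WDBasic_γ P s]
    exact P.side_arc' h.ab h.vis h12
  obtain ⟨c, hc1, hc2⟩ := P.side_cross hc h.ab h.ba h.vis hv.seg hz h3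
  have hcI : c ∈ P.I := hv.mem hc1
  have hc3 : c ∈ openSegment ℝ (P.γ a) (P.γ b) :=
    mem_openSegment_of_ne_left_right (WDBasic_ne hcI).symm (WDBasic_ne hcI).symm hc2
  refine h.nosee c hc3 ⟨s, hs, hv.sub (openSegment_subset_segment ℝ _ _ hc1)
    (right_mem_segment ℝ _ _) (WDBasic_ne hcI)⟩

theorem WD.disj_side {P : Poly n} (hc : P.CCW) {p : ℂ} {K : ℕ} {X : Arc} {a b a' b' : ℝ} {m : ℤ}
    (h : P.WD p K X a b) (h' : P.WD p K (X.sh (m * n)) a' b') :
    Disjoint (openSegment ℝ (P.γ a) (P.γ b)) (P.Side a' b') := by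
  rw [Set.disjoint_left]
  intro w hw hw'
  obtain ⟨ρ, hρ, hr⟩ := P.side_open hc h'.ab h'.ba h'.vis hw'
  have hwI : w ∈ P.I := h.vis.mem hw
  obtain ⟨ε, hε, hb⟩ := Metric.isOpen_iff.1 P.I_open w hwI
  obtain ⟨z, hz, hd⟩ := Metric.mem_closure_iff.1 (h.lim hw) (min ρ ε) (lt_min hρ hε)
  rw [dist_comm, dist_eq_norm] at hd
  have hzI : z ∈ P.I := hb (by
    rw [Metric.mem_ball, dist_eq_norm]
    exact lt_of_lt_of_le hd (min_le_right _ _))
  have hzS := hr z (P.I_sub_R hzI) (lt_of_lt_of_le hd (min_le_left _ _))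
  have hdis := h'.side hc
  rw [P.seeA_sh] at hdis
  exact Set.disjoint_left.1 hdis hzS hz

theorem wd_sh {p : ℂ} {K : ℕ} {X : Arc} {a b : ℝ} (m : ℤ) (h : P.WD p K X a b) :
    P.WD p K (X.sh (m * n)) (a + m * n) (b + m * n) := by
  have ea : (X.sh (m * n)).a = X.a + (m : ℝ) * n := by
    simp only [Arc.sh]
    push_cast
    ring
  have eb : (X.sh (m * n)).b = X.b + (m : ℝ) * n := by
    simp only [Arc.sh]
    push_cast
    ring
  constructor
  · linarith [h.ab]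
  · linarith [h.ba]
  · exact P.comp_sh m h.Xc
  · rw [eb]
    linarith [h.Xa]
  · rw [ea]
    linarith [h.Xb]
  · rw [P.γ_add_mul, P.γ_add_mul]
    exact h.vis
  · obtain ⟨ξ, hξ, h1, h2⟩ := h.star
    refine ⟨ξ + (m : ℝ) * n, ?_, ?_⟩
    · rw [ea, eb]
      exact ⟨by linarith [hξ.1], by linarith [hξ.2]⟩
    · rw [P.γ_add_mul, P.γ_add_mul, P.γ_add_mul]
      exact ⟨h1, h2⟩
  · rw [P.γ_add_mul, P.γ_add_mul, P.seeA_sh]
    exact h.nosee
  · rw [P.γ_add_mul, P.γ_add_mul, P.seeA_sh]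
    exact h.lim
  · rw [P.γ_add_mul, P.γ_add_mul]
    exact h.dark

/-- points of an open segment close to an end -/
private theorem WDBasic_near (z w : ℂ) {ρ : ℝ} (hρ : 0 < ρ) :
    ∃ c ∈ openSegment ℝ z w, ‖c - z‖ < ρ := by
  have h1 : z ∈ closure (openSegment ℝ z w) :=
    segment_subset_closure_openSegment (left_mem_segment ℝ z w)
  obtain ⟨c, hc, hd⟩ := Metric.mem_closure_iff.1 h1 ρ hρ
  exact ⟨c, hc, by rwa [dist_comm, dist_eq_norm] at hd⟩

/-- the ends of the first chord are not in the side of the second chord -/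
private theorem WDBasic_ends {P : Poly n} (hc : P.CCW) {p : ℂ} {K : ℕ} {X : Arc} {a b a' b' : ℝ}
    {m : ℤ} (h : P.WD p K X a b) (h' : P.WD p K (X.sh (m * n)) a' b') :
    P.γ a ∉ P.Side a' b' ∧ P.γ b ∉ P.Side a' b' := by
  have hd := h.disj_side hc h'
  constructor
  · intro ha
    obtain ⟨ρ, hρ, hr⟩ := P.side_open hc h'.ab h'.ba h'.vis ha
    obtain ⟨c, hc1, hc2⟩ := WDBasic_near (P.γ a) (P.γ b) hρ
    exact Set.disjoint_left.1 hd hc1 (hr c (P.I_sub_R (h.vis.mem hc1)) hc2)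
  · intro hb
    obtain ⟨ρ, hρ, hr⟩ := P.side_open hc h'.ab h'.ba h'.vis hb
    obtain ⟨c, hc1, hc2⟩ := WDBasic_near (P.γ b) (P.γ a) hρ
    rw [openSegment_symm] at hc1
    exact Set.disjoint_left.1 hd hc1 (hr c (P.I_sub_R (h.vis.mem hc1)) hc2)

/-- two window data with a common position: the first arc contains the second -/
private theorem WDBasic_half {P : Poly n} (hc : P.CCW) {p : ℂ} {K : ℕ} {X : Arc} {a b a' b' : ℝ}
    {m : ℤ} (h : P.WD p K X a b) (h' : P.WD p K (X.sh (m * n)) a' b') {x : ℝ} (hx : x ∈ Ioo a b)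
    (hx' : x ∈ Ioo a' b') : a ≤ a' ∧ b' ≤ b := by
  obtain ⟨h1, h2⟩ := WDBasic_ends hc h h'
  constructor
  · by_contra hlt
    push Not at hlt
    exact h1 (P.side_arc h'.ba h'.vis ⟨hlt, hx.1.trans hx'.2⟩)
  · by_contra hlt
    push Not at hlt
    exact h2 (P.side_arc h'.ba h'.vis ⟨hx'.1.trans hx.2, hlt⟩)

theorem wd_unique (hc : P.CCW) {p : ℂ} {K : ℕ} {X : Arc} {a b a' b' : ℝ} {m : ℤ} {ν : ℝ}
    (h : P.WD p K X a b) (h' : P.WD p K (X.sh (m * n)) a' b') (hν : InMod n (Ioo a b) ν)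
    (hν' : InMod n (Ioo a' b') ν) : ∃ m' : ℤ, a' = a + m' * n ∧ b' = b + m' * n := by
  obtain ⟨k, hk⟩ := hν
  obtain ⟨k', hk'⟩ := hν'
  have h2 := P.wd_sh (k - k') h'
  rw [Arc.sh_sh] at h2
  have e1 : m * (n : ℤ) + (k - k') * n = (m + (k - k')) * n := by ring
  rw [e1] at h2
  have hx : ν + k * n ∈ Ioo (a' + ((k - k' : ℤ) : ℝ) * n) (b' + ((k - k' : ℤ) : ℝ) * n) := by
    push_cast
    constructor
    · linarith [hk'.1]
    · linarith [hk'.2]
  obtain ⟨q1, q2⟩ := WDBasic_half hc h h2 hk hx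
  have h3 : P.WD p K ((X.sh ((m + (k - k')) * n)).sh (-(m + (k - k')) * n)) a b := by
    rw [Arc.sh_sh]
    have e2 : (m + (k - k')) * (n : ℤ) + -(m + (k - k')) * n = 0 := by ring
    rw [e2, Arc.sh_zero]
    exact h
  obtain ⟨q3, q4⟩ := WDBasic_half hc h2 h3 hx hk
  refine ⟨k' - k, ?_, ?_⟩
  · have : a = a' + ((k - k' : ℤ) : ℝ) * n := le_antisymm q1 q3
    push_cast at this ⊢
    linarith
  · have : b = b' + ((k - k' : ℤ) : ℝ) * n := le_antisymm q4 q2
    push_cast at this ⊢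
    linarith

end Poly

end Pool.Agent.Lib_PL
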