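import Pool.Agent.Lib_PLQ.HalfAlong
import Pool.Agent.Lib_PLQ.WDBasic

/-!
# A5.1: existence of the window datum

`chord_through` gives `a, b` with `γ b - γ a = t h`, `t > 0`.
`half_along` (with `A = γ a`, `B = γ b`): `HalfAt (SeeA X) w h` for all `w` of the open chord; this gives `nosee` (`cr h 0 = 0`) and `lim` (`w + ε I h ∈ SeeA X`).
`a, b ∉ Bp p K` (`dark_not`).
Position of `X`: take `z' = z + ε I h`, lit side, `z' ∈ SeeA X`, `z' ∈ Side b (a+n)` (`side_local`), `z'` sees `γ x'`, `x' ∈ X.s`.  The segment `z' (γ x')` does not meet the closed chord: a common point `c`; `c ∈ openSegment z' (γ x') ⊆ I` would be on the open chord and see `γ x'`: `nosee`;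
`c = z'`: `z'` is off the line; `c = γ x'`: then `x'` would be `a` or `b` modulo `n` (`Vis.end_of_C`, `γ_inj`), but `x' ∈ Bp p K`, `a, b ∉ Bp p K` (`Bp_add`).  So by `side_conn` `γ x' ∈ Side b (a+n)`, and (`side_mem_arc` for the arc `(b, a+n)`, see also `side_mem_arc` with `P.Side b (a+n)`; use `side_disj`, `side_arc`)
`x' + m n ∈ (b - n, a)` for some `m`.  `X.sh (m n)` is an interval in `Bp p K` containing this point and neither `a` nor `b - n`, so it is in `[b - n, a]`.
`star`: `γ ξ - z = c h` with `c ≠ 0` real (`cr_eq_zero`, `z ∉ C`).  `c > 0`: `γ b` is the first point of `C` on the ray, so `γ b ∈ segment z (γ ξ)`, `[γ ξ, γ b] ⊆ [z, γ ξ] ⊆ R`, `[γ ξ, γ a] ⊆ [γ ξ, z] ∪ [z, γ a] ⊆ R`.  `c < 0`: the same with `a` and `b` exchanged.  Position `ξ + m n`.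
-/

open Set Complex
open scoped Topology

namespace Pool.Agent.Lib_PL

namespace Poly

variable {n : ℕ} (P : Poly n)

/-- points of a segment of the line through `z` in the direction `h` -/
private theorem Window_seg {z h : ℂ} {s t : ℝ} (hst : s ≤ t) {w : ℂ}
    (hw : w ∈ segment ℝ (z + (s : ℂ) * h) (z + (t : ℂ) * h)) :
    ∃ u : ℝ, s ≤ u ∧ u ≤ t ∧ w = z + (u : ℂ) * h := by
  rw [segment_eq_image'] at hw
  obtain ⟨r, hr, rfl⟩ := hw
  refine ⟨s + r * (t - s), ?_, ?_, ?_⟩
  · have := mul_nonneg hr.1 (sub_nonneg.2 hst)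
    linarith
  · have := mul_nonneg (sub_nonneg.2 hr.2) (sub_nonneg.2 hst)
    nlinarith
  · simp only [Complex.real_smul]
    push_cast
    ring

private theorem Window_oseg {z h : ℂ} {s t : ℝ} (hst : s < t) {w : ℂ}
    (hw : w ∈ openSegment ℝ (z + (s : ℂ) * h) (z + (t : ℂ) * h)) :
    ∃ u : ℝ, s < u ∧ u < t ∧ w = z + (u : ℂ) * h := by
  rw [openSegment_eq_image'] at hw
  obtain ⟨r, hr, rfl⟩ := hw
  refine ⟨s + r * (t - s), ?_, ?_, ?_⟩
  · have := mul_pos hr.1 (sub_pos.2 hst)
    linarith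
  · have := mul_pos (sub_pos.2 hr.2) (sub_pos.2 hst)
    nlinarith
  · simp only [Complex.real_smul]
    push_cast
    ring

private theorem Window_omem {z h : ℂ} {s t u : ℝ} (h1 : s < u) (h2 : u < t) :
    z + (u : ℂ) * h ∈ openSegment ℝ (z + (s : ℂ) * h) (z + (t : ℂ) * h) := by
  have h3 : 0 < t - s := by linarith
  refine ⟨(t - u) / (t - s), (u - s) / (t - s), div_pos (by linarith) h3, div_pos (by linarith) h3,
    ?_, ?_⟩
  · rw [← add_div, div_eq_one_iff_eq h3.ne']
    ring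
  · simp only [Complex.real_smul]
    have h4 : (t : ℂ) - s ≠ 0 := by
      exact_mod_cast h3.ne'
    push_cast
    field_simp
    ring

private theorem Window_mem {z h : ℂ} {s t u : ℝ} (h1 : s ≤ u) (h2 : u ≤ t) :
    z + (u : ℂ) * h ∈ segment ℝ (z + (s : ℂ) * h) (z + (t : ℂ) * h) := by
  rcases eq_or_lt_of_le h1 with h3 | h3
  · rw [← h3]
    exact left_mem_segment ℝ _ _
  · rcases eq_or_lt_of_le h2 with h4 | h4
    · rw [h4]
      exact right_mem_segment ℝ _ _
    · exact openSegment_subset_segment ℝ _ _ (Window_omem h3 h4)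

private theorem Window_crI (h : ℂ) (hh : h ≠ 0) : 0 < cr h (Complex.I * h) := by
  have e : cr h (Complex.I * h) = Complex.normSq h := by
    simp [cr, Complex.normSq_apply]
  rw [e]
  exact Complex.normSq_pos.2 hh

/-- small steps to the left of `h` -/
private theorem Window_step {h : ℂ} (hh : h ≠ 0) {ρ : ℝ} (hρ : 0 < ρ) :
    ∃ d : ℂ, ‖d‖ < ρ ∧ 0 < cr h d := by
  have hn : 0 < ‖Complex.I * h‖ + 1 := by positivity
  refine ⟨((ρ / (‖Complex.I * h‖ + 1) : ℝ) : ℂ) * (Complex.I * h), ?_, ?_⟩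
  · rw [norm_mul, Complex.norm_real, Real.norm_eq_abs, abs_of_pos (div_pos hρ hn), div_mul_eq_mul_div,
      div_lt_iff₀ hn]
    have : ρ * ‖Complex.I * h‖ < ρ * (‖Complex.I * h‖ + 1) := by
      apply mul_lt_mul_of_pos_left _ hρ
      linarith
    exact this
  · rw [cr_mul_right]
    exact mul_pos (div_pos hρ hn) (Window_crI h hh)

/-- a point of a chord which sees an arc: the half plane on its left -/
private theorem Window_half {G : Set ℂ} {w h : ℂ} (hh : h ≠ 0) (H : HalfAt G w h) :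
    w ∉ G ∧ w ∈ closure G := by
  obtain ⟨ρ, hρ, hG⟩ := H
  constructor
  · intro hw
    have := (hG w (by simpa using hρ)).1 hw
    rw [sub_self, cr_zero_right] at this
    exact lt_irrefl _ this
  · rw [Metric.mem_closure_iff]
    intro ε hε
    obtain ⟨d, hd, hcr⟩ := Window_step hh (lt_min hρ hε)
    refine ⟨w + d, ?_, ?_⟩
    · refine (hG _ ?_).2 ?_
      · rw [add_sub_cancel_left]
        exact hd.trans_le (min_le_left _ _)
      · rw [add_sub_cancel_left]
        exact hcr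
    · rw [dist_eq_norm, sub_add_cancel_left, norm_neg]
      exact hd.trans_le (min_le_right _ _)

theorem xs_window (hc : P.CCW) {p : ℂ} {K : ℕ} {X : Arc} {z h : ℂ} {ξ : ℝ} (hs : P.XS p K X z h ξ)
    (hz : z ∈ P.I) (hd : z ∉ P.VV p (K + 1)) {a b : ℝ} (hab : a < b) (hba : b < a + n)
    (hv : P.Vis (P.γ a) (P.γ b)) (hzw : z ∈ openSegment ℝ (P.γ a) (P.γ b))
    (ht : ∃ t : ℝ, 0 < t ∧ P.γ b - P.γ a = (t : ℂ) * h) :
    (∃ m : ℤ, P.WD p K (X.sh (m * n)) a b) ∧
      ∀ w ∈ openSegment ℝ (P.γ a) (P.γ b), HalfAt (P.SeeA X) w h ∧ segment ℝ w (P.γ ξ) ⊆ P.R ∧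
        ∃ c : ℝ, 0 < c ∧ P.γ ξ - w = (c : ℂ) * (P.γ ξ - z) := by
  obtain ⟨t, ht0, hBA⟩ := ht
  have hh := hs.h0
  have hn : (0 : ℝ) < n := by
    have := P.three_le
    exact_mod_cast (by omega : 0 < n)
  have hzC : z ∉ P.C := P.I_disj_C hz
  -- the half disc property along the chord
  have H : ∀ w ∈ openSegment ℝ (P.γ a) (P.γ b), HalfAt (P.SeeA X) w h :=
    P.half_along hc hs.Xc.ia hs.Xc.bi hv ⟨t, ht0.ne', hBA⟩ hzw hs.half
  have hnosee : ∀ w ∈ openSegment ℝ (P.γ a) (P.γ b), w ∉ P.SeeA X := fun w hw =>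
    (Window_half hh (H w hw)).1
  have hlim : openSegment ℝ (P.γ a) (P.γ b) ⊆ closure (P.SeeA X) := fun w hw =>
    (Window_half hh (H w hw)).2
  have hza : z ≠ P.γ a := by
    intro e
    exact hzC (e ▸ P.γ_mem_C a)
  have hzb : z ≠ P.γ b := by
    intro e
    exact hzC (e ▸ P.γ_mem_C b)
  have hzs : z ∈ segment ℝ (P.γ a) (P.γ b) := openSegment_subset_segment ℝ _ _ hzw
  have haB : a ∉ P.Bp p K := P.dark_not hd (hv.sub hzs (left_mem_segment ℝ _ _) hza)
  have hbB : b ∉ P.Bp p K := P.dark_not hd (hv.sub hzs (right_mem_segment ℝ _ _) hzb)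
  -- position of X
  have hpos : ∃ m : ℤ, ∃ s ∈ X.s, b < s + m * n ∧ s + m * n < a + n := by
    obtain ⟨ρ1, hρ1, hG⟩ := hs.half
    obtain ⟨ρ2, hρ2, hL⟩ := P.side_local hc hab hba hv hzw
    obtain ⟨d, hdn, hcr⟩ := Window_step hh (lt_min hρ1 hρ2)
    have hcr2 : 0 < cr (P.γ b - P.γ a) d := by
      rw [hBA, cr_mul_left]
      exact mul_pos ht0 hcr
    have hz' : z + d ∈ P.Side b (a + n) := (hL d (hdn.trans_le (min_le_right _ _))).2 hcr2
    have hz'' : z + d ∈ P.SeeA X := by
      refine (hG _ ?_).2 ?_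
      · rw [add_sub_cancel_left]
        exact hdn.trans_le (min_le_left _ _)
      · rw [add_sub_cancel_left]
        exact hcr
    obtain ⟨s, hsX, hvs⟩ := hz''
    have hoff : z + d ∉ segment ℝ (P.γ a) (P.γ b) := by
      intro hmem
      have h1 : cr (P.γ b - P.γ a) (z + d - P.γ a) = 0 := by
        rw [segment_eq_image'] at hmem
        obtain ⟨r, -, hr⟩ := hmem
        simp only at hr
        rw [← hr, add_sub_cancel_left, cr_smul_right, cr_self, mul_zero]
      have h2 : cr (P.γ b - P.γ a) (z - P.γ a) = 0 := by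
        rw [segment_eq_image'] at hzs
        obtain ⟨r, -, hr⟩ := hzs
        simp only at hr
        rw [← hr, add_sub_cancel_left, cr_smul_right, cr_self, mul_zero]
      have e : z + d - P.γ a = (z - P.γ a) + d := by ring
      rw [e, cr_add_right, h2, zero_add] at h1
      exact hcr2.ne' h1
    have hBs : ∀ x : ℝ, x ∉ P.Bp p K → P.γ s ≠ P.γ x := by
      intro x hx e
      obtain ⟨m, hm⟩ := P.γ_inj e
      apply hx
      rw [hm, P.Bp_add]
      exact hs.Xc.sub hsX
    have hdisj : Disjoint (segment ℝ (z + d) (P.γ s)) (segment ℝ (P.γ a) (P.γ b)) := by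
      rw [Set.disjoint_left]
      intro c hc1 hc2
      by_cases hcz : c = z + d
      · exact hoff (hcz ▸ hc2)
      by_cases hcs : c = P.γ s
      · rcases hv.end_of_C hc2 (by rw [hcs]; exact P.γ_mem_C s) with e | e
        · exact hBs a haB (hcs ▸ e)
        · exact hBs b hbB (hcs ▸ e)
      have hco : c ∈ openSegment ℝ (z + d) (P.γ s) :=
        mem_openSegment_of_ne_left_right (Ne.symm hcz) (Ne.symm hcs) hc1
      have hcI : c ∈ P.I := hvs.mem hco
      have hne : ∀ x : ℝ, P.γ x ≠ c := by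
        intro x e
        exact P.I_disj_C hcI (e ▸ P.γ_mem_C x)
      have hc3 : c ∈ openSegment ℝ (P.γ a) (P.γ b) :=
        mem_openSegment_of_ne_left_right (hne a) (hne b) hc2
      exact hnosee c hc3 ⟨s, hsX, hvs.sub hc1 (right_mem_segment ℝ _ _) (hne s).symm⟩
    have hside : P.γ s ∈ P.Side b (a + n) := by
      rcases P.side_conn hc hab hba hv (convex_segment (z + d) (P.γ s)).isPreconnected hvs.seg hdisj
        with h1 | h1
      · exact absurd hz' (Set.disjoint_left.1 (P.side_disj hc hab hba hv)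
          (h1 (left_mem_segment ℝ _ _)))
      · exact h1 (right_mem_segment ℝ _ _)
    have hv' : P.Vis (P.γ b) (P.γ (a + n)) := by
      rw [P.γ_add_n]
      exact hv.symm
    obtain ⟨m, hm1, hm2⟩ := P.side_mem_arc hc hba (by linarith) hv' hside
    exact ⟨m, s, hsX, hm1, hm2⟩
  -- parametrise the line
  obtain ⟨α, β, hα, hβ, hγa, hγb⟩ : ∃ α β : ℝ, 0 < α ∧ 0 < β ∧ P.γ a = z + ((-α : ℝ) : ℂ) * h ∧
      P.γ b = z + (β : ℂ) * h := by
    rw [openSegment_eq_image'] at hzw
    obtain ⟨r, hr, hr'⟩ := hzw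
    simp only [Complex.real_smul] at hr'
    refine ⟨r * t, (1 - r) * t, mul_pos hr.1 ht0, mul_pos (sub_pos.2 hr.2) ht0, ?_, ?_⟩
    · have e : P.γ a = z - (r : ℂ) * (P.γ b - P.γ a) := by
        rw [← hr']
        ring
      rw [hBA] at e
      rw [e]
      push_cast
      ring
    · have e : P.γ b = z + (1 - (r : ℂ)) * (P.γ b - P.γ a) := by
        rw [← hr']
        ring
      rw [hBA] at e
      rw [e]
      push_cast
      ring
  obtain ⟨c, hcc⟩ := cr_eq_zero hh hs.par
  have hγξ : P.γ ξ = z + (c : ℂ) * h := by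
    rw [← hcc]
    ring
  have hab' : -α < β := by linarith
  -- γ ξ is not on the open chord
  have hcout : c ≤ -α ∨ β ≤ c := by
    by_contra hcon
    push Not at hcon
    have h1 : P.γ ξ ∈ openSegment ℝ (P.γ a) (P.γ b) := by
      rw [hγξ, hγa, hγb]
      exact Window_omem hcon.1 hcon.2
    exact P.I_disj_C (hv.mem h1) (P.γ_mem_C ξ)
  -- all points of the line between the chord and γ ξ are in R
  have hR1 : ∀ u : ℝ, -α ≤ u → u ≤ β → z + (u : ℂ) * h ∈ P.R := by
    intro u h1 h2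
    apply hv.seg
    rw [hγa, hγb]
    exact Window_mem h1 h2
  have hseg : ∀ u : ℝ, -α ≤ u → u ≤ β → segment ℝ (z + (u : ℂ) * h) (P.γ ξ) ⊆ P.R := by
    intro u hu1 hu2 w hw
    rw [hγξ] at hw
    have hsz := hs.seg
    rw [hγξ] at hsz
    rcases hcout with hc1 | hc1
    · rw [segment_symm] at hw
      obtain ⟨v, hv1, hv2, rfl⟩ := Window_seg (by linarith) hw
      rcases le_or_gt (-α) v with h1 | h1
      · exact hR1 v h1 (by linarith)
      · apply hsz
        have h2 : z + (v : ℂ) * h ∈ segment ℝ (z + (c : ℂ) * h) (z + ((0 : ℝ) : ℂ) * h) :=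
          Window_mem hv1 (by linarith)
        rw [segment_symm] at h2
        simpa using h2
    · obtain ⟨v, hv1, hv2, rfl⟩ := Window_seg (by linarith) hw
      rcases le_or_gt v β with h1 | h1
      · exact hR1 v (by linarith) h1
      · apply hsz
        have h2 : z + (v : ℂ) * h ∈ segment ℝ (z + ((0 : ℝ) : ℂ) * h) (z + (c : ℂ) * h) :=
          Window_mem (by linarith) hv2
        simpa using h2
  have hsa : segment ℝ (P.γ ξ) (P.γ a) ⊆ P.R := by
    rw [segment_symm, hγa]
    exact hseg (-α) le_rfl hab'.le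
  have hsb : segment ℝ (P.γ ξ) (P.γ b) ⊆ P.R := by
    rw [segment_symm, hγb]
    exact hseg β hab'.le le_rfl
  constructor
  · obtain ⟨m, s, hsX, hm1, hm2⟩ := hpos
    have ea : (X.sh ((m - 1) * n)).a = X.a + ((m - 1 : ℤ) : ℝ) * n := by
      simp only [Arc.sh]
      push_cast
      ring
    have eb : (X.sh ((m - 1) * n)).b = X.b + ((m - 1 : ℤ) : ℝ) * n := by
      simp only [Arc.sh]
      push_cast
      ring
    have hout : ∀ x : ℝ, x ∉ P.Bp p K →
        ¬ (X.a + ((m - 1 : ℤ) : ℝ) * n < x ∧ x < X.b + ((m - 1 : ℤ) : ℝ) * n) := by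
      rintro x hx ⟨h1, h2⟩
      apply hx
      have h3 : x - ((m - 1 : ℤ) : ℝ) * n ∈ P.Bp p K :=
        hs.Xc.sub ⟨by linarith, by linarith⟩
      rw [← P.Bp_add p K _ (m - 1)] at h3
      rwa [sub_add_cancel] at h3
    have hbB' : b - n ∉ P.Bp p K := by
      intro hx
      rw [← P.Bp_add p K _ 1] at hx
      apply hbB
      have e : b - n + ((1 : ℤ) : ℝ) * n = b := by
        push_cast
        ring
      rwa [e] at hx
    obtain ⟨hs1, hs2⟩ := hsX
    have hma := hout a haB
    have hmb := hout (b - n) hbB'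
    push_cast at hma hmb ea eb
    refine ⟨m - 1, hab, hba, P.comp_sh (m - 1) hs.Xc, ?_, ?_, hv, ?_, ?_, ?_, ⟨z, hzw, hd⟩⟩
    · rw [eb]
      by_contra hcon
      push Not at hcon
      exact hma ⟨by linarith, hcon⟩
    · rw [ea]
      by_contra hcon
      push Not at hcon
      exact hmb ⟨by linarith, by linarith⟩
    · refine ⟨ξ + ((m - 1 : ℤ) : ℝ) * n, ?_, ?_⟩
      · rw [ea, eb]
        push_cast
        exact ⟨by linarith [hs.ξX.1], by linarith [hs.ξX.2]⟩
      · rw [P.γ_add_mul]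
        exact ⟨hsa, hsb⟩
    · rw [P.seeA_sh]
      exact hnosee
    · rw [P.seeA_sh]
      exact hlim
  · intro w hw
    refine ⟨H w hw, ?_, ?_⟩
    · rw [hγa, hγb] at hw
      obtain ⟨u, hu1, hu2, rfl⟩ := Window_oseg hab' hw
      exact hseg u hu1.le hu2.le
    · rw [hγa, hγb] at hw
      obtain ⟨u, hu1, hu2, rfl⟩ := Window_oseg hab' hw
      have hc0 : c ≠ 0 := by
        rcases hcout with h1 | h1
        · linarith
        · exact (by linarith : 0 < c).ne'
      refine ⟨(c - u) / c, ?_, ?_⟩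
      · rcases hcout with h1 | h1
        · exact div_pos_of_neg_of_neg (by linarith) (by linarith)
        · exact div_pos (by linarith) (by linarith)
      · rw [hγξ]
        have hc0' : (c : ℂ) ≠ 0 := by exact_mod_cast hc0
        push_cast
        field_simp
        ring

end Poly

end Pool.Agent.Lib_PL
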