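import Pool.Agent.Lib_PLQ.Classes
import Pool.Agent.Lib_PLQ.Window

/-!
# A8, first part: the dark interval which starts at a point of class `NN`

Let `z` be of class `NN`, `X, h, ξ, ε` as in the definition, `d = γ ξ - z = c h`, `c ≠ 0` real.  `chord_through`, `xs_window`: chord `(a,b)`, WD.  Let `E` be the end of the chord in direction `-d`: `E = γ a` if `c > 0` and `E = γ b` if `c < 0`; `E - z = -τ d` for some `τ > 0`.
`T = {t ∈ (0,τ) | z - t d ∈ VV p (K+1)}`.  If `T` is empty: first alternative (`DarkSeg z E`).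
Otherwise `t₂ = sInf T ≥ ε > 0`; `z₂ = z - t₂ d`, `t₂ < τ`, `z₂` is in the open chord, so in `I`; `z₂ ∉ VV` (open: `VV_open`; `t₂` is the infimum), all `z - t d`, `0 < t < t₂`, are not lit, and there are `t > t₂`, `t → t₂`, with `z - t d` lit; so `z₂ ∈ frontier VV`.
`local_struct` at `z₂` (`H`, `ρ`).  By homogeneity (`cr h (-(t - t₂) d)`) some `h' ∈ H` has `0 < cr h' (-d)`.  If `h'` comes from `PS`: done.  Else `XS p K X'' z₂ h' ξ'`; `xs_window` (last part, `w = z₂`) gives `XS p K X z₂ h ξ` and `γ ξ - z₂ = c' d`, `c' > 0`; so `cr h' (γ ξ - z₂) < 0`: `Far p K z₂`.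
`LitBehind z z₂`: from `NN`: `z + t (z - z₂) = z + t t₂ d`, small `t`.  `FrRay z₂ z`: the direction `z - z₂ = t₂ d`: `d ∈` cone: the points `z₂ + t d` (small `t > 0`) are not lit, so `∀ h ∈ H, cr h d ≤ 0`; and `HalfAt (SeeA X) z₂ h` (points on the left of `h` near `z₂ + t d` are lit), so `z₂ + t d ∈ closure V`: frontier.
Same for `E`: `LitBehind z E`.
`¬ Reg` at `z₂`: if `Reg (frontier VV) z₂` with direction `v`: `FrRay z₂ z` gives frontier points `z₂ + t (z - z₂)`, so `z - z₂` is a real multiple of `v` (non-zero), so `z₂ - t (z - z₂)` is in the frontier for all small `t > 0`; but `z₂ - t (z - z₂)` is in `VV`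
for arbitrarily small `t > 0` (`z₂` is the infimum of the lit parameters) and there (in `I`) `VV` is open (`VV_open`), so such a point is not in the frontier: contradiction.
-/

open Set Complex
open scoped Topology

namespace Pool.Agent.Lib_PL

namespace Poly

variable {n : ℕ} (P : Poly n)

/-- no point strictly between `z` and `w` is lit, the points just behind `z` (seen from `w`) are lit -/
def DarkSeg (p : ℂ) (k : ℕ) (z w : ℂ) : Prop :=
  z ≠ w ∧ (∀ c ∈ openSegment ℝ z w, c ∉ P.VV p k) ∧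
    ∃ ε > 0, ∀ t : ℝ, 0 < t → t < ε → z + (t : ℂ) * (z - w) ∈ P.VV p k

/-- the points just after `w` in the direction of `z` are frontier points -/
def FrRay (p : ℂ) (k : ℕ) (w z : ℂ) : Prop :=
  ∃ ε > 0, ∀ t : ℝ, 0 < t → t < ε → w + (t : ℂ) * (z - w) ∈ frontier (P.VV p k)

/-- the end of a chord in a given direction -/
private theorem NNext_end {A B z h d : ℂ} {t c : ℝ} (hz : z ∈ openSegment ℝ A B) (ht : 0 < t)
    (hAB : B - A = (t : ℂ) * h) (hc0 : c ≠ 0) (hd : d = (c : ℂ) * h) :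
    ∃ (E : ℂ) (τ : ℝ), 0 < τ ∧ (E = A ∨ E = B) ∧ E - z = -((τ : ℂ) * d) ∧
      ∀ u : ℝ, 0 ≤ u → u < τ → z - (u : ℂ) * d ∈ openSegment ℝ A B := by
  obtain ⟨x, y, hx, hy, hxy, rfl⟩ := hz
  have ht0 : (t : ℂ) ≠ 0 := by exact_mod_cast ht.ne'
  have hc0' : (c : ℂ) ≠ 0 := by exact_mod_cast hc0
  have hB : B = A + (t : ℂ) * h := by rw [← hAB]; ring
  have hxc : (x : ℂ) = 1 - (y : ℂ) := by
    have : x = 1 - y := by linarith
    rw [this]
    push_cast
    ring
  rcases lt_or_gt_of_ne hc0 with hneg | hpos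
  · refine ⟨B, x * t / (-c), by apply div_pos (mul_pos hx ht); linarith, Or.inr rfl, ?_, ?_⟩
    · rw [hd, hB]
      simp only [Complex.real_smul]
      push_cast
      rw [hxc]
      field_simp
      ring
    · intro u hu hu'
      have h1 : u * (-c) < x * t := by
        rwa [lt_div_iff₀ (by linarith)] at hu'
      have h2 : 0 ≤ u * (-c) := mul_nonneg hu (by linarith)
      refine ⟨x - u * (-c) / t, y + u * (-c) / t, ?_, ?_, by ring_nf; linarith, ?_⟩
      · have h3 : u * (-c) / t < x := by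
          rwa [div_lt_iff₀ ht]
        linarith
      · have h3 : 0 ≤ u * (-c) / t := by positivity
        linarith
      · rw [hd, hB]
        simp only [Complex.real_smul]
        push_cast
        rw [hxc]
        field_simp
        ring
  · refine ⟨A, y * t / c, by positivity, Or.inl rfl, ?_, ?_⟩
    · rw [hd, hB]
      simp only [Complex.real_smul]
      push_cast
      rw [hxc]
      field_simp
      ring
    · intro u hu hu'
      have h1 : u * c < y * t := by
        rwa [lt_div_iff₀ hpos] at hu'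
      have h2 : 0 ≤ u * c := by positivity
      refine ⟨x + u * c / t, y - u * c / t, ?_, ?_, by ring_nf; linarith, ?_⟩
      · have h3 : 0 ≤ u * c / t := by positivity
        linarith
      · have h3 : u * c / t < y := by
          rwa [div_lt_iff₀ ht]
        linarith
      · rw [hd, hB]
        simp only [Complex.real_smul]
        push_cast
        rw [hxc]
        field_simp
        ring

private theorem NNext_not (hc : P.CCW) {p : ℂ} {k : ℕ} {w : ℂ} (hw : w ∈ P.I)
    (hf : w ∈ frontier (P.VV p k)) : w ∉ P.VV p k := by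
  intro h
  obtain ⟨ε, hε, h1⟩ := P.VV_open hc h hw
  have h2 : w ∈ interior (P.VV p k) := by
    rw [mem_interior]
    refine ⟨Metric.ball w ε, fun z' hz' => h1 z' ?_, Metric.isOpen_ball, Metric.mem_ball_self hε⟩
    rwa [Metric.mem_ball, dist_eq_norm] at hz'
  exact hf.2 h2

/-- a point on the boundary of the half disc of `X` is in the closure of the lit region -/
private theorem NNext_clos {p : ℂ} {K : ℕ} {X : Arc} (hX : P.IsComp p K X) {w h : ℂ} (h0 : h ≠ 0)
    (hh : HalfAt (P.SeeA X) w h) : w ∈ closure (P.VV p (K + 1)) := by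
  obtain ⟨ρ, hρ, h1⟩ := hh
  rw [Metric.mem_closure_iff]
  intro ε hε
  have hh0 : 0 < ‖h‖ := norm_pos_iff.mpr h0
  set δ : ℝ := min ρ ε / (2 * ‖h‖) with hδ
  have hm : 0 < min ρ ε := lt_min hρ hε
  have hδ0 : 0 < δ := by positivity
  have e1 : ‖(δ : ℂ) * (Complex.I * h)‖ < min ρ ε := by
    rw [norm_mul, norm_mul, Complex.norm_real, Complex.norm_I, one_mul, Real.norm_eq_abs,
      abs_of_pos hδ0, hδ]
    rw [div_mul_eq_mul_div, div_lt_iff₀ (by positivity)]
    nlinarith
  have e2 : 0 < cr h ((δ : ℂ) * (Complex.I * h)) := by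
    rw [cr_mul_right]
    apply mul_pos hδ0
    have e3 : cr h (Complex.I * h) = h.re * h.re + h.im * h.im := by
      simp [cr]
    rw [e3]
    have e4 : h.re * h.re + h.im * h.im = Complex.normSq h := (Complex.normSq_apply h).symm
    rw [e4]
    exact Complex.normSq_pos.mpr h0
  have e5 : w + (δ : ℂ) * (Complex.I * h) ∈ P.SeeA X := by
    rw [h1 _ (by rw [add_sub_cancel_left]; exact e1.trans_le (min_le_left _ _)), add_sub_cancel_left]
    exact e2
  obtain ⟨s, hs, hv⟩ := e5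
  refine ⟨w + (δ : ℂ) * (Complex.I * h), P.VV_of_vis (hX.sub hs) hv.symm, ?_⟩
  rw [dist_eq_norm, sub_add_cancel_left, norm_neg]
  exact e1.trans_le (min_le_right _ _)

private theorem NNext_seg {z d c : ℂ} {τ : ℝ} (hτ : 0 < τ) (h : c ∈ openSegment ℝ z (z - (τ : ℂ) * d)) :
    ∃ t : ℝ, 0 < t ∧ t < τ ∧ c = z - (t : ℂ) * d := by
  obtain ⟨x, y, hx, hy, hxy, rfl⟩ := h
  refine ⟨y * τ, by positivity, by nlinarith, ?_⟩
  have hxc : (x : ℂ) = 1 - (y : ℂ) := by
    have : x = 1 - y := by linarith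
    rw [this]
    push_cast
    ring
  simp only [Complex.real_smul]
  push_cast
  rw [hxc]
  ring

theorem nn_next (hc : P.CCW) {p : ℂ} (hp : p ∈ P.R) {K : ℕ} {z : ℂ} (hz : z ∈ P.I)
    (hd : z ∉ P.VV p (K + 1)) (hn : P.NN p K z) :
    (∃ (X : Arc) (a b : ℝ), P.WD p K X a b ∧ 0 ≤ a ∧ a < n ∧ z ∈ openSegment ℝ (P.γ a) (P.γ b) ∧
      (P.DarkSeg p (K + 1) z (P.γ a) ∨ P.DarkSeg p (K + 1) z (P.γ b))) ∨
    ∃ z2 ∈ P.I, z2 ∈ frontier (P.VV p (K + 1)) ∧ ¬ Reg (frontier (P.VV p (K + 1))) z2 ∧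
      ((∃ h, P.PS p z2 h) ∨ P.Far p K z2) ∧ P.DarkSeg p (K + 1) z z2 ∧
      P.FrRay p (K + 1) z2 z := by
  obtain ⟨X, h, ξ, hs, ε, hε, hn⟩ := hn
  have hξz : P.γ ξ - z ≠ 0 := by
    intro h1
    rw [sub_eq_zero] at h1
    exact P.I_disj_C hz (h1 ▸ P.γ_mem_C ξ)
  obtain ⟨a, b, ha0, han, hab, hba, hv, hzw, t, ht, htt⟩ := P.chord_through hc hz hs.h0
  obtain ⟨⟨m, hwd⟩, hw⟩ := P.xs_window hc hs hz hd hab hba hv hzw ⟨t, ht, htt⟩
  obtain ⟨c, hcd⟩ := cr_eq_zero hs.h0 hs.par
  set d : ℂ := P.γ ξ - z with hdd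
  have hc0 : c ≠ 0 := by
    rintro rfl
    apply hξz
    rw [hcd]
    simp
  obtain ⟨E, τ, hτ, hE, hEz, hEseg⟩ := NNext_end hzw ht htt hc0 hcd
  -- frontier points are not lit
  have hdark : ∀ u : ℝ, 0 < u → u < ε → u < τ → z - (u : ℂ) * d ∉ P.VV p (K + 1) := by
    intro u hu hu' huτ
    exact P.NNext_not hc (hv (hEseg u hu.le huτ)) (hn u hu hu').2
  have hbehind : ∀ s : ℝ, 0 < s → ∃ ε' > 0, ∀ u : ℝ, 0 < u → u < ε' →
      z + (u : ℂ) * (z - (z - (s : ℂ) * d)) ∈ P.VV p (K + 1) := by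
    intro s hs0
    refine ⟨ε / s, by positivity, fun u hu hu' => ?_⟩
    rw [lt_div_iff₀ hs0] at hu'
    have h1 := (hn (u * s) (by positivity) hu').1
    have h2 : z + (u : ℂ) * (z - (z - (s : ℂ) * d)) = z + ((u * s : ℝ) : ℂ) * d := by
      push_cast
      ring
    rw [h2]
    exact h1
  have hne : ∀ s : ℝ, 0 < s → z ≠ z - (s : ℂ) * d := by
    intro s hs0 h1
    have h2 : (s : ℂ) * d = 0 := by
      have h3 : z - (z - (s : ℂ) * d) = 0 := sub_eq_zero.mpr h1
      have h4 : z - (z - (s : ℂ) * d) = (s : ℂ) * d := by ring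
      rw [h4] at h3
      exact h3
    rcases mul_eq_zero.mp h2 with h3 | h3
    · exact hs0.ne' (by exact_mod_cast h3)
    · exact hξz h3
  have hEeq : E = z - (τ : ℂ) * d := by
    have h1 : E = z + (E - z) := by ring
    rw [h1, hEz]
    ring
  by_cases hT : ∃ u : ℝ, 0 < u ∧ u < τ ∧ z - (u : ℂ) * d ∈ P.VV p (K + 1)
  · -- the first lit point
    right
    set T : Set ℝ := {u : ℝ | 0 < u ∧ u < τ ∧ z - (u : ℂ) * d ∈ P.VV p (K + 1)} with hTdef
    have hTne : T.Nonempty := hT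
    have hTlb : ∀ u ∈ T, ε ≤ u := by
      intro u hu
      by_contra h1
      exact hdark u hu.1 (not_le.mp h1) hu.2.1 hu.2.2
    have hTbdd : BddBelow T := ⟨ε, hTlb⟩
    set t2 : ℝ := sInf T with ht2
    have ht2ε : ε ≤ t2 := le_csInf hTne hTlb
    have ht20 : 0 < t2 := lt_of_lt_of_le hε ht2ε
    have ht2τ : t2 < τ := by
      obtain ⟨u, hu⟩ := hT
      exact (csInf_le hTbdd hu).trans_lt hu.2.1
    have hbelow : ∀ u : ℝ, 0 < u → u < t2 → z - (u : ℂ) * d ∉ P.VV p (K + 1) := by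
      intro u hu hu' h1
      exact absurd (csInf_le hTbdd (show u ∈ T from ⟨hu, hu'.trans ht2τ, h1⟩)) (not_le.mpr hu')
    have hd0 : 0 < ‖d‖ := norm_pos_iff.mpr hξz
    have hz2w : z - (t2 : ℂ) * d ∈ openSegment ℝ (P.γ a) (P.γ b) := hEseg t2 ht20.le ht2τ
    have hz2I : z - (t2 : ℂ) * d ∈ P.I := hv hz2w
    have hz2n : z - (t2 : ℂ) * d ∉ P.VV p (K + 1) := by
      intro h1
      obtain ⟨δ, hδ, h2⟩ := P.VV_open hc h1 hz2I
      set r : ℝ := min (t2 / 2) (δ / (2 * ‖d‖)) with hr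
      have hr0 : 0 < r := lt_min (by positivity) (by positivity)
      have hr1 : r ≤ t2 / 2 := min_le_left _ _
      have hr2 : r ≤ δ / (2 * ‖d‖) := min_le_right _ _
      apply hbelow (t2 - r) (by linarith) (by linarith)
      apply h2
      have h3 : z - ((t2 - r : ℝ) : ℂ) * d - (z - (t2 : ℂ) * d) = (r : ℂ) * d := by
        push_cast
        ring
      rw [h3, norm_mul, Complex.norm_real, Real.norm_eq_abs, abs_of_pos hr0]
      rw [le_div_iff₀ (by positivity)] at hr2
      nlinarith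
    have habove : ∀ δ : ℝ, 0 < δ → ∃ u : ℝ, t2 < u ∧ u < t2 + δ ∧
        z - (u : ℂ) * d ∈ P.VV p (K + 1) ∧ u < τ := by
      intro δ hδ
      obtain ⟨u, hu, hu'⟩ := exists_lt_of_csInf_lt hTne (show sInf T < t2 + δ by linarith)
      have h1 : t2 ≤ u := csInf_le hTbdd hu
      refine ⟨u, lt_of_le_of_ne h1 ?_, hu', hu.2.2, hu.2.1⟩
      intro h2
      apply hz2n
      rw [h2]
      exact hu.2.2
    have hz2c : z - (t2 : ℂ) * d ∈ closure (P.VV p (K + 1)) :=
      P.NNext_clos hs.Xc hs.h0 (hw _ hz2w).1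
    have hz2f : z - (t2 : ℂ) * d ∈ frontier (P.VV p (K + 1)) :=
      ⟨hz2c, fun h1 => hz2n (interior_subset h1)⟩
    have hray : ∀ u : ℝ, 0 < u → u < 1 →
        z - (t2 : ℂ) * d + (u : ℂ) * (z - (z - (t2 : ℂ) * d)) ∈ frontier (P.VV p (K + 1)) := by
      intro u hu hu'
      have h1 : z - (t2 : ℂ) * d + (u : ℂ) * (z - (z - (t2 : ℂ) * d)) =
          z - (((1 - u) * t2 : ℝ) : ℂ) * d := by
        push_cast
        ring
      rw [h1]
      have h2 : 0 < (1 - u) * t2 := mul_pos (by linarith) ht20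
      have h3 : (1 - u) * t2 < t2 := by nlinarith
      have h4 := hEseg ((1 - u) * t2) h2.le (h3.trans ht2τ)
      exact ⟨P.NNext_clos hs.Xc hs.h0 (hw _ h4).1,
        fun h5 => hbelow _ h2 h3 (interior_subset h5)⟩
    refine ⟨z - (t2 : ℂ) * d, hz2I, hz2f, ?_, ?_, ⟨hne t2 ht20, ?_, hbehind t2 ht20⟩, ?_⟩
    · -- not regular
      rintro ⟨e, he0, ρ, hρ, hreg⟩
      set r : ℝ := min (1 / 2) (ρ / (2 * (t2 * ‖d‖))) with hr
      have hr0 : 0 < r := lt_min (by norm_num) (by positivity)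
      have hr1 : r < 1 := (min_le_left _ _).trans_lt (by norm_num)
      have hr2 : r ≤ ρ / (2 * (t2 * ‖d‖)) := min_le_right _ _
      have e1 : z - (z - (t2 : ℂ) * d) = (t2 : ℂ) * d := by ring
      have e2 : ‖z - (t2 : ℂ) * d + (r : ℂ) * (z - (z - (t2 : ℂ) * d)) - (z - (t2 : ℂ) * d)‖ < ρ := by
        rw [add_sub_cancel_left, e1, norm_mul, norm_mul, Complex.norm_real, Complex.norm_real,
          Real.norm_eq_abs, Real.norm_eq_abs, abs_of_pos hr0, abs_of_pos ht20]
        rw [le_div_iff₀ (by positivity)] at hr2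
        have : 0 < r * (t2 * ‖d‖) := by positivity
        nlinarith
      obtain ⟨t', ht'⟩ := (hreg _ e2).mp (hray r hr0 hr1)
      have e3 : (r : ℂ) * ((t2 : ℂ) * d) = (t' : ℂ) * e := by
        rw [e1] at ht'
        exact add_left_cancel ht'
      have hrt : r * t2 ≠ 0 := by positivity
      obtain ⟨u, hu1, hu2, hu3, huτ⟩ := habove (ρ / ‖d‖) (by positivity)
      have h1 : z - (u : ℂ) * d - (z - (t2 : ℂ) * d) = ((u - t2 : ℝ) : ℂ) * (-d) := by
        push_cast
        ring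
      have h2 : ‖z - (u : ℂ) * d - (z - (t2 : ℂ) * d)‖ < ρ := by
        rw [h1, norm_mul, Complex.norm_real, Real.norm_eq_abs, abs_of_pos (by linarith), norm_neg]
        have h3 : u - t2 < ρ / ‖d‖ := by linarith
        rwa [lt_div_iff₀ hd0] at h3
      have h4 : z - (u : ℂ) * d ∈ frontier (P.VV p (K + 1)) := by
        rw [hreg _ h2]
        refine ⟨-((u - t2) * t' / (r * t2)), ?_⟩
        have hrc : (r : ℂ) * (t2 : ℂ) ≠ 0 := by exact_mod_cast hrt
        have h5 : ((-((u - t2) * t' / (r * t2)) : ℝ) : ℂ) * e =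
            -(((u : ℂ) - t2) / ((r : ℂ) * t2)) * ((t' : ℂ) * e) := by
          push_cast
          ring
        rw [h5, ← e3]
        have hr' : (r : ℂ) ≠ 0 := by exact_mod_cast hr0.ne'
        have ht' : (t2 : ℂ) ≠ 0 := by exact_mod_cast ht20.ne'
        field_simp
        ring
      exact P.NNext_not hc (hv (hEseg u (by linarith) huτ)) h4 hu3
    · -- class of the point
      obtain ⟨H, -, hHs, ρ, hρ, hloc⟩ := P.local_struct hc hp hz2I hz2f
      obtain ⟨u, hu1, hu2, hu3, -⟩ := habove (ρ / ‖d‖) (by positivity)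
      have h1 : z - (u : ℂ) * d - (z - (t2 : ℂ) * d) = ((u - t2 : ℝ) : ℂ) * (-d) := by
        push_cast
        ring
      have h2 : ‖z - (u : ℂ) * d - (z - (t2 : ℂ) * d)‖ < ρ := by
        rw [h1, norm_mul, Complex.norm_real, Real.norm_eq_abs, abs_of_pos (by linarith), norm_neg]
        have h3 : u - t2 < ρ / ‖d‖ := by linarith
        rwa [lt_div_iff₀ hd0] at h3
      obtain ⟨h', hh', h4⟩ := (hloc _ h2).mp hu3
      rw [h1, cr_mul_right, cr_neg_right] at h4
      have h5 : cr h' d < 0 := by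
        have h6 : 0 < u - t2 := by linarith
        by_contra h7
        have h8 : 0 ≤ cr h' d := not_lt.mp h7
        nlinarith
      rcases hHs h' hh' with hps | ⟨K', X'', ξ', hK, hxs⟩
      · exact Or.inl ⟨h', hps⟩
      · right
        have hK' : K' = K := by omega
        subst hK'
        obtain ⟨hw1, hw2, c', hc', hw3⟩ := hw _ hz2w
        refine ⟨X, X'', h, h', ξ, ξ', ⟨hs.Xc, hs.h0, hs.ξX, ?_, hw2, hw1, ?_⟩, hxs, ?_⟩
        · rw [hw3, cr_mul_right, hs.par, mul_zero]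
        · intro h6
          obtain ⟨ρ', hρ', h7⟩ := hw1
          have h8 := (h7 (z - (t2 : ℂ) * d) (by rw [sub_self, norm_zero]; exact hρ')).mp h6
          rw [sub_self, cr_zero_right] at h8
          exact lt_irrefl _ h8
        · rw [hw3, cr_mul_right]
          exact mul_neg_of_pos_of_neg hc' h5
    · intro c' hc'
      obtain ⟨u, hu, hu', rfl⟩ := NNext_seg ht20 hc'
      exact hbelow u hu hu'
    · exact ⟨1, one_pos, hray⟩
  · left
    have hds : P.DarkSeg p (K + 1) z E := by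
      rw [hEeq]
      refine ⟨hne τ hτ, ?_, hbehind τ hτ⟩
      intro c' hc'
      obtain ⟨u, hu, hu', rfl⟩ := NNext_seg hτ hc'
      exact fun h1 => hT ⟨u, hu, hu', h1⟩
    refine ⟨X.sh (m * n), a, b, hwd, ha0, han, hzw, ?_⟩
    rcases hE with rfl | rfl
    · exact Or.inl hds
    · exact Or.inr hds

end Poly

end Pool.Agent.Lib_PL
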