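import Pool.Agent.Lib_PLQ.PCount
import Pool.Agent.Lib_PLQ.FarCount
import Pool.Agent.Lib_PLQ.NNCount

/-!
# D: the number of non-regular frontier points in `I` is `O_k(n²)`
-/

open Set Complex
open scoped Topology

namespace Pool.Agent.Lib_PL

/-- constant of the non-regular points -/
def cN : ℕ → ℕ
  | 0 => 6 * cB 0
  | K + 1 => 3 * (6 * cB (K + 1) + cF K) + 2 * cS K

namespace Poly

variable {n : ℕ} (P : Poly n)

theorem frontier_I_not (hc : P.CCW) {p : ℂ} {k : ℕ} {z : ℂ} (hz : z ∈ frontier (P.VV p k))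
    (hI : z ∈ P.I) : z ∉ P.VV p k := by
  intro h
  obtain ⟨ε, hε, hb⟩ := P.VV_open hc h hI
  have h1 : z ∈ interior (P.VV p k) :=
    mem_interior.2 ⟨Metric.ball z ε, fun z' hz' => hb z' (by rwa [← dist_eq_norm]),
      Metric.isOpen_ball, Metric.mem_ball_self hε⟩
  exact hz.2 h1

theorem nonreg_count (hc : P.CCW) {p : ℂ} (hp : p ∈ P.R) {k : ℕ} (W : Finset (ℂ × ℂ))
    (hW : ∀ w ∈ W, w.1 ∈ P.C ∧ w.2 ∈ P.C ∧ P.Vis w.1 w.2)
    (hcov : ∀ z ∈ frontier (P.VV p k), z ∈ P.I → ∃ w ∈ W, z ∈ openSegment ℝ w.1 w.2)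
    (F : Finset ℂ) (hF : ∀ z ∈ F, z ∈ P.I ∧ z ∈ frontier (P.VV p k) ∧
      ¬ Reg (frontier (P.VV p k)) z) :
    F.card ≤ cN k * n ^ 2 := by
  classical
  rcases k with _ | K
  · refine (P.p_count hc W hW hcov F ?_).trans (le_of_eq (by simp only [cN]; ring))
    intro z hz
    obtain ⟨h1, h2, h3⟩ := hF z hz
    rcases P.class_nonreg hc hp h1 h2 h3 with h | ⟨K, hK, -⟩
    · exact ⟨h1, h2, h3, h⟩
    · omega
  · -- class `PS`
    have hP : ∀ G : Finset ℂ, (∀ z ∈ G, z ∈ P.I ∧ z ∈ frontier (P.VV p (K + 1)) ∧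
        ¬ Reg (frontier (P.VV p (K + 1))) z ∧ ∃ h, P.PS p z h) →
        G.card ≤ 6 * cB (K + 1) * n ^ 2 := by
      intro G hG
      refine (P.p_count hc W hW hcov G hG).trans (le_of_eq (by ring))
    have hFar : ∀ G : Finset ℂ, (∀ z ∈ G, z ∈ P.I ∧ z ∈ frontier (P.VV p (K + 1)) ∧
        P.Far p K z) → G.card ≤ cF K * n ^ 2 := by
      intro G hG
      refine P.far_count hc p K G fun z hz => ?_
      obtain ⟨h1, h2, h3⟩ := hG z hz
      exact ⟨h1, P.frontier_I_not hc h2 h1, h3⟩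
    have hPF : ∀ G : Finset ℂ, (∀ z ∈ G, z ∈ P.I ∧ z ∈ frontier (P.VV p (K + 1)) ∧
        ¬ Reg (frontier (P.VV p (K + 1))) z ∧ ((∃ h, P.PS p z h) ∨ P.Far p K z)) →
        G.card ≤ 6 * cB (K + 1) * n ^ 2 + cF K * n ^ 2 := by
      intro G hG
      have h1 : G ⊆ (G.filter fun z => ∃ h, P.PS p z h) ∪ (G.filter fun z => P.Far p K z) := by
        intro z hz
        rcases (hG z hz).2.2.2 with h | h
        · exact Finset.mem_union_left _ (Finset.mem_filter.2 ⟨hz, h⟩)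
        · exact Finset.mem_union_right _ (Finset.mem_filter.2 ⟨hz, h⟩)
      refine (Finset.card_le_card h1).trans ((Finset.card_union_le _ _).trans (Nat.add_le_add ?_ ?_))
      · refine hP _ fun z hz => ?_
        obtain ⟨h2, h3⟩ := Finset.mem_filter.1 hz
        exact ⟨(hG z h2).1, (hG z h2).2.1, (hG z h2).2.2.1, h3⟩
      · refine hFar _ fun z hz => ?_
        obtain ⟨h2, h3⟩ := Finset.mem_filter.1 hz
        exact ⟨(hG z h2).1, (hG z h2).2.1, h3⟩
    have hNN : ∀ G : Finset ℂ, (∀ z ∈ G, z ∈ P.I ∧ z ∉ P.VV p (K + 1) ∧ P.NN p K z) →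
        G.card ≤ 2 * (6 * cB (K + 1) * n ^ 2 + cF K * n ^ 2) + 2 * (n * (cS K * n)) :=
      fun G hG => P.nn_count hc hp hPF (fun W' hW' => P.wd_total hc p K W' hW') G hG
    have h1 : F ⊆ (F.filter fun z => (∃ h, P.PS p z h) ∨ P.Far p K z) ∪
        (F.filter fun z => P.NN p K z) := by
      intro z hz
      obtain ⟨h1, h2, h3⟩ := hF z hz
      rcases P.class_nonreg hc hp h1 h2 h3 with h | ⟨K', hK, h⟩
      · exact Finset.mem_union_left _ (Finset.mem_filter.2 ⟨hz, Or.inl h⟩)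
      · obtain rfl : K = K' := by omega
        rcases h with h | h
        · exact Finset.mem_union_left _ (Finset.mem_filter.2 ⟨hz, Or.inr h⟩)
        · exact Finset.mem_union_right _ (Finset.mem_filter.2 ⟨hz, h⟩)
    have h2 := (Finset.card_le_card h1).trans (Finset.card_union_le _ _)
    have h3 := hPF (F.filter fun z => (∃ h, P.PS p z h) ∨ P.Far p K z) (by
      intro z hz
      obtain ⟨h2, h3⟩ := Finset.mem_filter.1 hz
      exact ⟨(hF z h2).1, (hF z h2).2.1, (hF z h2).2.2, h3⟩)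
    have h4 := hNN (F.filter fun z => P.NN p K z) (by
      intro z hz
      obtain ⟨h2, h3⟩ := Finset.mem_filter.1 hz
      exact ⟨(hF z h2).1, P.frontier_I_not hc (hF z h2).2.1 (hF z h2).1, h3⟩)
    calc F.card ≤ _ := h2
      _ ≤ (6 * cB (K + 1) * n ^ 2 + cF K * n ^ 2) +
          (2 * (6 * cB (K + 1) * n ^ 2 + cF K * n ^ 2) + 2 * (n * (cS K * n))) :=
        Nat.add_le_add h3 h4
      _ = cN (K + 1) * n ^ 2 := by simp only [cN]; ring

end Poly

end Pool.Agent.Lib_PL
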