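import Pool.Agent.Lib_PLQ.Defs

/-!
# A7 (P): the points on the boundary of the half disc of the light source lie on `n` chords

For an integer `m` let `w_m` be the chord from `V m` in the direction `V m - p`, if this direction is interior (`InSector (ep m) (em m) (V m - p)`, then `ray_hit'` gives the other end), and nothing otherwise.
Let `PS p z h`, `z ∈ I`.  `z` does not see `p`, `[z,p] ⊆ R`: by `block` (`z ∈ I`, so `openSegment z p` meets `I` near `z`) there is a point of `C` on `openSegment z p`; let `c` be the one nearest to `z` (compactness; or `ray_hit` from `z` in the direction `p - z`): `Vis z c`, `c = γ x`, `c ∈ openSegment z p`.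
`x` is an integer: if `NI x` then `seg_sector'` (for the segment `[z,p] ⊆ R` through `γ x`) and `InSector_NI` for the reversed sector give `cr (ed x) (p - z) = 0`, so `z - γ x` is parallel to the edge; but `Vis.left` says `0 < cr (ed x) (z - γ x)`: contradiction.
So `c = V m`, `Vis (V m) z`, `Vis.sector` gives that `z - V m = t (V m - p)`, `t > 0`, is interior, and `z` is on the open chord `w_m` (`w_m` is the first hit: the points of the ray before the hit are in `I`; the point `z` is before the hit because `openSegment (V m) z ⊆ I` and `z ∈ I`).  Modulo `n` there are `n` integers (`V_add_mul`).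
-/

open Set Complex
open scoped Topology

namespace Pool.Agent.Lib_PL

private theorem PChords_open {z w : ℂ} {t : ℝ} (h0 : 0 < t) (h1 : t < 1) :
    z + (t : ℂ) * (w - z) ∈ openSegment ℝ z w := by
  rw [openSegment_eq_image']
  exact ⟨t, ⟨h0, h1⟩, by simp only [Complex.real_smul]⟩

namespace Poly

variable {n : ℕ} (P : Poly n)

private theorem PChords_rev {x : ℝ} (h : NI x) {d : ℂ} (hd : ¬ InSector (P.em x) (P.ep x) d) :
    0 ≤ cr (P.ed x) d := by
  by_contra hneg
  push Not at hneg
  apply hd
  obtain ⟨t, ht, h1⟩ := P.ep_NI h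
  obtain ⟨s, hs, h2⟩ := P.em_NI h
  have h3 : cr (P.em x) (P.ep x) = 0 := by
    rw [h1, h2, cr_neg_left, cr_mul_left, cr_mul_right, cr_self]
    ring
  rw [InSector_flat h3, h2, cr_neg_left, cr_mul_left]
  nlinarith

theorem p_chords (hc : P.CCW) (p : ℂ) : ∃ W : Finset (ℂ × ℂ), W.card ≤ n ∧
    (∀ w ∈ W, (∃ ν : ℤ, w.1 = P.V ν) ∧ (∃ ω : ℝ, w.2 = P.γ ω) ∧ P.Vis w.1 w.2 ∧
      ∃ t : ℝ, 0 < t ∧ w.2 - w.1 = (t : ℂ) * (w.1 - p)) ∧
    ∀ z h : ℂ, z ∈ P.I → P.PS p z h → ∃ w ∈ W, z ∈ openSegment ℝ w.1 w.2 := by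
  classical
  have hray : ∀ m : ℕ, InSector (P.ep (m : ℝ)) (P.em (m : ℝ)) (P.V m - p) →
      ∃ t : ℝ, 0 < t ∧ P.V m + (t : ℂ) * (P.V m - p) ∈ P.C ∧
        ∀ s : ℝ, 0 < s → s < t → P.V m + (s : ℂ) * (P.V m - p) ∈ P.I := by
    intro m hm
    have h1 := P.ray_hit' hc (m : ℝ) (P.V m - p) hm
    have h2 : P.γ (m : ℝ) = P.V m := by
      have := P.γ_int (m : ℤ)
      push_cast at this
      exact this
    rw [h2] at h1
    exact h1
  choose! t ht htC htI using hray
  refine ⟨((Finset.range n).filter fun m : ℕ =>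
      InSector (P.ep (m : ℝ)) (P.em (m : ℝ)) (P.V m - p)).image
      (fun m : ℕ => (P.V m, P.V m + (t m : ℂ) * (P.V m - p))), ?_, ?_, ?_⟩
  · refine Finset.card_image_le.trans ((Finset.card_filter_le _ _).trans ?_)
    rw [Finset.card_range]
  · intro w hw
    obtain ⟨m, hm, rfl⟩ := Finset.mem_image.1 hw
    have hQ := (Finset.mem_filter.1 hm).2
    refine ⟨⟨m, rfl⟩, ?_, ?_, ⟨t m, ht m hQ, by ring⟩⟩
    · obtain ⟨ω, hω⟩ := (P.mem_C_iff _).1 (htC m hQ)
      exact ⟨ω, hω.symm⟩
    · show openSegment ℝ (P.V m) (P.V m + (t m : ℂ) * (P.V m - p)) ⊆ P.I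
      rw [openSegment_eq_image']
      rintro _ ⟨s, ⟨hs0, hs1⟩, rfl⟩
      have h1 := htI m hQ (s * t m) (mul_pos hs0 (ht m hQ)) (by nlinarith [ht m hQ])
      have e : P.V m + s • (P.V m + (t m : ℂ) * (P.V m - p) - P.V m) =
          P.V m + ((s * t m : ℝ) : ℂ) * (P.V m - p) := by
        rw [Complex.real_smul]
        push_cast
        ring
      simp only [e]
      exact h1
  · intro z h hz hps
    have hd : p - z ≠ 0 := sub_ne_zero.2 hps.pz
    have hvis : ¬ P.Vis z p := fun hv => hps.no hv.symm
    obtain ⟨t0, ht0, hcC, hI⟩ := P.ray_hit z hz (p - z) hd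
    have ht1 : t0 < 1 := by
      by_contra hge
      push Not at hge
      apply hvis
      show openSegment ℝ z p ⊆ P.I
      rw [openSegment_eq_image']
      rintro _ ⟨s, ⟨hs0, hs1⟩, rfl⟩
      have h1 := hI s hs0.le (by linarith)
      simp only [Complex.real_smul]
      exact h1
    have hvc : P.Vis z (z + (t0 : ℂ) * (p - z)) := by
      show openSegment ℝ z (z + (t0 : ℂ) * (p - z)) ⊆ P.I
      rw [openSegment_eq_image']
      rintro _ ⟨s, ⟨hs0, hs1⟩, rfl⟩
      have h1 := hI (s * t0) (by positivity) (by nlinarith)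
      have e : z + s • (z + (t0 : ℂ) * (p - z) - z) = z + ((s * t0 : ℝ) : ℂ) * (p - z) := by
        rw [Complex.real_smul]
        push_cast
        ring
      simp only [e]
      exact h1
    obtain ⟨x, hx0, hxn, hx⟩ := P.mem_C_window 0 hcC
    have hmem : P.γ x ∈ openSegment ℝ z p := by
      rw [hx]
      exact PChords_open ht0 ht1
    -- `x` is an integer
    have hint : ∃ m : ℤ, (m : ℝ) = x := by
      by_contra hni
      push Not at hni
      have hNI : NI x := hni
      have h1 := P.seg_sector' hc hps.seg hmem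
      have h2 := P.PChords_rev hNI h1.1
      have h3 := P.PChords_rev hNI h1.2
      have hv : P.Vis (P.γ x) z := by
        rw [hx]
        exact hvc.symm
      have h4 := hv.left hc hNI
      have e1 : z - P.γ x = (t0 : ℂ) * (z - p) := by
        rw [hx]
        ring
      have e2 : cr (P.ed x) (p - z) = - cr (P.ed x) (z - p) := by
        rw [← cr_neg_right]
        congr 1
        ring
      rw [e1, cr_mul_right] at h4
      rw [e2] at h3
      nlinarith
    obtain ⟨m0, hm0⟩ := hint
    have hm0' : 0 ≤ m0 := by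
      have : (0 : ℝ) ≤ (m0 : ℝ) := by rw [hm0]; exact hx0
      exact_mod_cast this
    obtain ⟨m, rfl⟩ := Int.eq_ofNat_of_zero_le hm0'
    have hxm : (m : ℝ) = x := by
      rw [← hm0]
      push_cast
      rfl
    have hmn : m < n := by
      have : (m : ℝ) < n := by rw [hxm]; linarith
      exact_mod_cast this
    have hγ : P.γ (m : ℝ) = P.V m := by
      have := P.γ_int (m : ℤ)
      push_cast at this
      exact this
    have hVm : P.V m = z + (t0 : ℂ) * (p - z) := by
      rw [← hγ, hxm, hx]
    have hv : P.Vis (P.γ (m : ℝ)) z := by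
      rw [hγ, hVm]
      exact hvc.symm
    have h1t : (0 : ℝ) < 1 - t0 := by linarith
    set r : ℝ := t0 / (1 - t0) with hr
    have hr0 : 0 < r := div_pos ht0 h1t
    have hzr : z = P.V m + (r : ℂ) * (P.V m - p) := by
      have e1 : P.V m - p = ((1 - t0 : ℝ) : ℂ) * (z - p) := by
        rw [hVm]
        push_cast
        ring
      have e2 : (r : ℂ) * ((1 - t0 : ℝ) : ℂ) = (t0 : ℂ) := by
        rw [← Complex.ofReal_mul, hr, div_mul_cancel₀ _ h1t.ne']
      rw [e1, ← mul_assoc, e2, hVm]
      ring
    have hQ : InSector (P.ep (m : ℝ)) (P.em (m : ℝ)) (P.V m - p) := by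
      have h1 := hv.sector hc
      have e : z - P.γ (m : ℝ) = (r : ℂ) * (P.V m - p) := by
        rw [hγ]
        nth_rewrite 1 [hzr]
        ring
      rw [e, InSector_smul hr0] at h1
      exact h1
    refine ⟨_, Finset.mem_image.2 ⟨m, Finset.mem_filter.2 ⟨Finset.mem_range.2 hmn, hQ⟩, rfl⟩, ?_⟩
    have htm := ht m hQ
    have hrt : r < t m := by
      rcases lt_trichotomy r (t m) with h1 | h1 | h1
      · exact h1
      · exfalso
        have h2 := htC m hQ
        rw [← h1, ← hzr] at h2
        exact P.I_disj_C hz h2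
      · exfalso
        have h2 : P.V m + (t m : ℂ) * (P.V m - p) ∈ openSegment ℝ (P.V m) z := by
          have e : P.V m + (t m : ℂ) * (P.V m - p) =
              P.V m + ((t m / r : ℝ) : ℂ) * (z - P.V m) := by
            have e2 : z - P.V m = (r : ℂ) * (P.V m - p) := by
              nth_rewrite 1 [hzr]
              ring
            rw [e2, ← mul_assoc, ← Complex.ofReal_mul, div_mul_cancel₀ _ hr0.ne']
          rw [e]
          exact PChords_open (div_pos htm hr0) ((div_lt_one hr0).2 h1)
        rw [← hγ] at h2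
        have h3 := hv.mem h2
        rw [hγ] at h3
        exact P.I_disj_C h3 (htC m hQ)
    have e : z = P.V m + ((r / t m : ℝ) : ℂ) * (P.V m + (t m : ℂ) * (P.V m - p) - P.V m) := by
      rw [add_sub_cancel_left, ← mul_assoc, ← Complex.ofReal_mul, div_mul_cancel₀ _ htm.ne']
      exact hzr
    show z ∈ openSegment ℝ (P.V m) (P.V m + (t m : ℂ) * (P.V m - p))
    have h5 := PChords_open (z := P.V m) (w := P.V m + (t m : ℂ) * (P.V m - p))
      (div_pos hr0 htm) ((div_lt_one htm).2 hrt)
    rw [← e] at h5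
    exact h5

end Poly

end Pool.Agent.Lib_PL
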