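import Pool.Agent.Lib_PLQ.PChords

/-!
# A7 (P): counting the non-regular points of class `PS`

The `n` chords of `p_chords` are added to the windows `W`; `events` for each of them.
-/

open Set Complex
open scoped Topology

namespace Pool.Agent.Lib_PL

namespace Poly

variable {n : ℕ} (P : Poly n)

theorem p_count (hc : P.CCW) {p : ℂ} {k : ℕ} (W : Finset (ℂ × ℂ))
    (hW : ∀ w ∈ W, w.1 ∈ P.C ∧ w.2 ∈ P.C ∧ P.Vis w.1 w.2)
    (hcov : ∀ z ∈ frontier (P.VV p k), z ∈ P.I → ∃ w ∈ W, z ∈ openSegment ℝ w.1 w.2)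
    (F : Finset ℂ) (hF : ∀ z ∈ F, z ∈ P.I ∧ z ∈ frontier (P.VV p k) ∧
      ¬ Reg (frontier (P.VV p k)) z ∧ ∃ h, P.PS p z h) :
    F.card ≤ n * (6 * (cB k * n)) := by
  classical
  obtain ⟨Wp, h1, h2, h3⟩ := P.p_chords hc p
  have hW' : ∀ w ∈ W ∪ Wp, w.1 ∈ P.C ∧ w.2 ∈ P.C ∧ P.Vis w.1 w.2 := by
    intro w hw
    rcases Finset.mem_union.1 hw with h | h
    · exact hW w h
    · obtain ⟨⟨ν, hν⟩, ⟨ω, hω⟩, hv, -⟩ := h2 w h
      refine ⟨?_, ?_, hv⟩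
      · rw [hν, ← P.γ_int]
        exact P.γ_mem_C _
      · rw [hω]
        exact P.γ_mem_C _
  have hcov' : ∀ z ∈ frontier (P.VV p k), z ∈ P.I →
      ∃ w ∈ W ∪ Wp, z ∈ openSegment ℝ w.1 w.2 := by
    intro z hz hI
    obtain ⟨w, hw, h⟩ := hcov z hz hI
    exact ⟨w, Finset.mem_union_left _ hw, h⟩
  have hev : ∀ w ∈ Wp, (F.filter fun z => z ∈ openSegment ℝ w.1 w.2).card ≤ 6 * (cB k * n) := by
    intro w hw
    refine P.events hc (p := p) (k := k) (N := cB k * n) ?_ (W ∪ Wp) hW' hcov'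
      (Finset.mem_union_right _ hw) _ ?_
    · intro ω1 ω2 T hv hT hsep
      exact P.thmB hc p k hv T hT hsep
    · intro z hz
      obtain ⟨hz1, hz2⟩ := Finset.mem_filter.1 hz
      obtain ⟨-, h4, h5, -⟩ := hF z hz1
      exact ⟨hz2, h4, h5⟩
  have hsub : F ⊆ Wp.biUnion fun w => F.filter fun z => z ∈ openSegment ℝ w.1 w.2 := by
    intro z hz
    obtain ⟨hI, -, -, h, hh⟩ := hF z hz
    obtain ⟨w, hw, hzw⟩ := h3 z h hI hh
    exact Finset.mem_biUnion.2 ⟨w, hw, Finset.mem_filter.2 ⟨hz, hzw⟩⟩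
  calc F.card ≤ _ := Finset.card_le_card hsub
    _ ≤ Wp.card * (6 * (cB k * n)) := Finset.card_biUnion_le_card_mul _ _ _ hev
    _ ≤ n * (6 * (cB k * n)) := Nat.mul_le_mul_right _ h1

end Poly

end Pool.Agent.Lib_PL
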