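import Pool.Agent.Lib_PLQ.PivotClosed

/-!
PATH LEMMA (replaces `pivot_closed`, B2).

`vis_prolong`: prolongation of a free segment which starts on the boundary.
`half_chord`: the two halves of a chord which crosses another chord.
`Pivot.path`: a pivot, a point `ζ` of the interior which sees `γ x`, `x ∈ (q, D]`, and `γ g`, `g ∈ (s0, q)`, cannot be on the
side `Side s y` of the approximating chords.  Proof: prolong `x → ζ → t` and `g → ζ → t'`; by (p2) and planarity
`g < q < x ≤ D < t' < t < s0 + n`.  The approximating chord `κ = (s, y)` crosses `(x, t)` beyond `ζ`, on the side `t'` of the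
chord `(g, t')`; the point `w` of `κ` close to `V q` is on the other side of it, and before the crossing with `(x,t)`.  So the
order on `κ` from `γ y` is contradictory.
-/

open Set Complex
open scoped Topology

namespace Pool.Agent.Lib_PL

namespace Poly

variable {n : ℕ} (P : Poly n)

theorem vis_prolong {u : ℝ} {z : ℂ} (hz : z ∈ P.I) (hv : P.Vis (P.γ u) z) :
    ∃ a : ℝ, u < a ∧ a < u + n ∧ P.Vis (P.γ u) (P.γ a) ∧ z ∈ openSegment ℝ (P.γ u) (P.γ a) := by
  have hne : P.γ u ≠ z := hv.ne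
  obtain ⟨t, ht, htC, htI⟩ := P.ray_hit z hz (z - P.γ u) (sub_ne_zero.2 (Ne.symm hne))
  obtain ⟨a, ha, ha', hae⟩ := P.mem_C_window u htC
  have hlong : P.Vis (P.γ u) (P.γ a) := by
    rintro c ⟨r, s, hr, hs, hrs, rfl⟩
    rw [hae]
    have hr' : r = 1 - s := by linarith
    subst hr'
    have hce : ((1 - s : ℝ) • P.γ u + s • (z + (t : ℂ) * (z - P.γ u)) : ℂ) =
        P.γ u + ((s * (1 + t) : ℝ) : ℂ) * (z - P.γ u) := by
      simp only [Complex.real_smul]
      push_cast
      ring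
    rw [hce]
    rcases lt_or_ge (s * (1 + t)) 1 with h1 | h1
    · apply hv
      refine ⟨1 - s * (1 + t), s * (1 + t), by linarith, by positivity, by ring, ?_⟩
      simp only [Complex.real_smul]
      push_cast
      ring
    · have h3 := htI (s * (1 + t) - 1) (by linarith) (by nlinarith)
      have h4 : z + ((s * (1 + t) - 1 : ℝ) : ℂ) * (z - P.γ u) =
          P.γ u + ((s * (1 + t) : ℝ) : ℂ) * (z - P.γ u) := by
        push_cast
        ring
      rwa [h4] at h3
  have hzl : z ∈ openSegment ℝ (P.γ u) (P.γ a) := by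
    refine ⟨t / (1 + t), 1 / (1 + t), by positivity, by positivity, by field_simp; ring, ?_⟩
    rw [hae]
    have h1t : ((1 : ℂ) + (t : ℂ)) ≠ 0 := by
      have : (1 + t : ℝ) ≠ 0 := by positivity
      exact_mod_cast this
    simp only [Complex.real_smul]
    push_cast
    field_simp
    ring
  refine ⟨a, lt_of_le_of_ne ha ?_, ha', hlong, hzl⟩
  rintro rfl
  exact hlong.ne rfl

private theorem Path_param {A B : ℂ} {w : ℂ} (hw : w ∈ openSegment ℝ A B) :
    ∃ t : ℝ, 0 < t ∧ t < 1 ∧ w = A + (t : ℂ) * (B - A) := by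
  obtain ⟨s, t, hs, ht, hst, rfl⟩ := hw
  refine ⟨t, ht, by linarith, ?_⟩
  have : s = 1 - t := by linarith
  subst this
  simp only [Complex.real_smul]
  push_cast
  ring

private theorem Path_param' {A B : ℂ} {t : ℝ} (h0 : 0 ≤ t) (h1 : t ≤ 1) :
    A + (t : ℂ) * (B - A) ∈ segment ℝ A B := by
  refine ⟨1 - t, t, by linarith, h0, by ring, ?_⟩
  simp only [Complex.real_smul]
  push_cast
  ring

/-- two chords from the same point in the same direction -/
theorem same_ray {a b c : ℝ} {z : ℂ} (h : P.Vis (P.γ a) (P.γ b))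
    (h' : P.Vis (P.γ a) (P.γ c)) (hz : z ∈ openSegment ℝ (P.γ a) (P.γ b))
    (hz' : z ∈ openSegment ℝ (P.γ a) (P.γ c)) : P.γ b = P.γ c := by
  have key' : ∀ {A B : ℂ} {t : ℝ}, 0 < t → t < 1 → A + (t : ℂ) * (B - A) ∈ openSegment ℝ A B := by
    intro A B t h0 h1
    refine ⟨1 - t, t, by linarith, h0, by ring, ?_⟩
    simp only [Complex.real_smul]
    push_cast
    ring
  obtain ⟨t, ht0, ht1, htz⟩ := Path_param hz
  obtain ⟨u, hu0, hu1, huz⟩ := Path_param hz'
  have he : (t : ℂ) * (P.γ b - P.γ a) = (u : ℂ) * (P.γ c - P.γ a) := by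
    have : P.γ a + (t : ℂ) * (P.γ b - P.γ a) = P.γ a + (u : ℂ) * (P.γ c - P.γ a) := by
      rw [← htz, ← huz]
    exact add_left_cancel this
  have htc : (t : ℂ) ≠ 0 := by exact_mod_cast ht0.ne'
  have huc : (u : ℂ) ≠ 0 := by exact_mod_cast hu0.ne'
  rcases lt_trichotomy u t with hlt | heq | hgt
  · exfalso
    have hb : P.γ b = P.γ a + ((u / t : ℝ) : ℂ) * (P.γ c - P.γ a) := by
      push_cast
      field_simp
      linear_combination he
    have hm : P.γ b ∈ openSegment ℝ (P.γ a) (P.γ c) := by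
      rw [hb]
      exact key' (div_pos hu0 ht0) ((div_lt_one ht0).2 hlt)
    exact P.I_disj_C (h'.mem hm) (P.γ_mem_C b)
  · rw [heq] at he
    have := mul_left_cancel₀ htc he
    linear_combination this
  · exfalso
    have hb : P.γ c = P.γ a + ((t / u : ℝ) : ℂ) * (P.γ b - P.γ a) := by
      push_cast
      field_simp
      linear_combination -he
    have hm : P.γ c ∈ openSegment ℝ (P.γ a) (P.γ b) := by
      rw [hb]
      exact key' (div_pos ht0 hu0) ((div_lt_one hu0).2 hgt)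
    exact P.I_disj_C (h.mem hm) (P.γ_mem_C c)

private theorem Path_cr_seg {p q c : ℂ} (hc : c ∈ segment ℝ p q) : cr (q - p) (c - p) = 0 := by
  rw [segment_eq_image'] at hc
  obtain ⟨s, _, hs⟩ := hc
  rw [← hs]
  simp only [Complex.real_smul]
  rw [show p + (s : ℂ) * (q - p) - p = (s : ℂ) * (q - p) by ring, cr_mul_right, cr_self, mul_zero]

/-- the two halves of the chord `x y` which crosses the chord `a b` -/
theorem half_chord (hc : P.CCW) {a b x y : ℝ} (hax : a < x) (hxb : x < b) (hby : b < y)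
    (hya : y < a + n) (h : P.Vis (P.γ a) (P.γ b)) (h' : P.Vis (P.γ x) (P.γ y)) :
    ∃ u : ℝ, 0 < u ∧ u < 1 ∧ P.γ x + (u : ℂ) * (P.γ y - P.γ x) ∈ openSegment ℝ (P.γ a) (P.γ b) ∧
      (∀ r : ℝ, 0 ≤ r → r < u → P.γ x + (r : ℂ) * (P.γ y - P.γ x) ∈ P.Side a b) ∧
      (∀ r : ℝ, u < r → r ≤ 1 → P.γ x + (r : ℂ) * (P.γ y - P.γ x) ∈ P.Side b (a + n)) := by
  have hab : a < b := hax.trans hxb
  have hba : b < a + n := hby.trans hya
  obtain ⟨c, hc1, hc2, hne⟩ := P.cross_chords hc hax hxb hby hya h h'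
  obtain ⟨u, hu0, hu1, hu⟩ := Path_param hc2
  have hxS := P.side_arc hba h (x := x) ⟨hax, hxb⟩
  have hyS := P.side_arc' hab h (x := y) ⟨hby, hya⟩
  -- points of the chord `a b` on the line `x y`
  have huniq : ∀ r : ℝ, P.γ x + (r : ℂ) * (P.γ y - P.γ x) ∈ segment ℝ (P.γ a) (P.γ b) → r = u := by
    intro r hr
    have e1 := Path_cr_seg hr
    have e2 := Path_cr_seg (openSegment_subset_segment ℝ _ _ hc1)
    rw [hu] at e2
    have e3 : P.γ x + (r : ℂ) * (P.γ y - P.γ x) - P.γ a =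
        (P.γ x + (u : ℂ) * (P.γ y - P.γ x) - P.γ a) + ((r - u : ℝ) : ℂ) * (P.γ y - P.γ x) := by
      push_cast
      ring
    rw [e3, cr_add_right, e2, cr_mul_right, zero_add] at e1
    rcases mul_eq_zero.1 e1 with h1 | h1
    · linarith
    · exact absurd h1 hne
  refine ⟨u, hu0, hu1, hu ▸ hc1, ?_, ?_⟩
  · intro r hr0 hru
    have hsub : segment ℝ (P.γ x) (P.γ x + (r : ℂ) * (P.γ y - P.γ x)) ⊆ segment ℝ (P.γ x) (P.γ y) :=
      (convex_segment _ _).segment_subset (left_mem_segment ℝ _ _) (Path_param' hr0 (by linarith))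
    have hd : Disjoint (segment ℝ (P.γ x) (P.γ x + (r : ℂ) * (P.γ y - P.γ x)))
        (segment ℝ (P.γ a) (P.γ b)) := by
      rw [disjoint_left]
      intro v hv hv'
      rw [segment_eq_image'] at hv
      obtain ⟨t, ⟨ht0, ht1⟩, rfl⟩ := hv
      have e : P.γ x + t • (P.γ x + (r : ℂ) * (P.γ y - P.γ x) - P.γ x) =
          P.γ x + ((t * r : ℝ) : ℂ) * (P.γ y - P.γ x) := by
        simp only [Complex.real_smul]
        push_cast
        ring
      have h1 := huniq (t * r) (by rw [← e]; exact hv')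
      nlinarith
    rcases P.side_conn hc hab hba h (convex_segment _ _).isPreconnected (hsub.trans h'.seg) hd with
      h1 | h1
    · exact h1 (right_mem_segment ℝ _ _)
    · exact absurd (h1 (left_mem_segment ℝ _ _)) (disjoint_left.1 (P.side_disj hc hab hba h) hxS)
  · intro r hru hr1
    have hsub : segment ℝ (P.γ x + (r : ℂ) * (P.γ y - P.γ x)) (P.γ y) ⊆ segment ℝ (P.γ x) (P.γ y) :=
      (convex_segment _ _).segment_subset (Path_param' (by linarith) hr1) (right_mem_segment ℝ _ _)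
    have hd : Disjoint (segment ℝ (P.γ x + (r : ℂ) * (P.γ y - P.γ x)) (P.γ y))
        (segment ℝ (P.γ a) (P.γ b)) := by
      rw [disjoint_left]
      intro v hv hv'
      rw [segment_eq_image'] at hv
      obtain ⟨t, ⟨ht0, ht1⟩, rfl⟩ := hv
      have e : P.γ x + (r : ℂ) * (P.γ y - P.γ x) +
            t • (P.γ y - (P.γ x + (r : ℂ) * (P.γ y - P.γ x))) =
          P.γ x + ((r + t * (1 - r) : ℝ) : ℂ) * (P.γ y - P.γ x) := by
        simp only [Complex.real_smul]
        push_cast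
        ring
      have h1 := huniq (r + t * (1 - r)) (by rw [← e]; exact hv')
      nlinarith
    rcases P.side_conn hc hab hba h (convex_segment _ _).isPreconnected (hsub.trans h'.seg) hd with
      h1 | h1
    · exact absurd hyS (disjoint_left.1 (P.side_disj hc hab hba h) (h1 (right_mem_segment ℝ _ _)))
    · exact h1 (left_mem_segment ℝ _ _)

/-- the crossing parameter is unique -/
private theorem Path_uniq {A B : ℂ} (hne : A ≠ B) {r s : ℝ}
    (h : A + (r : ℂ) * (B - A) = A + (s : ℂ) * (B - A)) : r = s := by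
  have h1 : ((r - s : ℝ) : ℂ) * (B - A) = 0 := by
    push_cast
    linear_combination h
  rcases mul_eq_zero.1 h1 with h2 | h2
  · have : r - s = 0 := by exact_mod_cast h2
    linarith
  · exact absurd (sub_eq_zero.1 h2).symm hne

/-- good approximations, with a bound on positions and on points -/
private theorem Path_approx {P : Poly n} {i j : ℤ} {α β D s0 : ℝ} {q : ℤ} (h : P.Pivot i j α β D s0 q)
    {ε δ : ℝ} (hε : 0 < ε) (hδ : 0 < δ) :
    ∃ s y : ℝ, s0 < s ∧ s < s0 + δ ∧ s < β ∧ D < y ∧ y < D + δ ∧ y < j + 1 ∧ P.Vis (P.γ s) (P.γ y) ∧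
      ‖P.γ y - P.γ D‖ < ε ∧ ‖P.γ s - P.γ s0‖ < ε := by
  obtain ⟨δ1, hδ1, h1⟩ := Metric.continuousAt_iff.1 (P.γ_cont.continuousAt (x := D)) ε hε
  obtain ⟨δ2, hδ2, h2⟩ := Metric.continuousAt_iff.1 (P.γ_cont.continuousAt (x := s0)) ε hε
  obtain ⟨s, y, a1, a2, a3, a4, a5, a6, a7⟩ := h.approx (min δ (min δ1 δ2)) (by positivity)
  have m1 : min δ (min δ1 δ2) ≤ δ := min_le_left _ _
  have m2 : min δ (min δ1 δ2) ≤ δ1 := (min_le_right _ _).trans (min_le_left _ _)
  have m3 : min δ (min δ1 δ2) ≤ δ2 := (min_le_right _ _).trans (min_le_right _ _)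
  refine ⟨s, y, a1, by linarith, a3, a4, by linarith, a6, a7, ?_, ?_⟩
  · rw [← dist_eq_norm]
    apply h1
    rw [Real.dist_eq, abs_of_pos (by linarith)]
    linarith
  · rw [← dist_eq_norm]
    apply h2
    rw [Real.dist_eq, abs_of_pos (by linarith)]
    linarith

/-- order facts -/
private theorem Path_ord {P : Poly n} {i j : ℤ} {α β D s0 : ℝ} {q : ℤ} (h : P.Pivot i j α β D s0 q) :
    (i : ℝ) ≤ s0 ∧ s0 < (i : ℝ) + 1 ∧ (i : ℝ) + 1 ≤ q ∧ (q : ℝ) ≤ j ∧ (j : ℝ) < D ∧
      D < (j : ℝ) + 1 ∧ (j : ℝ) + 1 ≤ i + n := by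
  have h1 : (i : ℝ) + 1 ≤ q := by exact_mod_cast h.iq
  have h2 : (j : ℝ) + 1 ≤ i + n := by exact_mod_cast h.ji
  have h7 : (q : ℝ) ≤ j := by exact_mod_cast h.qj
  have h3 := h.iα
  have h4 := h.αs
  have h5 := h.sβ
  have h6 := h.βi
  exact ⟨by linarith, by linarith, h1, h7, h.jD, h.Dj, h2⟩

/-- structure of the chords through a point which sees both sides of the pivot -/
theorem Pivot.path_main {P : Poly n} (hc : P.CCW) {i j : ℤ} {α β D s0 : ℝ} {q : ℤ}
    (h : P.Pivot i j α β D s0 q) {x g : ℝ} {ζ : ℂ} (hζ : ζ ∈ P.I) (hx : (q : ℝ) < x) (hxD : x ≤ D)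
    (hg : s0 < g) (hgq : g < q) (hvx : P.Vis (P.γ x) ζ) (hvg : P.Vis (P.γ g) ζ) :
    ∃ t' T : ℝ, D < t' ∧ t' < T ∧ T < s0 + n ∧ P.Vis (P.γ x) (P.γ T) ∧ P.Vis (P.γ g) (P.γ t') ∧
      ζ ∈ openSegment ℝ (P.γ x) (P.γ T) ∧ ζ ∈ openSegment ℝ (P.γ g) (P.γ t') := by
  obtain ⟨o1, o2, o3, o4, o5, o6, o7⟩ := Path_ord h
  obtain ⟨t, ht1, ht2, hvt, hζt⟩ := P.vis_prolong hζ hvx
  obtain ⟨t', ht1', ht2', hvt', hζt'⟩ := P.vis_prolong hζ hvg
  have hnogx : ¬ P.Vis (P.γ g) (P.γ x) := h.p2 g x hg.le hgq hx hxD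
  -- the position of `t` in the window `(g, g + n)`
  obtain ⟨T, hT1, hT2, hTγ⟩ : ∃ T : ℝ, g < T ∧ T < g + n ∧ P.γ T = P.γ t := by
    rcases lt_trichotomy t (g + n) with h1 | h1 | h1
    · exact ⟨t, by linarith, h1, rfl⟩
    · exfalso
      rw [h1, P.γ_add_n] at hvt
      exact hnogx hvt.symm
    · refine ⟨t - n, by linarith, by linarith, ?_⟩
      have h2 := P.γ_add_n (t - n)
      rw [sub_add_cancel] at h2
      exact h2.symm
  rw [← hTγ] at hvt hζt
  have hTx : T ≠ x := by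
    rintro rfl
    exact hvt.ne rfl
  have hxt' : t' ≠ x := by
    rintro rfl
    exact hnogx hvt'
  have hTt' : T ≠ t' := by
    rintro rfl
    have h1 := P.same_ray hvt.symm hvt'.symm (by rw [openSegment_symm]; exact hζt)
      (by rw [openSegment_symm]; exact hζt')
    have h2 := P.γ_inj' (c := g) h1 (by linarith) (by linarith) le_rfl (by linarith)
    linarith
  have hζ1 := openSegment_subset_segment ℝ _ _ hζt
  have hζ2 := openSegment_subset_segment ℝ _ _ hζt'
  -- the main case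
  have hmain : D < t' ∧ t' < T ∧ T < s0 + n := by
    rcases lt_or_gt_of_ne hxt' with h1 | h1
    · exfalso
      have h2 : t' ≤ q := by
        by_contra hcon
        exact h.p2 g t' hg.le hgq (not_le.1 hcon) (by linarith) hvt'
      rcases lt_or_gt_of_ne hTt' with h3 | h3
      · exact h.p2 T x (by linarith) (by linarith) hx hxD hvt.symm
      · -- both outside
        have hv2 : P.Vis (P.γ t') (P.γ (g + n)) := by
          rw [P.γ_add_n]
          exact hvt'.symm
        have hζ3 : ζ ∈ segment ℝ (P.γ t') (P.γ (g + n)) := by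
          rw [P.γ_add_n, segment_symm]
          exact hζ2
        rcases lt_or_gt_of_ne hTx with h4 | h4
        · have h5 := P.nest_chords hc h3 h4 (by linarith) (by linarith) hv2 hvt.symm
          exact disjoint_left.1 h5 hζ3 (by rw [segment_symm]; exact hζ1)
        · have h5 := P.nest_chords hc h1 h4 hT2 (by linarith) hv2 hvt
          exact disjoint_left.1 h5 hζ3 hζ1
    · have h2 : D < t' := by
        by_contra hcon
        exact h.p2 g t' hg.le hgq (by linarith) (not_lt.1 hcon) hvt'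
      rcases lt_or_gt_of_ne hTt' with h3 | h3
      · exfalso
        rcases lt_or_gt_of_ne hTx with h4 | h4
        · have h5 := P.nest_chords hc hT1 h4 h1 ht2' hvt' hvt.symm
          exact disjoint_left.1 h5 hζ2 (by rw [segment_symm]; exact hζ1)
        · have h5 := P.nest_chords hc (by linarith) h4 h3 ht2' hvt' hvt
          exact disjoint_left.1 h5 hζ2 hζ1
      · refine ⟨h2, h3, ?_⟩
        by_contra hcon
        rw [not_lt] at hcon
        have h4 : P.γ (T - n) = P.γ T := by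
          have h5 := P.γ_add_n (T - n)
          rw [sub_add_cancel] at h5
          exact h5.symm
        rw [← h4] at hvt
        exact h.p2 (T - n) x (by linarith) (by linarith) hx hxD hvt.symm
  exact ⟨t', T, hmain.1, hmain.2.1, hmain.2.2, hvt, hvt', hζt, hζt'⟩

/-- such a point does not exist if `γ g` is on the segment `L` -/
theorem Pivot.path_notL {P : Poly n} (hc : P.CCW) {i j : ℤ} {α β D s0 : ℝ} {q : ℤ}
    (h : P.Pivot i j α β D s0 q) {x g : ℝ} {ζ : ℂ} (hζ : ζ ∈ P.I) (hx : (q : ℝ) < x) (hxD : x ≤ D)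
    (hg : s0 < g) (hgq : g < q) (hvx : P.Vis (P.γ x) ζ) (hvg : P.Vis (P.γ g) ζ) :
    P.γ g ∉ segment ℝ (P.γ D) (P.γ s0) := by
  intro hL
  obtain ⟨o1, o2, o3, o4, o5, o6, o7⟩ := Path_ord h
  obtain ⟨t', T, m1, m2, m3, -, hvt', -, -⟩ := h.path_main hc hζ hx hxD hg hgq hvx hvg
  have hQ := h.toPreQ hc
  have hLq := hQ.leftc g hg (by linarith) hL
  have hq1 : P.V q ∈ P.Side g t' := by
    rw [← P.γ_int q]
    exact P.side_arc (by linarith) hvt' ⟨hgq, by linarith⟩
  have hs1 : P.γ s0 ∈ P.Side t' (g + n) := by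
    rw [← P.γ_add_n]
    exact P.side_arc' (by linarith) hvt' ⟨by linarith, by linarith⟩
  have hqL : P.V q ∈ segment ℝ (P.γ D) (P.γ s0) := openSegment_subset_segment ℝ _ _ h.onL
  have hR : segment ℝ (P.V q) (P.γ s0) ⊆ P.R :=
    ((convex_segment _ _).segment_subset hqL (right_mem_segment ℝ _ _)).trans h.LR
  obtain ⟨c, hc1, hc2⟩ := P.side_cross hc (by linarith) (by linarith) hvt' hR hq1 hs1
  -- `V q` is between `γ g` and `c`
  have hqC : P.V q ∈ P.C := by
    have := P.γ_mem_C (q : ℝ)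
    rwa [P.γ_int] at this
  have hqs : P.V q ∈ segment ℝ (P.γ g) c := by
    obtain ⟨τ, hτ0, hτ1, hτ⟩ := Path_param h.onL
    obtain ⟨r, hr0, hr1, hr⟩ := Path_param hc1
    rw [segment_eq_image'] at hLq
    obtain ⟨v, ⟨hv0, hv1⟩, hv⟩ := hLq
    have hv' : P.γ g = P.γ D + ((v * τ : ℝ) : ℂ) * (P.γ s0 - P.γ D) := by
      rw [← hv, hτ]
      simp only [Complex.real_smul]
      push_cast
      ring
    have hc' : c = P.γ D + ((τ + r * (1 - τ) : ℝ) : ℂ) * (P.γ s0 - P.γ D) := by
      rw [hr, hτ]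
      push_cast
      ring
    have h1 : 0 < τ + r * (1 - τ) - v * τ := by nlinarith
    have h2 : 0 ≤ τ - v * τ := by nlinarith
    obtain ⟨κ, hκ⟩ : ∃ κ : ℝ, κ = (τ - v * τ) / (τ + r * (1 - τ) - v * τ) := ⟨_, rfl⟩
    have hκ0 : 0 ≤ κ := by rw [hκ]; positivity
    have hκ1 : κ ≤ 1 := by
      rw [hκ, div_le_one h1]
      nlinarith
    have hκ2 : κ * (τ + r * (1 - τ) - v * τ) = τ - v * τ := by
      rw [hκ, div_mul_cancel₀ _ h1.ne']
    have hκ3 : (κ : ℂ) * (τ + r * (1 - τ) - v * τ) = τ - v * τ := by exact_mod_cast hκ2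
    refine ⟨1 - κ, κ, by linarith, hκ0, by ring, ?_⟩
    rw [hv', hc', hτ]
    simp only [Complex.real_smul]
    push_cast
    linear_combination (P.γ s0 - P.γ D) * hκ3
  have hqs' : P.V q ∈ segment ℝ (P.γ g) (P.γ t') :=
    (convex_segment _ _).segment_subset (left_mem_segment ℝ _ _) hc2 hqs
  rcases hvt'.end_of_C hqs' hqC with h1 | h1
  · rw [← P.γ_int] at h1
    have := P.γ_inj' (c := g) h1 hgq.le (by linarith) le_rfl (by linarith)
    linarith
  · rw [← P.γ_int] at h1
    have := P.γ_inj' (c := g) h1 hgq.le (by linarith) (by linarith) (by linarith)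
    linarith

/-- PATH LEMMA -/
theorem Pivot.path {P : Poly n} (hc : P.CCW) {i j : ℤ} {α β D s0 : ℝ} {q : ℤ}
    (h : P.Pivot i j α β D s0 q) {x g : ℝ} {ζ : ℂ} (hζ : ζ ∈ P.I) (hx : (q : ℝ) < x) (hxD : x ≤ D)
    (hg : s0 < g) (hgq : g < q) (hvx : P.Vis (P.γ x) ζ) (hvg : P.Vis (P.γ g) ζ)
    (hside : ∃ ε > 0, ∀ s y : ℝ, s0 < s → s < s0 + ε → D < y → y < D + ε →
      P.Vis (P.γ s) (P.γ y) → ζ ∈ P.Side s y) : False := by
  obtain ⟨o1, o2, o3, o4, o5, o6, o7⟩ := Path_ord h
  obtain ⟨t', T, m1, m2, m3, hvt, hvt', hζt, hζt'⟩ := h.path_main hc hζ hx hxD hg hgq hvx hvg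
  have hζ1 := openSegment_subset_segment ℝ _ _ hζt
  have hζ2 := openSegment_subset_segment ℝ _ _ hζt'
  have ht1' : g < t' := by linarith
  have ht2' : t' < g + n := by linarith
  -- `V q` and the two chords
  have hq1 : P.V q ∈ P.Side g t' := by
    rw [← P.γ_int q]
    exact P.side_arc ht2' hvt' ⟨hgq, by linarith⟩
  have hq2 : P.V q ∈ P.Side T (x + n) := by
    rw [← P.γ_int q, ← P.γ_add_n]
    exact P.side_arc' (by linarith) hvt ⟨by linarith, by linarith⟩
  obtain ⟨ρ1, hρ1, hop1⟩ := P.side_open hc ht1' ht2' hvt' hq1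
  obtain ⟨ρ2, hρ2, hop2⟩ := P.side_open' hc (by linarith) (by linarith) hvt hq2
  obtain ⟨ε, hε, hside⟩ := hside
  -- the approximating chord
  obtain ⟨s, y, a1, a2, a3, a4, a5, a6, a7, a8, a9⟩ :=
    Path_approx h (lt_min hρ1 hρ2) (δ := min ε (min (g - s0) (t' - D)))
      (lt_min hε (lt_min (by linarith) (by linarith)))
  have e1 : min ε (min (g - s0) (t' - D)) ≤ ε := min_le_left _ _
  have e2 : min ε (min (g - s0) (t' - D)) ≤ g - s0 := (min_le_right _ _).trans (min_le_left _ _)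
  have e3 : min ε (min (g - s0) (t' - D)) ≤ t' - D := (min_le_right _ _).trans (min_le_right _ _)
  have e4 : min ρ1 ρ2 ≤ ρ1 := min_le_left _ _
  have e5 : min ρ1 ρ2 ≤ ρ2 := min_le_right _ _
  have hζS := hside s y a1 (by linarith) a4 (by linarith) a7
  have hsy : s < y := by linarith
  have hys : y < s + n := by linarith
  -- (1) on the chord `(x, T)`
  obtain ⟨u1, hu10, hu11, hu1m, hu1a, hu1b⟩ :=
    P.half_chord hc (a := s) (b := y) (x := x) (y := T) (by linarith) (by linarith) (by linarith)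
      (by linarith) a7 hvt
  obtain ⟨u2, hu20, hu21, hu2m, hu2a, hu2b⟩ :=
    P.half_chord hc (a := g) (b := t') (x := x) (y := T) (by linarith) (by linarith) m2 (by linarith)
      hvt' hvt
  obtain ⟨r, hr0, hr1, hr⟩ := Path_param hζt
  have hζu2 : r = u2 := by
    rcases lt_trichotomy r u2 with h1 | h1 | h1
    · exfalso
      have h2 := hu2a r hr0.le h1
      rw [← hr] at h2
      exact (P.side_sub h2).2 hζ2
    · exact h1
    · exfalso
      have h2 := hu2b r h1 hr1.le
      rw [← hr] at h2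
      have h3 := (P.side_sub h2).2
      rw [P.γ_add_n, segment_symm] at h3
      exact h3 hζ2
  have hu12 : u2 < u1 := by
    rw [← hζu2]
    by_contra hcon
    rw [not_lt] at hcon
    rcases hcon.lt_or_eq with h1 | h1
    · have h2 := hu1b r h1 hr1.le
      rw [← hr] at h2
      exact disjoint_left.1 (P.side_disj hc hsy hys a7) hζS h2
    · have h2 := (P.side_sub hζS).2
      rw [hr, ← h1] at h2
      exact h2 (openSegment_subset_segment ℝ _ _ hu1m)
  -- the crossing point `v1` of `κ` and `(x, T)`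
  set v1 : ℂ := P.γ x + (u1 : ℂ) * (P.γ T - P.γ x) with hv1
  have hv1S : v1 ∈ P.Side t' (g + n) := hu2b u1 hu12 hu11.le
  -- (2) on the chord `κ`, from `γ y` to `γ s`
  have hκ : P.Vis (P.γ y) (P.γ (s + n)) := by
    rw [P.γ_add_n]
    exact a7.symm
  obtain ⟨w1, hw10, hw11, hw1m, hw1a, hw1b⟩ :=
    P.half_chord hc (a := x) (b := T) (x := y) (y := s + n) (by linarith) (by linarith) (by linarith)
      (by linarith) hvt hκ
  obtain ⟨w2, hw20, hw21, hw2m, hw2a, hw2b⟩ :=
    P.half_chord hc (a := g) (b := t') (x := y) (y := s + n) (by linarith) (by linarith) (by linarith)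
      (by linarith) hvt' hκ
  rw [P.γ_add_n] at hw1m hw1a hw1b hw2m hw2a hw2b
  -- `v1` is at the parameter `w1`
  have hv1κ : v1 ∈ openSegment ℝ (P.γ y) (P.γ s) := by
    rw [openSegment_symm]
    exact hu1m
  obtain ⟨v, hv0, hvl, hve⟩ := Path_param hv1κ
  have hv1T : v1 ∈ segment ℝ (P.γ x) (P.γ T) := Path_param' hu10.le hu11.le
  have hvw1 : v = w1 := by
    rcases lt_trichotomy v w1 with h1 | h1 | h1
    · exfalso
      have h2 := hw1a v hv0.le h1
      rw [← hve] at h2
      exact (P.side_sub h2).2 hv1T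
    · exact h1
    · exfalso
      have h2 := hw1b v h1 hvl.le
      rw [← hve] at h2
      have h3 := (P.side_sub h2).2
      rw [P.γ_add_n, segment_symm] at h3
      exact h3 hv1T
  have hw12 : w2 < w1 := by
    by_contra hcon
    rw [not_lt, ← hvw1] at hcon
    rcases hcon.lt_or_eq with h1 | h1
    · have h2 := hw2a v hv0.le h1
      rw [← hve] at h2
      exact disjoint_left.1 (P.side_disj hc ht1' ht2' hvt') h2 hv1S
    · have h2 := (P.side_sub hv1S).2
      rw [P.γ_add_n, segment_symm, hve, h1] at h2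
      exact h2 (openSegment_subset_segment ℝ _ _ hw2m)
  -- the point near `V q`
  obtain ⟨τ, hτ0, hτ1, hτ⟩ := Path_param h.onL
  have hwR : P.γ y + (τ : ℂ) * (P.γ s - P.γ y) ∈ P.R := by
    apply a7.symm.seg
    exact Path_param' hτ0.le hτ1.le
  have hwn : ‖P.γ y + (τ : ℂ) * (P.γ s - P.γ y) - P.V q‖ < min ρ1 ρ2 := by
    have h1 : P.γ y + (τ : ℂ) * (P.γ s - P.γ y) - P.V q =
        ((1 - τ : ℝ) : ℂ) * (P.γ y - P.γ D) + (τ : ℂ) * (P.γ s - P.γ s0) := by
      rw [hτ]
      push_cast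
      ring
    rw [h1]
    refine (norm_add_le _ _).trans_lt ?_
    rw [norm_mul, norm_mul, Complex.norm_real, Complex.norm_real, Real.norm_of_nonneg hτ0.le,
      Real.norm_of_nonneg (by linarith : (0 : ℝ) ≤ 1 - τ)]
    nlinarith [mul_lt_mul_of_pos_left a8 (by linarith : (0 : ℝ) < 1 - τ),
      mul_lt_mul_of_pos_left a9 hτ0]
  have hwS1 := hop1 _ hwR (hwn.trans_le e4)
  have hwS2 := hop2 _ hwR (hwn.trans_le e5)
  have hτw2 : τ ≤ w2 := by
    by_contra hcon
    exact disjoint_left.1 (P.side_disj hc ht1' ht2' hvt') hwS1 (hw2b τ (not_le.1 hcon) hτ1.le)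
  have hτw1 : w1 ≤ τ := by
    by_contra hcon
    exact disjoint_left.1 (P.side_disj hc (by linarith) (by linarith) hvt)
      (hw1a τ hτ0.le (not_le.1 hcon)) hwS2
  linarith

end Poly

end Pool.Agent.Lib_PL
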