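import Pool.Agent.Lib_PLQ.Defs

/-!
# B2: the vertex of a `Pivot` is the vertex of `PreQ`

`Pivot.toPreQ`: so `leftc`, `rightc` are available.
-/

open Set Complex
open scoped Topology

namespace Pool.Agent.Lib_PL

namespace Poly

variable {n : ℕ} (P : Poly n)

/-- the vertex of a `Pivot` is the vertex of `PreQ` -/
theorem Pivot.toPreQ {P : Poly n} (hc : P.CCW) {i j : ℤ} {α β D s0 : ℝ} {q : ℤ}
    (h : P.Pivot i j α β D s0 q) : P.PreQ i j α β D s0 q := by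
  have hP : P.PreP i j α β D s0 :=
    { ij := h.ij
      ji := h.ji
      iα := h.iα
      βi := h.βi
      jD := h.jD
      Dj := h.Dj
      αs := h.αs
      sβ := h.sβ
      Dinf := h.Dinf
      sinf := h.sinf
      approx := h.approx }
  obtain ⟨q', hQ⟩ := P.preQ_exists hc hP h.tF
  have key : ∀ q1 q2 : ℤ, (∀ s ∈ Ioo α β, ∀ x : ℝ, (q1 : ℝ) < x → x ≤ D → ¬ P.Vis (P.γ s) (P.γ x)) →
      (∃ s ∈ Ioo α β, ∃ ε > 0, ∀ x : ℝ, (q2 : ℝ) - ε < x → x < q2 → P.Vis (P.γ x) (P.γ s)) →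
      (q2 : ℝ) ≤ D → q2 ≤ q1 := by
    intro q1 q2 k1 k2 kD
    by_contra hlt
    rw [not_le] at hlt
    have hlt' : (q1 : ℝ) < q2 := by exact_mod_cast hlt
    obtain ⟨s, hs, ε, hε, k3⟩ := k2
    have h1 : max ((q2 : ℝ) - ε) q1 < q2 := max_lt (by linarith) hlt'
    obtain ⟨x, hx1, hx2⟩ := exists_between h1
    exact k1 s hs x ((le_max_right _ _).trans_lt hx1) (by linarith)
      (k3 x ((le_max_left _ _).trans_lt hx1) hx2).symm
  have hqD : (q : ℝ) ≤ D := by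
    have h1 : (q : ℝ) ≤ j := by exact_mod_cast h.qj
    linarith [h.jD]
  have hqD' : (q' : ℝ) ≤ D := by
    have h1 : (q' : ℝ) ≤ j := by exact_mod_cast hQ.qj
    linarith [h.jD]
  have e : q = q' := le_antisymm (key q' q (P.preQ_p1 hc hQ) h.p4 hqD)
    (key q q' h.p1 (P.preQ_p4 hc hQ) hqD')
  rw [e]
  exact hQ

end Poly

end Pool.Agent.Lib_PL
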