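import Pool.Agent.Lib_PLQ.WDBasic

/-!
# mirror image of a window datum

`wd_mir`: mirror image (`mir_Vis`, `mir_IsComp`, `mir_VV`, `mir_R`, `mir_γ` in Lib_PL; see also Lib_PL/HookR.lean); the component is `X.mir.sh (-n)`, because `X.b ≤ a`, `b ≤ X.a + n`.
`nosee`, `lim`: `P.mir.SeeA (X.mir.sh (-n))` is the image of `P.SeeA X` under `conj`; `closure` commutes with the homeomorphism `conj`.
-/

open Set Complex
open scoped Topology ComplexConjugate

namespace Pool.Agent.Lib_PL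

namespace Poly

variable {n : ℕ} (P : Poly n)

private theorem WDMir_seg (a b z : ℂ) :
    z ∈ segment ℝ (conj a) (conj b) ↔ conj z ∈ segment ℝ a b := by
  constructor
  · rintro ⟨s, t, hs, ht, hst, rfl⟩
    exact ⟨s, t, hs, ht, hst, by simp⟩
  · rintro ⟨s, t, hs, ht, hst, h⟩
    refine ⟨s, t, hs, ht, hst, ?_⟩
    have := congrArg conj h
    rw [Complex.conj_conj] at this
    rw [← this]
    simp

private theorem WDMir_oseg (a b z : ℂ) :
    z ∈ openSegment ℝ (conj a) (conj b) ↔ conj z ∈ openSegment ℝ a b := by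
  constructor
  · rintro ⟨s, t, hs, ht, hst, rfl⟩
    exact ⟨s, t, hs, ht, hst, by simp⟩
  · rintro ⟨s, t, hs, ht, hst, h⟩
    refine ⟨s, t, hs, ht, hst, ?_⟩
    have := congrArg conj h
    rw [Complex.conj_conj] at this
    rw [← this]
    simp

private theorem WDMir_γm (x : ℝ) : P.mir.γ (-x) = conj (P.γ x) := by
  rw [P.mir_γ, neg_neg]

private theorem WDMir_mem (A : Arc) (x : ℝ) :
    x ∈ (A.mir.sh (-(n : ℤ))).s ↔ -x - n ∈ A.s := by
  rw [Arc.mem_sh, mir_mem]
  have e : -(x - (((-(n : ℤ) : ℤ)) : ℝ)) = -x - n := by push_cast; ring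
  rw [e]

private theorem WDMir_see (X : Arc) (z : ℂ) :
    z ∈ P.mir.SeeA (X.mir.sh (-(n : ℤ))) ↔ conj z ∈ P.SeeA X := by
  constructor
  · rintro ⟨s, hs, hv⟩
    rw [WDMir_mem] at hs
    refine ⟨-s - n, hs, ?_⟩
    rw [P.mir_Vis, P.mir_γ, Complex.conj_conj] at hv
    have e : P.γ (-s - n) = P.γ (-s) := by
      have := P.γ_add_n (-s - n)
      rw [← this]
      congr 1
      ring
    rw [e]
    exact hv
  · rintro ⟨s, hs, hv⟩
    refine ⟨-s - n, ?_, ?_⟩
    · rw [WDMir_mem]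
      have e : -(-s - (n : ℝ)) - n = s := by ring
      rw [e]
      exact hs
    · rw [P.mir_Vis, P.mir_γ, Complex.conj_conj]
      have e : P.γ (-(-s - n)) = P.γ s := by
        have := P.γ_add_n s
        rw [← this]
        congr 1
        ring
      rw [e]
      exact hv

theorem wd_mir {p : ℂ} {K : ℕ} {X : Arc} {a b : ℝ} (h : P.WD p K X a b) :
    P.mir.WD (conj p) K (X.mir.sh (-n)) (-b) (-a) := by
  have hR : ∀ x y : ℝ, segment ℝ (P.γ x) (P.γ y) ⊆ P.R →
      segment ℝ (P.mir.γ (-x)) (P.mir.γ (-y)) ⊆ P.mir.R := by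
    intro x y hxy z hz
    rw [P.WDMir_γm, P.WDMir_γm, WDMir_seg] at hz
    rw [P.mir_R]
    exact hxy hz
  refine ⟨by linarith [h.ab], by linarith [h.ba], ?_, ?_, ?_, ?_, ?_, ?_, ?_, ?_⟩
  · have h1 := P.mir.comp_sh (-1) (P.mir_IsComp h.Xc)
    rwa [neg_one_mul] at h1
  · have := h.Xb
    simp only [Arc.mir, Arc.sh]
    push_cast
    linarith
  · have := h.Xa
    simp only [Arc.mir, Arc.sh]
    push_cast
    linarith
  · rw [P.mir_Vis, P.WDMir_γm, P.WDMir_γm, Complex.conj_conj, Complex.conj_conj]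
    exact h.vis.symm
  · obtain ⟨ξ, hξ, h1, h2⟩ := h.star
    refine ⟨-ξ - n, ?_, ?_, ?_⟩
    · simp only [Arc.mir, Arc.sh]
      push_cast
      exact ⟨by linarith [hξ.2], by linarith [hξ.1]⟩
    · have e : P.mir.γ (-ξ - n) = P.mir.γ (-ξ) := by
        have := P.mir.γ_add_n (-ξ - n)
        rw [← this]
        congr 1
        ring
      rw [e]
      exact hR ξ b h2
    · have e : P.mir.γ (-ξ - n) = P.mir.γ (-ξ) := by
        have := P.mir.γ_add_n (-ξ - n)
        rw [← this]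
        congr 1
        ring
      rw [e]
      exact hR ξ a h1
  · intro w hw
    rw [P.WDMir_γm, P.WDMir_γm, WDMir_oseg, openSegment_symm] at hw
    rw [WDMir_see]
    exact h.nosee _ hw
  · intro w hw
    rw [P.WDMir_γm, P.WDMir_γm, WDMir_oseg, openSegment_symm] at hw
    have h1 := h.lim hw
    have e : P.mir.SeeA (X.mir.sh (-(n : ℤ))) =
        Complex.conjLIE.toHomeomorph ⁻¹' P.SeeA X := by
      ext z
      exact P.WDMir_see X z
    rw [e, ← Homeomorph.preimage_closure]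
    exact h1
  · obtain ⟨z, hz, hd⟩ := h.dark
    refine ⟨conj z, ?_, ?_⟩
    · rw [P.WDMir_γm, P.WDMir_γm, WDMir_oseg, Complex.conj_conj, openSegment_symm]
      exact hz
    · rw [P.mir_VV, Complex.conj_conj]
      exact hd

end Poly

end Pool.Agent.Lib_PL
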