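import Pool.Agent.Lib_PLQ.StarPair
import Pool.Agent.Lib_PLQ.WDMir

/-!
# B4 (ii): STAR.  The number of windows around one vertex is `O_K(n)`

`star_hookL`: `hook_count` with `Ω = ∅`, `Pr S X M := HBase {ν} S X M ∧ HookL S X M ∧ SItem p K ν S X M` (`hbase_sh`, `hookL_sh`, `SItem` shift: `wd_sh`; `hook_pivot`, `hook_D`, `star_pair`).
`star_hookR`: mirror image as in `t1a_countR` (file HookR): `hbase_mir`, `hookR_mir`, `wd_mir` (the component there is `X.mir.sh (-n)`, a shift by `2n` gives `X.mir.sh n`), the vertex is `-ν`.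
`star_count`: for `w ∈ G` choose `X` and replace it by its canonical shift (`canon`, `wd_sh`): `X_w` canonical with `WD p K X_w a' b'`, `(a',b')` a shift of `w`, `InMod` is shift invariant.  `w ↦ X_w` is injective (`wd_unique`: the chords differ by a shift, both canonical `0 ≤ w.1 < n`, so equal).
The set of the `X_w`: cornered ones at most `2 n` (`cornered_count`); for the others copy `TypeA_main` (file TypeA): `F` = image under `core K`, `rec_step` with `Ω = {ν}`, `MM = {{V ν}}`, `K' = K`, `L = K`, `N = c2 K 1 K * n` (`rec2`), `a = n` (`star_hookL`, `star_hookR`).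
Total `2 n + n + 2 n + (K + 1) * 2 * (2 n + c2 K 1 K * n)`.
-/

open Set Complex
open scoped Topology ComplexConjugate

namespace Pool.Agent.Lib_PL

/-- constant of STAR -/
def cS (K : ℕ) : ℕ := 2 + 1 + 2 + (K + 1) * 2 * (2 + c2 K 1 K)

namespace Poly

variable {n : ℕ} (P : Poly n)

/-! auxiliary facts -/

private theorem Star_inMod {n : ℕ} {a b x : ℝ} (m : ℤ) (h : InMod n (Ioo a b) x) :
    InMod n (Ioo (a + m * n) (b + m * n)) x := by
  obtain ⟨k, h1, h2⟩ := h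
  refine ⟨k + m, ?_, ?_⟩
  · push_cast
    linarith
  · push_cast
    linarith

private theorem Star_Bp {p : ℂ} {L : ℕ} {S : Arc} (m : ℤ) (h : S.s ⊆ P.Bp p L) :
    (S.sh (m * n)).s ⊆ P.Bp p L := by
  intro x hx
  rw [Arc.mem_sh] at hx
  have h1 := h hx
  have h2 := (P.Bp_add p L (x - ((m * n : ℤ) : ℝ)) m).2 h1
  have e : x - ((m * n : ℤ) : ℝ) + (m : ℝ) * n = x := by
    push_cast
    ring
  rwa [e] at h2

private theorem Star_item_sh {p : ℂ} {K : ℕ} {ν : ℤ} {S X : Arc} {M : Set ℂ} (m : ℤ)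
    (h : P.SItem p K ν S X M) : P.SItem p K ν (S.sh (m * n)) (X.sh (m * n)) M := by
  obtain ⟨L, hL, hS⟩ := h.SB
  obtain ⟨a, b, hw, hν⟩ := h.wd
  exact ⟨P.comp_sh m h.Xc, ⟨L, hL, P.Star_Bp m hS⟩, h.M_eq,
    a + m * n, b + m * n, P.wd_sh m hw, Star_inMod m hν⟩

private theorem Star_item_mir {p : ℂ} {K : ℕ} {ν : ℤ} {S X : Arc} {M : Set ℂ}
    (h : P.SItem p K ν S X M) :
    P.mir.SItem (conj p) K (-ν) S.mir (X.mir.sh n) (conj '' M) := by
  have hV : P.mir.V (-ν) = conj (P.V ν) := by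
    change conj (P.V (- -ν)) = conj (P.V ν)
    rw [neg_neg]
  obtain ⟨L, hL, hS⟩ := h.SB
  obtain ⟨a, b, hw, k, h1, h2⟩ := h.wd
  have e1 : X.mir.sh (n : ℤ) = X.mir.sh (1 * (n : ℤ)) := by rw [one_mul]
  refine ⟨?_, ⟨L, hL, ?_⟩, ?_, ?_⟩
  · rw [e1]
    exact P.mir.comp_sh 1 (P.mir_IsComp h.Xc)
  · intro x hx
    rw [mir_mem] at hx
    rw [P.mir_Bp]
    exact hS hx
  · rw [h.M_eq, Set.image_singleton, hV]
  · have h3 := P.mir.wd_sh 2 (P.wd_mir hw)
    have e2 : (X.mir.sh (-(n : ℤ))).sh (2 * (n : ℤ)) = X.mir.sh (n : ℤ) := by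
      rw [Arc.sh_sh]
      congr 1
      ring
    rw [e2] at h3
    refine ⟨_, _, h3, 2 - k, ?_, ?_⟩
    · push_cast
      linarith
    · push_cast
      linarith

private theorem Star_inj : Function.Injective (fun A : Arc => A.mir.sh (n : ℤ)) := by
  intro A B h
  obtain ⟨i, a, b⟩ := A
  obtain ⟨i', a', b'⟩ := B
  simp only [Arc.mir, Arc.sh, Arc.mk.injEq] at h
  obtain ⟨h1, h2, h3⟩ := h
  have e1 : i = i' := by omega
  have e2 : b = b' := by linarith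
  have e3 : a = a' := by linarith
  rw [e1, e2, e3]

theorem star_hookL (hc : P.CCW) {p : ℂ} {K : ℕ} {ν : ℤ} (F : Finset Arc)
    (hF : ∀ X ∈ F, 0 ≤ X.i ∧ X.i < n ∧ ∃ S M, P.HBase {(ν : ℝ)} S X M ∧ P.HookL S X M ∧
      P.SItem p K ν S X M) : F.card ≤ n := by
  have h := P.hook_count hc (p := p) (k := K) ∅
    (fun S X M => P.HBase {(ν : ℝ)} S X M ∧ P.HookL S X M ∧ P.SItem p K ν S X M) ?_ ?_ ?_ ?_ F ?_
  · rw [Finset.card_empty, zero_add, one_mul] at h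
    exact h
  · rintro S X M m ⟨h1, h2, h3⟩
    exact ⟨P.hbase_sh m h1, P.hookL_sh m h2, P.Star_item_sh m h3⟩
  · rintro S X M ⟨h1, h2, -⟩
    exact P.hook_pivot hc h1 h2
  · rintro S X M ⟨h1, -⟩ D s0 q hp
    exact P.hook_D hc h1 hp
  · rintro S1 X1 M1 S2 X2 M2 ⟨h1, hk1, t1⟩ ⟨h2, hk2, t2⟩ D1 s1 D2 s2 q hp1 hp2 hD hdis
    exact (P.star_pair hc h1 hk1 t1 h2 hk2 t2 hp1 hp2 hD hdis).elim
  · intro X hX
    obtain ⟨h1, h2, S, M, h3, h4, h5⟩ := hF X hX
    exact ⟨h5.Xc, h1, h2, S, M, h3, h4, h5⟩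

theorem star_hookR (hc : P.CCW) {p : ℂ} {K : ℕ} {ν : ℤ} (F : Finset Arc)
    (hF : ∀ X ∈ F, 0 ≤ X.i ∧ X.i < n ∧ ∃ S M, P.HBase {(ν : ℝ)} S X M ∧ P.HookR S X M ∧
      P.SItem p K ν S X M) : F.card ≤ n := by
  classical
  have h1 := P.mir.star_hookL (P.mir_CCW hc) (p := conj p) (K := K) (ν := -ν)
    (F.image (fun A : Arc => A.mir.sh (n : ℤ))) (by
    intro X' hX'
    obtain ⟨X, hX, rfl⟩ := Finset.mem_image.1 hX'
    obtain ⟨h0, hn, S, M, hb, hh, ht⟩ := hF X hX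
    have hb' := P.hbase_mir hb
    rw [Finset.image_singleton] at hb'
    have e : (((-ν : ℤ)) : ℝ) = -(ν : ℝ) := by push_cast; ring
    refine ⟨?_, ?_, S.mir, conj '' M, ?_, P.hookR_mir hh, P.Star_item_mir ht⟩
    · simp only [Arc.mir, Arc.sh]
      omega
    · simp only [Arc.mir, Arc.sh]
      omega
    · rw [e]
      exact hb')
  rw [Finset.card_image_of_injective _ Star_inj] at h1
  exact h1

private theorem Star_main (hc : P.CCW) (p : ℂ) (K : ℕ) (ν : ℤ) (G : Finset Arc)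
    (hG : ∀ A ∈ G, P.IsComp p K A ∧ 0 ≤ A.i ∧ A.i < n ∧ ¬ A.Cornered ∧
      ∃ a b : ℝ, P.WD p K A a b ∧ InMod n (Ioo a b) ν) :
    G.card ≤ n + 2 * n + (K + 1) * (2 * 1) * (2 * n + c2 K 1 K * n) := by
  classical
  obtain ⟨par, hpar⟩ := P.exists_par hc p
  obtain ⟨core, lev, hcore⟩ := P.exists_core hc p
  -- the core of a component determines the component
  have hinj : ∀ A ∈ G, ∀ B ∈ G, core K A = core K B → A = B := by
    intro A hA B hB hAB
    obtain ⟨-, hex, hsub, -, -⟩ := hcore.ex K A (hG A hA).1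
    obtain ⟨-, -, hsub', -, -⟩ := hcore.ex K B (hG B hB).1
    have hab := hex.1.ab
    have hm : ((core K A).a + (core K A).b) / 2 ∈ (core K A).s :=
      ⟨by linarith, by linarith⟩
    have hm' := hm
    rw [hAB] at hm'
    exact P.comp_unique (hG A hA).1 (hG B hB).1 (hsub hm) (by rw [hAB]; exact hsub' hm')
  set F : Finset Arc := G.image (core K) with hF
  have hcard : F.card = G.card := Finset.card_image_of_injOn fun A hA B hB h => hinj A hA B hB h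
  have hex : ∀ Y, ∃ A, Y ∈ F → A ∈ G ∧ core K A = Y := by
    intro Y
    by_cases hY : Y ∈ F
    · obtain ⟨A, hA, hAY⟩ := Finset.mem_image.1 hY
      exact ⟨A, fun _ => ⟨hA, hAY⟩⟩
    · exact ⟨Y, fun h => absurd h hY⟩
  choose Xf hXf using hex
  have hXinj : ∀ Y ∈ F, ∀ Y' ∈ F, Xf Y = Xf Y' → Y = Y' := by
    intro Y hY Y' hY' h
    rw [← (hXf Y hY).2, ← (hXf Y' hY').2, h]
  have hrep : ∀ S : Arc, ∀ l, P.IsComp p l S → P.Rep {P.V ν} S (ν : ℝ) := by
    intro S l hS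
    exact P.rep_vertex hc ν hS.ia hS.bi
  have hM : ∀ M ∈ ({{P.V ν}} : Set (Set ℂ)), M.Nonempty ∧ ∀ l, l + 1 ≤ K → ∀ S, P.IsComp p l S →
      ∃ ω ∈ ({(ν : ℝ)} : Finset ℝ), P.Rep M S ω := by
    intro M hM
    rw [mem_singleton_iff] at hM
    rw [hM]
    exact ⟨singleton_nonempty _, fun l _ S hS => ⟨ν, Finset.mem_singleton_self _, hrep S l hS⟩⟩
  have hΩ : ∀ ω ∈ ({(ν : ℝ)} : Finset ℝ), ∀ ω' ∈ ({(ν : ℝ)} : Finset ℝ), ω ≠ ω' →
      P.Vis (P.γ ω) (P.γ ω') := by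
    intro ω hω ω' hω' hne
    rw [Finset.mem_singleton] at hω hω'
    exact absurd (hω.trans hω'.symm) hne
  have hN : ∀ H : Finset Arc, (∀ Y ∈ H, P.Item2 p par core lev {{P.V ν}} K K Y) →
      H.card ≤ c2 K 1 K * n := by
    intro H hH
    have := P.rec2 hc hpar hcore {(ν : ℝ)} hΩ {{P.V ν}} K hM K H hH
    rwa [Finset.card_singleton] at this
  -- the data of a hooked item
  have hdata : ∀ Y ∈ F, ∀ l, lev K (Xf Y) = l + 1 → ∀ m : ℤ,
      ((par l Y).sh (m * n)).i < Y.i → Y.i < ((par l Y).sh (m * n)).i + n →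
      P.HBase {(ν : ℝ)} ((par l Y).sh (m * n)) (Xf Y) {P.V ν} ∧
      P.SItem p K ν ((par l Y).sh (m * n)) (Xf Y) {P.V ν} ∧ Y.i = (Xf Y).i ∧
        0 ≤ (Xf Y).i ∧ (Xf Y).i < n := by
    intro Y hY l hl m h1 h2
    obtain ⟨hXG, hXY⟩ := hXf Y hY
    obtain ⟨hXcomp, hX0, hXn, hXc, a, b, hw, hν⟩ := hG _ hXG
    obtain ⟨hle, hYex, hYs, hYi, -⟩ := hcore.ex K (Xf Y) hXcomp
    rw [hXY] at hYex hYs hYi
    rw [hl] at hYex hle
    refine ⟨?_, ⟨hXcomp, ⟨l, hle, (P.comp_sh m (hpar.comp l Y hYex)).sub⟩, rfl, a, b, hw, hν⟩,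
      hYi, hX0, hXn⟩
    refine P.hbase_of hc hpar hXcomp hXc hYex hYs hYi (singleton_nonempty _)
      ⟨ν, Finset.mem_singleton_self _, hrep _ l (hpar.comp l Y hYex)⟩ ?_ ?_
    · rw [← hYi]; exact h1
    · rw [← hYi]; exact h2
  have hstep := P.rec_step hc hpar hcore {(ν : ℝ)} {{P.V ν}} K K hM (c2 K 1 K * n) n hN F
    (fun Y => lev K (Xf Y)) (fun _ => {P.V ν}) ?_ ?_ ?_
  · rw [Finset.card_singleton, hcard] at hstep
    exact hstep
  · intro Y hY
    obtain ⟨hXG, hXY⟩ := hXf Y hY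
    obtain ⟨hXcomp, hX0, hXn, hXc, -⟩ := hG _ hXG
    obtain ⟨hle, hYex, -, hYi, hYc⟩ := hcore.ex K (Xf Y) hXcomp
    rw [hXY] at hYex hYi hYc
    refine ⟨by rw [hYi]; exact hX0, by rw [hYi]; exact hXn, hYc hXc, hYex, ?_, hle, rfl⟩
    exact hle.trans (Nat.le_succ K)
  · intro H hHF hH
    rw [← Finset.card_image_of_injOn (s := H) (f := Xf)
      fun Y hY Y' hY' h => hXinj Y (hHF hY) Y' (hHF hY') h]
    refine P.star_hookL hc (p := p) (K := K) (ν := ν) _ ?_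
    intro X hX
    obtain ⟨Y, hY, rfl⟩ := Finset.mem_image.1 hX
    obtain ⟨l, hl, m, h1, h2, hk⟩ := hH Y hY
    obtain ⟨d1, d2, d3, d4, d5⟩ := hdata Y (hHF hY) l hl m h1 h2
    refine ⟨d4, d5, _, _, d1, ?_, d2⟩
    obtain ⟨σ, hσ, g, g1, g2, g3, g4, g5⟩ := hk
    exact ⟨σ, hσ, g, g1, by rw [← d3]; exact g2, g3, g4, g5⟩
  · intro H hHF hH
    rw [← Finset.card_image_of_injOn (s := H) (f := Xf)
      fun Y hY Y' hY' h => hXinj Y (hHF hY) Y' (hHF hY') h]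
    refine P.star_hookR hc (p := p) (K := K) (ν := ν) _ ?_
    intro X hX
    obtain ⟨Y, hY, rfl⟩ := Finset.mem_image.1 hX
    obtain ⟨l, hl, m, h1, h2, hk⟩ := hH Y hY
    obtain ⟨d1, d2, d3, d4, d5⟩ := hdata Y (hHF hY) l hl m h1 h2
    refine ⟨d4, d5, _, _, d1, ?_, d2⟩
    obtain ⟨σ, hσ, g, g1, g2, g3, g4, g5⟩ := hk
    exact ⟨σ, hσ, g, by rw [← d3]; exact g1, g2, g3, g4, g5⟩

theorem star_count (hc : P.CCW) (p : ℂ) (K : ℕ) (ν : ℤ) (G : Finset (ℝ × ℝ))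
    (hG : ∀ w ∈ G, 0 ≤ w.1 ∧ w.1 < n ∧ InMod n (Ioo w.1 w.2) ν ∧ ∃ X, P.WD p K X w.1 w.2) :
    G.card ≤ cS K * n := by
  classical
  have hn : (0 : ℝ) < n := by
    have := P.three_le
    exact_mod_cast (by omega : 0 < n)
  -- a canonical component for every window
  have h1 : ∀ w : G, ∃ (X : Arc) (m : ℤ), 0 ≤ X.i ∧ X.i < n ∧
      P.WD p K X ((w : ℝ × ℝ).1 + m * n) ((w : ℝ × ℝ).2 + m * n) := by
    intro w
    obtain ⟨-, -, -, X, hX⟩ := hG w w.2
    obtain ⟨m, h1, h2⟩ := P.canon X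
    exact ⟨X.sh (m * n), m, h1, h2, P.wd_sh m hX⟩
  choose X m hX using h1
  have hinj : Function.Injective X := by
    intro w w' hww
    obtain ⟨a1, a2, a3, -⟩ := hG w w.2
    obtain ⟨b1, b2, b3, -⟩ := hG w' w'.2
    have h2 := (hX w').2.2
    rw [← hww] at h2
    have h3 : P.WD p K ((X w).sh ((0 : ℤ) * n)) ((w' : ℝ × ℝ).1 + m w' * n)
        ((w' : ℝ × ℝ).2 + m w' * n) := by
      rw [zero_mul, Arc.sh_zero]
      exact h2
    obtain ⟨k, k1, k2⟩ := P.wd_unique hc (hX w).2.2 h3 (Star_inMod _ a3) (Star_inMod _ b3)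
    have e1 : (w' : ℝ × ℝ).1 = (w : ℝ × ℝ).1 + ((m w + k - m w' : ℤ) : ℝ) * n := by
      push_cast
      linarith
    have e2 : (w' : ℝ × ℝ).2 = (w : ℝ × ℝ).2 + ((m w + k - m w' : ℤ) : ℝ) * n := by
      push_cast
      linarith
    have e3 : m w + k - m w' = 0 := by
      have l1 : -1 < m w + k - m w' := by
        have : ((-1 : ℤ) : ℝ) < ((m w + k - m w' : ℤ) : ℝ) := by
          by_contra hcon
          rw [not_lt] at hcon
          have := mul_le_mul_of_nonneg_right hcon hn.le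
          push_cast at this e1
          linarith
        exact_mod_cast this
      have l2 : m w + k - m w' < 1 := by
        have : ((m w + k - m w' : ℤ) : ℝ) < ((1 : ℤ) : ℝ) := by
          by_contra hcon
          rw [not_lt] at hcon
          have := mul_le_mul_of_nonneg_right hcon hn.le
          push_cast at this e1
          linarith
        exact_mod_cast this
      omega
    rw [e3, Int.cast_zero, zero_mul, add_zero] at e1 e2
    exact Subtype.ext (Prod.ext e1.symm e2.symm)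
  set H : Finset Arc := G.attach.image X with hHdef
  have hcard : H.card = G.card := by
    rw [hHdef, Finset.card_image_of_injective _ hinj, Finset.card_attach]
  have hH : ∀ A ∈ H, P.IsComp p K A ∧ 0 ≤ A.i ∧ A.i < n ∧
      ∃ a b : ℝ, P.WD p K A a b ∧ InMod n (Ioo a b) ν := by
    intro A hA
    obtain ⟨w, -, rfl⟩ := Finset.mem_image.1 hA
    obtain ⟨-, -, a3, -⟩ := hG w w.2
    obtain ⟨h2, h3, h4⟩ := hX w
    exact ⟨h4.Xc, h2, h3, _, _, h4, Star_inMod _ a3⟩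
  have hc1 : (H.filter fun A => A.Cornered).card ≤ 2 * n := by
    refine P.cornered_count (p := p) (k := K) _ ?_
    intro A hA
    obtain ⟨hA1, hA2⟩ := Finset.mem_filter.1 hA
    obtain ⟨h2, h3, h4, -⟩ := hH A hA1
    exact ⟨h2, hA2, h3, h4⟩
  have hc2 := P.Star_main hc p K ν (H.filter fun A => ¬ A.Cornered) (by
    intro A hA
    obtain ⟨hA1, hA2⟩ := Finset.mem_filter.1 hA
    obtain ⟨h2, h3, h4, h5⟩ := hH A hA1
    exact ⟨h2, h3, h4, hA2, h5⟩)
  have hsum := Finset.card_filter_add_card_filter_not (s := H) (fun A : Arc => A.Cornered)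
  rw [← hcard, ← hsum]
  refine (add_le_add hc1 hc2).trans (le_of_eq ?_)
  unfold cS
  ring

end Poly

end Pool.Agent.Lib_PL
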