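import Pool.Agent.Lib_PLQ.WDBasic
import Pool.Agent.Lib_PLQ.Path
import Pool.Agent.Lib_PLQ.Corner

/-!
# B4 (iii): the pair lemma for window data

`star_loc`.  `X.i - n < S.i < X.i`; the window `(a - n, b - n)` is in the arc before `X`: `X.b - n ≤ a - n`, `b - n ≤ X.a`.
(1) `hook_ω`: `ω = ν`, an integer `ν' = ν + m n` with `S.b ≤ ν' < q`; `q ≤ X.i`.  (2) `ν'' = ν + m'' n ∈ (a - n, b - n)`.  Both are among the `n` integers in `[X.i - n + 1, X.i]` (`ν' ≥ S.b > S.i ≥ X.i - n + 1`; `ν'' > a - n ≥ X.b - n > X.i - n`, `ν'' < b - n ≤ X.a < X.i + 1`), so `ν' = ν''`.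
(3) `S.s` does not contain `a - n`, `b - n` (`WD.a_not`, `WD.b_not`, `Bp_add`, `Bp_mono`; `S.s ⊆ Bp p L`, `L < K`); it contains a point which sees `X` (`SX`), which is not in `(a - n, b - n)` (`WD.arc`).  So `S.s` (an interval) is disjoint from `[a - n, b - n]`: `S.b ≤ a - n` or `b - n ≤ S.a`; the latter is impossible because `S.a < S.b ≤ ν' < b - n`.
(4) `b - n ≤ q`: otherwise `a - n < ν' < q < b - n`; `p3` with `δ = X.b - D` (`hook_D`: `D < X.b`, `X.a ≤ D`): `y ∈ X.s` sees all points of `(q, q + ε)`: such a point in `(a - n, b - n)` contradicts `WD.arc`.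
(5) `b - n ≠ q`: `corner` with the chord `(a - n, b - n)`, `s + n` for the `s` of `p4` (`b - n < s + n < a`: `s > S.i ≥ X.i - n + 1`, so `s + n > X.i + 1 > X.a ≥ b - n`; `s + n < S.b + n ≤ a`), `Vis (γ x) (γ s)`, `x ∈ Bp p (L + 1) ⊆ Bp p K` (`Bp_of_vis`; `NI x` for `q - 1 < x < q`).

`star_pair`.  `star_loc` for both: `S_k.b ≤ a_k - n`, `b_k - n < q`; the lifts `ν'_k ∈ (a_k - n, b_k - n)` of `ν` are both in `(q - n, q)`, so equal.  `X1.s ⊆ (q, D2]`: `X1.a ≥ X1.i ≥ q` (strictly `> q`: `Xia`), and `D2 < X1.b` would give points just after `D2` in `X1.s` (`X1.a ≤ D1 < D2`) and in `X2.s` (`hook_D`): against disjointness.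
`β = b1 - n > ν'_1 = ν'_2 > a2 - n ≥ S2.b > s0_2`, `β < q`.  For `z` on the first window near `γ β` (`lim`, `vis_open_I`) there is `ζ` near `z` which sees `γ β` and some `γ x`, `x ∈ X1.s`, `q < x ≤ D2`.
`Pivot.path_notL` (second pivot): `γ β ∉ L`; so for `z` near `γ β` the segment `(ζ, γ β)` does not meet the approximating chords, and `ζ ∈ Side s y`: `Pivot.path`.
-/

open Set Complex
open scoped Topology

namespace Pool.Agent.Lib_PL

namespace Poly

variable {n : ℕ} (P : Poly n)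

/-- item data for the count of windows around `ν` -/
structure SItem (p : ℂ) (K : ℕ) (ν : ℤ) (S X : Arc) (M : Set ℂ) : Prop where
  Xc : P.IsComp p K X
  SB : ∃ L, L + 1 ≤ K ∧ S.s ⊆ P.Bp p L
  M_eq : M = {P.V ν}
  wd : ∃ a b : ℝ, P.WD p K X a b ∧ InMod n (Ioo a b) ν

/-- two integer positions congruent modulo `n` in an interval of length `n` are equal -/
private theorem StarPair_eq {n : ℕ} {x c : ℝ} {m m' : ℤ} (h1 : c < x + m * n)
    (h2 : x + m * n < c + n) (h1' : c < x + m' * n) (h2' : x + m' * n < c + n) : m = m' := by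
  have hn : (0 : ℝ) ≤ n := Nat.cast_nonneg n
  rcases lt_trichotomy m m' with h | h | h
  · exfalso
    have h3 : (m : ℝ) + 1 ≤ m' := by exact_mod_cast h
    have h4 : ((m : ℝ) + 1) * n ≤ m' * n := mul_le_mul_of_nonneg_right h3 hn
    linarith
  · exact h
  · exfalso
    have h3 : (m' : ℝ) + 1 ≤ m := by exact_mod_cast h
    have h4 : ((m' : ℝ) + 1) * n ≤ m * n := mul_le_mul_of_nonneg_right h3 hn
    linarith

theorem star_loc (hc : P.CCW) {p : ℂ} {K : ℕ} {ν : ℤ} {S X : Arc} {M : Set ℂ}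
    (h : P.HBase {(ν : ℝ)} S X M) (hk : P.HookL S X M) (ht : P.SItem p K ν S X M)
    {a b : ℝ} (hw : P.WD p K X a b) (hν : InMod n (Ioo a b) ν) {D s0 : ℝ} {q : ℤ}
    (hp : P.Pivot S.i X.i S.a S.b D s0 q) : S.b ≤ a - n ∧ b - n < q := by
  obtain ⟨ω, hω, -, m1, k1, k2⟩ := P.hook_ω hc h hk hp
  rw [Finset.mem_singleton] at hω
  subst hω
  obtain ⟨m, k3, k4⟩ := hν
  obtain ⟨L, hL, hSB⟩ := ht.SB
  have hij : (S.i : ℝ) + 1 ≤ X.i := by exact_mod_cast h.ij
  have hji : (X.i : ℝ) + 1 ≤ S.i + n := by exact_mod_cast h.ji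
  have hSia := h.Sia
  have hSab := h.Sab
  have hSbi := h.Sbi
  have hXia := h.Xia
  have hXab := h.Xab
  have hXbi := h.Xbi
  have hq : (q : ℝ) ≤ X.i := by exact_mod_cast hp.qj
  have hXa := hw.Xa
  have hXb := hw.Xb
  -- (2)
  have hle : ν + (m - 1) * n ≤ X.i := by
    have h1 : ((ν + (m - 1) * n : ℤ) : ℝ) < ((X.i + 1 : ℤ) : ℝ) := by
      push_cast
      linarith
    have h2 : ν + (m - 1) * n < X.i + 1 := by exact_mod_cast h1
    omega
  have hle' : (ν : ℝ) + ((m - 1 : ℤ) : ℝ) * n ≤ X.i := by exact_mod_cast hle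
  have e1 : (ν : ℝ) + ((m - 1 : ℤ) : ℝ) * n = ν + m * n - n := by
    push_cast
    ring
  have hm : m1 = m - 1 :=
    StarPair_eq (x := (ν : ℝ)) (c := (X.i : ℝ) - n + 1 / 2) (n := n) (by linarith) (by linarith)
      (by
        -- `ν'' > X.i - n`, an integer
        have h1 : (((X.i - n : ℤ) : ℝ)) < ((ν + (m - 1) * n : ℤ) : ℝ) := by
          push_cast
          linarith
        have h2 : X.i - n < ν + (m - 1) * n := by exact_mod_cast h1
        have h3 : X.i - n + 1 ≤ ν + (m - 1) * n := by omega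
        have h4 : (X.i : ℝ) - n + 1 ≤ ν + ((m - 1 : ℤ) : ℝ) * n := by exact_mod_cast h3
        linarith) (by linarith)
  have hνe : (ν : ℝ) + m1 * n = ν + m * n - n := by
    rw [hm, e1]
  have hna : ∀ x : ℝ, x ∈ S.s → x + n ∈ P.Bp p K := by
    intro x hx
    have h1 := (P.Bp_add p K x 1).2 (P.Bp_mono p (by omega) (hSB hx))
    push_cast at h1
    rwa [one_mul] at h1
  have hna1 : a - n ∉ S.s := by
    intro hx
    have := hna _ hx
    rw [sub_add_cancel] at this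
    exact hw.a_not this
  -- (3)
  have hSa : S.b ≤ a - n := by
    obtain ⟨s, hs, x, hx, hv⟩ := h.SX
    have hs1 := hs.1
    have hs2 := hs.2
    have hs3 : s ≤ a - n := by
      by_contra hcon
      rw [not_le] at hcon
      have h1 := hw.arc hc (x := s + n) ⟨by linarith, by linarith⟩ hx
      rw [P.γ_add_n] at h1
      exact h1 hv
    by_contra hcon
    rw [not_le] at hcon
    exact hna1 ⟨by
      rcases hs3.lt_or_eq with h1 | h1
      · linarith
      · linarith, hcon⟩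
  refine ⟨hSa, ?_⟩
  obtain ⟨hD1, hD2⟩ := P.hook_D hc h hp
  -- (4)
  have hbq : b - n ≤ q := by
    by_contra hcon
    rw [not_le] at hcon
    obtain ⟨y, y1, y2, y3, -, ε, hε, hy⟩ := hp.p3 (X.b - D) (by linarith)
    obtain ⟨x, hx1, hx2⟩ := exists_between (lt_min (by linarith : (q : ℝ) < q + ε) hcon)
    have hx3 : x < q + ε := hx2.trans_le (min_le_left _ _)
    have hx4 : x < b - n := hx2.trans_le (min_le_right _ _)
    have h1 := hw.arc hc (x := x + n) ⟨by linarith, by linarith⟩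
      (show y ∈ X.s from ⟨by linarith, by linarith⟩)
    rw [P.γ_add_n] at h1
    exact h1 (hy x hx1 hx3)
  -- (5)
  refine lt_of_le_of_ne hbq ?_
  intro heq
  obtain ⟨z, hz, hzd⟩ := hw.dark
  obtain ⟨s, hs, ε, hε, hsx⟩ := hp.p4
  have ga : P.γ (a - n) = P.γ a := by
    have h1 := P.γ_add_n (a - n)
    rw [sub_add_cancel] at h1
    exact h1.symm
  have gb : P.γ (b - n) = P.γ b := by
    have h1 := P.γ_add_n (b - n)
    rw [sub_add_cancel] at h1
    exact h1.symm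
  refine P.corner hc (p := p) (K := K) (a := a - n) (b := b - n) (z := z) (s := s + n) (q := q)
    (by linarith [hw.ab]) (by linarith [hw.ba]) (by rw [ga, gb]; exact hw.vis)
    (by rw [ga, gb]; exact hz) hzd heq.symm (by linarith [hs.1]) (by linarith [hs.2])
    ⟨min ε 1, lt_min hε one_pos, ?_⟩
  intro x hx1 hx2
  have e2 : min ε 1 ≤ ε := min_le_left _ _
  have e3 : min ε 1 ≤ 1 := min_le_right _ _
  have hv := hsx x (by linarith) hx2
  rw [P.γ_add_n]
  refine ⟨hv, P.Bp_mono p hL (P.Bp_of_vis (hSB hs) hv.symm ?_)⟩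
  intro k hk'
  have h1 : (q : ℝ) - 1 < k := by linarith
  have h2 : (k : ℝ) < q := by linarith
  have h3 : q - 1 < k := by exact_mod_cast h1
  have h4 : k < q := by exact_mod_cast h2
  omega

theorem star_pair (hc : P.CCW) {p : ℂ} {K : ℕ} {ν : ℤ} {S1 X1 S2 X2 : Arc} {M1 M2 : Set ℂ}
    (h1 : P.HBase {(ν : ℝ)} S1 X1 M1) (hk1 : P.HookL S1 X1 M1) (t1 : P.SItem p K ν S1 X1 M1)
    (h2 : P.HBase {(ν : ℝ)} S2 X2 M2) (hk2 : P.HookL S2 X2 M2) (t2 : P.SItem p K ν S2 X2 M2)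
    {D1 s1 D2 s2 : ℝ} {q : ℤ} (hp1 : P.Pivot S1.i X1.i S1.a S1.b D1 s1 q)
    (hp2 : P.Pivot S2.i X2.i S2.a S2.b D2 s2 q) (hD : D1 < D2) (hdis : Disjoint X1.s X2.s) :
    False := by
  obtain ⟨a1, b1, hw1, hν1⟩ := t1.wd
  obtain ⟨a2, b2, hw2, hν2⟩ := t2.wd
  obtain ⟨l1, l2⟩ := P.star_loc hc h1 hk1 t1 hw1 hν1 hp1
  obtain ⟨l3, l4⟩ := P.star_loc hc h2 hk2 t2 hw2 hν2 hp2
  obtain ⟨m1, u1, u2⟩ := hν1
  obtain ⟨m2, u3, u4⟩ := hν2
  obtain ⟨d1, d2⟩ := P.hook_D hc h1 hp1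
  obtain ⟨d3, d4⟩ := P.hook_D hc h2 hp2
  have hq1 : (q : ℝ) ≤ X1.i := by exact_mod_cast hp1.qj
  have hq2 : (q : ℝ) ≤ X2.i := by exact_mod_cast hp2.qj
  have w1 := hw1.Xa
  have w2 := hw2.Xa
  have x1 := h1.Xia
  have x2 := h1.Xab
  have x3 := h2.Xia
  have x4 := h2.Xab
  -- the two lifts of `ν` are equal
  have hm : m1 = m2 :=
    StarPair_eq (x := (ν : ℝ)) (c := (q : ℝ)) (n := n) (by linarith) (by linarith) (by linarith)
      (by linarith)
  subst hm
  have hsβ := hp2.sβ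
  have hβ1 : s2 < b1 - n := by linarith
  have hβ2 : b1 - n < q := l2
  have gb : P.γ (b1 - n) = P.γ b1 := by
    have e1 := P.γ_add_n (b1 - n)
    rw [sub_add_cancel] at e1
    exact e1.symm
  -- positions of `X1`
  have hXq : ∀ x ∈ X1.s, (q : ℝ) < x ∧ x ≤ D2 := by
    intro x hx
    have e1 := hx.1
    have e2 := hx.2
    refine ⟨by linarith, ?_⟩
    by_contra hcon
    rw [not_le] at hcon
    obtain ⟨y, hy1, hy2⟩ := exists_between (lt_min (hcon.trans e2) d4)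
    exact disjoint_left.1 hdis
      (show y ∈ X1.s from ⟨by linarith, hy2.trans_le (min_le_left _ _)⟩)
      ⟨by linarith, hy2.trans_le (min_le_right _ _)⟩
  -- points near the window which see `X1` and `γ b1`
  have hnear : ∀ z ∈ openSegment ℝ (P.γ a1) (P.γ b1), ∀ ρ > 0, ∃ ζ ∈ P.I, ‖ζ - z‖ < ρ ∧
      P.Vis (P.γ (b1 - n)) ζ ∧ ∃ x ∈ X1.s, P.Vis (P.γ x) ζ := by
    intro z hz ρ hρ
    have hzI : z ∈ P.I := hw1.vis.mem hz
    have hne : P.γ b1 ≠ z := by
      rintro rfl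
      exact P.I_disj_C hzI (P.γ_mem_C b1)
    have hv : P.Vis (P.γ b1) z :=
      hw1.vis.sub (right_mem_segment ℝ _ _) (openSegment_subset_segment ℝ _ _ hz) hne
    obtain ⟨ε, hε, hop⟩ := P.vis_open_I hc hzI hv
    obtain ⟨ρ2, hρ2, hb⟩ := Metric.isOpen_iff.1 P.I_open z hzI
    obtain ⟨ζ, ⟨x, hx, hvx⟩, hζ⟩ :=
      Metric.mem_closure_iff.1 (hw1.lim hz) (min ρ (min ε ρ2)) (lt_min hρ (lt_min hε hρ2))
    rw [dist_comm] at hζ
    have e1 : min ρ (min ε ρ2) ≤ ρ := min_le_left _ _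
    have e2 : min ρ (min ε ρ2) ≤ ε := (min_le_right _ _).trans (min_le_left _ _)
    have e3 : min ρ (min ε ρ2) ≤ ρ2 := (min_le_right _ _).trans (min_le_right _ _)
    rw [gb]
    refine ⟨ζ, hb (Metric.mem_ball.2 (hζ.trans_le e3)), ?_, hop ζ ?_, x, hx, hvx.symm⟩
    · rw [← dist_eq_norm]
      exact hζ.trans_le e1
    · rw [← dist_eq_norm]
      exact hζ.trans_le e2
  -- points of the window near `γ b1`
  have hpt : ∀ ρ > 0, ∃ z ∈ openSegment ℝ (P.γ a1) (P.γ b1), ‖z - P.γ b1‖ < ρ := by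
    intro ρ hρ
    have e1 : P.γ b1 ∈ closure (openSegment ℝ (P.γ a1) (P.γ b1)) :=
      segment_subset_closure_openSegment (right_mem_segment ℝ _ _)
    obtain ⟨z, hz, hz'⟩ := Metric.mem_closure_iff.1 e1 ρ hρ
    rw [dist_comm, dist_eq_norm] at hz'
    exact ⟨z, hz, hz'⟩
  -- `γ b1` is not on `L`
  have hnL : P.γ (b1 - n) ∉ segment ℝ (P.γ D2) (P.γ s2) := by
    obtain ⟨z, hz, -⟩ := hpt 1 one_pos
    obtain ⟨ζ, hζI, -, hvβ, x, hx, hvx⟩ := hnear z hz 1 one_pos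
    exact hp2.path_notL hc hζI (hXq x hx).1 (hXq x hx).2 hβ1 hβ2 hvx hvβ
  rw [gb] at hnL
  have hLc : IsClosed (segment ℝ (P.γ D2) (P.γ s2)) := by
    rw [segment_eq_image']
    refine (isCompact_Icc.image ?_).isClosed
    fun_prop
  obtain ⟨r, hr, hball⟩ := Metric.isOpen_iff.1 hLc.isOpen_compl (P.γ b1) hnL
  obtain ⟨z, hz, hzn⟩ := hpt (r / 4) (by positivity)
  obtain ⟨ζ, hζI, hζn, hvβ, x, hx, hvx⟩ := hnear z hz (r / 4) (by positivity)
  have hζr : ‖ζ - P.γ b1‖ < r / 2 := by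
    have e1 : ζ - P.γ b1 = (ζ - z) + (z - P.γ b1) := by ring
    rw [e1]
    have := norm_add_le (ζ - z) (z - P.γ b1)
    linarith
  obtain ⟨δ1, hδ1, k1⟩ := Metric.continuousAt_iff.1 (P.γ_cont.continuousAt (x := D2)) (r / 2)
    (by positivity)
  obtain ⟨δ2, hδ2, k2⟩ := Metric.continuousAt_iff.1 (P.γ_cont.continuousAt (x := s2)) (r / 2)
    (by positivity)
  have hjD := hp2.jD
  have hDj := hp2.Dj
  have hji : (X2.i : ℝ) + 1 ≤ S2.i + n := by exact_mod_cast hp2.ji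
  have hiα := hp2.iα
  have hαs := hp2.αs
  refine hp2.path hc hζI (hXq x hx).1 (hXq x hx).2 hβ1 hβ2 hvx hvβ
    ⟨min (min δ1 δ2) (min (b1 - n - s2) (X2.i + 1 - D2)),
      lt_min (lt_min hδ1 hδ2) (lt_min (by linarith) (by linarith)), ?_⟩
  intro s y hs hs' hy hy' hv
  have e1 : min (min δ1 δ2) (min (b1 - n - s2) (X2.i + 1 - D2)) ≤ δ1 :=
    (min_le_left _ _).trans (min_le_left _ _)
  have e2 : min (min δ1 δ2) (min (b1 - n - s2) (X2.i + 1 - D2)) ≤ δ2 :=
    (min_le_left _ _).trans (min_le_right _ _)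
  have e3 : min (min δ1 δ2) (min (b1 - n - s2) (X2.i + 1 - D2)) ≤ b1 - n - s2 :=
    (min_le_right _ _).trans (min_le_left _ _)
  have e4 : min (min δ1 δ2) (min (b1 - n - s2) (X2.i + 1 - D2)) ≤ X2.i + 1 - D2 :=
    (min_le_right _ _).trans (min_le_right _ _)
  have hsy : s < y := by linarith
  have hys : y < s + n := by linarith
  have hyn : ‖P.γ y - P.γ D2‖ < r / 2 := by
    rw [← dist_eq_norm]
    apply k1
    rw [Real.dist_eq, abs_of_pos (by linarith)]
    linarith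
  have hsn : ‖P.γ s - P.γ s2‖ < r / 2 := by
    rw [← dist_eq_norm]
    apply k2
    rw [Real.dist_eq, abs_of_pos (by linarith)]
    linarith
  have hβS : P.γ (b1 - n) ∈ P.Side s y := P.side_arc hys hv ⟨by linarith, by linarith⟩
  have hseg : segment ℝ (P.γ (b1 - n)) ζ ⊆ Metric.ball (P.γ b1) (r / 2) := by
    refine (convex_ball _ _).segment_subset ?_ ?_
    · rw [gb]
      exact Metric.mem_ball_self (by positivity)
    · rw [Metric.mem_ball, dist_eq_norm]
      exact hζr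
  have hd : Disjoint (segment ℝ (P.γ (b1 - n)) ζ) (segment ℝ (P.γ s) (P.γ y)) := by
    rw [disjoint_left]
    intro w hw hw'
    have hwb := hseg hw
    rw [Metric.mem_ball, dist_eq_norm] at hwb
    obtain ⟨α, β, hα, hβ, hαβ, rfl⟩ := hw'
    have hl : β • P.γ D2 + α • P.γ s2 ∈ segment ℝ (P.γ D2) (P.γ s2) :=
      ⟨β, α, hβ, hα, by linarith, rfl⟩
    refine hball ?_ hl
    rw [Metric.mem_ball, dist_eq_norm]
    have e5 : β • P.γ D2 + α • P.γ s2 - P.γ b1 =
        (α • P.γ s + β • P.γ y - P.γ b1) - (α • (P.γ s - P.γ s2) + β • (P.γ y - P.γ D2)) := by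
      simp only [Complex.real_smul]
      ring
    rw [e5]
    have e6 := norm_sub_le (α • P.γ s + β • P.γ y - P.γ b1)
      (α • (P.γ s - P.γ s2) + β • (P.γ y - P.γ D2))
    have e7 := norm_add_le (α • (P.γ s - P.γ s2)) (β • (P.γ y - P.γ D2))
    rw [norm_smul, norm_smul, Real.norm_of_nonneg hα, Real.norm_of_nonneg hβ] at e7
    have e8 : α * ‖P.γ s - P.γ s2‖ ≤ α * (r / 2) := mul_le_mul_of_nonneg_left hsn.le hα
    have e9 : β * ‖P.γ y - P.γ D2‖ ≤ β * (r / 2) := mul_le_mul_of_nonneg_left hyn.le hβ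
    have e10 : α * (r / 2) + β * (r / 2) = r / 2 := by rw [← add_mul, hαβ, one_mul]
    linarith
  rcases P.side_conn hc hsy hys hv (convex_segment _ _).isPreconnected hvβ.seg hd with e5 | e5
  · exact e5 (right_mem_segment ℝ _ _)
  · exact absurd (e5 (left_mem_segment ℝ _ _)) (disjoint_left.1 (P.side_disj hc hsy hys hv) hβS)

end Poly

end Pool.Agent.Lib_PL
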